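import Mathlib

/-!
# Basic facts on normed spaces
-/

open Filter Topology Metric Set

namespace Pool.Agent.R271

variable {X : Type*} [NormedAddCommGroup X] [NormedSpace ℝ X]

/-- A closed subspace and a point outside it are separated by a functional. -/
lemma exists_annihilator_of_notMem (E : Submodule ℝ X) (hE : IsClosed (E : Set X)) {x : X}
    (hx : x ∉ E) : ∃ g : StrongDual ℝ X, (∀ e ∈ E, g e = 0) ∧ g x ≠ 0 := by
  obtain ⟨f, u, hf1, hf2⟩ := geometric_hahn_banach_closed_point E.convex hE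
    (x := x) (by exact hx)
  have h0 : 0 < u := by
    have := hf1 0 E.zero_mem
    rwa [map_zero] at this
  have hz : ∀ e ∈ E, f e = 0 := by
    intro e he
    by_contra hne
    have h1 := hf1 ((u / f e) • e) (E.smul_mem _ he)
    rw [map_smul, smul_eq_mul, div_mul_cancel₀ _ hne] at h1
    exact lt_irrefl _ h1
  exact ⟨f, hz, by linarith⟩

lemma dual_le_norm (f : StrongDual ℝ X) (hf : ‖f‖ ≤ 1) (x : X) : f x ≤ ‖x‖ :=
  (le_abs_self _).trans ((f.le_opNorm x).trans (by
    calc ‖f‖ * ‖x‖ ≤ 1 * ‖x‖ := mul_le_mul_of_nonneg_right hf (norm_nonneg _)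
      _ = ‖x‖ := one_mul _))

lemma abs_dual_le_norm (f : StrongDual ℝ X) (hf : ‖f‖ ≤ 1) (x : X) : |f x| ≤ ‖x‖ :=
  (f.le_opNorm x).trans (by
    calc ‖f‖ * ‖x‖ ≤ 1 * ‖x‖ := mul_le_mul_of_nonneg_right hf (norm_nonneg _)
      _ = ‖x‖ := one_mul _)

/-- A norm-one functional almost attains its norm on the unit sphere. -/
lemma exists_unit_almost_norming (f : StrongDual ℝ X) (hf : ‖f‖ = 1) {η : ℝ} (hη : 0 < η) :
    ∃ u : X, ‖u‖ = 1 ∧ 1 - η < f u := by
  by_contra hcon
  push Not at hcon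
  have hne : ∃ v : X, v ≠ 0 := by
    by_contra hz
    push Not at hz
    have : f = 0 := by
      ext v
      rw [hz v]; simp
    rw [this, norm_zero] at hf
    norm_num at hf
  obtain ⟨v, hv⟩ := hne
  have hv0 : 0 < ‖v‖ := norm_pos_iff.2 hv
  have h0 : 0 ≤ 1 - η := by
    have h1 := hcon (‖v‖⁻¹ • v) (by rw [norm_smul, norm_inv, norm_norm, inv_mul_cancel₀ hv0.ne'])
    have h2 := hcon (-(‖v‖⁻¹ • v))
      (by rw [norm_neg, norm_smul, norm_inv, norm_norm, inv_mul_cancel₀ hv0.ne'])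
    rw [map_neg] at h2
    linarith
  have h3 : ‖f‖ ≤ 1 - η := by
    apply f.opNorm_le_of_unit_norm h0
    intro y hy
    rw [Real.norm_eq_abs, abs_le]
    constructor
    · have := hcon (-y) (by rw [norm_neg, hy])
      rw [map_neg] at this
      linarith
    · exact hcon y hy
  linarith

/-- Finite nets in the unit sphere of a finite-dimensional subspace. -/
lemma exists_finite_net (F : Submodule ℝ X) [FiniteDimensional ℝ F] {η : ℝ} (hη : 0 < η) :
    ∃ T : Finset X, (∀ x ∈ T, x ∈ F ∧ ‖x‖ = 1) ∧ ∀ x ∈ F, ‖x‖ = 1 → ∃ y ∈ T, ‖x - y‖ < η := by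
  have hc : IsCompact (sphere (0 : F) 1) := isCompact_sphere _ _
  obtain ⟨t, ht, hcov⟩ := hc.elim_nhds_subcover (fun x => ball x η)
    (fun x _ => ball_mem_nhds x hη)
  classical
  refine ⟨Finset.image (fun x : F => (x : X)) t, ?_, ?_⟩
  · intro x hx
    rw [Finset.mem_image] at hx
    obtain ⟨z, hz, rfl⟩ := hx
    exact ⟨z.2, by simpa using ht z hz⟩
  · intro x hx hx1
    have : (⟨x, hx⟩ : F) ∈ sphere (0 : F) 1 := by simpa using hx1
    have h2 := hcov this
    rw [mem_iUnion₂] at h2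
    obtain ⟨z, hz, hxz⟩ := h2
    refine ⟨z, Finset.mem_image_of_mem (fun x : F => (x : X)) hz, ?_⟩
    rw [mem_ball, dist_eq_norm] at hxz
    exact hxz

end Pool.Agent.R271
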