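import Mathlib

/-!
# Real Banach spaces coded by pseudonorms on the rational vector space `ℕ →₀ ℚ`
-/

open Filter Topology Metric Set

namespace Pool.Agent.R271.Coding

/-- The vector space over `ℚ` with a countable Hamel basis. -/
abbrev V : Type := ℕ →₀ ℚ

/-- Pseudonorms on `V`. -/
structure IsPN (μ : V → ℝ) : Prop where
  nonneg : ∀ v, 0 ≤ μ v
  add_le : ∀ u v, μ (u + v) ≤ μ u + μ v
  smul : ∀ (q : ℚ) (v : V), μ (q • v) = |(q : ℝ)| * μ v

/-- `X` with `ι : V → X` is the completion of `V` modulo the kernel of `μ` under the norm induced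
by `μ`. -/
structure Codes (X : Type) [NormedAddCommGroup X] [NormedSpace ℝ X] (μ : V → ℝ) (ι : V →+ X) :
    Prop where
  complete : CompleteSpace X
  norm : ∀ v, ‖ι v‖ = μ v
  dense : DenseRange ι

variable {μ : V → ℝ}

lemma IsPN.zero (h : IsPN μ) : μ 0 = 0 := by
  have := h.smul 0 0
  simpa using this

lemma IsPN.neg (h : IsPN μ) (v : V) : μ (-v) = μ v := by
  have := h.smul (-1) v
  simpa using this

/-- The weighted sum norm on the real space. -/
noncomputable def N (μ : V → ℝ) (x : ℕ →₀ ℝ) : ℝ :=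
  x.sum fun i r => |r| * μ (Finsupp.single i 1)

lemma N_eq (μ : V → ℝ) (x : ℕ →₀ ℝ) {s : Finset ℕ} (hs : x.support ⊆ s) :
    N μ x = ∑ i ∈ s, |x i| * μ (Finsupp.single i 1) :=
  Finsupp.sum_of_support_subset _ hs _ (fun i _ => by simp)

lemma N_nonneg (h : IsPN μ) (x : ℕ →₀ ℝ) : 0 ≤ N μ x :=
  Finset.sum_nonneg fun _ _ => mul_nonneg (abs_nonneg _) (h.nonneg _)

lemma N_add_le (h : IsPN μ) (x y : ℕ →₀ ℝ) : N μ (x + y) ≤ N μ x + N μ y := by
  classical
  rw [N_eq μ (x + y) (Finsupp.support_add), N_eq μ x Finset.subset_union_left,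
    N_eq μ y Finset.subset_union_right, ← Finset.sum_add_distrib]
  apply Finset.sum_le_sum
  intro i _
  rw [← add_mul, Finsupp.add_apply]
  exact mul_le_mul_of_nonneg_right (abs_add_le _ _) (h.nonneg _)

lemma N_smul (μ : V → ℝ) (r : ℝ) (x : ℕ →₀ ℝ) : N μ (r • x) = |r| * N μ x := by
  rw [N_eq μ (r • x) (Finsupp.support_smul (b := r) (g := x)), N_eq μ x subset_rfl,
    Finset.mul_sum]
  apply Finset.sum_congr rfl
  intro i _
  rw [Finsupp.smul_apply, smul_eq_mul, abs_mul, mul_assoc]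

/-- The embedding of `V` in the real space. -/
noncomputable def emb : V →+ (ℕ →₀ ℝ) :=
  Finsupp.mapRange.addMonoidHom (Rat.castHom ℝ).toAddMonoidHom

lemma emb_apply (v : V) (i : ℕ) : emb v i = (v i : ℝ) := rfl

lemma emb_smul (q : ℚ) (v : V) : emb (q • v) = (q : ℝ) • emb v := by
  ext i
  rw [emb_apply, Finsupp.smul_apply, Finsupp.smul_apply, emb_apply, smul_eq_mul, smul_eq_mul]
  push_cast
  rfl

lemma le_N_emb (h : IsPN μ) (v : V) : μ v ≤ N μ (emb v) := by
  have hs : (emb v).support ⊆ v.support := by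
    intro i hi
    rw [Finsupp.mem_support_iff, emb_apply] at hi
    rw [Finsupp.mem_support_iff]
    exact fun h0 => hi (by rw [h0]; simp)
  rw [N_eq μ (emb v) hs]
  have h1 : v = ∑ i ∈ v.support, v i • (Finsupp.single i (1 : ℚ)) := by
    conv_lhs => rw [← Finsupp.sum_single v]
    apply Finset.sum_congr rfl
    intro i _
    rw [Finsupp.smul_single, smul_eq_mul, mul_one]
  have h2 : μ (∑ i ∈ v.support, v i • (Finsupp.single i (1 : ℚ))) ≤
      ∑ i ∈ v.support, μ (v i • (Finsupp.single i (1 : ℚ))) :=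
    Finset.le_sum_of_subadditive μ h.zero.le h.add_le _ _
  conv_lhs => rw [h1]
  refine h2.trans (le_of_eq ?_)
  apply Finset.sum_congr rfl
  intro i _
  rw [h.smul, emb_apply]

/-- The extension of the pseudonorm to the real space. -/
noncomputable def ext (μ : V → ℝ) (x : ℕ →₀ ℝ) : ℝ := ⨅ v : V, (μ v + N μ (x - emb v))

lemma ext_bdd (h : IsPN μ) (x : ℕ →₀ ℝ) :
    BddBelow (Set.range fun v : V => μ v + N μ (x - emb v)) :=
  ⟨0, by
    rintro _ ⟨v, rfl⟩
    exact add_nonneg (h.nonneg v) (N_nonneg h _)⟩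

lemma ext_le (h : IsPN μ) (x : ℕ →₀ ℝ) (v : V) : ext μ x ≤ μ v + N μ (x - emb v) :=
  ciInf_le (ext_bdd h x) v

lemma ext_nonneg (h : IsPN μ) (x : ℕ →₀ ℝ) : 0 ≤ ext μ x :=
  le_ciInf fun v => add_nonneg (h.nonneg v) (N_nonneg h _)

lemma N_zero (μ : V → ℝ) : N μ 0 = 0 := by
  rw [N, Finsupp.sum_zero_index]

lemma N_neg (μ : V → ℝ) (x : ℕ →₀ ℝ) : N μ (-x) = N μ x := by
  have := N_smul μ (-1) x
  simpa using this

lemma ext_emb (h : IsPN μ) (v : V) : ext μ (emb v) = μ v := by
  apply le_antisymm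
  · have := ext_le h (emb v) v
    rwa [sub_self, N_zero, add_zero] at this
  · apply le_ciInf
    intro w
    rw [← map_sub]
    have h1 := le_N_emb h (v - w)
    have h2 := h.add_le w (v - w)
    rw [add_sub_cancel] at h2
    linarith

lemma ext_add_le (h : IsPN μ) (x y : ℕ →₀ ℝ) : ext μ (x + y) ≤ ext μ x + ext μ y := by
  apply le_ciInf_add_ciInf
  intro v w
  refine (ext_le h (x + y) (v + w)).trans ?_
  have h1 := h.add_le v w
  have h2 := N_add_le h (x - emb v) (y - emb w)
  have h3 : x + y - emb (v + w) = (x - emb v) + (y - emb w) := by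
    rw [map_add]; abel
  rw [h3]
  linarith

lemma ext_le_N (h : IsPN μ) (x : ℕ →₀ ℝ) : ext μ x ≤ N μ x := by
  have := ext_le h x 0
  rwa [h.zero, map_zero, sub_zero, zero_add] at this

lemma ext_smul_rat_le (h : IsPN μ) (q : ℚ) (x : ℕ →₀ ℝ) (hq : q ≠ 0) :
    ext μ ((q : ℝ) • x) ≤ |(q : ℝ)| * ext μ x := by
  have hq' : 0 < |(q : ℝ)| := by
    rw [abs_pos]; exact_mod_cast hq
  rw [mul_comm, ← div_le_iff₀ hq']
  apply le_ciInf
  intro v
  rw [div_le_iff₀ hq']
  refine (ext_le h _ (q • v)).trans (le_of_eq ?_)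
  rw [h.smul, emb_smul, ← smul_sub, N_smul]
  ring

lemma ext_smul_rat (h : IsPN μ) (q : ℚ) (x : ℕ →₀ ℝ) :
    ext μ ((q : ℝ) • x) = |(q : ℝ)| * ext μ x := by
  by_cases hq : q = 0
  · subst hq
    have h1 := ext_emb h 0
    rw [map_zero, h.zero] at h1
    simp [h1]
  · apply le_antisymm (ext_smul_rat_le h q x hq)
    have h1 := ext_smul_rat_le h q⁻¹ ((q : ℝ) • x) (inv_ne_zero hq)
    have hq' : (q : ℝ) ≠ 0 := by exact_mod_cast hq
    have hq'' : 0 < |(q : ℝ)| := abs_pos.2 hq'
    push_cast at h1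
    rw [smul_smul, inv_mul_cancel₀ hq', one_smul, abs_inv] at h1
    calc |(q : ℝ)| * ext μ x ≤ |(q : ℝ)| * (|(q : ℝ)|⁻¹ * ext μ ((q : ℝ) • x)) :=
          mul_le_mul_of_nonneg_left h1 hq''.le
      _ = ext μ ((q : ℝ) • x) := by
          rw [← mul_assoc, mul_inv_cancel₀ hq''.ne', one_mul]

lemma ext_lip (h : IsPN μ) (x y : ℕ →₀ ℝ) : |ext μ x - ext μ y| ≤ N μ (x - y) := by
  have h1 := ext_add_le h y (x - y)
  have h2 := ext_add_le h x (y - x)
  rw [add_sub_cancel] at h1 h2
  have h3 := ext_le_N h (x - y)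
  have h4 := ext_le_N h (y - x)
  rw [← N_neg, neg_sub] at h4
  rw [abs_le]
  constructor <;> linarith

lemma ext_smul (h : IsPN μ) (r : ℝ) (x : ℕ →₀ ℝ) : ext μ (r • x) = |r| * ext μ x := by
  have key : ∀ ε : ℝ, 0 < ε → |ext μ (r • x) - |r| * ext μ x| ≤ ε * (N μ x + ext μ x) := by
    intro ε hε
    obtain ⟨q, hq1, hq2⟩ := exists_rat_btwn (show r < r + ε by linarith)
    have h1 : |r - q| ≤ ε := by
      rw [abs_le]; constructor <;> linarith
    have h2 := ext_lip h (r • x) ((q : ℝ) • x)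
    rw [← sub_smul, N_smul, ext_smul_rat h] at h2
    have h3 : |(|(q : ℝ)| * ext μ x - |r| * ext μ x)| ≤ |r - q| * ext μ x := by
      rw [← sub_mul, abs_mul, abs_of_nonneg (ext_nonneg h x), abs_sub_comm r]
      exact mul_le_mul_of_nonneg_right (abs_abs_sub_abs_le _ _) (ext_nonneg h x)
    have h4 : |ext μ (r • x) - |r| * ext μ x| ≤ |ext μ (r • x) - |(q : ℝ)| * ext μ x| +
        |(|(q : ℝ)| * ext μ x - |r| * ext μ x)| := abs_sub_le _ _ _
    have h5 : |r - q| * (N μ x + ext μ x) ≤ ε * (N μ x + ext μ x) :=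
      mul_le_mul_of_nonneg_right h1 (add_nonneg (N_nonneg h x) (ext_nonneg h x))
    rw [mul_add] at h5
    linarith
  have h0 : 0 ≤ N μ x + ext μ x := add_nonneg (N_nonneg h x) (ext_nonneg h x)
  have h1 : |ext μ (r • x) - |r| * ext μ x| ≤ 0 := by
    apply le_of_forall_pos_le_add
    intro ε hε
    rw [zero_add]
    have h2 := key (ε / (N μ x + ext μ x + 1)) (by positivity)
    refine h2.trans ?_
    rw [div_mul_eq_mul_div, div_le_iff₀ (by positivity)]
    nlinarith
  have h2 := abs_nonpos_iff.1 h1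
  linarith

/-- Approximation by rational vectors. -/
lemma exists_near (μ : V → ℝ) (h : IsPN μ) (x : ℕ →₀ ℝ) {ε : ℝ} (hε : 0 < ε) :
    ∃ v : V, N μ (x - emb v) < ε := by
  induction x using Finsupp.induction_linear generalizing ε with
  | zero => exact ⟨0, by rw [map_zero, sub_zero, N_zero]; exact hε⟩
  | add x y hx hy =>
    obtain ⟨v, hv⟩ := hx (show 0 < ε / 2 by positivity)
    obtain ⟨w, hw⟩ := hy (show 0 < ε / 2 by positivity)
    refine ⟨v + w, ?_⟩
    have h2 := N_add_le h (x - emb v) (y - emb w)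
    have h3 : x + y - emb (v + w) = (x - emb v) + (y - emb w) := by
      rw [map_add]; abel
    rw [h3]
    linarith
  | single i r =>
    set c := μ (Finsupp.single i 1) with hc
    have hc0 : 0 ≤ c := h.nonneg _
    obtain ⟨q, hq1, hq2⟩ := exists_rat_btwn (show r < r + ε / (c + 1) by
      have : 0 < ε / (c + 1) := by positivity
      linarith)
    refine ⟨Finsupp.single i q, ?_⟩
    have h1 : Finsupp.single i r - emb (Finsupp.single i q) = Finsupp.single i (r - q) := by
      have : emb (Finsupp.single i q) = Finsupp.single i (q : ℝ) := by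
        unfold emb
        simp
      rw [this, Finsupp.single_sub]
    rw [h1, N, Finsupp.sum_single_index (by simp)]
    have h2 : |r - q| ≤ ε / (c + 1) := by
      rw [abs_le]; constructor <;> linarith
    calc |r - q| * c ≤ ε / (c + 1) * c := mul_le_mul_of_nonneg_right h2 hc0
      _ < ε := by
        rw [div_mul_eq_mul_div, div_lt_iff₀ (by positivity)]
        nlinarith

/-- Every pseudonorm codes a Banach space. -/
theorem exists_codes (h : IsPN μ) :
    ∃ (X : Type) (_ : NormedAddCommGroup X) (_ : NormedSpace ℝ X) (ι : V →+ X), Codes X μ ι := by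
  let p : AddGroupSeminorm (ℕ →₀ ℝ) :=
    { toFun := ext μ
      map_zero' := by
        have h1 := ext_emb h 0
        rwa [map_zero, h.zero] at h1
      add_le' := ext_add_le h
      neg' := fun x => by
        have := ext_smul h (-1) x
        simpa using this }
  letI i1 : SeminormedAddCommGroup (ℕ →₀ ℝ) := p.toSeminormedAddCommGroup
  letI i2 : NormedSpace ℝ (ℕ →₀ ℝ) := { norm_smul_le := fun r x => (ext_smul h r x).le }
  refine ⟨UniformSpace.Completion (ℕ →₀ ℝ), inferInstance, inferInstance,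
    (UniformSpace.Completion.toCompl : _).comp emb, inferInstance, fun v => ?_, ?_⟩
  · show ‖((emb v : ℕ →₀ ℝ) : UniformSpace.Completion (ℕ →₀ ℝ))‖ = μ v
    rw [UniformSpace.Completion.norm_coe]
    exact ext_emb h v
  · have h1 : DenseRange (emb : V → (ℕ →₀ ℝ)) := by
      intro x
      rw [Metric.mem_closure_iff]
      intro ε hε
      obtain ⟨v, hv⟩ := exists_near μ h x hε
      refine ⟨emb v, ⟨v, rfl⟩, ?_⟩
      rw [dist_eq_norm]
      exact lt_of_le_of_lt (ext_le_N h _) hv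
    exact UniformSpace.Completion.denseRange_coe.comp h1 (UniformSpace.Completion.continuous_coe _)

/-! ### Functionals -/

/-- Additive functions on `V` dominated by the pseudonorm. -/
structure IsFun (μ : V → ℝ) (φ : V → ℝ) : Prop where
  add : ∀ u v, φ (u + v) = φ u + φ v
  le : ∀ v, |φ v| ≤ μ v

lemma IsFun.sub {φ : V → ℝ} (h : IsFun μ φ) (u v : V) : φ (u - v) = φ u - φ v := by
  have := h.add (u - v) v
  rw [sub_add_cancel] at this
  linarith

lemma isFun_of_dual {X : Type} [NormedAddCommGroup X] [NormedSpace ℝ X] {ι : V →+ X}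
    (hc : Codes X μ ι) (f : StrongDual ℝ X) (hf : ‖f‖ ≤ 1) : IsFun μ (fun v => f (ι v)) where
  add u v := by rw [map_add, map_add]
  le v := by
    rw [← hc.norm]
    calc |f (ι v)| ≤ ‖f‖ * ‖ι v‖ := f.le_opNorm _
      _ ≤ 1 * ‖ι v‖ := mul_le_mul_of_nonneg_right hf (norm_nonneg _)
      _ = ‖ι v‖ := one_mul _

lemma exists_dual {X : Type} [NormedAddCommGroup X] [NormedSpace ℝ X] {ι : V →+ X}
    (hc : Codes X μ ι) {φ : V → ℝ} (hφ : IsFun μ φ) :
    ∃ f : StrongDual ℝ X, ‖f‖ ≤ 1 ∧ ∀ v, f (ι v) = φ v := by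
  classical
  have hlip : ∀ u v, |φ u - φ v| ≤ ‖ι u - ι v‖ := by
    intro u v
    rw [← hφ.sub, ← map_sub, hc.norm]
    exact hφ.le _
  let f₀ : X → ℝ := fun x => if h : ∃ v, ι v = x then φ h.choose else 0
  have hf₀ : ∀ v, f₀ (ι v) = φ v := by
    intro v
    have hex : ∃ w, ι w = ι v := ⟨v, rfl⟩
    have h1 : f₀ (ι v) = φ hex.choose := dif_pos hex
    rw [h1]
    have h2 := hlip hex.choose v
    rw [hex.choose_spec, sub_self, norm_zero] at h2
    have := abs_nonpos_iff.1 h2
    linarith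
  have h1 : LipschitzOnWith 1 f₀ (range ι) := by
    apply LipschitzOnWith.of_dist_le_mul
    rintro _ ⟨u, rfl⟩ _ ⟨v, rfl⟩
    rw [hf₀, hf₀, Real.dist_eq, dist_eq_norm]
    simpa using hlip u v
  obtain ⟨g, hg1, hg2⟩ := h1.extend_real
  have hg3 : ∀ v, g (ι v) = φ v := fun v => by
    rw [← hg2 ⟨v, rfl⟩, hf₀]
  have hadd : ∀ x y, g (x + y) = g x + g y := by
    have hcl : IsClosed {p : X × X | g (p.1 + p.2) = g p.1 + g p.2} :=
      isClosed_eq (hg1.continuous.comp (continuous_fst.add continuous_snd))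
        ((hg1.continuous.comp continuous_fst).add (hg1.continuous.comp continuous_snd))
    have hd : DenseRange (Prod.map ι ι : V × V → X × X) := hc.dense.prodMap hc.dense
    have h2 : ∀ p : X × X, g (p.1 + p.2) = g p.1 + g p.2 := by
      intro p
      refine hd.induction_on (p := fun p : X × X => g (p.1 + p.2) = g p.1 + g p.2) p hcl ?_
      rintro ⟨u, v⟩
      show g (ι u + ι v) = g (ι u) + g (ι v)
      rw [← map_add, hg3, hg3, hg3, hφ.add]
    exact fun x y => h2 (x, y)
  let G : X →+ ℝ := AddMonoidHom.mk' g hadd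
  have hG : Continuous G := hg1.continuous
  let f : X →ₗ[ℝ] ℝ :=
    { toFun := g
      map_add' := hadd
      map_smul' := fun c x => map_real_smul G hG c x }
  have hbound : ∀ x, ‖f x‖ ≤ 1 * ‖x‖ := by
    intro x
    have h2 := hg1.dist_le_mul x 0
    rw [dist_zero_right, Real.dist_eq] at h2
    have h3 : g 0 = 0 := by
      have := hadd 0 0
      rw [add_zero] at this
      linarith
    rw [h3, sub_zero] at h2
    have h4 : |g x| ≤ ‖x‖ := by simpa using h2
    rw [one_mul]
    exact h4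
  refine ⟨f.mkContinuous 1 hbound, f.mkContinuous_norm_le zero_le_one _, fun v => ?_⟩
  exact hg3 v

/-! ### Compactness -/

lemma isClosed_isFun (n : ℕ) (μ : V → ℝ) :
    IsClosed {φ : Fin n → V → ℝ | ∀ i, IsFun μ (φ i)} := by
  have h1 : {φ : Fin n → V → ℝ | ∀ i, IsFun μ (φ i)} =
      ⋂ (i : Fin n) (u : V) (v : V), {φ : Fin n → V → ℝ | φ i (u + v) = φ i u + φ i v ∧
        |φ i u| ≤ μ u} := by
    ext φ
    simp only [mem_ofPred_eq, mem_iInter]
    constructor
    · intro h i u v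
      exact ⟨(h i).add u v, (h i).le u⟩
    · intro h i
      exact ⟨fun u v => (h i u v).1, fun v => (h i v v).2⟩
  rw [h1]
  refine isClosed_iInter fun i => isClosed_iInter fun u => isClosed_iInter fun v => ?_
  have hc : ∀ w : V, Continuous (fun φ : Fin n → V → ℝ => φ i w) := fun w =>
    (continuous_apply w).comp (continuous_apply i)
  exact (isClosed_eq (hc _) ((hc u).add (hc v))).inter
    (isClosed_le ((hc u).abs) continuous_const)

lemma isCompact_isFun (n : ℕ) (μ : V → ℝ) :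
    IsCompact {φ : Fin n → V → ℝ | ∀ i, IsFun μ (φ i)} := by
  have h1 : IsCompact (Set.pi univ (fun _ : Fin n => Set.pi univ (fun v : V =>
      Icc (-(μ v)) (μ v)))) :=
    isCompact_univ_pi fun _ => isCompact_univ_pi fun _ => isCompact_Icc
  refine h1.of_isClosed_subset (isClosed_isFun n μ) ?_
  intro φ hφ i _ v _
  exact abs_le.1 ((hφ i).le v)

/-- The set of pseudonorms for which some tuple of functionals lies in a given closed set is
closed. -/
lemma isClosed_exists_fun {P : Type*} [TopologicalSpace P] (j : P → V → ℝ) (hj : Continuous j)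
    (n : ℕ) {C : Set (Fin n → V → ℝ)} (hC : IsClosed C) :
    IsClosed {p : P | ∃ φ : Fin n → V → ℝ, (∀ i, IsFun (j p) (φ i)) ∧ φ ∈ C} := by
  classical
  rw [isClosed_iff_ultrafilter]
  intro p U hU hmem
  have hj' : ∀ v, Tendsto (fun p' => j p' v) (U : Filter P) (𝓝 (j p v)) := fun v =>
    (((continuous_apply v).comp hj).tendsto p).mono_left hU
  let Φ : P → Fin n → V → ℝ := fun p' =>
    if h : ∃ φ : Fin n → V → ℝ, (∀ i, IsFun (j p') (φ i)) ∧ φ ∈ C then h.choose else 0
  have hΦ : ∀ᶠ p' in (U : Filter P), (∀ i, IsFun (j p') (Φ p' i)) ∧ Φ p' ∈ C := by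
    have h1 : ∀ᶠ p' in (U : Filter P), p' ∈ {p : P | ∃ φ : Fin n → V → ℝ,
      (∀ i, IsFun (j p) (φ i)) ∧ φ ∈ C} := hmem
    filter_upwards [h1] with p' hp'
    have h2 : Φ p' = Exists.choose hp' := dif_pos hp'
    rw [h2]
    exact Exists.choose_spec hp'
  have hlim : ∀ (i : Fin n) (v : V), ∃ l : ℝ, Tendsto (fun p' => Φ p' i v) (U : Filter P) (𝓝 l) := by
    intro i v
    have hb : ∀ᶠ p' in (U : Filter P), Φ p' i v ∈ Icc (-(j p v + 1)) (j p v + 1) := by
      have h1 := (hj' v).eventually (Iio_mem_nhds (show j p v < j p v + 1 by linarith))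
      filter_upwards [hΦ, h1] with p' h2 h3
      have h4 := abs_le.1 ((h2.1 i).le v)
      have h3' : j p' v < j p v + 1 := h3
      constructor <;> linarith
    obtain ⟨l, _, hl⟩ := (isCompact_Icc (a := -(j p v + 1)) (b := j p v + 1)).ultrafilter_le_nhds
      (U.map (fun p' => Φ p' i v)) (by
        rw [le_principal_iff]
        exact hb)
    exact ⟨l, hl⟩
  choose ψ hψ using hlim
  have hΦψ : Tendsto Φ (U : Filter P) (𝓝 ψ) :=
    tendsto_pi_nhds.2 fun i => tendsto_pi_nhds.2 fun v => hψ i v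
  refine ⟨ψ, fun i => ⟨fun u v => ?_, fun v => ?_⟩, ?_⟩
  · refine tendsto_nhds_unique (hψ i (u + v)) (((hψ i u).add (hψ i v)).congr' ?_)
    filter_upwards [hΦ] with p' h2
    exact ((h2.1 i).add u v).symm
  · refine le_of_tendsto_of_tendsto (hψ i v).abs (hj' v) ?_
    filter_upwards [hΦ] with p' h2
    exact (h2.1 i).le v
  · exact hC.mem_of_tendsto hΦψ (hΦ.mono fun p' h => h.2)

end Pool.Agent.R271.Coding
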