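import Mathlib

/-!
# A supporting hyperplane
-/

open Filter Topology Finset

namespace Pool.Agent.R271.Domination

lemma sum_map_smul {N : ℕ} (L : List (Fin N → ℝ)) {c : ℝ} (hc : 0 < c) (k : Fin N) :
    ((L.map fun a => c • a).map fun a => |a k|).sum = c * (L.map fun a => |a k|).sum := by
  rw [List.map_map, ← List.sum_map_mul_left]
  congr 1
  refine List.map_congr_left fun a _ => ?_
  show |c * a k| = c * |a k|
  rw [abs_mul, abs_of_pos hc]

lemma sum_map_smul' {N : ℕ} {Φ : (Fin N → ℝ) → ℝ} (hΦ : ∀ c a, 0 < c → Φ (c • a) = c * Φ a)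
    (L : List (Fin N → ℝ)) {c : ℝ} (hc : 0 < c) :
    ((L.map fun a => c • a).map fun a => |Φ a|).sum = c * (L.map fun a => |Φ a|).sum := by
  rw [List.map_map, ← List.sum_map_mul_left]
  congr 1
  refine List.map_congr_left fun a _ => ?_
  show |Φ (c • a)| = c * |Φ a|
  rw [hΦ c a hc, abs_mul, abs_of_pos hc]

lemma domination {N : ℕ} (Φ : (Fin N → ℝ) → ℝ) (hΦ : ∀ c a, 0 < c → Φ (c • a) = c * Φ a) {M : ℝ}
    (hM : ∀ L : List (Fin N → ℝ), (∀ k, (L.map fun a => |a k|).sum ≤ 1) →
      (L.map fun a => |Φ a|).sum ≤ M) :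
    ∃ lam : Fin N → ℝ, (∀ k, 0 ≤ lam k) ∧ ∑ k, lam k ≤ M ∧
      ∀ a, |Φ a| ≤ ∑ k, lam k * |a k| := by
  set D : Set ((Fin N → ℝ) × ℝ) := {q | ∃ L : List (Fin N → ℝ),
    (∀ k, (L.map fun a => |a k|).sum < q.1 k) ∧ q.2 < (L.map fun a => |Φ a|).sum} with hD
  have hscale : ∀ q ∈ D, ∀ c : ℝ, 0 < c → c • q ∈ D := by
    rintro q ⟨L, h1, h2⟩ c hc
    refine ⟨L.map fun a => c • a, fun k => ?_, ?_⟩
    · rw [sum_map_smul L hc]
      exact mul_lt_mul_of_pos_left (h1 k) hc
    · rw [sum_map_smul' hΦ L hc]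
      exact mul_lt_mul_of_pos_left h2 hc
  have hadd : ∀ q ∈ D, ∀ q' ∈ D, q + q' ∈ D := by
    rintro q ⟨L, h1, h2⟩ q' ⟨L', h1', h2'⟩
    refine ⟨L ++ L', fun k => ?_, ?_⟩
    · rw [List.map_append, List.sum_append]
      exact add_lt_add (h1 k) (h1' k)
    · rw [List.map_append, List.sum_append]
      exact add_lt_add h2 h2'
  have hconv : Convex ℝ D := by
    intro q hq q' hq' a b ha hb hab
    rcases ha.eq_or_lt with h | h
    · rw [← h] at hab ⊢
      rw [zero_add] at hab
      rw [hab, zero_smul, one_smul, zero_add]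
      exact hq'
    · rcases hb.eq_or_lt with h' | h'
      · rw [← h'] at hab ⊢
        rw [add_zero] at hab
        rw [hab, zero_smul, one_smul, add_zero]
        exact hq
      · exact hadd _ (hscale q hq a h) _ (hscale q' hq' b h')
  have hopen : IsOpen D := by
    have : D = ⋃ L : List (Fin N → ℝ), ((⋂ k, {q : (Fin N → ℝ) × ℝ |
        (L.map fun a => |a k|).sum < q.1 k}) ∩ {q | q.2 < (L.map fun a => |Φ a|).sum}) := by
      ext q
      simp [hD]
    rw [this]
    refine isOpen_iUnion fun L => IsOpen.inter (isOpen_iInter_of_finite fun k => ?_) ?_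
    · exact isOpen_lt continuous_const (by fun_prop)
    · exact isOpen_lt (by fun_prop) continuous_const
  have hnot : ((fun _ => 1, M) : (Fin N → ℝ) × ℝ) ∉ D := by
    rintro ⟨L, h1, h2⟩
    exact absurd (hM L fun k => (h1 k).le) (not_le.2 h2)
  obtain ⟨f, hf⟩ := geometric_hahn_banach_open_point hconv hopen hnot
  set v : ℝ := f ((fun _ => 1, M) : (Fin N → ℝ) × ℝ) with hv
  have hle : ∀ q ∈ D, f q ≤ 0 := by
    intro q hq
    by_contra hcon
    push Not at hcon
    have h1 := hf q hq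
    have h2 := hf ((v / f q) • q) (hscale q hq _ (div_pos (hcon.trans h1) hcon))
    rw [map_smul, smul_eq_mul, div_mul_cancel₀ _ hcon.ne'] at h2
    exact lt_irrefl _ h2
  have hv0 : 0 ≤ v := by
    by_contra hcon
    push Not at hcon
    have hq : ((fun _ => 1, -1) : (Fin N → ℝ) × ℝ) ∈ D :=
      ⟨[], fun k => by simp, by simp⟩
    have h1 := hf _ hq
    have h3 : f ((fun _ => 1, -1) : (Fin N → ℝ) × ℝ) < 0 := h1.trans hcon
    have h2 := hf ((v / f ((fun _ => 1, -1) : (Fin N → ℝ) × ℝ)) • (fun _ => 1, -1))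
      (hscale _ hq _ (div_pos_of_neg_of_neg hcon h3))
    rw [map_smul, smul_eq_mul, div_mul_cancel₀ _ h3.ne] at h2
    exact lt_irrefl _ h2
  set ρ : ℝ := f ((0 : Fin N → ℝ), (1 : ℝ)) with hρ
  set μ : Fin N → ℝ := fun k => f ((Pi.single k 1 : Fin N → ℝ), (0 : ℝ)) with hμ
  have hexp : ∀ (t : Fin N → ℝ) (r : ℝ), f (t, r) = ∑ k, μ k * t k + ρ * r := by
    intro t r
    have h1 : ((t, r) : (Fin N → ℝ) × ℝ) = ∑ k, t k • ((Pi.single k 1 : Fin N → ℝ), (0 : ℝ)) +
        r • ((0 : Fin N → ℝ), (1 : ℝ)) := by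
      refine Prod.ext ?_ ?_
      · rw [Prod.fst_add, Prod.fst_sum]
        simp only [Prod.smul_fst, smul_zero, add_zero]
        funext j
        rw [Finset.sum_apply]
        simp [Pi.single_apply]
      · rw [Prod.snd_add, Prod.snd_sum]
        simp
    rw [h1, map_add, map_sum, map_smul, smul_eq_mul, mul_comm r]
    congr 1
    refine Finset.sum_congr rfl fun k _ => ?_
    rw [map_smul, smul_eq_mul, mul_comm]
  have hmem0 : ∀ (t : Fin N → ℝ) (r : ℝ), (∀ k, 0 < t k) → r < 0 → f (t, r) ≤ 0 := by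
    intro t r ht hr
    exact hle _ ⟨[], fun k => by simpa using ht k, by simpa using hr⟩
  have hρ0 : 0 ≤ ρ := by
    by_contra hcon
    push Not at hcon
    set A := ∑ k, μ k with hA
    have h1 := hmem0 (fun _ => 1) (-(|A| / (-ρ) + 1)) (fun _ => one_pos) (by
      have : 0 ≤ |A| / (-ρ) := div_nonneg (abs_nonneg _) (by linarith)
      linarith)
    rw [hexp] at h1
    simp only [mul_one] at h1
    rw [← hA] at h1
    have h2 : ρ * -(|A| / (-ρ) + 1) = |A| - ρ := by
      have : ρ ≠ 0 := hcon.ne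
      field_simp
      ring
    rw [h2] at h1
    have := neg_abs_le A
    linarith
  have hμ0 : ∀ k, μ k ≤ 0 := by
    intro k
    by_contra hcon
    push Not at hcon
    set A := ∑ k, μ k with hA
    have h1 := hmem0 (fun j => 1 + if j = k then (|A| + ρ + 1) / μ k else 0) (-1) (fun j => by
      have : 0 ≤ (|A| + ρ + 1) / μ k := by positivity
      split_ifs <;> linarith) (by norm_num)
    rw [hexp] at h1
    simp only [mul_add, mul_one, Finset.sum_add_distrib, mul_ite, mul_zero, Finset.sum_ite_eq',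
      Finset.mem_univ, if_true] at h1
    rw [mul_div_cancel₀ _ hcon.ne'] at h1
    have := neg_abs_le A
    rw [← hA] at h1
    linarith
  have hvexp : v = ∑ k, μ k + ρ * M := by
    rw [hv, hexp]
    simp
  have hρ1 : 0 < ρ := by
    rcases hρ0.eq_or_lt with h | h
    · exfalso
      have h1 : ((fun _ => 1, -1) : (Fin N → ℝ) × ℝ) ∈ D :=
        ⟨[], fun k => by simp, by simp⟩
      have h2 := hf _ h1
      rw [hexp, ← h] at h2
      rw [← h] at hvexp
      simp only [mul_one, zero_mul, add_zero] at h2 hvexp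
      rw [hvexp] at h2
      exact lt_irrefl _ h2
    · exact h
  refine ⟨fun k => -μ k / ρ, fun k => div_nonneg (by linarith [hμ0 k]) hρ0, ?_, fun a => ?_⟩
  · rw [← Finset.sum_div, Finset.sum_neg_distrib, div_le_iff₀ hρ1]
    linarith
  · have h1 : ∑ k, μ k * |a k| + ρ * |Φ a| ≤ 0 := by
      refine le_of_forall_pos_le_add fun ε hε => ?_
      set A := ∑ k, μ k with hA
      set s : ℝ := ε / (|A| + ρ + 1) with hs
      have hs0 : 0 < s := by positivity
      have h2 := hle ((fun k => |a k| + s, |Φ a| - s) : (Fin N → ℝ) × ℝ)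
        ⟨[a], fun k => by simpa using hs0, by simpa using hs0⟩
      rw [hexp] at h2
      simp only [mul_add, Finset.sum_add_distrib, ← Finset.sum_mul] at h2
      rw [← hA] at h2
      have h3 : s * (|A| + ρ + 1) = ε := by
        rw [hs]
        exact div_mul_cancel₀ _ (by positivity)
      have := neg_abs_le A
      nlinarith
    have h2 : ∑ k, -μ k / ρ * |a k| = (-∑ k, μ k * |a k|) / ρ := by
      rw [← Finset.sum_neg_distrib, Finset.sum_div]
      exact Finset.sum_congr rfl fun k _ => by ring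
    rw [h2, le_div_iff₀ hρ1]
    linarith

end Pool.Agent.R271.Domination
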