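import Mathlib

/-!
# Sums of atoms over the dyadic tree
-/

open Filter Topology Finset
open scoped ENNReal

namespace Pool.Agent.R271.DyadicAtoms

/-! ### Powers of sums -/

lemma tsum_rpow_le {ι : Type*} (a : ι → ℝ≥0∞) {p : ℝ} (hp0 : 0 < p) (hp1 : p ≤ 1) :
    (∑' i, a i) ^ p ≤ ∑' i, a i ^ p := by
  classical
  have hfin : ∀ s : Finset ι, (∑ i ∈ s, a i) ^ p ≤ ∑ i ∈ s, a i ^ p := by
    intro s
    induction s using Finset.induction_on with
    | empty => simp [hp0]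
    | insert b s hb ih =>
      rw [Finset.sum_insert hb, Finset.sum_insert hb]
      exact (ENNReal.rpow_add_le_add_rpow _ _ hp0.le hp1).trans (add_le_add_right ih _)
  have h1 : Tendsto (fun s : Finset ι => (∑ i ∈ s, a i) ^ p) atTop (𝓝 ((∑' i, a i) ^ p)) :=
    ((ENNReal.continuous_rpow_const).tendsto _).comp ENNReal.summable.hasSum
  exact le_of_tendsto' h1 fun s => (hfin s).trans (ENNReal.sum_le_tsum s)

/-! ### The operators between the levels -/

/-- Each cell is split in two cells carrying half of the mass. -/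
noncomputable def S : Module.End ℝ (ℕ → ℝ) where
  toFun g := fun j => 1 / 2 * g (j / 2)
  map_add' g g' := by
    funext j
    show 1 / 2 * (g (j / 2) + g' (j / 2)) = 1 / 2 * g (j / 2) + 1 / 2 * g' (j / 2)
    ring
  map_smul' c g := by
    funext j
    show 1 / 2 * (c * g (j / 2)) = c * (1 / 2 * g (j / 2))
    ring

/-- The masses of two neighbouring cells are added. -/
noncomputable def E : Module.End ℝ (ℕ → ℝ) where
  toFun g := fun j => g (2 * j) + g (2 * j + 1)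
  map_add' g g' := by
    funext j
    show g (2 * j) + g' (2 * j) + (g (2 * j + 1) + g' (2 * j + 1)) =
      g (2 * j) + g (2 * j + 1) + (g' (2 * j) + g' (2 * j + 1))
    ring
  map_smul' c g := by
    funext j
    show c * g (2 * j) + c * g (2 * j + 1) = c * (g (2 * j) + g (2 * j + 1))
    ring

lemma S_apply (g : ℕ → ℝ) (j : ℕ) : S g j = 1 / 2 * g (j / 2) := rfl

lemma E_apply (g : ℕ → ℝ) (j : ℕ) : E g j = g (2 * j) + g (2 * j + 1) := rfl

lemma E_mul_S : E * S = 1 := by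
  refine LinearMap.ext fun g => ?_
  funext j
  show E (S g) j = g j
  rw [E_apply, S_apply, S_apply, Nat.mul_div_cancel_left j two_pos,
    show (2 * j + 1) / 2 = j by omega]
  ring

lemma E_pow_mul_S_pow (a : ℕ) : E ^ a * S ^ a = 1 := by
  induction a with
  | zero => simp
  | succ a ih =>
    rw [pow_succ, pow_succ', mul_assoc, ← mul_assoc E S, E_mul_S, one_mul, ih]

/-- The masses of the cells of dyadic level `n`, for combinations of atoms of dyadic level `m`. -/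
noncomputable def TT (m n : ℕ) : Module.End ℝ (ℕ → ℝ) := S ^ (n - m) * E ^ (m - n)

lemma TT_shift {m m' : ℕ} (h : m ≤ m') (n : ℕ) : TT m' n * S ^ (m' - m) = TT m n := by
  rw [TT, TT]
  rcases le_total n m with h1 | h1
  · rw [Nat.sub_eq_zero_of_le h1, Nat.sub_eq_zero_of_le (h1.trans h), pow_zero, one_mul, one_mul,
      show m' - n = (m - n) + (m' - m) by omega, pow_add, mul_assoc, E_pow_mul_S_pow, mul_one]
  · rcases le_total n m' with h2 | h2
    · rw [Nat.sub_eq_zero_of_le h1, Nat.sub_eq_zero_of_le h2, pow_zero, pow_zero, one_mul, mul_one,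
        show m' - m = (m' - n) + (n - m) by omega, pow_add, ← mul_assoc, E_pow_mul_S_pow, one_mul]
    · rw [Nat.sub_eq_zero_of_le h1, Nat.sub_eq_zero_of_le h2, pow_zero, mul_one, mul_one,
        ← pow_add]
      congr 1
      omega

/-! ### The size of a combination of atoms of one level -/

/-- The sum of the `p`-th powers of the moduli of the coefficients. -/
noncomputable def nn (p : ℝ) (g : ℕ → ℝ) : ℝ≥0∞ := ∑' j, ‖g j‖ₑ ^ p

/-- The growth factor. -/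
noncomputable def theta (p : ℝ) : ℝ≥0∞ := 2 * ‖(1 / 2 : ℝ)‖ₑ ^ p

variable {p : ℝ}

lemma nn_S (hp0 : 0 < p) (g : ℕ → ℝ) : nn p (S g) = theta p * nn p g := by
  have h1 : ∀ j, ‖S g (2 * j)‖ₑ ^ p = ‖(1 / 2 : ℝ)‖ₑ ^ p * ‖g j‖ₑ ^ p := by
    intro j
    rw [S_apply, Nat.mul_div_cancel_left j two_pos, enorm_mul, ENNReal.mul_rpow_of_nonneg _ _ hp0.le]
  have h2 : ∀ j, ‖S g (2 * j + 1)‖ₑ ^ p = ‖(1 / 2 : ℝ)‖ₑ ^ p * ‖g j‖ₑ ^ p := by
    intro j
    rw [S_apply, show (2 * j + 1) / 2 = j by omega, enorm_mul,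
      ENNReal.mul_rpow_of_nonneg _ _ hp0.le]
  rw [nn, ← tsum_even_add_odd ENNReal.summable ENNReal.summable]
  simp only [h1, h2]
  rw [ENNReal.tsum_mul_left, theta, nn]
  ring

lemma nn_S_pow (hp0 : 0 < p) (a : ℕ) (g : ℕ → ℝ) : nn p ((S ^ a) g) = theta p ^ a * nn p g := by
  induction a with
  | zero => simp
  | succ a ih =>
    rw [pow_succ', Module.End.mul_apply, nn_S hp0, ih, pow_succ']
    ring

lemma nn_E_le (hp0 : 0 < p) (hp1 : p ≤ 1) (g : ℕ → ℝ) : nn p (E g) ≤ nn p g := by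
  rw [nn, nn, ← tsum_even_add_odd (f := fun j => ‖g j‖ₑ ^ p) ENNReal.summable ENNReal.summable,
    ← ENNReal.tsum_add]
  refine ENNReal.tsum_le_tsum fun j => ?_
  rw [E_apply]
  exact (ENNReal.rpow_le_rpow (enorm_add_le _ _) hp0.le).trans
    (ENNReal.rpow_add_le_add_rpow _ _ hp0.le hp1)

lemma nn_E_pow_le (hp0 : 0 < p) (hp1 : p ≤ 1) (a : ℕ) (g : ℕ → ℝ) :
    nn p ((E ^ a) g) ≤ nn p g := by
  induction a with
  | zero => simp
  | succ a ih =>
    rw [pow_succ', Module.End.mul_apply]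
    exact (nn_E_le hp0 hp1 _).trans ih

lemma nn_TT_le (hp0 : 0 < p) (hp1 : p ≤ 1) (m n : ℕ) (g : ℕ → ℝ) :
    nn p (TT m n g) ≤ theta p ^ (n - m) * nn p g := by
  rw [TT, Module.End.mul_apply, nn_S_pow hp0]
  exact mul_le_mul_right (nn_E_pow_le hp0 hp1 _ _) _

lemma nn_add_le (hp0 : 0 < p) (hp1 : p ≤ 1) (g g' : ℕ → ℝ) :
    nn p (g + g') ≤ nn p g + nn p g' := by
  rw [nn, nn, nn, ← ENNReal.tsum_add]
  refine ENNReal.tsum_le_tsum fun j => ?_
  exact (ENNReal.rpow_le_rpow (enorm_add_le _ _) hp0.le).trans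
    (ENNReal.rpow_add_le_add_rpow _ _ hp0.le hp1)

lemma nn_smul (hp0 : 0 < p) (c : ℝ) (g : ℕ → ℝ) : nn p (c • g) = ‖c‖ₑ ^ p * nn p g := by
  rw [nn, nn, ← ENNReal.tsum_mul_left]
  refine tsum_congr fun j => ?_
  rw [Pi.smul_apply, smul_eq_mul, enorm_mul, ENNReal.mul_rpow_of_nonneg _ _ hp0.le]

lemma nn_zero (hp0 : 0 < p) : nn p 0 = 0 := by
  have := nn_smul hp0 0 (0 : ℕ → ℝ)
  rw [zero_smul, enorm_zero, ENNReal.zero_rpow_of_pos hp0, zero_mul] at this
  exact this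

lemma nn_tsum_le (hp0 : 0 < p) (hp1 : p ≤ 1) {ι : Type*} (x : ι → ℕ → ℝ) :
    nn p (fun j => ∑' k, x k j) ≤ ∑' k, nn p (x k) := by
  have h1 : ∀ j, ‖∑' k, x k j‖ₑ ^ p ≤ ∑' k, ‖x k j‖ₑ ^ p := fun j =>
    (ENNReal.rpow_le_rpow enorm_tsum_le_tsum_enorm hp0.le).trans (tsum_rpow_le _ hp0 hp1)
  rw [nn]
  refine (ENNReal.tsum_le_tsum h1).trans (le_of_eq ?_)
  rw [ENNReal.tsum_comm]
  rfl

lemma le_nn (p : ℝ) (g : ℕ → ℝ) (j : ℕ) : ‖g j‖ₑ ^ p ≤ nn p g := ENNReal.le_tsum j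

lemma summable_of_nn (hp0 : 0 < p) (hp1 : p ≤ 1) {ι : Type*} {x : ι → ℕ → ℝ}
    (h : ∑' k, nn p (x k) ≠ ∞) (j : ℕ) : Summable fun k => x k j := by
  have h1 : (∑' k, ‖x k j‖ₑ) ^ p ≠ ∞ := by
    refine ne_top_of_le_ne_top h ((tsum_rpow_le _ hp0 hp1).trans ?_)
    exact ENNReal.tsum_le_tsum fun k => le_nn p (x k) j
  have h2 : ∑' k, ‖x k j‖ₑ ≠ ∞ := by
    intro h3
    rw [h3, ENNReal.top_rpow_of_pos hp0] at h1
    exact h1 rfl
  have h3 : Summable fun k => ‖x k j‖₊ := ENNReal.tsum_coe_ne_top_iff_summable.1 h2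
  exact Summable.of_nnnorm h3

lemma theta_ne_top (hp0 : 0 < p) : theta p ≠ ∞ := by
  rw [theta]
  exact ENNReal.mul_ne_top (by norm_num) (ENNReal.rpow_ne_top_of_nonneg hp0.le enorm_ne_top)

lemma one_le_theta (hp0 : 0 < p) (hp1 : p ≤ 1) : 1 ≤ theta p := by
  have h1 : ‖(1 / 2 : ℝ)‖ₑ = 1 / 2 := by
    rw [← ofReal_norm, Real.norm_of_nonneg (by norm_num)]
    rw [ENNReal.ofReal_div_of_pos two_pos]
    simp
  rw [theta, h1]
  have h2 : (1 / 2 : ℝ≥0∞) ^ (1 : ℝ) ≤ (1 / 2) ^ p :=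
    ENNReal.rpow_le_rpow_of_exponent_ge (by simp) hp1
  rw [ENNReal.rpow_one] at h2
  calc (1 : ℝ≥0∞) = 2 * (1 / 2) := by
        rw [one_div, ENNReal.mul_inv_cancel two_ne_zero ENNReal.ofNat_ne_top]
    _ ≤ _ := mul_le_mul_right h2 _

lemma theta_one : theta 1 = 1 := by
  have h1 : ‖(1 / 2 : ℝ)‖ₑ = 1 / 2 := by
    rw [← ofReal_norm, Real.norm_of_nonneg (by norm_num)]
    rw [ENNReal.ofReal_div_of_pos two_pos]
    simp
  rw [theta, h1, ENNReal.rpow_one, one_div, ENNReal.mul_inv_cancel two_ne_zero ENNReal.ofNat_ne_top]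

/-! ### Arrays of coefficients -/

/-- Arrays of coefficients: level and position. -/
abbrev Arr : Type := ℕ → ℕ → ℝ

/-- The sum of the `p`-th powers of the moduli of the coefficients. -/
noncomputable def mm (p : ℝ) (a : Arr) : ℝ≥0∞ := ∑' k, nn p (a k)

/-- The admissible arrays: at the level `k` there are `2 ^ (k ^ 2)` cells. -/
def Adm (p : ℝ) (a : Arr) : Prop := mm p a ≠ ∞ ∧ ∀ k j, 2 ^ (k ^ 2) ≤ j → a k j = 0

/-- The masses of all cells. -/
noncomputable def Qf (a : Arr) : Arr := fun l j => ∑' k, TT (k ^ 2) (l ^ 2) (a k) j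

lemma mm_add_le (hp0 : 0 < p) (hp1 : p ≤ 1) (a b : Arr) : mm p (a + b) ≤ mm p a + mm p b := by
  rw [mm, mm, mm, ← ENNReal.tsum_add]
  exact ENNReal.tsum_le_tsum fun k => nn_add_le hp0 hp1 _ _

lemma mm_smul (hp0 : 0 < p) (c : ℝ) (a : Arr) : mm p (c • a) = ‖c‖ₑ ^ p * mm p a := by
  rw [mm, mm, ← ENNReal.tsum_mul_left]
  exact tsum_congr fun k => nn_smul hp0 c (a k)

lemma mm_neg (hp0 : 0 < p) (a : Arr) : mm p (-a) = mm p a := by
  have := mm_smul hp0 (-1) a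
  rw [neg_one_smul, enorm_neg, enorm_one, ENNReal.one_rpow, one_mul] at this
  exact this

lemma mm_sub_le (hp0 : 0 < p) (hp1 : p ≤ 1) (a b : Arr) : mm p (a - b) ≤ mm p a + mm p b := by
  rw [sub_eq_add_neg, ← mm_neg hp0 b]
  exact mm_add_le hp0 hp1 a (-b)

lemma mm_zero (hp0 : 0 < p) : mm p 0 = 0 := by
  rw [mm]
  simp [nn_zero hp0]

lemma Adm.add (hp0 : 0 < p) (hp1 : p ≤ 1) {a b : Arr} (ha : Adm p a) (hb : Adm p b) :
    Adm p (a + b) := by
  refine ⟨ne_top_of_le_ne_top (ENNReal.add_ne_top.2 ⟨ha.1, hb.1⟩) (mm_add_le hp0 hp1 a b),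
    fun k j h => ?_⟩
  rw [Pi.add_apply, Pi.add_apply, ha.2 k j h, hb.2 k j h, add_zero]

lemma Adm.smul (hp0 : 0 < p) (c : ℝ) {a : Arr} (ha : Adm p a) : Adm p (c • a) := by
  refine ⟨?_, fun k j h => ?_⟩
  · rw [mm_smul hp0]
    exact ENNReal.mul_ne_top (ENNReal.rpow_ne_top_of_nonneg hp0.le enorm_ne_top) ha.1
  · rw [Pi.smul_apply, Pi.smul_apply, ha.2 k j h, smul_zero]

lemma Adm.neg (hp0 : 0 < p) {a : Arr} (ha : Adm p a) : Adm p (-a) := by
  have := ha.smul hp0 (-1)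
  rwa [neg_one_smul] at this

lemma Adm.sub (hp0 : 0 < p) (hp1 : p ≤ 1) {a b : Arr} (ha : Adm p a) (hb : Adm p b) :
    Adm p (a - b) := by
  rw [sub_eq_add_neg]
  exact ha.add hp0 hp1 (hb.neg hp0)

lemma Adm.zero (hp0 : 0 < p) : Adm p 0 := ⟨by rw [mm_zero hp0]; simp, fun _ _ _ => rfl⟩

lemma Adm.sum (hp0 : 0 < p) (hp1 : p ≤ 1) {ι : Type*} (s : Finset ι) {b : ι → Arr}
    (hb : ∀ i ∈ s, Adm p (b i)) : Adm p (∑ i ∈ s, b i) := by
  classical
  induction s using Finset.induction_on with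
  | empty => simpa using Adm.zero hp0
  | insert x s hx ih =>
    rw [Finset.sum_insert hx]
    exact (hb x (Finset.mem_insert_self _ _)).add hp0 hp1
      (ih fun i hi => hb i (Finset.mem_insert_of_mem hi))

lemma mm_sum_le (hp0 : 0 < p) (hp1 : p ≤ 1) {ι : Type*} (s : Finset ι) (b : ι → Arr) :
    mm p (∑ i ∈ s, b i) ≤ ∑ i ∈ s, mm p (b i) := by
  classical
  induction s using Finset.induction_on with
  | empty => simp [mm_zero hp0]
  | insert x s hx ih =>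
    rw [Finset.sum_insert hx, Finset.sum_insert hx]
    exact (mm_add_le hp0 hp1 _ _).trans (add_le_add_right ih _)

lemma tsum_nn_TT_le (hp0 : 0 < p) (hp1 : p ≤ 1) (a : Arr) (l : ℕ) :
    ∑' k, nn p (TT (k ^ 2) (l ^ 2) (a k)) ≤ theta p ^ (l ^ 2) * mm p a := by
  rw [mm, ← ENNReal.tsum_mul_left]
  refine ENNReal.tsum_le_tsum fun k => (nn_TT_le hp0 hp1 _ _ _).trans ?_
  exact mul_le_mul_left (pow_le_pow_right₀ (one_le_theta hp0 hp1) (Nat.sub_le _ _)) _

lemma summable_Qf (hp0 : 0 < p) (hp1 : p ≤ 1) {a : Arr} (ha : Adm p a) (l j : ℕ) :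
    Summable fun k => TT (k ^ 2) (l ^ 2) (a k) j := by
  refine summable_of_nn hp0 hp1 (x := fun k => TT (k ^ 2) (l ^ 2) (a k)) ?_ j
  refine ne_top_of_le_ne_top ?_ (tsum_nn_TT_le hp0 hp1 a l)
  exact ENNReal.mul_ne_top (ENNReal.pow_ne_top (theta_ne_top hp0)) ha.1

lemma Qf_add (hp0 : 0 < p) (hp1 : p ≤ 1) {a b : Arr} (ha : Adm p a) (hb : Adm p b) :
    Qf (a + b) = Qf a + Qf b := by
  funext l j
  show ∑' k, TT (k ^ 2) (l ^ 2) (a k + b k) j = Qf a l j + Qf b l j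
  simp only [map_add, Pi.add_apply]
  exact (summable_Qf hp0 hp1 ha l j).tsum_add (summable_Qf hp0 hp1 hb l j)

lemma Qf_smul (c : ℝ) (a : Arr) : Qf (c • a) = c • Qf a := by
  funext l j
  show ∑' k, TT (k ^ 2) (l ^ 2) (c • a k) j = c * Qf a l j
  simp only [map_smul, Pi.smul_apply, smul_eq_mul]
  exact tsum_mul_left

lemma Qf_neg (a : Arr) : Qf (-a) = -Qf a := by
  have := Qf_smul (-1) a
  rwa [neg_one_smul, neg_one_smul] at this

lemma Qf_sub (hp0 : 0 < p) (hp1 : p ≤ 1) {a b : Arr} (ha : Adm p a) (hb : Adm p b) :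
    Qf (a - b) = Qf a - Qf b := by
  rw [sub_eq_add_neg, Qf_add hp0 hp1 ha (hb.neg hp0), Qf_neg, ← sub_eq_add_neg]

lemma Qf_zero : Qf 0 = 0 := by
  have := Qf_smul 0 0
  rwa [zero_smul, zero_smul] at this

lemma Qf_sum (hp0 : 0 < p) (hp1 : p ≤ 1) {ι : Type*} (s : Finset ι) {b : ι → Arr}
    (hb : ∀ i ∈ s, Adm p (b i)) : Qf (∑ i ∈ s, b i) = ∑ i ∈ s, Qf (b i) := by
  classical
  induction s using Finset.induction_on with
  | empty => simp [Qf_zero]
  | insert x s hx ih =>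
    rw [Finset.sum_insert hx, Finset.sum_insert hx, Qf_add hp0 hp1
      (hb x (Finset.mem_insert_self _ _))
      (Adm.sum hp0 hp1 s fun i hi => hb i (Finset.mem_insert_of_mem hi)),
      ih fun i hi => hb i (Finset.mem_insert_of_mem hi)]

/-! ### Combinations of atoms of one level -/

/-- The array with one level. -/
noncomputable def lev (k : ℕ) (g : ℕ → ℝ) : Arr := fun i => if i = k then g else 0

lemma lev_self (k : ℕ) (g : ℕ → ℝ) : lev k g k = g := if_pos rfl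

lemma lev_ne {k i : ℕ} (h : i ≠ k) (g : ℕ → ℝ) : lev k g i = 0 := if_neg h

lemma mm_lev (hp0 : 0 < p) (k : ℕ) (g : ℕ → ℝ) : mm p (lev k g) = nn p g := by
  rw [mm, tsum_eq_single k fun i hi => by rw [lev_ne hi, nn_zero hp0], lev_self]

lemma Qf_lev (k : ℕ) (g : ℕ → ℝ) (l : ℕ) : Qf (lev k g) l = TT (k ^ 2) (l ^ 2) g := by
  funext j
  show ∑' i, TT (i ^ 2) (l ^ 2) (lev k g i) j = _
  rw [tsum_eq_single k fun i hi => by rw [lev_ne hi, map_zero]; rfl, lev_self]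

lemma S_pow_support {g : ℕ → ℝ} {n : ℕ} (hg : ∀ j, 2 ^ n ≤ j → g j = 0) (m : ℕ) :
    ∀ j, 2 ^ (n + m) ≤ j → (S ^ m) g j = 0 := by
  induction m with
  | zero =>
    intro j hj
    exact hg j hj
  | succ m ih =>
    intro j hj
    rw [pow_succ', Module.End.mul_apply, S_apply, ih, mul_zero]
    rw [Nat.le_div_iff_mul_le two_pos, ← pow_succ]
    exact hj

lemma nn_sum_le (hp0 : 0 < p) (hp1 : p ≤ 1) {ι : Type*} (s : Finset ι) (g : ι → ℕ → ℝ) :
    nn p (∑ i ∈ s, g i) ≤ ∑ i ∈ s, nn p (g i) := by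
  classical
  induction s using Finset.induction_on with
  | empty => simp [nn_zero hp0]
  | insert x s hx ih =>
    rw [Finset.sum_insert hx, Finset.sum_insert hx]
    exact (nn_add_le hp0 hp1 _ _).trans (add_le_add_right ih _)

lemma nn_le_mm (p : ℝ) (a : Arr) (k : ℕ) : nn p (a k) ≤ mm p a := ENNReal.le_tsum k

/-- Finitely many levels can be moved to one level. -/
lemma exists_lev (hp0 : 0 < p) (hp1 : p ≤ 1) {b : Arr} (hb : Adm p b) {k : ℕ}
    (hbk : ∀ i, k < i → b i = 0) : ∃ g, Adm p (lev k g) ∧ Qf b = Qf (lev k g) := by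
  refine ⟨∑ i ∈ range (k + 1), (S ^ (k ^ 2 - i ^ 2)) (b i), ⟨?_, ?_⟩, ?_⟩
  · rw [mm_lev hp0]
    refine ne_top_of_le_ne_top ?_ (nn_sum_le hp0 hp1 _ _)
    refine ENNReal.sum_ne_top.2 fun i _ => ?_
    rw [nn_S_pow hp0]
    exact ENNReal.mul_ne_top (ENNReal.pow_ne_top (theta_ne_top hp0))
      (ne_top_of_le_ne_top hb.1 (nn_le_mm p b i))
  · intro i j hj
    by_cases hi : i = k
    · subst hi
      rw [lev_self, Finset.sum_apply]
      refine Finset.sum_eq_zero fun l hl => ?_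
      have hl' : l ≤ i := by
        rw [Finset.mem_range] at hl
        omega
      apply S_pow_support (hb.2 l)
      rwa [Nat.add_sub_cancel' (Nat.pow_le_pow_left hl' 2)]
    · rw [lev_ne hi]
      rfl
  · funext l j
    rw [Qf_lev, map_sum, Finset.sum_apply]
    show ∑' i, TT (i ^ 2) (l ^ 2) (b i) j = _
    rw [tsum_eq_sum (s := range (k + 1))]
    · refine Finset.sum_congr rfl fun i hi => ?_
      have hi' : i ≤ k := by
        rw [Finset.mem_range] at hi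
        omega
      rw [← TT_shift (Nat.pow_le_pow_left hi' 2) (l ^ 2)]
      rfl
    · intro i hi
      rw [hbk i (by rw [Finset.mem_range] at hi; omega), map_zero]
      rfl

/-- The gap lemma. -/
lemma gap (hp0 : 0 < p) (hp1 : p ≤ 1) {k : ℕ} {g : ℕ → ℝ} {d : Arr}
    (hd : ∀ i, i ≤ k → d i = 0) (h : Qf (lev k g) = Qf d) :
    theta p ^ (2 * k + 1) * nn p g ≤ mm p d := by
  have h1 : nn p (Qf (lev k g) (k + 1)) = theta p ^ (2 * k + 1) * nn p g := by
    rw [Qf_lev, TT, Nat.sub_eq_zero_of_le (Nat.pow_le_pow_left (Nat.le_succ k) 2), pow_zero,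
      mul_one, nn_S_pow hp0]
    congr 2
    rw [show (k + 1) ^ 2 = k ^ 2 + (2 * k + 1) by ring]
    omega
  rw [← h1, h]
  refine (nn_tsum_le hp0 hp1 fun i => TT (i ^ 2) ((k + 1) ^ 2) (d i)).trans ?_
  refine ENNReal.tsum_le_tsum fun i => ?_
  rcases Nat.lt_or_ge k i with hi | hi
  · refine (nn_TT_le hp0 hp1 _ _ _).trans (le_of_eq ?_)
    rw [Nat.sub_eq_zero_of_le (Nat.pow_le_pow_left hi 2), pow_zero, one_mul]
  · rw [hd i hi, map_zero]

/-! ### Cutting arrays -/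

lemma mm_indicator (hp0 : 0 < p) (s : Set ℕ) (a : Arr) :
    mm p (s.indicator a) = ∑' i, s.indicator (fun i => nn p (a i)) i := by
  rw [mm]
  refine tsum_congr fun i => ?_
  by_cases hi : i ∈ s
  · rw [Set.indicator_of_mem hi, Set.indicator_of_mem hi]
  · rw [Set.indicator_of_notMem hi, Set.indicator_of_notMem hi, nn_zero hp0]

lemma mm_indicator_union (hp0 : 0 < p) {s t : Set ℕ} (h : Disjoint s t) (a : Arr) :
    mm p ((s ∪ t).indicator a) = mm p (s.indicator a) + mm p (t.indicator a) := by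
  rw [mm_indicator hp0, mm_indicator hp0, mm_indicator hp0, ← ENNReal.tsum_add]
  refine tsum_congr fun i => ?_
  rw [Set.indicator_union_of_disjoint h]

lemma mm_indicator_le (hp0 : 0 < p) (s : Set ℕ) (a : Arr) : mm p (s.indicator a) ≤ mm p a := by
  rw [mm_indicator hp0, mm]
  exact ENNReal.tsum_le_tsum fun i => Set.indicator_le_self' (fun _ _ => zero_le) i

lemma Adm.indicator (hp0 : 0 < p) (s : Set ℕ) {a : Arr} (ha : Adm p a) :
    Adm p (s.indicator a) := by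
  refine ⟨ne_top_of_le_ne_top ha.1 (mm_indicator_le hp0 s a), fun k j h => ?_⟩
  by_cases hk : k ∈ s
  · rw [Set.indicator_of_mem hk]
    exact ha.2 k j h
  · rw [Set.indicator_of_notMem hk]
    rfl

lemma sum_Ioc_le (hp0 : 0 < p) {k : ℕ → ℕ} (hk : StrictMono k) (a : Arr) (n : ℕ) :
    ∑ j ∈ range n, mm p ((Set.Ioc (k j) (k (j + 1))).indicator a) ≤ mm p a := by
  have h : ∑ j ∈ range n, mm p ((Set.Ioc (k j) (k (j + 1))).indicator a) +
      mm p ((Set.Iic (k 0)).indicator a) = mm p ((Set.Iic (k n)).indicator a) := by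
    induction n with
    | zero => simp
    | succ n ih =>
      have hu : Set.Iic (k (n + 1)) = Set.Iic (k n) ∪ Set.Ioc (k n) (k (n + 1)) :=
        (Set.Iic_union_Ioc_eq_Iic (hk.monotone (Nat.le_succ n))).symm
      have hdisj : Disjoint (Set.Iic (k n)) (Set.Ioc (k n) (k (n + 1))) :=
        Set.disjoint_left.2 fun x hx hx' => absurd hx'.1 (not_lt.2 hx)
      rw [hu, mm_indicator_union hp0 hdisj, ← ih, Finset.sum_range_succ]
      ring
  calc _ ≤ _ := le_self_add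
    _ = _ := h
    _ ≤ _ := mm_indicator_le hp0 _ a

/-! ### The lower estimate for block sequences -/

lemma mm_le_of_smul (hp0 : 0 < p) {c : ℝ} {a b : Arr} (ha : Adm p a) {δ : ℝ≥0∞}
    (hδ : ∀ b', Adm p b' → Qf b' = Qf b → δ ≤ mm p b') (h : Qf a = c • Qf b) :
    δ * ‖c‖ₑ ^ p ≤ mm p a := by
  rcases eq_or_ne c 0 with rfl | hc
  · rw [enorm_zero, ENNReal.zero_rpow_of_pos hp0, mul_zero]
    exact zero_le
  · have h1 := hδ (c⁻¹ • a) (ha.smul hp0 _) (by
      rw [Qf_smul, h, smul_smul, inv_mul_cancel₀ hc, one_smul])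
    rw [mm_smul hp0] at h1
    calc δ * ‖c‖ₑ ^ p ≤ ‖c⁻¹‖ₑ ^ p * mm p a * ‖c‖ₑ ^ p := mul_le_mul_left h1 _
      _ = (‖c⁻¹‖ₑ ^ p * ‖c‖ₑ ^ p) * mm p a := by ring
      _ = mm p a := by
        rw [← ENNReal.mul_rpow_of_nonneg _ _ hp0.le, ← enorm_mul, inv_mul_cancel₀ hc, enorm_one,
          ENNReal.one_rpow, one_mul]

lemma core (hp0 : 0 < p) (hp1 : p ≤ 1) {k : ℕ → ℕ} (hk : StrictMono k) {b : ℕ → Arr}
    (hb : ∀ j, Adm p (b j)) (hbs : ∀ j i, i ∉ Set.Ioc (k j) (k (j + 1)) → b j i = 0)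
    {B δ : ℝ≥0∞} (hB : ∀ j, mm p (b j) ≤ B)
    (hδ : ∀ j b', Adm p b' → Qf b' = Qf (b j) → δ ≤ mm p b') {a₀ : Arr} (ha₀ : Adm p a₀)
    (ha₀s : ∀ i, k 0 < i → a₀ i = 0) (c : ℕ → ℝ) (n : ℕ) {α : Arr} (hα : Adm p α)
    (hQ : Qf α = Qf (a₀ + ∑ j ∈ range n, c j • b j)) :
    δ * ∑ j ∈ range n, ‖c j‖ₑ ^ p ≤ mm p α + 2 * ((∑ j ∈ range (n + 1),
      (theta p ^ (2 * k j + 1))⁻¹) * (mm p α + B * ∑ j ∈ range n, ‖c j‖ₑ ^ p)) := by
  set s : ℝ≥0∞ := ∑ j ∈ range n, ‖c j‖ₑ ^ p with hs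
  have hcb : ∀ j, Adm p (c j • b j) := fun j => (hb j).smul hp0 _
  set L : ℕ → Arr := fun j => a₀ + ∑ i ∈ range j, c i • b i - (Set.Iic (k j)).indicator α with hL
  set D : ℕ → Arr := fun j => (Set.Ioi (k j)).indicator α - ∑ i ∈ Ico j n, c i • b i with hD
  have hLa : ∀ j, Adm p (L j) := fun j =>
    (ha₀.add hp0 hp1 (Adm.sum hp0 hp1 _ fun i _ => hcb i)).sub hp0 hp1 (hα.indicator hp0 _)
  have hDa : ∀ j, Adm p (D j) := fun j =>
    (hα.indicator hp0 _).sub hp0 hp1 (Adm.sum hp0 hp1 _ fun i _ => hcb i)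
  have hLD : ∀ j ≤ n, Qf (L j) = Qf (D j) := by
    intro j hj
    rw [← sub_eq_zero, ← Qf_sub hp0 hp1 (hLa j) (hDa j)]
    have h1 : L j - D j = (a₀ + ∑ i ∈ range n, c i • b i) - α := by
      rw [hL, hD]
      dsimp only
      rw [← Finset.sum_range_add_sum_Ico _ hj]
      have h2 : (Set.Iic (k j)).indicator α + (Set.Ioi (k j)).indicator α = α := by
        rw [← Set.compl_Iic, Set.indicator_self_add_compl]
      conv_rhs => rw [← h2]
      abel
    rw [h1, Qf_sub hp0 hp1 (ha₀.add hp0 hp1 (Adm.sum hp0 hp1 _ fun i _ => hcb i)) hα, hQ,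
      sub_self]
  have hLs : ∀ j, ∀ i, k j < i → L j i = 0 := by
    intro j i hi
    show a₀ i + (∑ l ∈ range j, c l • b l) i - (Set.Iic (k j)).indicator α i = 0
    rw [Set.indicator_of_notMem (by rw [Set.mem_Iic]; omega),
      ha₀s i (lt_of_le_of_lt (hk.monotone (Nat.zero_le j)) hi), Finset.sum_apply,
      Finset.sum_eq_zero, add_zero, sub_zero]
    intro l hl
    rw [Finset.mem_range] at hl
    rw [Pi.smul_apply, hbs l i, smul_zero]
    rintro ⟨-, h2⟩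
    have := hk.monotone (show l + 1 ≤ j by omega)
    omega
  have hDs : ∀ j, ∀ i, i ≤ k j → D j i = 0 := by
    intro j i hi
    show (Set.Ioi (k j)).indicator α i - (∑ l ∈ Ico j n, c l • b l) i = 0
    rw [Set.indicator_of_notMem (by rw [Set.mem_Ioi]; omega), Finset.sum_apply,
      Finset.sum_eq_zero, sub_zero]
    intro l hl
    rw [Finset.mem_Ico] at hl
    rw [Pi.smul_apply, hbs l i, smul_zero]
    rintro ⟨h1, -⟩
    have := hk.monotone hl.1
    omega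
  have hDm : ∀ j, mm p (D j) ≤ mm p α + B * s := by
    intro j
    refine (mm_sub_le hp0 hp1 _ _).trans (add_le_add (mm_indicator_le hp0 _ _) ?_)
    refine (mm_sum_le hp0 hp1 _ _).trans ?_
    calc ∑ i ∈ Ico j n, mm p (c i • b i) ≤ ∑ i ∈ range n, mm p (c i • b i) :=
          Finset.sum_le_sum_of_subset fun i hi => by
            rw [Finset.mem_Ico] at hi
            rw [Finset.mem_range]
            exact hi.2
      _ ≤ ∑ i ∈ range n, B * ‖c i‖ₑ ^ p := by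
          refine Finset.sum_le_sum fun i _ => ?_
          rw [mm_smul hp0, mul_comm]
          exact mul_le_mul_left (hB i) _
      _ = B * s := by rw [hs, Finset.mul_sum]
  have hg : ∀ j, ∃ g, Adm p (lev (k j) g) ∧ Qf (L j) = Qf (lev (k j) g) := fun j =>
    exists_lev hp0 hp1 (hLa j) (hLs j)
  choose g hg1 hg2 using hg
  have hgn : ∀ j ≤ n, nn p (g j) ≤ (theta p ^ (2 * k j + 1))⁻¹ * (mm p α + B * s) := by
    intro j hj
    have h1 := gap hp0 hp1 (hDs j) ((hg2 j).symm.trans (hLD j hj))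
    have h2 : theta p ^ (2 * k j + 1) ≠ 0 :=
      (lt_of_lt_of_le zero_lt_one (one_le_pow₀ (one_le_theta hp0 hp1))).ne'
    have h3 : theta p ^ (2 * k j + 1) ≠ ∞ := ENNReal.pow_ne_top (theta_ne_top hp0)
    calc nn p (g j) = (theta p ^ (2 * k j + 1))⁻¹ * (theta p ^ (2 * k j + 1) * nn p (g j)) := by
          rw [← mul_assoc, ENNReal.inv_mul_cancel h2 h3, one_mul]
      _ ≤ _ := mul_le_mul_right (h1.trans (hDm j)) _
  have hstep : ∀ j ∈ range n, δ * ‖c j‖ₑ ^ p ≤ nn p (g (j + 1)) + nn p (g j) +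
      mm p ((Set.Ioc (k j) (k (j + 1))).indicator α) := by
    intro j _
    have h1 : c j • b j = L (j + 1) - L j + (Set.Ioc (k j) (k (j + 1))).indicator α := by
      rw [hL]
      dsimp only
      have hu : (Set.Iic (k (j + 1))).indicator α = (Set.Iic (k j)).indicator α +
          (Set.Ioc (k j) (k (j + 1))).indicator α := by
        have hdisj : Disjoint (Set.Iic (k j)) (Set.Ioc (k j) (k (j + 1))) :=
          Set.disjoint_left.2 fun x hx hx' => absurd hx'.1 (not_lt.2 hx)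
        rw [← Set.Iic_union_Ioc_eq_Iic (hk.monotone (Nat.le_succ j)),
          Set.indicator_union_of_disjoint hdisj]
        rfl
      rw [hu, Finset.sum_range_succ]
      abel
    set r : Arr := lev (k (j + 1)) (g (j + 1)) - lev (k j) (g j) +
      (Set.Ioc (k j) (k (j + 1))).indicator α with hr
    have hra : Adm p r := ((hg1 _).sub hp0 hp1 (hg1 _)).add hp0 hp1 (hα.indicator hp0 _)
    have h2 : Qf r = c j • Qf (b j) := by
      rw [← Qf_smul, h1, hr, Qf_add hp0 hp1 ((hg1 _).sub hp0 hp1 (hg1 _)) (hα.indicator hp0 _),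
        Qf_add hp0 hp1 ((hLa _).sub hp0 hp1 (hLa _)) (hα.indicator hp0 _),
        Qf_sub hp0 hp1 (hg1 _) (hg1 _), Qf_sub hp0 hp1 (hLa _) (hLa _), hg2, hg2]
    refine (mm_le_of_smul hp0 hra (hδ j) h2).trans ?_
    refine (mm_add_le hp0 hp1 _ _).trans (add_le_add_left ?_ _)
    refine (mm_sub_le hp0 hp1 _ _).trans ?_
    rw [mm_lev hp0, mm_lev hp0]
  rw [Finset.mul_sum]
  refine (Finset.sum_le_sum hstep).trans ?_
  rw [Finset.sum_add_distrib, Finset.sum_add_distrib, add_comm]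
  refine add_le_add (sum_Ioc_le hp0 hk α n) ?_
  have h1 : ∑ j ∈ range (n + 1), nn p (g j) ≤
      (∑ j ∈ range (n + 1), (theta p ^ (2 * k j + 1))⁻¹) * (mm p α + B * s) := by
    rw [Finset.sum_mul]
    refine Finset.sum_le_sum fun j hj => hgn j ?_
    rw [Finset.mem_range] at hj
    omega
  rw [two_mul]
  refine add_le_add (le_trans ?_ h1) (le_trans ?_ h1)
  · rw [Finset.sum_range_succ']
    exact le_self_add
  · rw [Finset.sum_range_succ]
    exact le_self_add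

/-! ### Heads, tails and limits -/

lemma nn_eq_sum (hp0 : 0 < p) {g : ℕ → ℝ} {n : ℕ} (hg : ∀ j, n ≤ j → g j = 0) :
    nn p g = ∑ j ∈ range n, ‖g j‖ₑ ^ p := by
  rw [nn, tsum_eq_sum]
  intro j hj
  rw [hg j (by rw [Finset.mem_range] at hj; omega), enorm_zero, ENNReal.zero_rpow_of_pos hp0]

lemma head_eq (hp0 : 0 < p) (k : ℕ) {a : Arr} (ha : ∀ k j, 2 ^ (k ^ 2) ≤ j → a k j = 0) :
    mm p ((Set.Iic k).indicator a) =
      ∑ i ∈ range (k + 1), ∑ j ∈ range (2 ^ (i ^ 2)), ‖a i j‖ₑ ^ p := by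
  rw [mm_indicator hp0, tsum_eq_sum (s := range (k + 1))]
  · refine Finset.sum_congr rfl fun i hi => ?_
    rw [Set.indicator_of_mem (by rw [Finset.mem_range] at hi; rw [Set.mem_Iic]; omega),
      nn_eq_sum hp0 (ha i)]
  · intro i hi
    rw [Set.indicator_of_notMem (by rw [Finset.mem_range] at hi; rw [Set.mem_Iic]; omega)]

lemma head_tendsto (hp0 : 0 < p) (k : ℕ) {a : ℕ → Arr}
    (ha : ∀ n k j, 2 ^ (k ^ 2) ≤ j → a n k j = 0)
    (hlim : ∀ k j, Tendsto (fun n => a n k j) atTop (𝓝 0)) :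
    Tendsto (fun n => mm p ((Set.Iic k).indicator (a n))) atTop (𝓝 0) := by
  simp only [fun n => head_eq hp0 k (ha n)]
  have h : (0 : ℝ≥0∞) = ∑ i ∈ range (k + 1), ∑ j ∈ range (2 ^ (i ^ 2)), 0 := by simp
  rw [h]
  refine tendsto_finsetSum _ fun i _ => tendsto_finsetSum _ fun j _ => ?_
  have h1 : Tendsto (fun n => ‖a n i j‖ₑ) atTop (𝓝 0) := by
    have := (hlim i j).enorm
    rwa [enorm_zero] at this
  have h2 := ((ENNReal.continuous_rpow_const (y := p)).tendsto 0).comp h1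
  rw [ENNReal.zero_rpow_of_pos hp0] at h2
  exact h2

lemma tail_small (hp0 : 0 < p) {a : Arr} (ha : Adm p a) {ε : ℝ≥0∞} (hε : 0 < ε) :
    ∃ K, ∀ k, K ≤ k → mm p ((Set.Ioi k).indicator a) ≤ ε := by
  have h1 := ENNReal.tendsto_sum_nat_add (fun i => nn p (a i)) ha.1
  obtain ⟨K, hK⟩ := Filter.eventually_atTop.1 (h1.eventually (ge_mem_nhds hε))
  refine ⟨K, fun k hk => ?_⟩
  refine le_trans ?_ (hK (k + 1) (by omega))
  rw [mm_indicator hp0, ← ENNReal.summable.sum_add_tsum_nat_add' (k := k + 1)]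
  have h2 : ∑ i ∈ range (k + 1), (Set.Ioi k).indicator (fun i => nn p (a i)) i = 0 := by
    refine Finset.sum_eq_zero fun i hi => ?_
    rw [Set.indicator_of_notMem (by rw [Finset.mem_range] at hi; rw [Set.mem_Ioi]; omega)]
  rw [h2, zero_add]
  refine ENNReal.tsum_le_tsum fun i => ?_
  exact Set.indicator_le_self' (fun _ _ => zero_le) _

lemma mm_eq_tsum (a : Arr) : mm p a = ∑' q : ℕ × ℕ, ‖a q.1 q.2‖ₑ ^ p := by
  rw [ENNReal.tsum_prod']
  rfl

lemma exists_limit (hp0 : 0 < p) {a : ℕ → Arr} {C : ℝ≥0∞} (hC : C ≠ ∞)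
    (ha : ∀ n k j, 2 ^ (k ^ 2) ≤ j → a n k j = 0) (hm : ∀ n, mm p (a n) ≤ C) :
    ∃ φ : ℕ → ℕ, StrictMono φ ∧ ∃ b : Arr, Adm p b ∧ mm p b ≤ C ∧
      ∀ k j, Tendsto (fun n => a (φ n) k j) atTop (𝓝 (b k j)) := by
  set K : ℝ := (C ^ (1 / p)).toReal with hK
  have hbound : ∀ n k j, a n k j ∈ Set.Icc (-K) K := by
    intro n k j
    rw [Set.mem_Icc, ← abs_le]
    have h1 : ‖a n k j‖ₑ ^ p ≤ C := (le_nn p _ j).trans ((nn_le_mm p _ k).trans (hm n))
    have h2 : ‖a n k j‖ₑ ≤ C ^ (1 / p) := by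
      rwa [one_div, ENNReal.le_rpow_inv_iff hp0]
    have h3 : C ^ (1 / p) ≠ ∞ := ENNReal.rpow_ne_top_of_nonneg (by positivity) hC
    have h4 := ENNReal.toReal_mono h3 h2
    rwa [toReal_enorm] at h4
  have hcomp : IsCompact (Set.univ.pi fun _ : ℕ => Set.univ.pi fun _ : ℕ => Set.Icc (-K) K) :=
    isCompact_univ_pi fun _ => isCompact_univ_pi fun _ => isCompact_Icc
  obtain ⟨b, -, φ, hφ, hlim⟩ := hcomp.tendsto_subseq (x := a)
    (fun n => fun k _ => fun j _ => hbound n k j)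
  have hlim' : ∀ k j, Tendsto (fun n => a (φ n) k j) atTop (𝓝 (b k j)) := by
    intro k j
    have h1 := (tendsto_pi_nhds.1 hlim) k
    exact (tendsto_pi_nhds.1 h1) j
  have hmb : mm p b ≤ C := by
    rw [mm_eq_tsum, ENNReal.tsum_eq_iSup_sum]
    refine iSup_le fun s => ?_
    have h1 : Tendsto (fun n => ∑ q ∈ s, ‖a (φ n) q.1 q.2‖ₑ ^ p) atTop
        (𝓝 (∑ q ∈ s, ‖b q.1 q.2‖ₑ ^ p)) := by
      refine tendsto_finsetSum _ fun q _ => ?_
      exact ((ENNReal.continuous_rpow_const (y := p)).tendsto _).comp (hlim' q.1 q.2).enorm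
    refine le_of_tendsto' h1 fun n => ?_
    refine le_trans ?_ (hm (φ n))
    rw [mm_eq_tsum]
    exact ENNReal.sum_le_tsum s
  refine ⟨φ, hφ, b, ⟨ne_top_of_le_ne_top hC hmb, fun k j hj => ?_⟩, hmb, hlim'⟩
  refine tendsto_nhds_unique (hlim' k j) ?_
  simp only [ha _ k j hj]
  exact tendsto_const_nhds

end Pool.Agent.R271.DyadicAtoms
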