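import Pool.Agent.R271.DyadicAtoms

/-!
# Subsequences with lower `p`-estimates
-/

open Filter Topology Finset
open scoped ENNReal

namespace Pool.Agent.R271.DyadicAtoms

variable {p : ℝ}

lemma one_lt_theta (hp1 : p < 1) : 1 < theta p := by
  have h1 : ‖(1 / 2 : ℝ)‖ₑ = 1 / 2 := by
    rw [← ofReal_norm, Real.norm_of_nonneg (by norm_num)]
    rw [ENNReal.ofReal_div_of_pos two_pos]
    simp
  rw [theta, h1]
  have h2 : (1 / 2 : ℝ≥0∞) ^ (1 : ℝ) < (1 / 2) ^ p :=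
    ENNReal.rpow_lt_rpow_of_exponent_gt (by simp) (by simp) hp1
  rw [ENNReal.rpow_one] at h2
  calc (1 : ℝ≥0∞) = 2 * (1 / 2) := by
        rw [one_div, ENNReal.mul_inv_cancel two_ne_zero ENNReal.ofNat_ne_top]
    _ < _ := (ENNReal.mul_lt_mul_iff_right two_ne_zero ENNReal.ofNat_ne_top).2 h2

lemma exists_eta {B δ : ℝ≥0∞} (hB : B ≠ ∞) (hδ : 0 < δ) :
    ∃ η : ℝ≥0∞, 0 < η ∧ 2 * η ≤ 1 ∧ 2 * (η * B) ≤ δ := by
  have h0 : 2 * (B + 1) ≠ 0 := by simp
  have h1 : 2 * (B + 1) ≠ ∞ := ENNReal.mul_ne_top (by norm_num) (by simp [hB])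
  refine ⟨min (1 / 2) (δ / (2 * (B + 1))), lt_min (by simp) (ENNReal.div_pos hδ.ne' h1), ?_, ?_⟩
  · calc 2 * min (1 / 2) (δ / (2 * (B + 1))) ≤ 2 * (1 / 2) := mul_le_mul_right (min_le_left _ _) _
      _ = 1 := by rw [one_div, ENNReal.mul_inv_cancel two_ne_zero ENNReal.ofNat_ne_top]
  · calc 2 * (min (1 / 2) (δ / (2 * (B + 1))) * B) ≤ 2 * (δ / (2 * (B + 1)) * (B + 1)) := by
          gcongr
          · exact min_le_right _ _
          · exact le_self_add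
      _ = δ / (2 * (B + 1)) * (2 * (B + 1)) := by ring
      _ = δ := ENNReal.div_mul_cancel h0 h1

lemma exists_k {η : ℝ≥0∞} (hη : 0 < η) (hp0 : 0 < p) (hp1 : p < 1) :
    ∃ k₀ : ℕ, ∀ k : ℕ → ℕ, (∀ j, k₀ + j ≤ k j) → ∀ n,
      ∑ j ∈ range n, (theta p ^ (2 * k j + 1))⁻¹ ≤ η := by
  set r : ℝ≥0∞ := (theta p)⁻¹ with hr
  have hr1 : r < 1 := ENNReal.inv_lt_one.2 (one_lt_theta hp1)
  have hfin : (1 - r)⁻¹ ≠ ∞ := ENNReal.inv_ne_top.2 (by rw [Ne, tsub_eq_zero_iff_le, not_le]; exact hr1)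
  have h1 : Tendsto (fun k : ℕ => r ^ k * (1 - r)⁻¹) atTop (𝓝 0) := by
    have := ENNReal.Tendsto.mul_const (b := (1 - r)⁻¹)
      (ENNReal.tendsto_pow_atTop_nhds_zero_of_lt_one hr1) (Or.inr hfin)
    rwa [zero_mul] at this
  obtain ⟨k₀, hk₀⟩ := (h1.eventually (ge_mem_nhds hη)).exists
  refine ⟨k₀, fun k hk n => le_trans ?_ hk₀⟩
  calc ∑ j ∈ range n, (theta p ^ (2 * k j + 1))⁻¹ ≤ ∑ j ∈ range n, r ^ k₀ * r ^ j := by
        refine Finset.sum_le_sum fun j _ => ?_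
        rw [hr, ← ENNReal.inv_pow, ← ENNReal.inv_pow, ← ENNReal.mul_inv (Or.inl ?_) (Or.inl ?_),
          ENNReal.inv_le_inv, ← pow_add]
        · exact pow_le_pow_right₀ (one_lt_theta hp1).le (by have := hk j; omega)
        · exact (lt_of_lt_of_le zero_lt_one (one_le_pow₀ (one_lt_theta hp1).le)).ne'
        · exact ENNReal.pow_ne_top (theta_ne_top hp0)
    _ ≤ ∑' j, r ^ k₀ * r ^ j := ENNReal.sum_le_tsum _
    _ = r ^ k₀ * (1 - r)⁻¹ := by rw [ENNReal.tsum_mul_left, ENNReal.tsum_geometric]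

lemma enorm_sum_rpow_le (hp0 : 0 < p) (hp1 : p ≤ 1) (c : ℕ → ℝ) (n : ℕ) :
    ‖∑ j ∈ range n, c j‖ₑ ^ p ≤ ∑ j ∈ range n, ‖c j‖ₑ ^ p := by
  induction n with
  | zero => simp [hp0]
  | succ n ih =>
    rw [Finset.sum_range_succ, Finset.sum_range_succ]
    exact (ENNReal.rpow_le_rpow (enorm_add_le _ _) hp0.le).trans
      ((ENNReal.rpow_add_le_add_rpow _ _ hp0.le hp1).trans (add_le_add_left ih _))

lemma split_three {k k' : ℕ} (h : k ≤ k') (a : Arr) :
    a = (Set.Iic k).indicator a + (Set.Ioc k k').indicator a + (Set.Ioi k').indicator a := by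
  have hdisj : Disjoint (Set.Iic k) (Set.Ioc k k') :=
    Set.disjoint_left.2 fun x hx hx' => absurd hx'.1 (not_lt.2 hx)
  have h1 : (Set.Iic k).indicator a + (Set.Ioc k k').indicator a = (Set.Iic k').indicator a := by
    rw [← Set.Iic_union_Ioc_eq_Iic h, Set.indicator_union_of_disjoint hdisj]
    rfl
  rw [h1, ← Set.compl_Iic, Set.indicator_self_add_compl]

lemma main_seq (hp0 : 0 < p) (hp1 : p < 1) {a : ℕ → Arr} (ha : ∀ n, Adm p (a n)) {C : ℝ≥0∞}
    (hC : C ≠ ∞) (hm : ∀ n, mm p (a n) ≤ C) {δ : ℝ≥0∞} (hδ0 : 0 < δ) (hδt : δ ≠ ∞)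
    (hsep : ∀ n m, n ≠ m → ∀ b, Adm p b → Qf b = Qf (a n) - Qf (a m) → δ ≤ mm p b) :
    ∃ ψ : ℕ → ℕ, ∀ (c : ℕ → ℝ) (n : ℕ) (α : Arr), Adm p α →
      Qf α = Qf (∑ j ∈ range n, c j • a (ψ j)) →
        δ / 8 * ∑ j ∈ range n, ‖c j‖ₑ ^ p ≤ 2 * mm p α := by
  have hp1' := hp1.le
  obtain ⟨φ, hφ, b, hb, hbC, hlim⟩ := exists_limit hp0 hC (fun n => (ha n).2) hm
  set x : ℕ → Arr := fun n => a (φ n) - b with hx
  have hxa : ∀ n, Adm p (x n) := fun n => (ha _).sub hp0 hp1' hb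
  have hxB : ∀ n, mm p (x n) ≤ 2 * C := fun n =>
    (mm_sub_le hp0 hp1' _ _).trans (by rw [two_mul]; exact add_le_add (hm _) hbC)
  have hxlim : ∀ k j, Tendsto (fun n => x n k j) atTop (𝓝 0) := by
    intro k j
    have := (hlim k j).sub_const (b k j)
    rwa [sub_self] at this
  -- good indices
  have hgood : ∃ n₀, ∀ n, n₀ ≤ n → ∀ d, Adm p d → Qf d = Qf (x n) → δ / 2 ≤ mm p d := by
    by_contra hcon
    push Not at hcon
    obtain ⟨n₁, -, d₁, hd₁, hQ₁, hl₁⟩ := hcon 0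
    obtain ⟨n₂, hn₂, d₂, hd₂, hQ₂, hl₂⟩ := hcon (n₁ + 1)
    have h1 := hsep (φ n₁) (φ n₂) (fun h => by have := hφ.injective h; omega) (d₁ - d₂)
      (hd₁.sub hp0 hp1' hd₂) (by
        rw [Qf_sub hp0 hp1' hd₁ hd₂, hQ₁, hQ₂, hx]
        dsimp only
        rw [Qf_sub hp0 hp1' (ha _) hb, Qf_sub hp0 hp1' (ha _) hb]
        abel)
    have h2 : mm p (d₁ - d₂) < δ := by
      refine (mm_sub_le hp0 hp1' _ _).trans_lt ?_
      calc mm p d₁ + mm p d₂ < δ / 2 + δ / 2 := ENNReal.add_lt_add hl₁ hl₂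
        _ = δ := ENNReal.add_halves δ
    exact absurd h1 (not_le.2 h2)
  obtain ⟨n₀, hn₀⟩ := hgood
  obtain ⟨η, hη0, hη1, hη2⟩ := exists_eta (B := 2 * C) (δ := δ / 16)
    (ENNReal.mul_ne_top (by norm_num) hC) (ENNReal.div_pos hδ0.ne' (by norm_num))
  obtain ⟨k₁, hk₁⟩ := exists_k hη0 hp0 hp1
  set ε : ℝ≥0∞ := δ / 128 with hε
  have hε0 : 0 < ε := ENNReal.div_pos hδ0.ne' (by norm_num)
  obtain ⟨k₂, hk₂⟩ := tail_small hp0 hb hε0
  have hstep : ∀ q : ℕ × ℕ, ∃ q' : ℕ × ℕ, q.1 < q'.1 ∧ q.2 < q'.2 ∧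
      mm p ((Set.Iic q.2).indicator (x q'.1)) ≤ ε ∧
        mm p ((Set.Ioi q'.2).indicator (x q'.1)) ≤ ε := by
    rintro ⟨n, k⟩
    have h1 := head_tendsto hp0 k (fun n => (hxa n).2) hxlim
    obtain ⟨n', h2, h3⟩ := ((h1.eventually (ge_mem_nhds hε0)).and
      (eventually_gt_atTop n)).exists
    obtain ⟨K, hK⟩ := tail_small hp0 (hxa n') hε0
    exact ⟨(n', max K (k + 1)), h3, by
      show k < max K (k + 1)
      have := le_max_right K (k + 1)
      omega, h2, hK _ (le_max_left _ _)⟩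
  choose q' hq1 hq2 hq3 hq4 using hstep
  let st : ℕ → ℕ × ℕ := fun j => Nat.rec (n₀, max k₁ k₂) (fun _ q => q' q) j
  let k : ℕ → ℕ := fun j => (st j).2
  let ν : ℕ → ℕ := fun j => (st (j + 1)).1
  have hk : StrictMono k := strictMono_nat_of_lt_succ fun j => hq2 (st j)
  have hν0 : ∀ j, n₀ ≤ (st j).1 := by
    intro j
    induction j with
    | zero => exact le_rfl
    | succ j ih => exact ih.trans (hq1 (st j)).le
  have hνn : ∀ j, n₀ ≤ ν j := fun j => hν0 (j + 1)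
  have hkj : ∀ j, k₁ + j ≤ k j := by
    intro j
    induction j with
    | zero => exact le_max_left _ _
    | succ j ih =>
      have : k j < k (j + 1) := hk (Nat.lt_succ_self j)
      omega
  set H : ℕ → Arr := fun j => (Set.Iic (k j)).indicator (x (ν j)) with hH
  set β : ℕ → Arr := fun j => (Set.Ioc (k j) (k (j + 1))).indicator (x (ν j)) with hβ
  set R : ℕ → Arr := fun j => (Set.Ioi (k (j + 1))).indicator (x (ν j)) with hR
  have hHa : ∀ j, Adm p (H j) := fun j => (hxa _).indicator hp0 _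
  have hβa : ∀ j, Adm p (β j) := fun j => (hxa _).indicator hp0 _
  have hRa : ∀ j, Adm p (R j) := fun j => (hxa _).indicator hp0 _
  have hHε : ∀ j, mm p (H j) ≤ ε := fun j => hq3 (st j)
  have hRε : ∀ j, mm p (R j) ≤ ε := fun j => hq4 (st j)
  have hxs : ∀ j, x (ν j) = H j + β j + R j := fun j => split_three (hk.monotone (Nat.le_succ j)) _
  have hβB : ∀ j, mm p (β j) ≤ 2 * C := fun j => (mm_indicator_le hp0 _ _).trans (hxB _)
  have hβδ : ∀ j d, Adm p d → Qf d = Qf (β j) → δ / 4 ≤ mm p d := by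
    intro j d hd hQ
    have h1 := hn₀ (ν j) (hνn j) (H j + d + R j) (((hHa j).add hp0 hp1' hd).add hp0 hp1' (hRa j))
      (by
        rw [hxs, Qf_add hp0 hp1' ((hHa j).add hp0 hp1' hd) (hRa j), Qf_add hp0 hp1' (hHa j) hd, hQ,
          Qf_add hp0 hp1' ((hHa j).add hp0 hp1' (hβa j)) (hRa j),
          Qf_add hp0 hp1' (hHa j) (hβa j)])
    have h2 : mm p (H j + d + R j) ≤ δ / 4 + mm p d := by
      refine (mm_add_le hp0 hp1' _ _).trans ?_
      refine (add_le_add_left (mm_add_le hp0 hp1' _ _) _).trans ?_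
      calc mm p (H j) + mm p d + mm p (R j) ≤ ε + mm p d + ε := by
            gcongr
            · exact hHε j
            · exact hRε j
        _ = (ε + ε) + mm p d := by ring
        _ ≤ δ / 4 + mm p d := by
          refine add_le_add_left ?_ _
          rw [hε, ← two_mul, div_eq_mul_inv, div_eq_mul_inv, mul_left_comm]
          refine mul_le_mul_right ?_ _
          rw [← ENNReal.toReal_le_toReal (ENNReal.mul_ne_top (by norm_num) (by norm_num))
            (by norm_num)]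
          simp
          norm_num
    have h3 : δ / 4 + δ / 4 ≤ δ / 4 + mm p d := by
      refine le_trans (le_of_eq ?_) (h1.trans h2)
      rw [← ENNReal.add_div, ← two_mul]
      have : (4 : ℝ≥0∞) = 2 * 2 := by norm_num
      rw [this, ENNReal.mul_div_mul_left _ _ (by norm_num) (by norm_num)]
    exact (ENNReal.add_le_add_iff_left (ENNReal.div_ne_top hδt (by norm_num))).1 h3
  refine ⟨fun j => φ (ν j), fun c n α hα hQα => ?_⟩
  set s : ℝ≥0∞ := ∑ j ∈ range n, ‖c j‖ₑ ^ p with hs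
  have hst : s ≠ ∞ := ENNReal.sum_ne_top.2 fun j _ =>
    ENNReal.rpow_ne_top_of_nonneg hp0.le enorm_ne_top
  set b₀ : Arr := (Set.Iic (k 0)).indicator b with hb₀
  set b₁ : Arr := (Set.Ioi (k 0)).indicator b with hb₁
  have hb01 : b = b₀ + b₁ := by
    rw [hb₀, hb₁, ← Set.compl_Iic, Set.indicator_self_add_compl]
  have hb₀a : Adm p b₀ := hb.indicator hp0 _
  have hb₁a : Adm p b₁ := hb.indicator hp0 _
  have hb₁ε : mm p b₁ ≤ ε := hk₂ _ (le_max_right _ _)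
  set c₀ : ℝ := ∑ j ∈ range n, c j with hc₀
  set ρ : Arr := c₀ • b₁ + ∑ j ∈ range n, c j • (H j + R j) with hρ
  have hρa : Adm p ρ := (hb₁a.smul hp0 _).add hp0 hp1'
    (Adm.sum hp0 hp1' _ fun j _ => ((hHa j).add hp0 hp1' (hRa j)).smul hp0 _)
  have hρm : mm p ρ ≤ 3 * (ε * s) := by
    refine (mm_add_le hp0 hp1' _ _).trans ?_
    have h1 : mm p (c₀ • b₁) ≤ s * ε := by
      rw [mm_smul hp0]
      exact mul_le_mul' (enorm_sum_rpow_le hp0 hp1' c n) hb₁ε
    have h2 : mm p (∑ j ∈ range n, c j • (H j + R j)) ≤ s * (ε + ε) := by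
      refine (mm_sum_le hp0 hp1' _ _).trans ?_
      rw [hs, Finset.sum_mul]
      refine Finset.sum_le_sum fun j _ => ?_
      rw [mm_smul hp0]
      exact mul_le_mul_right ((mm_add_le hp0 hp1' _ _).trans (add_le_add (hHε j) (hRε j))) _
    calc _ ≤ s * ε + s * (ε + ε) := add_le_add h1 h2
      _ = 3 * (ε * s) := by ring
  have hsum : ∑ j ∈ range n, c j • a (φ (ν j)) =
      (c₀ • b₀ + ∑ j ∈ range n, c j • β j) + ρ := by
    have h1 : ∀ j, a (φ (ν j)) = b₀ + b₁ + (H j + β j + R j) := by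
      intro j
      rw [← hxs, ← hb01, hx]
      dsimp only
      abel
    simp only [h1, smul_add, Finset.sum_add_distrib, hρ, ← Finset.sum_smul, hc₀]
    abel
  have hca : ∀ j, Adm p (c j • β j) := fun j => (hβa j).smul hp0 _
  have hsa : Adm p (c₀ • b₀ + ∑ j ∈ range n, c j • β j) :=
    (hb₀a.smul hp0 _).add hp0 hp1' (Adm.sum hp0 hp1' _ fun j _ => hca j)
  have hcore := core hp0 hp1' hk hβa (fun j i hi => Set.indicator_of_notMem hi _) hβB hβδ
    (hb₀a.smul hp0 c₀) (by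
      intro i hi
      rw [Pi.smul_apply, hb₀, Set.indicator_of_notMem (by rw [Set.mem_Iic]; omega), smul_zero])
    c n (α := α - ρ) (hα.sub hp0 hp1' hρa) (by
      rw [Qf_sub hp0 hp1' hα hρa, hQα, hsum, Qf_add hp0 hp1' hsa hρa]
      abel)
  have hη := hk₁ k hkj (n + 1)
  set M : ℝ≥0∞ := mm p (α - ρ) with hM
  have hM1 : M ≤ mm p α + 3 * (ε * s) := (mm_sub_le hp0 hp1' _ _).trans (add_le_add_right hρm _)
  have h5 : δ / 4 * s ≤ 2 * M + δ / 16 * s := by
    refine hcore.trans ?_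
    calc M + 2 * ((∑ j ∈ range (n + 1), (theta p ^ (2 * k j + 1))⁻¹) * (M + 2 * C * s))
        ≤ M + 2 * (η * (M + 2 * C * s)) := by gcongr
      _ = M + ((2 * η) * M + 2 * (η * (2 * C)) * s) := by ring
      _ ≤ M + (1 * M + δ / 16 * s) := by gcongr
      _ = 2 * M + δ / 16 * s := by ring
  have h6 : δ / 4 * s ≤ 2 * mm p α + (6 * ε + δ / 16) * s := by
    refine h5.trans ?_
    calc 2 * M + δ / 16 * s ≤ 2 * (mm p α + 3 * (ε * s)) + δ / 16 * s := by gcongr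
      _ = 2 * mm p α + (6 * ε + δ / 16) * s := by ring
  have h7 : 6 * ε + δ / 16 ≤ δ / 8 := by
    rw [hε, div_eq_mul_inv, div_eq_mul_inv, div_eq_mul_inv, mul_left_comm, ← mul_add]
    refine mul_le_mul_right ?_ _
    rw [← ENNReal.toReal_le_toReal (by
      refine ENNReal.add_ne_top.2 ⟨ENNReal.mul_ne_top (by norm_num) (by norm_num), by norm_num⟩)
      (by norm_num), ENNReal.toReal_add (ENNReal.mul_ne_top (by norm_num) (by norm_num))
      (by norm_num)]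
    simp
    norm_num
  have h8 : δ / 8 * s + δ / 8 * s ≤ 2 * mm p α + δ / 8 * s := by
    calc δ / 8 * s + δ / 8 * s = δ / 4 * s := by
          rw [← add_mul, ← ENNReal.add_div, ← two_mul]
          have : (8 : ℝ≥0∞) = 2 * 4 := by norm_num
          rw [this, ENNReal.mul_div_mul_left _ _ (by norm_num) (by norm_num)]
      _ ≤ 2 * mm p α + (6 * ε + δ / 16) * s := h6
      _ ≤ 2 * mm p α + δ / 8 * s := by gcongr
  exact (ENNReal.add_le_add_iff_right
    (ENNReal.mul_ne_top (ENNReal.div_ne_top hδt (by norm_num)) hst)).1 h8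

end Pool.Agent.R271.DyadicAtoms
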