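import Mathlib

/-!
# Quasi-Banach spaces, the Schur `p`-property, and Banach envelopes
-/

open Filter Topology

namespace Pool.Agent.R271.Envelope

section defs

variable {X : Type} [AddCommGroup X] [Module ℝ X]

/-- `N` is a complete quasi-norm on the real vector space `X`. -/
structure IsQuasiBanach (N : X → ℝ) : Prop where
  nonneg : ∀ x, 0 ≤ N x
  eq_zero : ∀ x, N x = 0 → x = 0
  smul : ∀ (c : ℝ) (x : X), N (c • x) = |c| * N x
  add_le : ∃ κ : ℝ, 1 ≤ κ ∧ ∀ x y, N (x + y) ≤ κ * (N x + N y)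
  complete : ∀ u : ℕ → X,
    (∀ ε : ℝ, 0 < ε → ∃ n₀, ∀ m n, n₀ ≤ m → n₀ ≤ n → N (u m - u n) < ε) →
      ∃ x, Tendsto (fun n => N (u n - x)) atTop (𝓝 0)

/-- The set `S` is bounded for `N`. -/
def BoundedFor (N : X → ℝ) (S : Set X) : Prop := ∃ C, ∀ x ∈ S, N x ≤ C

/-- The set `S` is uniformly separated for `N`. -/
def UniformlySeparated (N : X → ℝ) (S : Set X) : Prop :=
  ∃ δ : ℝ, 0 < δ ∧ ∀ x ∈ S, ∀ y ∈ S, x ≠ y → δ ≤ N (x - y)

/-- The sequence `x` is equivalent to the canonical basis of `ℓ_p`. -/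
def EquivLp (N : X → ℝ) (p : ℝ) (x : ℕ → X) : Prop :=
  ∃ c C : ℝ, 0 < c ∧ 0 < C ∧ ∀ a : ℕ →₀ ℝ,
    c * (a.sum fun _ t => |t| ^ p) ^ (1 / p) ≤ N (a.sum fun n t => t • x n) ∧
      N (a.sum fun n t => t • x n) ≤ C * (a.sum fun _ t => |t| ^ p) ^ (1 / p)

/-- The Schur `p`-property. -/
def SchurP (N : X → ℝ) (p : ℝ) : Prop :=
  ∀ S : Set X, S.Infinite → BoundedFor N S → UniformlySeparated N S →
    ∃ x : ℕ → X, (∀ n, x n ∈ S) ∧ EquivLp N p x

/-- The Schur property of a normed space. -/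
def Schur (Y : Type) [NormedAddCommGroup Y] [NormedSpace ℝ Y] : Prop :=
  ∀ y : ℕ → Y, (∀ f : StrongDual ℝ Y, Tendsto (fun n => f (y n)) atTop (𝓝 0)) →
    Tendsto y atTop (𝓝 0)

/-- The Banach space `Y` with the map `J` is a Banach envelope of `X`. -/
def IsEnvelope (N : X → ℝ) (Y : Type) [NormedAddCommGroup Y] [NormedSpace ℝ Y]
    (J : X →ₗ[ℝ] Y) : Prop :=
  CompleteSpace Y ∧ (∀ x, ‖J x‖ ≤ N x) ∧
    ∀ (Z : Type) [NormedAddCommGroup Z] [NormedSpace ℝ Z] [CompleteSpace Z] (T : X →ₗ[ℝ] Z),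
      (∀ x, ‖T x‖ ≤ N x) → ∃ T' : Y →ₗ[ℝ] Z, (∀ y, ‖T' y‖ ≤ ‖y‖) ∧ ∀ x, T' (J x) = T x

end defs

/-! ### Existence of the envelope -/

section existence

variable {X : Type} [AddCommGroup X] [Module ℝ X]

/-- The contractive linear functionals. -/
def Fn (N : X → ℝ) : Type := {φ : X →ₗ[ℝ] ℝ // ∀ x, |φ x| ≤ N x}

/-- The seminorm of the envelope. -/
noncomputable def sn (N : X → ℝ) (x : X) : ℝ := ⨆ φ : Fn N, |φ.1 x|

variable {N : X → ℝ}

lemma sn_bdd (x : X) : BddAbove (Set.range fun φ : Fn N => |φ.1 x|) :=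
  ⟨N x, by rintro _ ⟨φ, rfl⟩; exact φ.2 x⟩

lemma le_sn (φ : Fn N) (x : X) : |φ.1 x| ≤ sn N x := le_ciSup (sn_bdd x) φ

lemma Fn_nonempty (h : IsQuasiBanach N) : Nonempty (Fn N) :=
  ⟨⟨0, fun x => by simpa using h.nonneg x⟩⟩

lemma sn_le (h : IsQuasiBanach N) (x : X) : sn N x ≤ N x := by
  have := Fn_nonempty h
  exact ciSup_le fun φ => φ.2 x

lemma sn_add (h : IsQuasiBanach N) (x y : X) : sn N (x + y) ≤ sn N x + sn N y := by
  have := Fn_nonempty h
  refine ciSup_le fun φ => ?_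
  rw [map_add]
  exact (abs_add_le _ _).trans (add_le_add (le_sn φ x) (le_sn φ y))

lemma sn_smul_le (h : IsQuasiBanach N) (c : ℝ) (x : X) : sn N (c • x) ≤ |c| * sn N x := by
  have := Fn_nonempty h
  refine ciSup_le fun φ => ?_
  rw [map_smul, smul_eq_mul, abs_mul]
  exact mul_le_mul_of_nonneg_left (le_sn φ x) (abs_nonneg c)

lemma sn_zero (h : IsQuasiBanach N) : sn N 0 = 0 := by
  have := Fn_nonempty h
  rw [sn]
  simp

variable (h : IsQuasiBanach N)

/-- The seminorm as a bundled seminorm. -/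
noncomputable def snS : Seminorm ℝ X :=
  Seminorm.ofSMulLE (sn N) (sn_zero h) (sn_add h) (sn_smul_le h)

/-- The space `X` with the seminorm of the envelope. -/
def XE (_ : IsQuasiBanach N) : Type := X

noncomputable instance : SeminormedAddCommGroup (XE h) :=
  (snS h).toAddGroupSeminorm.toSeminormedAddCommGroup

lemma norm_XE (x : XE h) : ‖x‖ = sn N (x : X) := rfl

noncomputable instance instModXE : Module ℝ (XE h) := (inferInstance : Module ℝ X)

noncomputable instance : NormedSpace ℝ (XE h) where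
  norm_smul_le c x := sn_smul_le h c x

/-- An element of `X` as an element of the seminormed space. -/
def toXE (x : X) : XE h := x

/-- The Banach envelope. -/
abbrev Env : Type := UniformSpace.Completion (XE h)

/-- The envelope map. -/
noncomputable def envMap : X →ₗ[ℝ] Env h where
  toFun x := (toXE h x : Env h)
  map_add' x y := UniformSpace.Completion.coe_add (toXE h x) (toXE h y)
  map_smul' c x := UniformSpace.Completion.coe_smul c (toXE h x)

lemma norm_envMap (x : X) : ‖envMap h x‖ = sn N x :=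
  UniformSpace.Completion.norm_coe (E := XE h) x

lemma isEnvelope : IsEnvelope N (Env h) (envMap h) := by
  refine ⟨inferInstance, fun x => (norm_envMap h x).le.trans (sn_le h x), ?_⟩
  intro Z _ _ _ T hT
  have hTn : ∀ x : XE h, ‖T (x : X)‖ ≤ 1 * ‖x‖ := by
    intro x
    rw [one_mul, norm_XE]
    obtain ⟨g, hg1, hg2⟩ := exists_dual_vector'' ℝ (T x)
    let φ : Fn N := ⟨g.toLinearMap ∘ₗ T, fun y => by
      refine le_trans ?_ (hT y)
      have := g.le_opNorm (T y)
      calc |g (T y)| ≤ ‖g‖ * ‖T y‖ := this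
        _ ≤ 1 * ‖T y‖ := mul_le_mul_of_nonneg_right hg1 (norm_nonneg _)
        _ = ‖T y‖ := one_mul _⟩
    have h1 := le_sn φ x
    have h2 : φ.1 x = ‖T x‖ := hg2
    rw [h2, abs_of_nonneg (norm_nonneg _)] at h1
    exact h1
  let T₀ : XE h →ₗ[ℝ] Z :=
    { toFun := fun x => T (x : X)
      map_add' := fun x y => map_add T (x : X) (y : X)
      map_smul' := fun c x => map_smul T c (x : X) }
  let T₁ : XE h →L[ℝ] Z := LinearMap.mkContinuous T₀ 1 hTn
  let e : XE h →L[ℝ] Env h := UniformSpace.Completion.toComplL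
  have he : DenseRange e := UniformSpace.Completion.denseRange_coe
  have hi : IsUniformInducing e := UniformSpace.Completion.isUniformInducing_coe _
  have hext : ∀ x : X, T₁.extend e (envMap h x) = T x :=
    fun x => ContinuousLinearMap.extend_eq T₁ he hi x
  refine ⟨(T₁.extend e : Env h →ₗ[ℝ] Z), ?_, hext⟩
  have hclosed : IsClosed {y : Env h | ‖T₁.extend e y‖ ≤ ‖y‖} :=
    isClosed_le (by fun_prop) (by fun_prop)
  intro y
  refine isClosed_property he hclosed (fun x => ?_) y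
  have h1 := hTn x
  rw [one_mul] at h1
  rw [ContinuousLinearMap.extend_eq T₁ he hi x]
  exact h1.trans (UniformSpace.Completion.norm_coe (E := XE h) x).symm.le

end existence

end Pool.Agent.R271.Envelope
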