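import Mathlib

/-!
# The free Banach lattice generated by a Banach space
-/

open Filter Topology Finset

namespace Pool.Agent.R271.FBL

section defs

variable (E : Type) [NormedAddCommGroup E] [NormedSpace ℝ E]

/-- Functions on the dual space. -/
abbrev Fun : Type := StrongDual ℝ E → ℝ

variable {E}

/-- The finite families of functionals with `∑ |φ_i(x)| ≤ 1` for all `x` in the unit ball. -/
def Admissible {n : ℕ} (φ : Fin n → StrongDual ℝ E) : Prop :=
  ∀ x : E, ‖x‖ ≤ 1 → ∑ i, |φ i x| ≤ 1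

/-- The sums `∑ |f(φ_i)|` over the admissible families. -/
def sums (f : Fun E) : Set ℝ :=
  {r | ∃ (n : ℕ) (φ : Fin n → StrongDual ℝ E), Admissible φ ∧ r = ∑ i, |f (φ i)|}

/-- Positively homogeneous functions. -/
def PosHom (f : Fun E) : Prop := ∀ (c : ℝ) (φ : StrongDual ℝ E), 0 ≤ c → f (c • φ) = c * f φ

/-- The evaluation at `x`. -/
def dl (x : E) : Fun E := fun φ => φ x

lemma admissible_le {n : ℕ} {φ : Fin n → StrongDual ℝ E} (h : Admissible φ) (x : E) :
    ∑ i, |φ i x| ≤ ‖x‖ := by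
  rcases (norm_nonneg x).eq_or_lt with h0 | h0
  · have : x = 0 := norm_eq_zero.1 h0.symm
    subst this
    simp
  · have h1 := h (‖x‖⁻¹ • x) (by
      rw [norm_smul, norm_inv, norm_norm, inv_mul_cancel₀ h0.ne'])
    simp only [map_smul, smul_eq_mul, abs_mul, abs_inv, abs_norm] at h1
    rw [← Finset.mul_sum, inv_mul_le_iff₀ h0, mul_one] at h1
    exact h1

lemma zero_mem_sums (f : Fun E) : (0 : ℝ) ∈ sums f :=
  ⟨0, fun i => i.elim0, fun _ _ => by simp, by simp⟩

lemma sums_nonneg {f : Fun E} {r : ℝ} (h : r ∈ sums f) : 0 ≤ r := by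
  obtain ⟨n, φ, -, rfl⟩ := h
  exact Finset.sum_nonneg fun _ _ => abs_nonneg _

/-- The norm formula. -/
noncomputable def nrm (f : Fun E) : ℝ := sSup (sums f)

lemma le_nrm {f : Fun E} (hf : BddAbove (sums f)) {n : ℕ} {φ : Fin n → StrongDual ℝ E}
    (h : Admissible φ) : ∑ i, |f (φ i)| ≤ nrm f := le_csSup hf ⟨n, φ, h, rfl⟩

lemma nrm_nonneg (f : Fun E) : 0 ≤ nrm f := Real.sSup_nonneg fun _ h => sums_nonneg h

lemma nrm_le {f : Fun E} {C : ℝ}
    (h : ∀ (n : ℕ) (φ : Fin n → StrongDual ℝ E), Admissible φ → ∑ i, |f (φ i)| ≤ C) :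
    nrm f ≤ C := by
  refine csSup_le ⟨0, zero_mem_sums f⟩ ?_
  rintro r ⟨n, φ, hφ, rfl⟩
  exact h n φ hφ

lemma bdd_of_le {f : Fun E} {C : ℝ}
    (h : ∀ (n : ℕ) (φ : Fin n → StrongDual ℝ E), Admissible φ → ∑ i, |f (φ i)| ≤ C) :
    BddAbove (sums f) := by
  refine ⟨C, ?_⟩
  rintro r ⟨n, φ, hφ, rfl⟩
  exact h n φ hφ

variable (E) in
/-- The space `H[E]` as a subspace of all functions. -/
def Hsub : Submodule ℝ (Fun E) where
  carrier := {f | PosHom f ∧ BddAbove (sums f)}
  add_mem' := by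
    rintro f g ⟨hf1, hf2⟩ ⟨hg1, hg2⟩
    refine ⟨fun c φ hc => ?_, bdd_of_le (C := nrm f + nrm g) fun n φ hφ => ?_⟩
    · rw [Pi.add_apply, Pi.add_apply, hf1 c φ hc, hg1 c φ hc, mul_add]
    · refine (Finset.sum_le_sum fun i _ => abs_add_le _ _).trans ?_
      rw [Finset.sum_add_distrib]
      exact add_le_add (le_nrm hf2 hφ) (le_nrm hg2 hφ)
  zero_mem' := ⟨fun c φ hc => by simp, bdd_of_le (C := 0) fun n φ hφ => by simp⟩
  smul_mem' := by
    rintro c f ⟨hf1, hf2⟩
    refine ⟨fun d φ hd => ?_, bdd_of_le (C := |c| * nrm f) fun n φ hφ => ?_⟩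
    · rw [Pi.smul_apply, Pi.smul_apply, hf1 d φ hd, smul_eq_mul, smul_eq_mul, mul_left_comm]
    · have : ∑ i, |(c • f) (φ i)| = |c| * ∑ i, |f (φ i)| := by
        rw [Finset.mul_sum]
        exact Finset.sum_congr rfl fun i _ => by rw [Pi.smul_apply, smul_eq_mul, abs_mul]
      rw [this]
      exact mul_le_mul_of_nonneg_left (le_nrm hf2 hφ) (abs_nonneg c)

variable (E) in
/-- The space `H[E]`. -/
def H : Type := ↥(Hsub E)

noncomputable instance : AddCommGroup (H E) := inferInstanceAs (AddCommGroup ↥(Hsub E))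
noncomputable instance : Module ℝ (H E) := inferInstanceAs (Module ℝ ↥(Hsub E))

/-- An element of `H[E]` as a function. -/
def H.fn (f : H E) : Fun E := (show ↥(Hsub E) from f).1

lemma H.bdd (f : H E) : BddAbove (sums f.fn) := (show ↥(Hsub E) from f).2.2

lemma H.hom (f : H E) : PosHom f.fn := (show ↥(Hsub E) from f).2.1

lemma H.fn_add (f g : H E) : (f + g).fn = f.fn + g.fn := rfl
lemma H.fn_smul (c : ℝ) (f : H E) : (c • f).fn = c • f.fn := rfl
lemma H.fn_neg (f : H E) : (-f).fn = -f.fn := rfl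
lemma H.fn_sub (f g : H E) : (f - g).fn = f.fn - g.fn := rfl
lemma H.fn_zero : (0 : H E).fn = 0 := rfl

lemma H.ext {f g : H E} (h : f.fn = g.fn) : f = g := Subtype.ext h

lemma admissible_single {φ : StrongDual ℝ E} (h : ‖φ‖ ≤ 1) :
    Admissible (fun _ : Fin 1 => φ) := by
  intro x hx
  rw [Fin.sum_univ_one]
  calc |φ x| ≤ ‖φ‖ * ‖x‖ := φ.le_opNorm x
    _ ≤ 1 * 1 := mul_le_mul h hx (norm_nonneg _) zero_le_one
    _ = 1 := one_mul 1

lemma abs_le_nrm (f : H E) (φ : StrongDual ℝ E) : |f.fn φ| ≤ nrm f.fn * ‖φ‖ := by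
  rcases (norm_nonneg φ).eq_or_lt with h0 | h0
  · have h1 : φ = 0 := norm_eq_zero.1 h0.symm
    have h2 := f.hom 0 0 le_rfl
    rw [zero_smul, zero_mul] at h2
    rw [h1, h2, norm_zero, abs_zero, mul_zero]
  · have h1 := le_nrm f.bdd (admissible_single (φ := ‖φ‖⁻¹ • φ) (by
      rw [norm_smul, norm_inv, norm_norm, inv_mul_cancel₀ h0.ne']))
    rw [Fin.sum_univ_one, f.hom _ _ (by positivity), abs_mul, abs_inv, abs_norm,
      inv_mul_le_iff₀ h0, mul_comm] at h1
    exact h1

/-- The norm of `H[E]`. -/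
noncomputable def normH : AddGroupNorm (H E) where
  toFun f := nrm f.fn
  map_zero' := by
    apply le_antisymm _ (nrm_nonneg _)
    exact nrm_le fun n φ _ => by simp [H.fn_zero]
  add_le' f g := by
    refine nrm_le fun n φ hφ => ?_
    rw [H.fn_add]
    refine (Finset.sum_le_sum fun i _ => abs_add_le _ _).trans ?_
    rw [Finset.sum_add_distrib]
    exact add_le_add (le_nrm f.bdd hφ) (le_nrm g.bdd hφ)
  neg' f := by
    have : sums (-f).fn = sums f.fn := by
      simp only [sums, H.fn_neg, Pi.neg_apply, abs_neg]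
    rw [nrm, nrm, this]
  eq_zero_of_map_eq_zero' f hf := by
    apply H.ext
    funext φ
    have h1 := abs_le_nrm f φ
    rw [show nrm f.fn = 0 from hf, zero_mul] at h1
    exact abs_eq_zero.1 (le_antisymm h1 (abs_nonneg _))

noncomputable instance : NormedAddCommGroup (H E) := normH.toNormedAddCommGroup

lemma norm_def (f : H E) : ‖f‖ = nrm f.fn := rfl

noncomputable instance : NormedSpace ℝ (H E) where
  norm_smul_le c f := by
    rw [norm_def, norm_def]
    refine nrm_le fun n φ hφ => ?_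
    have : ∑ i, |(c • f).fn (φ i)| = |c| * ∑ i, |f.fn (φ i)| := by
      rw [Finset.mul_sum]
      exact Finset.sum_congr rfl fun i _ => by
        rw [H.fn_smul, Pi.smul_apply, smul_eq_mul, abs_mul]
    rw [this]
    exact mul_le_mul_of_nonneg_left (le_nrm f.bdd hφ) (abs_nonneg c)

/-- The vector sublattice generated by the evaluations. -/
inductive InLat : Fun E → Prop
  | dl (x : E) : InLat (dl x)
  | add {f g : Fun E} : InLat f → InLat g → InLat (f + g)
  | smul (c : ℝ) {f : Fun E} : InLat f → InLat (c • f)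
  | sup {f g : Fun E} : InLat f → InLat g → InLat (f ⊔ g)

lemma InLat.zero : InLat (0 : Fun E) := by
  have := InLat.smul 0 (InLat.dl (0 : E))
  rwa [zero_smul] at this

variable (E) in
/-- The vector sublattice generated by the evaluations, as a subspace of `H[E]`. -/
def latSub : Submodule ℝ (H E) where
  carrier := {f | InLat f.fn}
  add_mem' := fun hf hg => InLat.add hf hg
  zero_mem' := InLat.zero
  smul_mem' := fun c _ hf => InLat.smul c hf

variable (E) in
/-- The free Banach lattice generated by `E`: the closure in `H[E]` of the vector sublattice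
generated by the evaluations. -/
noncomputable def FBL : Submodule ℝ (H E) := (latSub E).topologicalClosure

end defs

/-- The Daugavet property: `‖I + T‖ = 1 + ‖T‖` for all bounded operators `T x = F(x) y`. -/
def Daugavet (X : Type) [NormedAddCommGroup X] [NormedSpace ℝ X] : Prop :=
  ∀ (F : StrongDual ℝ X) (y : X) (T : X →L[ℝ] X), (∀ x, T x = F x • y) →
    ‖ContinuousLinearMap.id ℝ X + T‖ = 1 + ‖T‖

end Pool.Agent.R271.FBL
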