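import Pool.Agent.R271.FBL
import Pool.Agent.R271.Domination

/-!
# The Daugavet property of free Banach lattices over spaces with fine cell decompositions
-/

open Filter Topology Finset

namespace Pool.Agent.R271.FBL

section lattice

variable {E : Type} [NormedAddCommGroup E] [NormedSpace ℝ E]

lemma InLat.neg {f : Fun E} (hf : InLat f) : InLat (-f) := by
  have := InLat.smul (-1) hf
  rwa [neg_one_smul] at this

lemma InLat.sub {f g : Fun E} (hf : InLat f) (hg : InLat g) : InLat (f - g) := by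
  rw [sub_eq_add_neg]
  exact hf.add hg.neg

lemma InLat.inf {f g : Fun E} (hf : InLat f) (hg : InLat g) : InLat (f ⊓ g) := by
  have h : f ⊓ g = -((-f) ⊔ (-g)) := by
    rw [neg_sup, neg_neg, neg_neg]
  rw [h]
  exact (hf.neg.sup hg.neg).neg

lemma InLat.abs {f : Fun E} (hf : InLat f) : InLat |f| := hf.sup hf.neg

lemma InLat.sum {ι : Type*} (s : Finset ι) {f : ι → Fun E} (hf : ∀ i ∈ s, InLat (f i)) :
    InLat (∑ i ∈ s, f i) := by
  classical
  induction s using Finset.induction_on with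
  | empty => exact InLat.zero
  | insert x s hx ih =>
    rw [Finset.sum_insert hx]
    exact (hf x (Finset.mem_insert_self _ _)).add (ih fun i hi => hf i (Finset.mem_insert_of_mem hi))

/-- Lipschitz functions of finitely many coordinates. -/
def Good (f : Fun E) (X : Finset E) (L : ℝ) : Prop :=
  ∀ φ ψ : StrongDual ℝ E, |f φ - f ψ| ≤ L * ∑ x ∈ X, |φ x - ψ x|

lemma Good.mono {f : Fun E} {X Y : Finset E} {L L' : ℝ} (h : Good f X L) (hXY : X ⊆ Y)
    (hL : 0 ≤ L) (hLL : L ≤ L') : Good f Y L' := by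
  intro φ ψ
  refine (h φ ψ).trans ?_
  refine mul_le_mul hLL ?_ (Finset.sum_nonneg fun _ _ => abs_nonneg _) (hL.trans hLL)
  exact Finset.sum_le_sum_of_subset_of_nonneg hXY fun _ _ _ => abs_nonneg _

lemma InLat.exists_good {f : Fun E} (hf : InLat f) : ∃ (X : Finset E) (L : ℝ), 0 ≤ L ∧
    Good f X L := by
  classical
  induction hf with
  | dl x =>
    refine ⟨{x}, 1, zero_le_one, fun φ ψ => ?_⟩
    show |φ x - ψ x| ≤ _
    simp
  | add _ _ ihf ihg =>
    obtain ⟨X, L, hL, h⟩ := ihf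
    obtain ⟨Y, L', hL', h'⟩ := ihg
    refine ⟨X ∪ Y, L + L', by positivity, fun φ ψ => ?_⟩
    have h1 := h.mono (Finset.subset_union_left (s₂ := Y)) hL le_rfl φ ψ
    have h2 := h'.mono (Finset.subset_union_right (s₁ := X)) hL' le_rfl φ ψ
    rw [Pi.add_apply, Pi.add_apply, add_sub_add_comm, add_mul]
    exact (abs_add_le _ _).trans (add_le_add h1 h2)
  | smul c _ ihf =>
    obtain ⟨X, L, hL, h⟩ := ihf
    refine ⟨X, |c| * L, by positivity, fun φ ψ => ?_⟩
    rw [Pi.smul_apply, Pi.smul_apply, ← smul_sub, smul_eq_mul, abs_mul, mul_assoc]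
    exact mul_le_mul_of_nonneg_left (h φ ψ) (abs_nonneg c)
  | sup _ _ ihf ihg =>
    obtain ⟨X, L, hL, h⟩ := ihf
    obtain ⟨Y, L', hL', h'⟩ := ihg
    refine ⟨X ∪ Y, L + L', by positivity, fun φ ψ => ?_⟩
    have h1 := h.mono (Finset.subset_union_left (s₂ := Y)) hL le_rfl φ ψ
    have h2 := h'.mono (Finset.subset_union_right (s₁ := X)) hL' le_rfl φ ψ
    rw [Pi.sup_apply, Pi.sup_apply, add_mul]
    refine (abs_max_sub_max_le_max _ _ _ _).trans (max_le ?_ ?_)
    · exact h1.trans (le_add_of_nonneg_right ((abs_nonneg _).trans h2))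
    · exact h2.trans (le_add_of_nonneg_left ((abs_nonneg _).trans h1))

lemma InLat.posHom {f : Fun E} (hf : InLat f) : PosHom f := by
  induction hf with
  | dl x => exact fun c φ _ => rfl
  | add _ _ ihf ihg =>
    intro c φ hc
    rw [Pi.add_apply, Pi.add_apply, ihf c φ hc, ihg c φ hc, mul_add]
  | smul d _ ihf =>
    intro c φ hc
    rw [Pi.smul_apply, Pi.smul_apply, ihf c φ hc, smul_eq_mul, smul_eq_mul, mul_left_comm]
  | sup _ _ ihf ihg =>
    intro c φ hc
    rw [Pi.sup_apply, Pi.sup_apply, ihf c φ hc, ihg c φ hc]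
    exact (mul_max_of_nonneg _ _ hc).symm

lemma InLat.map_zero {f : Fun E} (hf : InLat f) : f 0 = 0 := by
  have := hf.posHom 0 0 le_rfl
  rwa [zero_smul, zero_mul] at this

lemma InLat.bdd {f : Fun E} (hf : InLat f) : BddAbove (sums f) := by
  obtain ⟨X, L, hL, h⟩ := hf.exists_good
  refine bdd_of_le (C := L * ∑ x ∈ X, ‖x‖) fun n φ hφ => ?_
  have h1 : ∀ i, |f (φ i)| ≤ L * ∑ x ∈ X, |φ i x| := by
    intro i
    have := h (φ i) 0
    rw [hf.map_zero, sub_zero] at this
    simpa using this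
  refine (Finset.sum_le_sum fun i _ => h1 i).trans ?_
  rw [← Finset.mul_sum, Finset.sum_comm]
  exact mul_le_mul_of_nonneg_left (Finset.sum_le_sum fun x _ => admissible_le hφ x) hL

/-- A function in the lattice as an element of `H[E]`. -/
def toH {f : Fun E} (hf : InLat f) : H E := (⟨f, hf.posHom, hf.bdd⟩ : ↥(Hsub E))

lemma toH_fn {f : Fun E} (hf : InLat f) : (toH hf).fn = f := rfl

lemma toH_mem {f : Fun E} (hf : InLat f) : toH hf ∈ FBL E :=
  (latSub E).le_topologicalClosure hf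

/-- A function in the lattice as an element of the free Banach lattice. -/
def toF {f : Fun E} (hf : InLat f) : FBL E := ⟨toH hf, toH_mem hf⟩

lemma norm_toF {f : Fun E} (hf : InLat f) : ‖toF hf‖ = nrm f := rfl

/-- Domination gives the norm estimate. -/
lemma norm_toF_le {f : Fun E} (hf : InLat f) {x : E} {c : ℝ} (hc : 0 ≤ c)
    (h : ∀ φ : StrongDual ℝ E, |f φ| ≤ c * |φ x|) : ‖toF hf‖ ≤ c * ‖x‖ := by
  rw [norm_toF]
  refine nrm_le fun n φ hφ => ?_
  refine (Finset.sum_le_sum fun i _ => h (φ i)).trans ?_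
  rw [← Finset.mul_sum]
  exact mul_le_mul_of_nonneg_left (admissible_le hφ x) hc

lemma toF_add {f g : Fun E} (hf : InLat f) (hg : InLat g) :
    toF (hf.add hg) = toF hf + toF hg := rfl

lemma toF_congr {f g : Fun E} (hf : InLat f) (hg : InLat g) (h : f = g) : toF hf = toF hg := by
  subst h
  rfl

lemma toF_sum {ι : Type*} (s : Finset ι) {f : ι → Fun E} (hf : ∀ i, InLat (f i)) :
    ∀ h : InLat (∑ i ∈ s, f i), toF h = ∑ i ∈ s, toF (hf i) := by
  classical
  induction s using Finset.induction_on with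
  | empty => exact fun _ => rfl
  | insert x s hx ih =>
    intro h
    have h1 : ∑ i ∈ insert x s, toF (hf i) = toF (hf x) + ∑ i ∈ s, toF (hf i) :=
      Finset.sum_insert hx
    rw [h1, ← ih (InLat.sum s fun i _ => hf i)]
    exact toF_congr h ((hf x).add (InLat.sum s fun i _ => hf i)) (Finset.sum_insert hx)

/-- Truncation. -/
noncomputable def clamp (u w : Fun E) : Fun E := (u ⊓ w) ⊔ (-w)

lemma clamp_apply (u w : Fun E) (φ : StrongDual ℝ E) :
    clamp u w φ = max (min (u φ) (w φ)) (-w φ) := rfl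

lemma InLat.clamp {u w : Fun E} (hu : InLat u) (hw : InLat w) : InLat (clamp u w) :=
  (hu.inf hw).sup hw.neg

lemma abs_clamp_le {a b : ℝ} (hb : 0 ≤ b) : |max (min a b) (-b)| ≤ b := by
  rw [abs_le]
  exact ⟨le_max_right _ _, max_le (min_le_right _ _) (by linarith)⟩

lemma abs_sub_clamp_le {a b c : ℝ} (hb : 0 ≤ b) (hc : 0 ≤ c) (h : |a| ≤ b + c) :
    |a - max (min a b) (-b)| ≤ c := by
  rw [abs_le] at h
  rcases le_total a b with h1 | h1
  · rw [min_eq_left h1]
    rcases le_total a (-b) with h2 | h2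
    · rw [max_eq_right h2, abs_le]
      constructor <;> linarith [h.1, h.2]
    · rw [max_eq_left h2, sub_self, abs_zero]
      exact hc
  · rw [min_eq_right h1, max_eq_left (by linarith), abs_le]
    constructor <;> linarith [h.1, h.2]

/-- Riesz decomposition. -/
lemma riesz {ι : Type*} (s : Finset ι) {w : ι → Fun E} (hw : ∀ i, InLat (w i))
    (hw0 : ∀ i φ, 0 ≤ w i φ) : ∀ {u : Fun E}, InLat u → (∀ φ, |u φ| ≤ ∑ i ∈ s, w i φ) →
      ∃ v : ι → Fun E, (∀ i, InLat (v i)) ∧ (∀ i φ, |v i φ| ≤ w i φ) ∧ u = ∑ i ∈ s, v i := by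
  classical
  induction s using Finset.induction_on with
  | empty =>
    intro u _ hu
    refine ⟨fun _ => 0, fun _ => InLat.zero, fun i φ => by simpa using hw0 i φ, ?_⟩
    funext φ
    have := hu φ
    rw [Finset.sum_empty] at this
    simpa using this
  | insert x s hx ih =>
    intro u hu hle
    have h1 : ∀ φ, |(u - clamp u (w x)) φ| ≤ ∑ i ∈ s, w i φ := by
      intro φ
      have h2 := hle φ
      rw [Finset.sum_insert hx] at h2
      exact abs_sub_clamp_le (hw0 x φ) (Finset.sum_nonneg fun i _ => hw0 i φ) h2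
    obtain ⟨v, hv1, hv2, hv3⟩ := ih (hu.sub (hu.clamp (hw x))) h1
    refine ⟨Function.update v x (clamp u (w x)), fun i => ?_, fun i φ => ?_, ?_⟩
    · rw [Function.update_apply]
      split_ifs
      · exact hu.clamp (hw x)
      · exact hv1 i
    · by_cases hi : i = x
      · subst hi
        rw [Function.update_self]
        exact abs_clamp_le (hw0 i φ)
      · rw [Function.update_of_ne hi]
        exact hv2 i φ
    · have h5 : ∑ i ∈ s, Function.update v x (clamp u (w x)) i = ∑ i ∈ s, v i :=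
        Finset.sum_congr rfl fun i hi => by
          have hne : i ≠ x := by
            rintro rfl
            exact hx hi
          exact Function.update_of_ne hne _ _
      rw [Finset.sum_insert hx, Function.update_self, h5, ← hv3]
      abel

lemma toF_sub {f g : Fun E} (hf : InLat f) (hg : InLat g) :
    toF (hf.sub hg) = toF hf - toF hg := by
  apply Subtype.ext
  apply H.ext
  show f - g = f - g
  rfl

lemma toF_smul (c : ℝ) {f : Fun E} (hf : InLat f) : toF (InLat.smul c hf) = c • toF hf := rfl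

lemma exists_near (w : FBL E) {r : ℝ} (hr : 0 < r) : ∃ (u : Fun E) (hu : InLat u),
    ‖w - toF hu‖ < r := by
  have hw : (w : H E) ∈ closure ((latSub E : Submodule ℝ (H E)) : Set (H E)) := w.2
  obtain ⟨s, hs, hd⟩ := Metric.mem_closure_iff.1 hw r hr
  have hs' : InLat s.fn := hs
  refine ⟨s.fn, hs', ?_⟩
  have h1 : (toF hs' : H E) = s := rfl
  rw [dist_eq_norm] at hd
  calc ‖w - toF hs'‖ = ‖(w : H E) - (toF hs' : H E)‖ := rfl
    _ < r := by rw [h1]; exact hd

/-- The space has arbitrarily fine decompositions into cells. -/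
def HasCells (E : Type) [NormedAddCommGroup E] [NormedSpace ℝ E] : Prop :=
  ∀ (X : Finset E) (η : ℝ), 0 < η → ∃ (N : ℕ) (P : Fin N → E →L[ℝ] E) (e : Fin N → E)
    (ψ : Fin N → StrongDual ℝ E), 2 ≤ N ∧ (∀ x, ∑ k, P k x = x) ∧ (∀ x, ∑ k, ‖P k x‖ ≤ ‖x‖) ∧
      (∀ k x, |ψ k x| ≤ ‖P k x‖) ∧ (∀ k, ψ k (e k) = 1) ∧ (∀ j k, j ≠ k → P j (e k) = 0) ∧
      (∀ k, ‖e k‖ ≤ 1) ∧ (∀ x ∈ X, ‖∑ k, ψ k x • e k - x‖ ≤ η) ∧ ∀ x ∈ X, ∀ k, ‖P k x‖ ≤ η

lemma comp_cells {f : Fun E} (hf : InLat f) {N : ℕ} (e : Fin N → E)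
    (ψ : Fin N → StrongDual ℝ E) : InLat (fun φ => f (∑ k, φ (e k) • ψ k)) := by
  induction hf with
  | dl x =>
    have : (fun φ : StrongDual ℝ E => FBL.dl x (∑ k, φ (e k) • ψ k)) =
        FBL.dl (∑ k, ψ k x • e k) := by
      funext φ
      show (∑ k, φ (e k) • ψ k) x = φ (∑ k, ψ k x • e k)
      rw [map_sum, ContinuousLinearMap.sum_apply]
      refine Finset.sum_congr rfl fun k _ => ?_
      rw [ContinuousLinearMap.smul_apply, map_smul, smul_eq_mul, smul_eq_mul, mul_comm]
    rw [this]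
    exact InLat.dl _
  | add _ _ ihf ihg => exact InLat.add ihf ihg
  | smul c _ ihf => exact InLat.smul c ihf
  | sup _ _ ihf ihg => exact InLat.sup ihf ihg

lemma sum_ofFn_get {α : Type*} (L : List α) (g : α → ℝ) :
    ∑ i : Fin L.length, g (L.get i) = (L.map g).sum := by
  rw [← List.sum_ofFn]
  congr 1
  conv_rhs => rw [← List.ofFn_get L, List.map_ofFn]
  rfl

/-- Domination by the moduli of the evaluations at the cells. -/
lemma dominate {f : Fun E} (hf : InLat f) {N : ℕ} {P : Fin N → E →L[ℝ] E}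
    {ψ : Fin N → StrongDual ℝ E} (hP : ∀ x, ∑ k, ‖P k x‖ ≤ ‖x‖) (hψ : ∀ k x, |ψ k x| ≤ ‖P k x‖) :
    ∃ lam : Fin N → ℝ, (∀ k, 0 ≤ lam k) ∧ ∑ k, lam k ≤ nrm f ∧
      ∀ a : Fin N → ℝ, |f (∑ k, a k • ψ k)| ≤ ∑ k, lam k * |a k| := by
  apply Domination.domination (fun a => f (∑ k, a k • ψ k))
  · intro c a hc
    rw [← hf.posHom c _ hc.le, Finset.smul_sum]
    simp only [Pi.smul_apply, smul_eq_mul, smul_smul]
  · intro L hL
    rw [← sum_ofFn_get L fun a => |f (∑ k, a k • ψ k)|]
    refine le_nrm hf.bdd (φ := fun i => ∑ k, (L.get i) k • ψ k) ?_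
    intro x hx
    have h1 : ∀ i, |(∑ k, (L.get i) k • ψ k : StrongDual ℝ E) x| ≤
        ∑ k, |(L.get i) k| * |ψ k x| := by
      intro i
      rw [ContinuousLinearMap.sum_apply]
      refine (Finset.abs_sum_le_sum_abs _ _).trans (le_of_eq ?_)
      refine Finset.sum_congr rfl fun k _ => ?_
      rw [ContinuousLinearMap.smul_apply, smul_eq_mul, abs_mul]
    refine (Finset.sum_le_sum fun i _ => h1 i).trans ?_
    rw [Finset.sum_comm]
    have h2 : ∀ k, ∑ i, |(L.get i) k| * |ψ k x| ≤ ‖P k x‖ := by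
      intro k
      rw [← Finset.sum_mul, sum_ofFn_get L fun a => |a k|]
      calc _ ≤ 1 * |ψ k x| := mul_le_mul_of_nonneg_right (hL k) (abs_nonneg _)
        _ ≤ ‖P k x‖ := by rw [one_mul]; exact hψ k x
    exact (Finset.sum_le_sum fun k _ => h2 k).trans ((hP x).trans hx)

end lattice

end Pool.Agent.R271.FBL
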