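import Pool.Agent.R271.Basic
import Pool.Agent.R271.FBLDaugavet

/-!
# The Daugavet property of free Banach lattices, second part
-/

open Filter Topology Finset

namespace Pool.Agent.R271.FBL

variable {E : Type} [NormedAddCommGroup E] [NormedSpace ℝ E]

/-- The difference estimate. -/
lemma norm_toF_sub_le {f g : Fun E} (hf : InLat f) (hg : InLat g) {L : ℝ} (hL : 0 ≤ L)
    {ι : Type*} (s : Finset ι) (z : ι → E)
    (h : ∀ φ : StrongDual ℝ E, |f φ - g φ| ≤ L * ∑ x ∈ s, |φ (z x)|) :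
    ‖toF hf - toF hg‖ ≤ L * ∑ x ∈ s, ‖z x‖ := by
  rw [← toF_sub, norm_toF]
  refine nrm_le fun n φ hφ => ?_
  refine (Finset.sum_le_sum fun i _ => h (φ i)).trans ?_
  rw [← Finset.mul_sum, Finset.sum_comm]
  exact mul_le_mul_of_nonneg_left (Finset.sum_le_sum fun x _ => admissible_le hφ _) hL

lemma stepA {F : StrongDual ℝ (FBL E)} {u₀ : Fun E} (hu₀ : InLat u₀)
    {X : Finset E} {L η r ε : ℝ} (hL : 0 ≤ L) (hgood : Good u₀ X L) (hr : nrm u₀ ≤ 1 + r)
    (hFu : 1 - ε / 8 - r < F (toF hu₀)) (hF : ‖F‖ ≤ 1) (hη : L * (X.card * η) ≤ r) (hε : 0 < ε)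
    (hε1 : ε ≤ 1) (hrε : r = ε / 24) {N : ℕ} {P : Fin N → E →L[ℝ] E} {e : Fin N → E}
    {ψ : Fin N → StrongDual ℝ E} (hP : ∀ x, ∑ k, ‖P k x‖ ≤ ‖x‖) (hψ : ∀ k x, |ψ k x| ≤ ‖P k x‖)
    (happ : ∀ x ∈ X, ‖∑ k, ψ k x • e k - x‖ ≤ η) :
    ∃ (k : Fin N) (u : Fun E) (hu : InLat u), (∀ φ, |u φ| ≤ |φ (e k)|) ∧
      1 - ε / 4 < F (toF hu) := by
  obtain ⟨lam, hlam0, hlams, hlam⟩ := dominate hu₀ hP hψ
  have hu₁ : InLat (fun φ => u₀ (∑ k, φ (e k) • ψ k)) := comp_cells hu₀ e ψ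
  set u₁ : Fun E := fun φ => u₀ (∑ k, φ (e k) • ψ k) with hu₁def
  have hdiff : ‖toF hu₁ - toF hu₀‖ ≤ r := by
    refine (norm_toF_sub_le hu₁ hu₀ hL X (fun x => ∑ k, ψ k x • e k - x) fun φ => ?_).trans ?_
    · refine (hgood _ _).trans (le_of_eq ?_)
      congr 1
      refine Finset.sum_congr rfl fun x _ => ?_
      rw [map_sub, map_sum, _root_.sum_apply]
      congr 2
      refine Finset.sum_congr rfl fun k _ => ?_
      rw [_root_.smul_apply, map_smul, smul_eq_mul, smul_eq_mul, mul_comm]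
    · refine le_trans (mul_le_mul_of_nonneg_left ?_ hL) hη
      refine (Finset.sum_le_sum happ).trans (le_of_eq ?_)
      rw [Finset.sum_const, nsmul_eq_mul]
  have hF1 : 1 - ε / 8 - 2 * r < F (toF hu₁) := by
    have h1 : F (toF hu₀ - toF hu₁) ≤ r := by
      refine (R271.dual_le_norm F hF _).trans ?_
      rw [← norm_neg, neg_sub]
      exact hdiff
    rw [map_sub] at h1
    linarith
  set w : Fin N → Fun E := fun k => lam k • |dl (e k)| with hw
  have hwL : ∀ k, InLat (w k) := fun k => InLat.smul _ (InLat.dl (e k)).abs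
  have hwv : ∀ k φ, w k φ = lam k * |φ (e k)| := fun k φ => rfl
  obtain ⟨v, hv1, hv2, hv3⟩ := riesz Finset.univ hwL
    (fun k φ => by rw [hwv]; exact mul_nonneg (hlam0 k) (abs_nonneg _)) hu₁ (fun φ => by
      simp only [hwv]
      exact hlam fun k => φ (e k))
  have hsum : F (toF hu₁) = ∑ k, F (toF (hv1 k)) := by
    rw [← map_sum, ← toF_sum Finset.univ hv1 (InLat.sum _ fun k _ => hv1 k)]
    congr 1
    exact toF_congr _ _ hv3
  have hex : ∃ k, (1 - ε / 4) * lam k < F (toF (hv1 k)) := by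
    by_contra hcon
    push Not at hcon
    have h1 : F (toF hu₁) ≤ (1 - ε / 4) * ∑ k, lam k := by
      rw [hsum, Finset.mul_sum]
      exact Finset.sum_le_sum fun k _ => hcon k
    have h2 : (1 - ε / 4) * ∑ k, lam k ≤ (1 - ε / 4) * (1 + r) :=
      mul_le_mul_of_nonneg_left (hlams.trans hr) (by linarith)
    nlinarith
  obtain ⟨k, hk⟩ := hex
  have hlk : 0 < lam k := by
    rcases (hlam0 k).eq_or_lt with h | h
    · exfalso
      have h1 : ‖toF (hv1 k)‖ ≤ 0 * ‖e k‖ :=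
        norm_toF_le (hv1 k) le_rfl fun φ => by
          have := hv2 k φ
          rw [hwv, ← h] at this
          exact this
      have h2 := R271.dual_le_norm F hF (toF (hv1 k))
      rw [← h, mul_zero] at hk
      rw [zero_mul] at h1
      linarith
    · exact h
  refine ⟨k, (lam k)⁻¹ • v k, InLat.smul _ (hv1 k), fun φ => ?_, ?_⟩
  · rw [Pi.smul_apply, smul_eq_mul, abs_mul, abs_of_pos (inv_pos.2 hlk), inv_mul_le_iff₀ hlk]
    have := hv2 k φ
    rwa [hwv] at this
  · rw [toF_smul, map_smul, smul_eq_mul, lt_inv_mul_iff₀ hlk, mul_comm]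
    exact hk

/-- The spike functions. -/
noncomputable def spike (a b : E) (K : ℝ) (t : ℝ) : Fun E := (|dl a| - K • |dl b - t • dl a|) ⊔ 0

lemma spike_apply (a b : E) (K t : ℝ) (φ : StrongDual ℝ E) :
    spike a b K t φ = max (|φ a| - K * |φ b - t * φ a|) 0 := rfl

lemma spike_mem (a b : E) (K t : ℝ) : InLat (spike a b K t) :=
  ((InLat.dl a).abs.sub (InLat.smul K ((InLat.dl b).sub (InLat.smul t (InLat.dl a))).abs)).sup
    InLat.zero

/-- The modification. -/
noncomputable def modi (u : Fun E) (a b : E) (K t : ℝ) : Fun E :=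
  u ⊔ ((2 : ℝ) • spike a b K t - |dl a|)

lemma modi_apply (u : Fun E) (a b : E) (K t : ℝ) (φ : StrongDual ℝ E) :
    modi u a b K t φ = max (u φ) (2 * spike a b K t φ - |φ a|) := rfl

lemma modi_mem {u : Fun E} (hu : InLat u) (a b : E) (K t : ℝ) : InLat (modi u a b K t) :=
  hu.sup ((InLat.smul 2 (spike_mem a b K t)).sub (InLat.dl a).abs)

lemma spike_nonneg (a b : E) (K t : ℝ) (φ : StrongDual ℝ E) : 0 ≤ spike a b K t φ :=
  le_max_right _ _

lemma spike_le {K : ℝ} (hK : 0 ≤ K) (a b : E) (t : ℝ) (φ : StrongDual ℝ E) :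
    spike a b K t φ ≤ |φ a| := by
  rw [spike_apply]
  refine max_le ?_ (abs_nonneg _)
  have : 0 ≤ K * |φ b - t * φ a| := by positivity
  linarith

lemma spike_disjoint {K : ℝ} (hK : 0 < K) (a b : E) {t t' : ℝ} (h : 2 / K ≤ |t - t'|)
    (φ : StrongDual ℝ E) (h0 : spike a b K t φ ≠ 0) : spike a b K t' φ = 0 := by
  rw [spike_apply] at h0 ⊢
  have h1 : 0 < |φ a| - K * |φ b - t * φ a| := by
    by_contra hcon
    exact h0 (max_eq_right (not_lt.1 hcon))
  apply max_eq_right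
  by_contra hcon
  push Not at hcon
  have h2 : |t - t'| * |φ a| ≤ |φ b - t * φ a| + |φ b - t' * φ a| := by
    rw [← abs_mul]
    have : (t - t') * φ a = (φ b - t' * φ a) - (φ b - t * φ a) := by ring
    rw [this, add_comm]
    exact abs_sub _ _
  have h3 : 2 ≤ |t - t'| * K := by rwa [div_le_iff₀ hK] at h
  have h4 : 0 ≤ |φ a| := abs_nonneg _
  nlinarith [mul_le_mul_of_nonneg_right h3 h4, mul_le_mul_of_nonneg_left h2 hK.le]

lemma sum_le_of_disjoint {K : ℕ} (d : Fin K → ℝ) {c : ℝ} (hc : 0 ≤ c) (hd : ∀ j, d j ≤ c)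
    (hdis : ∀ i j, i ≠ j → d i ≠ 0 → d j = 0) : ∑ j, d j ≤ c := by
  by_cases h : ∃ i, d i ≠ 0
  · obtain ⟨i, hi⟩ := h
    rw [Finset.sum_eq_single i (fun j _ hj => hdis i j (Ne.symm hj) hi)
      (fun h => absurd (Finset.mem_univ _) h)]
    exact hd i
  · push Not at h
    rw [Finset.sum_eq_zero fun i _ => h i]
    exact hc

lemma stepB {F : StrongDual ℝ (FBL E)} (hF : ‖F‖ ≤ 1) {a b : E} (ha : ‖a‖ ≤ 1) {u : Fun E}
    (hu : InLat u) (hua : ∀ φ : StrongDual ℝ E, |u φ| ≤ |φ a|) {K : ℕ} (hK : 0 < K) :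
    ∃ t : ℝ, |t| ≤ 1 ∧ ∃ (v : Fun E) (hv : InLat v), (∀ φ, |v φ| ≤ |φ a|) ∧
      F (toF hu) - 2 / K ≤ F (toF hv) ∧
        ∀ h : StrongDual ℝ E, h a = 1 → h b = t → 1 ≤ v h := by
  have hK' : (0 : ℝ) < K := by exact_mod_cast hK
  let t : Fin K → ℝ := fun j => 2 * (j : ℕ) / K - 1
  let s : Fin K → Fun E := fun j => spike a b K (t j)
  let v : Fin K → Fun E := fun j => modi u a b K (t j)
  have hv : ∀ j, InLat (v j) := fun j => modi_mem hu a b K (t j)
  let d : Fin K → Fun E := fun j => v j - u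
  have hd : ∀ j, InLat (d j) := fun j => (hv j).sub hu
  have ht : ∀ i j, i ≠ j → 2 / (K : ℝ) ≤ |t i - t j| := by
    intro i j hij
    have h1 : t i - t j = 2 / K * (((i : ℕ) : ℝ) - ((j : ℕ) : ℝ)) := by
      show (2 * ((i : ℕ) : ℝ) / K - 1) - (2 * ((j : ℕ) : ℝ) / K - 1) = _
      ring
    rw [h1, abs_mul, abs_of_pos (by positivity : (0 : ℝ) < 2 / K)]
    have h2 : (1 : ℝ) ≤ |((i : ℕ) : ℝ) - ((j : ℕ) : ℝ)| := by
      have h3 : ((i : ℕ) : ℤ) - ((j : ℕ) : ℤ) ≠ 0 := by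
        intro h
        apply hij
        apply Fin.ext
        omega
      have h4 := Int.one_le_abs h3
      have h5 : (((1 : ℤ)) : ℝ) ≤ ((|((i : ℕ) : ℤ) - ((j : ℕ) : ℤ)| : ℤ) : ℝ) := by
        exact_mod_cast h4
      push_cast at h5
      exact h5
    calc 2 / (K : ℝ) = 2 / K * 1 := (mul_one _).symm
      _ ≤ _ := mul_le_mul_of_nonneg_left h2 (by positivity)
  have hdv : ∀ j φ, d j φ = max (u φ) (2 * s j φ - |φ a|) - u φ := fun j φ => rfl
  have hd0 : ∀ j φ, 0 ≤ d j φ := by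
    intro j φ
    rw [hdv]
    linarith [le_max_left (u φ) (2 * s j φ - |φ a|)]
  have hd2 : ∀ j φ, d j φ ≤ 2 * s j φ := by
    intro j φ
    rw [hdv]
    have h1 := hua φ
    rw [abs_le] at h1
    have h2 := spike_nonneg a b K (t j) φ
    have h3 : max (u φ) (2 * s j φ - |φ a|) ≤ u φ + 2 * s j φ :=
      max_le (by have : (0 : ℝ) ≤ 2 * s j φ := by positivity
                 linarith) (by linarith [h1.1])
    linarith
  have hsum : ∀ φ : StrongDual ℝ E, ∑ j, d j φ ≤ 2 * |φ a| := by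
    intro φ
    apply sum_le_of_disjoint _ (by positivity)
    · intro j
      have := spike_le hK'.le a b (t j) φ
      exact (hd2 j φ).trans (mul_le_mul_of_nonneg_left this (by norm_num))
    · intro i j hij hi
      have h1 : s i φ ≠ 0 := by
        intro h0
        apply hi
        apply le_antisymm _ (hd0 i φ)
        have := hd2 i φ
        rwa [h0, mul_zero] at this
      have h2 : s j φ = 0 := spike_disjoint hK' a b (ht i j hij) φ h1
      apply le_antisymm _ (hd0 j φ)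
      have := hd2 j φ
      rwa [h2, mul_zero] at this
  -- signs
  let c : Fin K → ℝ := fun j => if 0 ≤ F (toF (hd j)) then 1 else -1
  have hc : ∀ j, |c j| = 1 := by
    intro j
    show |if 0 ≤ F (toF (hd j)) then (1 : ℝ) else -1| = 1
    split_ifs <;> simp
  have hcF : ∀ j, c j * F (toF (hd j)) = |F (toF (hd j))| := by
    intro j
    show (if 0 ≤ F (toF (hd j)) then (1 : ℝ) else -1) * F (toF (hd j)) = _
    split_ifs with h
    · rw [one_mul, abs_of_nonneg h]
    · rw [abs_of_neg (not_le.1 h)]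
      ring
  have hcd : ∀ j, InLat (c j • d j) := fun j => InLat.smul _ (hd j)
  have hD : InLat (∑ j, c j • d j) := InLat.sum _ fun j _ => hcd j
  have hDn : ‖toF hD‖ ≤ 2 * ‖a‖ := by
    refine norm_toF_le hD (by norm_num) fun φ => ?_
    rw [Finset.sum_apply]
    refine (Finset.abs_sum_le_sum_abs _ _).trans (le_trans (le_of_eq ?_) (hsum φ))
    refine Finset.sum_congr rfl fun j _ => ?_
    rw [Pi.smul_apply, smul_eq_mul, abs_mul, hc, one_mul, abs_of_nonneg (hd0 j φ)]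
  have hFsum : ∑ j, |F (toF (hd j))| ≤ 2 := by
    have h1 : F (toF hD) = ∑ j, |F (toF (hd j))| := by
      rw [toF_sum Finset.univ hcd hD, map_sum]
      refine Finset.sum_congr rfl fun j _ => ?_
      rw [toF_smul (c j) (hd j), map_smul, smul_eq_mul, hcF]
    rw [← h1]
    refine (R271.dual_le_norm F hF _).trans (hDn.trans ?_)
    linarith
  obtain ⟨j, hj⟩ : ∃ j, |F (toF (hd j))| ≤ 2 / K := by
    by_contra hcon
    push Not at hcon
    have : Nonempty (Fin K) := ⟨⟨0, hK⟩⟩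
    have h1 : ∑ _j : Fin K, 2 / (K : ℝ) < ∑ j, |F (toF (hd j))| :=
      Finset.sum_lt_sum_of_nonempty Finset.univ_nonempty fun j _ => hcon j
    rw [Finset.sum_const, Finset.card_univ, Fintype.card_fin, nsmul_eq_mul,
      mul_div_cancel₀ _ hK'.ne'] at h1
    linarith
  refine ⟨t j, ?_, v j, hv j, fun φ => ?_, ?_, fun h hha hhb => ?_⟩
  · have h1 : (0 : ℝ) ≤ 2 * ((j : ℕ) : ℝ) / K := by positivity
    have h2 : 2 * ((j : ℕ) : ℝ) / K ≤ 2 := by
      rw [div_le_iff₀ hK']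
      have : ((j : ℕ) : ℝ) ≤ K := by exact_mod_cast j.2.le
      linarith
    show |2 * ((j : ℕ) : ℝ) / K - 1| ≤ 1
    rw [abs_le]
    constructor <;> linarith
  · have h1 := hua φ
    rw [abs_le] at h1 ⊢
    have h2 := spike_le hK'.le a b (t j) φ
    exact ⟨h1.1.trans (le_max_left _ _), max_le h1.2
      (show 2 * spike a b K (t j) φ - |φ a| ≤ |φ a| by linarith)⟩
  · have h1 : F (toF (hd j)) = F (toF (hv j)) - F (toF hu) := by
      rw [← map_sub, ← toF_sub]
    rw [abs_le] at hj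
    linarith [hj.1]
  · have h1 : s j h = 1 := by
      show spike a b K (t j) h = 1
      rw [spike_apply, hha, hhb]
      simp
    show 1 ≤ max (u h) (2 * s j h - |h a|)
    rw [h1, hha, abs_one]
    exact le_max_of_le_right (by norm_num)

lemma toF_add' {f g : Fun E} (hf : InLat f) (hg : InLat g) :
    toF (hf.add hg) = toF hf + toF hg := rfl

/-- The family obtained by removing two cells and adding a functional on these cells. -/
lemma newFamily {N : ℕ} {P : Fin N → E →L[ℝ] E} {ψ : Fin N → StrongDual ℝ E}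
    (hP1 : ∀ x, ∑ k, P k x = x) (hP2 : ∀ x, ∑ k, ‖P k x‖ ≤ ‖x‖) (hψ : ∀ k x, |ψ k x| ≤ ‖P k x‖)
    {k k' : Fin N} (hkk : k ≠ k') {n : ℕ} {g : Fin n → StrongDual ℝ E} (hg : Admissible g)
    {t : ℝ} (ht : |t| ≤ 1) :
    Admissible (Fin.cons (ψ k + t • ψ k')
      (fun i => g i - (g i).comp (P k) - (g i).comp (P k')) : Fin (n + 1) → StrongDual ℝ E) := by
  intro x hx
  rw [Fin.sum_univ_succ]
  simp only [Fin.cons_zero, Fin.cons_succ]
  have h1 : |(ψ k + t • ψ k') x| ≤ ‖P k x‖ + ‖P k' x‖ := by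
    rw [_root_.add_apply, _root_.smul_apply, smul_eq_mul]
    refine (abs_add_le _ _).trans (add_le_add (hψ k x) ?_)
    rw [abs_mul]
    calc |t| * |ψ k' x| ≤ 1 * |ψ k' x| := mul_le_mul_of_nonneg_right ht (abs_nonneg _)
      _ ≤ ‖P k' x‖ := by rw [one_mul]; exact hψ k' x
  have h2 : ∑ i, |(g i - (g i).comp (P k) - (g i).comp (P k')) x| ≤ ‖x - P k x - P k' x‖ := by
    refine le_trans (le_of_eq ?_) (admissible_le hg _)
    refine Finset.sum_congr rfl fun i _ => ?_
    rw [_root_.sub_apply, _root_.sub_apply, map_sub, map_sub]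
    rfl
  have h3 : ‖x - P k x - P k' x‖ ≤ ∑ m ∈ (univ.erase k).erase k', ‖P m x‖ := by
    have h4 : x - P k x - P k' x = ∑ m ∈ (univ.erase k).erase k', P m x := by
      have h5 : ∑ m ∈ univ.erase k, P m x + P k x = x := by
        rw [Finset.sum_erase_add _ _ (Finset.mem_univ k)]
        exact hP1 x
      have h6 : ∑ m ∈ (univ.erase k).erase k', P m x + P k' x = ∑ m ∈ univ.erase k, P m x :=
        Finset.sum_erase_add _ _ (Finset.mem_erase.2 ⟨hkk.symm, Finset.mem_univ _⟩)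
      conv_lhs => rw [← h5, ← h6]
      rw [h6, h5]
      have h7 : ∑ m ∈ (univ.erase k).erase k', P m x = x - P k x - P k' x := by
        rw [← eq_sub_iff_add_eq] at h5 h6
        rw [h6, h5]
      rw [h7]
    rw [h4]
    exact norm_sum_le _ _
  have h8 : ∑ m ∈ (univ.erase k).erase k', ‖P m x‖ + ‖P k' x‖ + ‖P k x‖ ≤ ‖x‖ := by
    rw [Finset.sum_erase_add _ _ (Finset.mem_erase.2 ⟨hkk.symm, Finset.mem_univ _⟩),
      Finset.sum_erase_add _ _ (Finset.mem_univ k)]
    exact hP2 x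
  linarith

lemma stepC {f₀ : Fun E} (hf₀ : InLat f₀) {X : Finset E} {L η : ℝ} (hL : 0 ≤ L)
    (hgood : Good f₀ X L) {N : ℕ} {P : Fin N → E →L[ℝ] E} {e : Fin N → E}
    {ψ : Fin N → StrongDual ℝ E} (hP1 : ∀ x, ∑ k, P k x = x) (hP2 : ∀ x, ∑ k, ‖P k x‖ ≤ ‖x‖)
    (hψ : ∀ k x, |ψ k x| ≤ ‖P k x‖) (he1 : ∀ k, ψ k (e k) = 1)
    (he2 : ∀ j k, j ≠ k → P j (e k) = 0) (hX : ∀ x ∈ X, ∀ k, ‖P k x‖ ≤ η)
    {k k' : Fin N} (hkk : k ≠ k') {n : ℕ} {g : Fin n → StrongDual ℝ E} (hg : Admissible g)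
    {t : ℝ} (ht : |t| ≤ 1) {v : Fun E} (hv : InLat v) (hva : ∀ φ, |v φ| ≤ |φ (e k)|)
    (hvh : ∀ h : StrongDual ℝ E, h (e k) = 1 → h (e k') = t → 1 ≤ v h) :
    ∑ i, |f₀ (g i)| + 1 - 4 * (L * (X.card * η)) ≤ ‖toF hf₀ + toF hv‖ := by
  have hfam := newFamily hP1 hP2 hψ hkk hg ht
  have h1 := le_nrm (hf₀.add hv).bdd hfam
  rw [Fin.sum_univ_succ] at h1
  simp only [Fin.cons_zero, Fin.cons_succ] at h1
  set h : StrongDual ℝ E := ψ k + t • ψ k' with hh
  set g' : Fin n → StrongDual ℝ E := fun i => g i - (g i).comp (P k) - (g i).comp (P k') with hg'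
  have hXs : ∀ j, ∑ x ∈ X, ‖P j x‖ ≤ X.card * η := by
    intro j
    refine (Finset.sum_le_sum fun x hx => hX x hx j).trans (le_of_eq ?_)
    rw [Finset.sum_const, nsmul_eq_mul]
  have hψ0 : ∀ j l, j ≠ l → ψ j (e l) = 0 := by
    intro j l hjl
    have := hψ j (e l)
    rw [he2 j l hjl, norm_zero] at this
    exact abs_eq_zero.1 (le_antisymm this (abs_nonneg _))
  have hPe : P k (e k) = e k := by
    have h2 := hP1 (e k)
    rw [Finset.sum_eq_single k (fun j _ hj => he2 j k hj)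
      (fun h => absurd (Finset.mem_univ _) h)] at h2
    exact h2
  have hha : h (e k) = 1 := by
    rw [hh, _root_.add_apply, _root_.smul_apply, he1, hψ0 k' k hkk.symm, smul_zero, add_zero]
  have hhb : h (e k') = t := by
    rw [hh, _root_.add_apply, _root_.smul_apply, he1, hψ0 k k' hkk, zero_add, smul_eq_mul, mul_one]
  have hvv := hvh h hha hhb
  have hvg : ∀ i, v (g' i) = 0 := by
    intro i
    have h2 : g' i (e k) = 0 := by
      show g i (e k) - g i (P k (e k)) - g i (P k' (e k)) = 0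
      rw [hPe, he2 k' k hkk.symm, map_zero]
      ring
    have h3 := hva (g' i)
    rw [h2, abs_zero] at h3
    exact abs_eq_zero.1 (le_antisymm h3 (abs_nonneg _))
  have hf₀h : |f₀ h| ≤ 2 * (L * (X.card * η)) := by
    have h2 := hgood h 0
    rw [hf₀.map_zero, sub_zero] at h2
    refine h2.trans ?_
    have h3 : ∑ x ∈ X, |h x - (0 : StrongDual ℝ E) x| ≤ X.card * η + X.card * η := by
      refine le_trans ?_ (add_le_add (hXs k) (hXs k'))
      rw [← Finset.sum_add_distrib]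
      refine Finset.sum_le_sum fun x _ => ?_
      rw [_root_.zero_apply, sub_zero, hh, _root_.add_apply, _root_.smul_apply, smul_eq_mul]
      refine (abs_add_le _ _).trans (add_le_add (hψ k x) ?_)
      rw [abs_mul]
      calc |t| * |ψ k' x| ≤ 1 * |ψ k' x| := mul_le_mul_of_nonneg_right ht (abs_nonneg _)
        _ ≤ ‖P k' x‖ := by rw [one_mul]; exact hψ k' x
    calc L * _ ≤ L * (X.card * η + X.card * η) := mul_le_mul_of_nonneg_left h3 hL
      _ = _ := by ring
  have hf₀g : ∑ i, |f₀ (g i)| ≤ ∑ i, |f₀ (g' i)| + 2 * (L * (X.card * η)) := by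
    have h2 : ∀ i, |f₀ (g i)| ≤ |f₀ (g' i)| + L * ∑ x ∈ X, |g i (P k x + P k' x)| := by
      intro i
      have h3 := hgood (g i) (g' i)
      have h4 : ∀ x, g i x - g' i x = g i (P k x + P k' x) := by
        intro x
        show g i x - (g i x - g i (P k x) - g i (P k' x)) = _
        rw [map_add]
        ring
      simp only [h4] at h3
      have h5 := abs_sub_abs_le_abs_sub (f₀ (g i)) (f₀ (g' i))
      linarith
    refine (Finset.sum_le_sum fun i _ => h2 i).trans ?_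
    rw [Finset.sum_add_distrib, ← Finset.mul_sum, Finset.sum_comm]
    have h3 : ∑ x ∈ X, ∑ i, |g i (P k x + P k' x)| ≤ X.card * η + X.card * η := by
      refine le_trans ?_ (add_le_add (hXs k) (hXs k'))
      rw [← Finset.sum_add_distrib]
      exact Finset.sum_le_sum fun x _ => (admissible_le hg _).trans (norm_add_le _ _)
    have h4 := mul_le_mul_of_nonneg_left h3 hL
    linarith
  have h5 : ∀ i, |(f₀ + v) (g' i)| = |f₀ (g' i)| := by
    intro i
    rw [Pi.add_apply, hvg, add_zero]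
  have h1' : |(f₀ + v) h| + ∑ i, |(f₀ + v) (g' i)| ≤ nrm (f₀ + v) := h1
  simp only [h5] at h1'
  have h6 : 1 - |f₀ h| ≤ |(f₀ + v) h| := by
    rw [Pi.add_apply]
    have h7 : |v h| ≤ |f₀ h + v h| + |f₀ h| := by
      have : v h = (f₀ h + v h) - f₀ h := by ring
      conv_lhs => rw [this]
      exact abs_sub _ _
    have h8 := le_abs_self (v h)
    linarith
  have h9 : nrm (f₀ + v) = ‖toF hf₀ + toF hv‖ := rfl
  rw [← h9]
  linarith

theorem slice (hE : HasCells E) (F : StrongDual ℝ (FBL E)) (hF : ‖F‖ = 1) (f : FBL E) {ε : ℝ}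
    (hε : 0 < ε) (hε1 : ε ≤ 1) :
    ∃ v : FBL E, ‖v‖ ≤ 1 ∧ 1 - ε < F v ∧ ‖f‖ + 1 - ε < ‖f + v‖ := by
  classical
  obtain ⟨w, hw1, hw2⟩ := R271.exists_unit_almost_norming F hF (η := ε / 8) (by positivity)
  obtain ⟨u₀, hu₀, hu₀w⟩ := exists_near w (r := ε / 24) (by positivity)
  have hnu : nrm u₀ ≤ 1 + ε / 24 := by
    rw [← norm_toF hu₀]
    have h1 : toF hu₀ = w - (w - toF hu₀) := by abel
    rw [h1]
    refine (norm_sub_le _ _).trans ?_
    rw [hw1]
    linarith
  have hFu : 1 - ε / 8 - ε / 24 < F (toF hu₀) := by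
    have h1 := R271.dual_le_norm F hF.le (w - toF hu₀)
    rw [map_sub] at h1
    linarith
  obtain ⟨f₀, hf₀, hf₀f⟩ := exists_near f (r := ε / 16) (by positivity)
  have hnf : nrm f₀ - ε / 16 < sSup (sums f₀) := by
    rw [nrm]
    linarith
  obtain ⟨r, ⟨n, g, hg, rfl⟩, hr⟩ := exists_lt_of_lt_csSup ⟨0, zero_mem_sums f₀⟩ hnf
  obtain ⟨X₀, L₀, hL₀, hgood₀⟩ := hu₀.exists_good
  obtain ⟨X₁, L₁, hL₁, hgood₁⟩ := hf₀.exists_good
  set X : Finset E := X₀ ∪ X₁ with hX
  set L : ℝ := L₀ + L₁ with hL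
  have hLn : 0 ≤ L := by positivity
  have hg0 : Good u₀ X L := hgood₀.mono Finset.subset_union_left hL₀ (by linarith)
  have hg1 : Good f₀ X L := hgood₁.mono Finset.subset_union_right hL₁ (by linarith)
  set A : ℝ := (L + 1) * (X.card + 1) with hA
  have hA0 : 0 < A := by positivity
  set η : ℝ := ε / (64 * A) with hη
  have hη0 : 0 < η := by positivity
  have hsmall : L * (X.card * η) ≤ ε / 64 := by
    have h1 : A * η = ε / 64 := by
      rw [hη]
      field_simp
    rw [← h1, hA, mul_assoc]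
    have h2 : (0 : ℝ) ≤ X.card := by positivity
    refine mul_le_mul (by linarith) ?_ (by positivity) (by positivity)
    exact mul_le_mul_of_nonneg_right (by linarith) hη0.le
  obtain ⟨N, P, e, ψ, hN, hP1, hP2, hψ, he1, he2, he3, happ, hsm⟩ := hE X η hη0
  obtain ⟨k, u, hu, hua, hFk⟩ := stepA hu₀ hLn hg0 hnu hFu hF.le
    (hsmall.trans (by linarith)) hε hε1 rfl hP2 hψ happ
  obtain ⟨k', hkk⟩ : ∃ k' : Fin N, k ≠ k' := by
    have : Nontrivial (Fin N) := Fin.nontrivial_iff_two_le.2 hN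
    obtain ⟨k', hk'⟩ := exists_ne k
    exact ⟨k', hk'.symm⟩
  obtain ⟨K, hK⟩ := exists_nat_gt (8 / ε)
  have hK0 : 0 < K := by
    have : (0 : ℝ) < K := lt_trans (by positivity) hK
    exact_mod_cast this
  have hK' : (0 : ℝ) < K := by exact_mod_cast hK0
  have hK2 : 2 / (K : ℝ) ≤ ε / 4 := by
    rw [div_le_iff₀ hK']
    rw [div_lt_iff₀ hε] at hK
    linarith
  obtain ⟨t, ht, v, hv, hva, hFv, hvh⟩ := stepB (b := e k') hF.le (he3 k) hu hua hK0
  have hC := stepC hf₀ hLn hg1 hP1 hP2 hψ he1 he2 hsm hkk hg ht hv hva hvh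
  refine ⟨toF hv, ?_, by linarith, ?_⟩
  · refine (norm_toF_le hv zero_le_one (x := e k) fun φ => ?_).trans ?_
    · rw [one_mul]
      exact hva φ
    · rw [one_mul]
      exact he3 k
  · have h1 : ‖toF hf₀ + toF hv‖ ≤ ‖f + toF hv‖ + ‖f - toF hf₀‖ := by
      have : toF hf₀ + toF hv = (f + toF hv) - (f - toF hf₀) := by abel
      rw [this]
      exact norm_sub_le _ _
    have h2 : ‖f‖ ≤ ‖toF hf₀‖ + ‖f - toF hf₀‖ := by
      have : f = toF hf₀ + (f - toF hf₀) := by abel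
      conv_lhs => rw [this]
      exact norm_add_le _ _
    rw [norm_toF] at h2
    linarith

lemma nontrivial_FBL (hE : HasCells E) : Nontrivial (FBL E) := by
  obtain ⟨N, P, e, ψ, hN, hP1, hP2, hψ, he1, he2, he3, happ, hsm⟩ := hE ∅ 1 one_pos
  let k : Fin N := ⟨0, by omega⟩
  refine ⟨⟨toF (InLat.dl (e k)), 0, fun h => ?_⟩⟩
  have h1 : dl (e k) = 0 := congrArg (fun x : FBL E => (x : H E).fn) h
  have h2 := congrFun h1 (ψ k)
  have h3 : ψ k (e k) = 0 := h2
  rw [he1] at h3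
  exact one_ne_zero h3

lemma daugavet_of_slice {X : Type} [NormedAddCommGroup X] [NormedSpace ℝ X] [Nontrivial X]
    (hs : ∀ F : StrongDual ℝ X, ‖F‖ = 1 → ∀ y : X, ‖y‖ = 1 → ∀ ε : ℝ, 0 < ε → ε ≤ 1 →
      ∃ v : X, ‖v‖ ≤ 1 ∧ 1 - ε < F v ∧ 1 + 1 - ε < ‖y + v‖) : Daugavet X := by
  intro F y T hT
  have hTn : ‖T‖ = ‖F‖ * ‖y‖ := by
    have h1 : T = F.smulRight y := by
      ext x
      rw [hT]
      rfl
    rw [h1, ContinuousLinearMap.norm_smulRight_apply]
  apply le_antisymm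
  · have h1 : ‖ContinuousLinearMap.id ℝ X‖ ≤ 1 := ContinuousLinearMap.norm_id_le
    exact (norm_add_le _ _).trans (add_le_add h1 le_rfl)
  rcases (norm_nonneg T).eq_or_lt with h0 | h0
  · have h1 : T = 0 := norm_eq_zero.1 h0.symm
    rw [h1, add_zero, norm_zero, add_zero, ContinuousLinearMap.norm_id]
  · rw [hTn] at h0 ⊢
    have ha : 0 < ‖F‖ := by
      rcases (norm_nonneg F).eq_or_lt with h | h
      · rw [← h, zero_mul] at h0
        exact absurd h0 (lt_irrefl _)
      · exact h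
    have hb : 0 < ‖y‖ := by
      rcases (norm_nonneg y).eq_or_lt with h | h
      · rw [← h, mul_zero] at h0
        exact absurd h0 (lt_irrefl _)
      · exact h
    set c : ℝ := ‖F‖ * ‖y‖ with hc
    refine le_of_forall_pos_le_add fun δ hδ => ?_
    set ε : ℝ := min 1 (δ / (1 + 2 * c)) with hε
    have hε0 : 0 < ε := lt_min one_pos (by positivity)
    have hε1 : ε ≤ 1 := min_le_left _ _
    have hε2 : ε * (1 + 2 * c) ≤ δ := by
      have h1 : ε ≤ δ / (1 + 2 * c) := min_le_right _ _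
      rwa [le_div_iff₀ (by positivity)] at h1
    set F' : StrongDual ℝ X := ‖F‖⁻¹ • F with hF'
    set y' : X := ‖y‖⁻¹ • y with hy'
    have hF'1 : ‖F'‖ = 1 := by rw [hF', norm_smul, norm_inv, norm_norm, inv_mul_cancel₀ ha.ne']
    have hy'1 : ‖y'‖ = 1 := by rw [hy', norm_smul, norm_inv, norm_norm, inv_mul_cancel₀ hb.ne']
    obtain ⟨v, hv1, hv2, hv3⟩ := hs F' hF'1 y' hy'1 ε hε0 hε1
    have hTv : T v = (c * F' v) • y' := by
      rw [hT, hF', hy', _root_.smul_apply, smul_smul, smul_eq_mul, hc]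
      congr 1
      field_simp
    have h1 : ‖v + T v‖ ≤ ‖ContinuousLinearMap.id ℝ X + T‖ := by
      have h2 := (ContinuousLinearMap.id ℝ X + T).le_opNorm v
      have h3 : (ContinuousLinearMap.id ℝ X + T) v = v + T v := rfl
      rw [h3] at h2
      refine h2.trans ?_
      calc _ ≤ ‖ContinuousLinearMap.id ℝ X + T‖ * 1 :=
            mul_le_mul_of_nonneg_left hv1 (norm_nonneg _)
        _ = _ := mul_one _
    have hF'v : F' v ≤ 1 := (R271.dual_le_norm F' hF'1.le v).trans hv1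
    have h4 : 1 + c - ε * (1 + c) ≤ ‖v + c • y'‖ := by
      rcases le_total c 1 with h | h
      · have h5 : y' + v = (v + c • y') + (1 - c) • y' := by module
        rw [h5] at hv3
        have h6 := norm_add_le (v + c • y') ((1 - c) • y')
        rw [norm_smul (1 - c), Real.norm_of_nonneg (by linarith), hy'1, mul_one] at h6
        nlinarith
      · have h5 : c • (y' + v) = (v + c • y') + (c - 1) • v := by module
        have h6 : c * (1 + 1 - ε) < ‖c • (y' + v)‖ := by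
          rw [norm_smul, Real.norm_of_nonneg h0.le]
          exact mul_lt_mul_of_pos_left hv3 h0
        rw [h5] at h6
        have h7 := norm_add_le (v + c • y') ((c - 1) • v)
        rw [norm_smul (c - 1), Real.norm_of_nonneg (by linarith)] at h7
        have h8 := mul_le_mul_of_nonneg_left hv1 (show 0 ≤ c - 1 by linarith)
        nlinarith
    have h9 : ‖v + c • y'‖ ≤ ‖v + T v‖ + c * ε := by
      have h10 : v + c • y' = (v + T v) + (c * (1 - F' v)) • y' := by
        rw [hTv]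
        module
      rw [h10]
      refine (norm_add_le _ _).trans ?_
      rw [norm_smul (c * (1 - F' v)), Real.norm_of_nonneg (mul_nonneg h0.le (by linarith)), hy'1,
        mul_one]
      have : c * (1 - F' v) ≤ c * ε := mul_le_mul_of_nonneg_left (by linarith) h0.le
      linarith
    nlinarith

theorem daugavet (hE : HasCells E) : Daugavet (FBL E) := by
  have hnt := nontrivial_FBL hE
  refine daugavet_of_slice fun F hF y hy ε hε hε1 => ?_
  obtain ⟨v, h1, h2, h3⟩ := slice hE F hF y hε hε1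
  rw [hy] at h3
  exact ⟨v, h1, h2, h3⟩

end Pool.Agent.R271.FBL
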