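import Mathlib

namespace Pool.Agent.R271.Kh

open Finset

variable {𝕜 : Type*} [RCLike 𝕜]

/-- Average of `G (c ± b₀ ± … ± b_{N-1})` over all choices of signs. -/
noncomputable def av (G : 𝕜 → ℝ) : ℕ → (ℕ → 𝕜) → 𝕜 → ℝ
  | 0, _, c => G c
  | (N+1), b, c =>
      (av G N (fun i => b (i+1)) (c + b 0) + av G N (fun i => b (i+1)) (c - b 0)) / 2

theorem av_zero (G : 𝕜 → ℝ) (b : ℕ → 𝕜) (c : 𝕜) : av G 0 b c = G c := rfl

theorem av_succ (G : 𝕜 → ℝ) (N : ℕ) (b : ℕ → 𝕜) (c : 𝕜) :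
    av G (N+1) b c =
      (av G N (fun i => b (i+1)) (c + b 0) + av G N (fun i => b (i+1)) (c - b 0)) / 2 := rfl

theorem av_nonneg {G : 𝕜 → ℝ} (hG : ∀ x, 0 ≤ G x) (N : ℕ) (b : ℕ → 𝕜) (c : 𝕜) :
    0 ≤ av G N b c := by
  induction N generalizing b c with
  | zero => exact hG c
  | succ N ih =>
    rw [av_succ]
    have h1 := ih (fun i => b (i+1)) (c + b 0)
    have h2 := ih (fun i => b (i+1)) (c - b 0)
    linarith

theorem av_mono {G H : 𝕜 → ℝ} (h : ∀ x, G x ≤ H x) (N : ℕ) (b : ℕ → 𝕜) (c : 𝕜) :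
    av G N b c ≤ av H N b c := by
  induction N generalizing b c with
  | zero => exact h c
  | succ N ih =>
    rw [av_succ, av_succ]
    have h1 := ih (fun i => b (i+1)) (c + b 0)
    have h2 := ih (fun i => b (i+1)) (c - b 0)
    linarith

theorem av_avg (G H : 𝕜 → ℝ) (N : ℕ) (b : ℕ → 𝕜) (c : 𝕜) :
    av (fun x => (G x + H x) / 2) N b c = (av G N b c + av H N b c) / 2 := by
  induction N generalizing b c with
  | zero => rfl
  | succ N ih =>
    rw [av_succ, av_succ, av_succ, ih, ih]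
    ring

theorem av_add (G H : 𝕜 → ℝ) (N : ℕ) (b : ℕ → 𝕜) (c : 𝕜) :
    av (fun x => G x + H x) N b c = av G N b c + av H N b c := by
  induction N generalizing b c with
  | zero => rfl
  | succ N ih =>
    rw [av_succ, av_succ, av_succ, ih, ih]
    ring

theorem av_smul (w : ℝ) (G : 𝕜 → ℝ) (N : ℕ) (b : ℕ → 𝕜) (c : 𝕜) :
    av (fun x => w * G x) N b c = w * av G N b c := by
  induction N generalizing b c with
  | zero => rfl
  | succ N ih =>
    rw [av_succ, av_succ, ih, ih]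
    ring

theorem av_sum {ι : Type*} (s : Finset ι) (w : ι → ℝ) (G : ι → 𝕜 → ℝ) (N : ℕ)
    (b : ℕ → 𝕜) (c : 𝕜) :
    av (fun x => ∑ k ∈ s, w k * G k x) N b c = ∑ k ∈ s, w k * av (G k) N b c := by
  induction N generalizing b c with
  | zero => rfl
  | succ N ih =>
    rw [av_succ, ih, ih, ← Finset.sum_add_distrib, Finset.sum_div]
    refine Finset.sum_congr rfl fun k _ => ?_
    rw [av_succ]
    ring

theorem av_translate (G : 𝕜 → ℝ) (N : ℕ) (b : ℕ → 𝕜) (c d : 𝕜) :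
    av G N b (c + d) = av (fun x => G (x + d)) N b c := by
  induction N generalizing b c with
  | zero => rfl
  | succ N ih =>
    rw [av_succ, av_succ, ← ih, ← ih]
    congr 3 <;> ring

/-- If `b i = 0` for `i < N`, nothing is averaged. -/
theorem av_const (G : 𝕜 → ℝ) (N : ℕ) (b : ℕ → 𝕜) (c : 𝕜) (h : ∀ i < N, b i = 0) :
    av G N b c = G c := by
  induction N generalizing b c with
  | zero => rfl
  | succ N ih =>
    rw [av_succ, h 0 (by omega), add_zero, sub_zero,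
      ih _ _ (fun i hi => h (i+1) (by omega))]
    ring

/-! ### Two point inequalities -/

theorem two_point {f : ℝ → ℝ} (hf : ConvexOn ℝ (Set.Ici 0) f) {a b α β : ℝ}
    (hb : 0 ≤ b) (h1 : b ≤ α) (h2 : α ≤ a) (h : α + β = a + b) :
    f α + f β ≤ f a + f b := by
  rcases eq_or_lt_of_le (h1.trans h2) with hab | hab
  · have h3 : α = a := by linarith
    have h4 : β = b := by linarith
    rw [h3, h4]
  · have hd : 0 < a - b := by linarith
    set t : ℝ := (α - b) / (a - b) with ht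
    have ht0 : 0 ≤ t := div_nonneg (by linarith) hd.le
    have ht1 : t ≤ 1 := by rw [ht, div_le_one hd]; linarith
    have hα : α = t * a + (1 - t) * b := by
      rw [ht]; field_simp; ring
    have hβ : β = (1 - t) * a + t * b := by
      have : β = a + b - α := by linarith
      rw [this, hα]; ring
    have ha' : a ∈ Set.Ici (0:ℝ) := by simp only [Set.mem_Ici]; linarith
    have hb' : b ∈ Set.Ici (0:ℝ) := hb
    have e1 := hf.2 ha' hb' ht0 (by linarith : 0 ≤ 1 - t) (by ring)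
    have e2 := hf.2 ha' hb' (by linarith : 0 ≤ 1 - t) ht0 (by ring)
    simp only [smul_eq_mul] at e1 e2
    rw [← hα] at e1
    rw [← hβ] at e2
    linarith

theorem sum_even_odd (f : ℕ → ℝ) (m : ℕ) :
    ∑ j ∈ range (2*m+1), f j = ∑ k ∈ range (m+1), f (2*k) + ∑ k ∈ range m, f (2*k+1) := by
  induction m with
  | zero => simp
  | succ m ih =>
    rw [show 2*(m+1)+1 = (2*m+1)+1+1 by ring, Finset.sum_range_succ, Finset.sum_range_succ, ih,
      Finset.sum_range_succ (fun k => f (2*k)) (m+1), Finset.sum_range_succ (fun k => f (2*k+1)) m]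
    rw [show 2*(m+1) = 2*m+1+1 by ring]
    ring

theorem binom_avg (X C : ℝ) (m : ℕ) :
    ((C + X)^(2*m) + (C - X)^(2*m)) / 2 =
      ∑ k ∈ range (m+1), (((2*m).choose (2*k) : ℕ) : ℝ) * (X^2)^k * (C^2)^(m-k) := by
  have e1 : (C + X)^(2*m) = ∑ j ∈ range (2*m+1), X^j * C^(2*m-j) * ((2*m).choose j : ℕ) := by
    rw [add_comm, add_pow]
  have e2 : (C - X)^(2*m) = ∑ j ∈ range (2*m+1), (-X)^j * C^(2*m-j) * ((2*m).choose j : ℕ) := by
    rw [sub_eq_add_neg, add_comm, add_pow]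
  rw [e1, e2, ← Finset.sum_add_distrib, sum_even_odd]
  have h2 : ∑ k ∈ range m, (X^(2*k+1) * C^(2*m-(2*k+1)) * ((2*m).choose (2*k+1) : ℕ) +
      (-X)^(2*k+1) * C^(2*m-(2*k+1)) * ((2*m).choose (2*k+1) : ℕ)) = 0 := by
    refine Finset.sum_eq_zero fun k _ => ?_
    rw [Odd.neg_pow ⟨k, rfl⟩]
    ring
  rw [h2, add_zero, Finset.sum_div]
  refine Finset.sum_congr rfl fun k hk => ?_
  rw [Even.neg_pow ⟨k, by ring⟩]
  have hk' : k ≤ m := by simpa [Nat.lt_succ_iff] using hk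
  rw [show 2*m - 2*k = 2*(m-k) by omega, pow_mul X, pow_mul C]
  ring

theorem norm_two_point (x c : 𝕜) (m : ℕ) :
    (‖x + c‖^(2*m) + ‖x - c‖^(2*m)) / 2 ≤
      ∑ k ∈ range (m+1), (((2*m).choose (2*k) : ℕ) : ℝ) * (‖c‖^2)^k * (‖x‖^2)^(m-k) := by
  rw [← binom_avg]
  have hpar := parallelogram_law_with_norm 𝕜 x c
  have h1 : ‖x + c‖ ≤ ‖x‖ + ‖c‖ := norm_add_le x c
  have h2 : |‖x‖ - ‖c‖| ≤ ‖x + c‖ := by
    have := abs_norm_sub_norm_le x (-c)
    simpa using this
  have h := two_point (convexOn_pow m) (a := (‖x‖ + ‖c‖)^2) (b := (‖x‖ - ‖c‖)^2)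
    (α := ‖x + c‖^2) (β := ‖x - c‖^2) (sq_nonneg _)
    (by rw [← sq_abs (‖x‖ - ‖c‖)]; exact pow_le_pow_left₀ (abs_nonneg _) h2 2)
    (pow_le_pow_left₀ (norm_nonneg _) h1 2) (by nlinarith [hpar])
  simp only [← pow_mul] at h
  linarith

/-! ### Even moments -/

/-- `(2m-1)!!` as a real number -/
noncomputable def df (m : ℕ) : ℝ := ∏ i ∈ range m, (2*(i:ℝ)+1)

theorem df_pos (m : ℕ) : 0 < df m := Finset.prod_pos fun i _ => by positivity

theorem df_succ (m : ℕ) : df (m+1) = df m * (2*(m:ℝ)+1) := by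
  rw [df, df, Finset.prod_range_succ]

theorem one_le_df (m : ℕ) : 1 ≤ df m := by
  induction m with
  | zero => simp [df]
  | succ m ih => rw [df_succ]; nlinarith [Nat.cast_nonneg (α := ℝ) m]

theorem df_fact (m : ℕ) : df m * (2^m * (m.factorial : ℝ)) = ((2*m).factorial : ℝ) := by
  induction m with
  | zero => simp [df]
  | succ m ih =>
    rw [df_succ, show 2*(m+1) = (2*m+1)+1 by ring, Nat.factorial_succ, Nat.factorial_succ,
      Nat.factorial_succ, Nat.cast_mul, Nat.cast_mul, Nat.cast_mul, ← ih]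
    push_cast
    ring

theorem choose_df (m k : ℕ) (hk : k ≤ m) :
    (((2*m).choose (2*k) : ℕ) : ℝ) * df (m-k) ≤ df m * ((m.choose k : ℕ) : ℝ) := by
  have e1 : (((2*m).choose (2*k) : ℕ) : ℝ) * ((2*k).factorial : ℝ) * ((2*(m-k)).factorial : ℝ)
      = ((2*m).factorial : ℝ) := by
    have := Nat.choose_mul_factorial_mul_factorial (show 2*k ≤ 2*m by omega)
    rw [show 2*m-2*k = 2*(m-k) by omega] at this
    exact_mod_cast this
  have e2 : ((m.choose k : ℕ) : ℝ) * (k.factorial : ℝ) * ((m-k).factorial : ℝ)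
      = (m.factorial : ℝ) := by
    exact_mod_cast Nat.choose_mul_factorial_mul_factorial hk
  have f1 := df_fact m
  have f2 := df_fact (m-k)
  have f3 := df_fact k
  have g : (2:ℝ)^m = 2^k * 2^(m-k) := by rw [← pow_add]; congr 1; omega
  have p1 : (0:ℝ) < (k.factorial : ℝ) := by exact_mod_cast Nat.factorial_pos k
  have p2 : (0:ℝ) < ((m-k).factorial : ℝ) := by exact_mod_cast Nat.factorial_pos (m-k)
  have p3 : (0:ℝ) < 2^k := by positivity
  have p4 : (0:ℝ) < 2^(m-k) := by positivity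
  -- multiply by positive quantity
  set D : ℝ := (2^(m-k) * ((m-k).factorial : ℝ)) * (2^k * (k.factorial:ℝ)) with hD
  have hDpos : 0 < D := by positivity
  have hL : (((2*m).choose (2*k) : ℕ) : ℝ) * df (m-k) * D * df k = ((2*m).factorial : ℝ) := by
    rw [← e1, ← f2, ← f3, hD]; ring
  have hR : df m * ((m.choose k : ℕ) : ℝ) * D = ((2*m).factorial : ℝ) := by
    rw [← f1, ← e2, g, hD]; ring
  have hk1 := one_le_df k
  have hLn : 0 ≤ (((2*m).choose (2*k) : ℕ) : ℝ) * df (m-k) * D := by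
    have := df_pos (m-k); positivity
  have : (((2*m).choose (2*k) : ℕ) : ℝ) * df (m-k) * D ≤ df m * ((m.choose k : ℕ) : ℝ) * D := by
    rw [hR, ← hL]
    nlinarith
  exact le_of_mul_le_mul_right this hDpos

theorem av_even (m N : ℕ) (b : ℕ → 𝕜) :
    av (fun x : 𝕜 => (‖x‖^2)^m) N b 0 ≤ df m * (∑ i ∈ range N, ‖b i‖^2)^m := by
  induction N generalizing b m with
  | zero =>
    rw [av_zero]
    rcases Nat.eq_zero_or_pos m with rfl | hm
    · simp [df]
    · simp [hm.ne']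
  | succ N ih =>
    set b' : ℕ → 𝕜 := fun i => b (i+1) with hb'
    set A : ℝ := ∑ i ∈ range N, ‖b' i‖^2 with hA
    have hA0 : 0 ≤ A := Finset.sum_nonneg fun i _ => by positivity
    have e1 : av (fun x : 𝕜 => (‖x‖^2)^m) (N+1) b 0 =
        av (fun x : 𝕜 => (‖x + b 0‖^(2*m) + ‖x - b 0‖^(2*m)) / 2) N b' 0 := by
      rw [av_succ, av_avg]
      have t1 := av_translate (fun x : 𝕜 => (‖x‖^2)^m) N b' 0 (b 0)
      have t2 := av_translate (fun x : 𝕜 => (‖x‖^2)^m) N b' 0 (- b 0)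
      simp only [← sub_eq_add_neg] at t2
      rw [t1, t2]
      simp only [pow_mul]
    rw [e1, Finset.sum_range_succ']
    calc av (fun x : 𝕜 => (‖x + b 0‖^(2*m) + ‖x - b 0‖^(2*m)) / 2) N b' 0
        ≤ av (fun x : 𝕜 => ∑ k ∈ range (m+1),
            ((((2*m).choose (2*k) : ℕ) : ℝ) * (‖b 0‖^2)^k) * (‖x‖^2)^(m-k)) N b' 0 :=
          av_mono (fun x => norm_two_point x (b 0) m) N b' 0
      _ = ∑ k ∈ range (m+1), ((((2*m).choose (2*k) : ℕ) : ℝ) * (‖b 0‖^2)^k) *
            av (fun x : 𝕜 => (‖x‖^2)^(m-k)) N b' 0 :=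
          av_sum (range (m+1)) (fun k => (((2*m).choose (2*k) : ℕ) : ℝ) * (‖b 0‖^2)^k)
            (fun k x => (‖x‖^2)^(m-k)) N b' 0
      _ ≤ ∑ k ∈ range (m+1), df m * ((‖b 0‖^2)^k * A^(m-k) * ((m.choose k : ℕ) : ℝ)) := by
          refine Finset.sum_le_sum fun k hk => ?_
          have hk' : k ≤ m := by simpa [Nat.lt_succ_iff] using hk
          have h1 := ih (m-k) b'
          have h2 := choose_df m k hk'
          have h3 : 0 ≤ (((2*m).choose (2*k) : ℕ) : ℝ) * (‖b 0‖^2)^k := by positivity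
          calc ((((2*m).choose (2*k) : ℕ) : ℝ) * (‖b 0‖^2)^k) *
              av (fun x : 𝕜 => (‖x‖^2)^(m-k)) N b' 0
              ≤ ((((2*m).choose (2*k) : ℕ) : ℝ) * (‖b 0‖^2)^k) * (df (m-k) * A^(m-k)) :=
                mul_le_mul_of_nonneg_left h1 h3
            _ = ((((2*m).choose (2*k) : ℕ) : ℝ) * df (m-k)) * ((‖b 0‖^2)^k * A^(m-k)) := by ring
            _ ≤ (df m * ((m.choose k : ℕ) : ℝ)) * ((‖b 0‖^2)^k * A^(m-k)) :=
                mul_le_mul_of_nonneg_right h2 (by positivity)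
            _ = _ := by ring
      _ = df m * (‖b 0‖^2 + A)^m := by rw [← Finset.mul_sum, add_pow]
      _ = df m * (A + ‖b 0‖^2)^m := by rw [add_comm A]

end Pool.Agent.R271.Kh
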