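import Pool.Agent.R271.Kh

namespace Pool.Agent.R271.Kh

open Finset

variable {𝕜 : Type*} [RCLike 𝕜]

/-! ### General exponents -/

/-- the constant in Khintchine's inequality, `q`-th power form -/
noncomputable def K (q : ℝ) : ℝ := df ⌊q/2⌋₊ * (2*(⌊q/2⌋₊:ℝ)+1)^(q/2 - ⌊q/2⌋₊)

theorem K_pos (q : ℝ) : 0 < K q := mul_pos (df_pos _) (by positivity)

theorem av_rpow {q : ℝ} (hq : 2 ≤ q) (N : ℕ) (b : ℕ → 𝕜) :
    av (fun x : 𝕜 => ‖x‖^q) N b 0 ≤ K q * (∑ i ∈ range N, ‖b i‖^2)^(q/2) := by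
  set A : ℝ := ∑ i ∈ range N, ‖b i‖^2 with hA
  have hA0 : 0 ≤ A := Finset.sum_nonneg fun i _ => by positivity
  rcases hA0.eq_or_lt with h0 | hpos
  · have hz : ∀ i < N, b i = 0 := by
      intro i hi
      have h1 : ‖b i‖^2 = 0 := (Finset.sum_eq_zero_iff_of_nonneg
        (fun i _ => by positivity)).1 h0.symm i (Finset.mem_range.2 hi)
      simpa using h1
    rw [av_const _ _ _ _ hz]
    simp only [norm_zero]
    rw [Real.zero_rpow (by linarith)]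
    exact mul_nonneg (K_pos q).le (Real.rpow_nonneg hA0 _)
  · set j : ℕ := ⌊q/2⌋₊ with hj
    set θ : ℝ := q/2 - j with hθ
    have hθ0 : 0 ≤ θ := by rw [hθ, sub_nonneg]; exact Nat.floor_le (by linarith)
    have hθ1 : θ < 1 := by have := Nat.lt_floor_add_one (q/2); rw [hθ]; linarith
    set Λ : ℝ := (2*(j:ℝ)+1) * A with hΛ
    have hΛpos : 0 < Λ := by positivity
    have hpt : ∀ x : 𝕜, ‖x‖^q ≤ (Λ^θ * (1-θ)) * (‖x‖^2)^j + (Λ^θ * (θ/Λ)) * (‖x‖^2)^(j+1) := by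
      intro x
      set u : ℝ := ‖x‖^2 with hu
      have hu0 : 0 ≤ u := by positivity
      have e1 : ‖x‖^q = u^j * u^θ := by
        have : ‖x‖^q = u^(q/2) := by
          rw [hu, ← Real.rpow_natCast, ← Real.rpow_mul (norm_nonneg x)]
          congr 1; push_cast; ring
        rw [this, show q/2 = (j:ℝ) + θ by rw [hθ]; ring,
          Real.rpow_add_of_nonneg hu0 (by positivity) hθ0, Real.rpow_natCast]
      have e2 : u^θ ≤ Λ^θ * (θ * (u/Λ) + (1-θ)) := by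
        have h1 := Real.geom_mean_le_arith_mean2_weighted hθ0 (by linarith : 0 ≤ 1-θ)
          (div_nonneg hu0 hΛpos.le) zero_le_one (by ring)
        rw [Real.one_rpow, mul_one, mul_one] at h1
        have h2 : u^θ = Λ^θ * (u/Λ)^θ := by
          rw [← Real.mul_rpow hΛpos.le (div_nonneg hu0 hΛpos.le), mul_div_cancel₀ u hΛpos.ne']
        rw [h2]
        exact mul_le_mul_of_nonneg_left h1 (Real.rpow_nonneg hΛpos.le _)
      rw [e1]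
      calc u^j * u^θ ≤ u^j * (Λ^θ * (θ * (u/Λ) + (1-θ))) :=
            mul_le_mul_of_nonneg_left e2 (by positivity)
        _ = _ := by rw [pow_succ]; ring
    calc av (fun x : 𝕜 => ‖x‖^q) N b 0
        ≤ av (fun x : 𝕜 => (Λ^θ * (1-θ)) * (‖x‖^2)^j + (Λ^θ * (θ/Λ)) * (‖x‖^2)^(j+1)) N b 0 :=
          av_mono hpt N b 0
      _ = (Λ^θ * (1-θ)) * av (fun x : 𝕜 => (‖x‖^2)^j) N b 0
          + (Λ^θ * (θ/Λ)) * av (fun x : 𝕜 => (‖x‖^2)^(j+1)) N b 0 := by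
          rw [av_add, av_smul, av_smul]
      _ ≤ (Λ^θ * (1-θ)) * (df j * A^j) + (Λ^θ * (θ/Λ)) * (df (j+1) * A^(j+1)) := by
          have hL := Real.rpow_nonneg hΛpos.le θ
          refine add_le_add (mul_le_mul_of_nonneg_left (av_even j N b) ?_)
            (mul_le_mul_of_nonneg_left (av_even (j+1) N b) ?_)
          · exact mul_nonneg hL (by linarith)
          · exact mul_nonneg hL (div_nonneg hθ0 hΛpos.le)
      _ = Λ^θ * (df j * A^j) := by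
          rw [df_succ, pow_succ]
          have : θ/Λ * (df j * (2*(j:ℝ)+1) * (A^j*A)) = θ * (df j * A^j) := by
            have h3 : (2*(j:ℝ)+1) * A = Λ := rfl
            calc θ/Λ * (df j * (2*(j:ℝ)+1) * (A^j*A))
                = θ/Λ * ((df j * A^j) * ((2*(j:ℝ)+1) * A)) := by ring
              _ = θ * (df j * A^j) := by rw [h3]; field_simp
          calc Λ^θ * (1-θ) * (df j * A^j) + Λ^θ * (θ/Λ) * (df j * (2*(j:ℝ)+1) * (A^j*A))
              = Λ^θ * (1-θ) * (df j * A^j) +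
                Λ^θ * (θ/Λ * (df j * (2*(j:ℝ)+1) * (A^j*A))) := by ring
            _ = _ := by rw [this]; ring
      _ = K q * A^(q/2) := by
          rw [K, ← hj, ← hθ, hΛ, Real.mul_rpow (by positivity) hA0,
            show q/2 = (j:ℝ) + θ by rw [hθ]; ring,
            Real.rpow_add hpos, Real.rpow_natCast]
          ring

theorem sum_odd (j : ℕ) : ∑ i ∈ range j, (2*(i:ℝ)+1) = (j:ℝ)^2 := by
  induction j with
  | zero => simp
  | succ j ih => rw [Finset.sum_range_succ, ih]; push_cast; ring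

theorem K_bound {q : ℝ} (hq : 2 ≤ q) :
    K q ≤ (q-1)^(q/2) * Real.exp (-((⌊q/2⌋₊:ℝ) * ((⌊q/2⌋₊:ℝ)-1)
      + 2*(q/2-⌊q/2⌋₊)*((⌊q/2⌋₊:ℝ)-1) + 2*(q/2-⌊q/2⌋₊)^2)/(q-1)) := by
  set j : ℕ := ⌊q/2⌋₊ with hj
  set θ : ℝ := q/2 - j with hθ
  have hθ0 : 0 ≤ θ := by rw [hθ, sub_nonneg]; exact Nat.floor_le (by linarith)
  set u : ℝ := q - 1 with hu
  have hu0 : 0 < u := by linarith
  have hqe : q/2 = (j:ℝ) + θ := by rw [hθ]; ring
  have hue : u = 2*(j:ℝ) + 2*θ - 1 := by rw [hu]; linarith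
  have h1 : df j ≤ u^j * Real.exp ((j:ℝ)^2/u - j) := by
    have e1 : ∏ i ∈ range j, ((2*(i:ℝ)+1)/u) ≤ ∏ i ∈ range j, Real.exp ((2*(i:ℝ)+1)/u - 1) := by
      refine Finset.prod_le_prod (fun i _ => by positivity) (fun i _ => ?_)
      have := Real.add_one_le_exp ((2*(i:ℝ)+1)/u - 1)
      linarith
    rw [Finset.prod_div_distrib, Finset.prod_const, card_range, ← Real.exp_sum,
      Finset.sum_sub_distrib, ← Finset.sum_div, sum_odd] at e1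
    simp only [sum_const, card_range, nsmul_eq_mul, mul_one] at e1
    have := (div_le_iff₀ (by positivity : 0 < u^j)).1 e1
    calc df j ≤ _ := this
      _ = _ := by ring
  have h2 : (2*(j:ℝ)+1)^θ ≤ u^θ * Real.exp (θ * ((2*(j:ℝ)+1)/u - 1)) := by
    have e1 : (2*(j:ℝ)+1)/u ≤ Real.exp ((2*(j:ℝ)+1)/u - 1) := by
      have := Real.add_one_le_exp ((2*(j:ℝ)+1)/u - 1)
      linarith
    have e2 : ((2*(j:ℝ)+1)/u)^θ ≤ (Real.exp ((2*(j:ℝ)+1)/u - 1))^θ :=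
      Real.rpow_le_rpow (by positivity) e1 hθ0
    rw [← Real.exp_mul, mul_comm _ θ, Real.div_rpow (by positivity) hu0.le,
      div_le_iff₀ (by positivity)] at e2
    linarith
  calc K q = df j * (2*(j:ℝ)+1)^θ := rfl
    _ ≤ (u^j * Real.exp ((j:ℝ)^2/u - j)) * (u^θ * Real.exp (θ * ((2*(j:ℝ)+1)/u - 1))) :=
        mul_le_mul h1 h2 (by positivity) (by positivity)
    _ = (u^j * u^θ) * (Real.exp ((j:ℝ)^2/u - j) * Real.exp (θ * ((2*(j:ℝ)+1)/u - 1))) := by ring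
    _ = u^(q/2) * Real.exp ((j:ℝ)^2/u - j + θ * ((2*(j:ℝ)+1)/u - 1)) := by
        rw [hqe, Real.rpow_add hu0, Real.rpow_natCast, Real.exp_add]
    _ = _ := by
        congr 2
        field_simp
        rw [hue]
        ring

theorem K_le {q : ℝ} (hq : 2 ≤ q) : K q ≤ (q-1)^(q/2) := by
  refine (K_bound hq).trans ?_
  have hj1 : (1:ℝ) ≤ (⌊q/2⌋₊:ℝ) := by
    have : 1 ≤ ⌊q/2⌋₊ := Nat.le_floor (by push_cast; linarith)
    exact_mod_cast this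
  have hθ0 : 0 ≤ q/2 - ⌊q/2⌋₊ := by rw [sub_nonneg]; exact Nat.floor_le (by linarith)
  have hu : 0 < q - 1 := by linarith
  have : Real.exp (-((⌊q/2⌋₊:ℝ) * ((⌊q/2⌋₊:ℝ)-1)
      + 2*(q/2-⌊q/2⌋₊)*((⌊q/2⌋₊:ℝ)-1) + 2*(q/2-⌊q/2⌋₊)^2)/(q-1)) ≤ 1 := by
    rw [Real.exp_le_one_iff]
    apply div_nonpos_of_nonpos_of_nonneg _ hu.le
    have h1 : 0 ≤ (⌊q/2⌋₊:ℝ) * ((⌊q/2⌋₊:ℝ)-1) := mul_nonneg (by linarith) (by linarith)
    have h2 : 0 ≤ 2*(q/2-⌊q/2⌋₊)*((⌊q/2⌋₊:ℝ)-1) := mul_nonneg (by linarith) (by linarith)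
    have h3 : 0 ≤ 2*(q/2-(⌊q/2⌋₊:ℝ))^2 := by positivity
    linarith
  exact mul_le_of_le_one_right (Real.rpow_nonneg hu.le _) this

theorem K_lt {q : ℝ} (hq : 2 < q) : K q < (q-1)^(q/2) := by
  refine (K_bound hq.le).trans_lt ?_
  have hj1 : (1:ℝ) ≤ (⌊q/2⌋₊:ℝ) := by
    have : 1 ≤ ⌊q/2⌋₊ := Nat.le_floor (by push_cast; linarith)
    exact_mod_cast this
  have hθ0 : 0 ≤ q/2 - ⌊q/2⌋₊ := by rw [sub_nonneg]; exact Nat.floor_le (by linarith)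
  have hu : 0 < q - 1 := by linarith
  have : Real.exp (-((⌊q/2⌋₊:ℝ) * ((⌊q/2⌋₊:ℝ)-1)
      + 2*(q/2-⌊q/2⌋₊)*((⌊q/2⌋₊:ℝ)-1) + 2*(q/2-⌊q/2⌋₊)^2)/(q-1)) < 1 := by
    rw [Real.exp_lt_one_iff]
    apply div_neg_of_neg_of_pos _ hu
    have h2 : 0 ≤ 2*(q/2-⌊q/2⌋₊)*((⌊q/2⌋₊:ℝ)-1) := mul_nonneg (by linarith) (by linarith)
    rcases hj1.eq_or_lt with h | h
    · have h4 : 0 < q/2 - (⌊q/2⌋₊:ℝ) := by rw [← h]; linarith
      have h3 : 0 < 2*(q/2-(⌊q/2⌋₊:ℝ))^2 := by positivity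
      have h1 : 0 ≤ (⌊q/2⌋₊:ℝ) * ((⌊q/2⌋₊:ℝ)-1) := mul_nonneg (by linarith) (by linarith)
      linarith
    · have h1 : 0 < (⌊q/2⌋₊:ℝ) * ((⌊q/2⌋₊:ℝ)-1) := mul_pos (by linarith) (by linarith)
      have h3 : 0 ≤ 2*(q/2-(⌊q/2⌋₊:ℝ))^2 := by positivity
      linarith
  exact mul_lt_of_lt_one_right (Real.rpow_pos_of_pos hu _) this

/-- the constant in Khintchine's inequality -/
noncomputable def kap (q : ℝ) : ℝ := (K q)^(1/q)

theorem kap_pos (q : ℝ) : 0 < kap q := Real.rpow_pos_of_pos (K_pos q) _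

theorem kap_sq_le {q : ℝ} (hq : 2 ≤ q) : kap q ^ 2 ≤ q - 1 := by
  have h0 : 0 < q := by linarith
  have h1 : kap q ≤ ((q-1)^(q/2))^(1/q) :=
    Real.rpow_le_rpow (K_pos q).le (K_le hq) (by positivity)
  rw [← Real.rpow_mul (by linarith), show q/2*(1/q) = 1/2 by field_simp, ← Real.sqrt_eq_rpow] at h1
  calc kap q ^ 2 ≤ (Real.sqrt (q-1))^2 := pow_le_pow_left₀ (kap_pos q).le h1 2
    _ = q - 1 := Real.sq_sqrt (by linarith)

theorem kap_sq_lt {q : ℝ} (hq : 2 < q) : kap q ^ 2 < q - 1 := by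
  have h0 : 0 < q := by linarith
  have h1 : kap q < ((q-1)^(q/2))^(1/q) :=
    Real.rpow_lt_rpow (K_pos q).le (K_lt hq) (by positivity)
  rw [← Real.rpow_mul (by linarith), show q/2*(1/q) = 1/2 by field_simp, ← Real.sqrt_eq_rpow] at h1
  calc kap q ^ 2 < (Real.sqrt (q-1))^2 := pow_lt_pow_left₀ h1 (kap_pos q).le (by norm_num)
    _ = q - 1 := Real.sq_sqrt (by linarith)

/-! ### Monotonicity in the coefficients -/

/-- the property behind strict monotonicity -/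
def QP (q : ℝ) (G : 𝕜 → ℝ) : Prop := ∀ (c b : 𝕜) (θ : ℝ), 0 ≤ θ → θ ≤ 1 →
  G (c + (θ:𝕜) * b) + G (c - (θ:𝕜) * b) + 2*(1-θ)*‖b‖^q ≤ G (c + b) + G (c - b)

theorem clarkson {q : ℝ} (hq : 2 ≤ q) (c b : 𝕜) :
    2*‖c‖^q + 2*‖b‖^q ≤ ‖c + b‖^q + ‖c - b‖^q := by
  have hs : 1 ≤ q/2 := by linarith
  have key : ∀ x : 𝕜, ‖x‖^q = (‖x‖^2)^(q/2) := by
    intro x
    rw [← Real.rpow_natCast, ← Real.rpow_mul (norm_nonneg x)]
    congr 1; push_cast; ring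
  have hpar := parallelogram_law_with_norm 𝕜 c b
  have h1 := Real.add_rpow_le_rpow_add (by positivity : 0 ≤ ‖c‖^2) (by positivity : 0 ≤ ‖b‖^2) hs
  have h2 := (convexOn_rpow hs).2 (show ‖c+b‖^2 ∈ Set.Ici (0:ℝ) from by
      simp only [Set.mem_Ici]; positivity)
    (show ‖c-b‖^2 ∈ Set.Ici (0:ℝ) from by simp only [Set.mem_Ici]; positivity)
    (by norm_num : (0:ℝ) ≤ 1/2) (by norm_num : (0:ℝ) ≤ 1/2) (by norm_num)
  simp only [smul_eq_mul] at h2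
  have h3 : 1/2*‖c+b‖^2 + 1/2*‖c-b‖^2 = ‖c‖^2 + ‖b‖^2 := by nlinarith [hpar]
  rw [h3] at h2
  rw [key c, key b, key (c+b), key (c-b)]
  linarith

theorem norm_convex {q : ℝ} (hq : 1 ≤ q) (x y : 𝕜) (θ : ℝ) (h0 : 0 ≤ θ) (h1 : θ ≤ 1) :
    ‖(θ:𝕜) * x + ((1-θ:ℝ):𝕜) * y‖^q ≤ θ * ‖x‖^q + (1-θ) * ‖y‖^q := by
  have h2 : ‖(θ:𝕜) * x + ((1-θ:ℝ):𝕜) * y‖ ≤ θ * ‖x‖ + (1-θ) * ‖y‖ := by
    refine (norm_add_le _ _).trans ?_
    rw [norm_mul, norm_mul, RCLike.norm_ofReal, RCLike.norm_ofReal, abs_of_nonneg h0,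
      abs_of_nonneg (by linarith : 0 ≤ 1-θ)]
  have h3 := (convexOn_rpow hq).2 (show ‖x‖ ∈ Set.Ici (0:ℝ) from norm_nonneg x)
    (show ‖y‖ ∈ Set.Ici (0:ℝ) from norm_nonneg y) h0 (by linarith : 0 ≤ 1-θ) (by ring)
  simp only [smul_eq_mul] at h3
  exact (Real.rpow_le_rpow (norm_nonneg _) h2 (by linarith)).trans h3

theorem QP_rpow {q : ℝ} (hq : 2 ≤ q) : QP q (fun x : 𝕜 => ‖x‖^q) := by
  intro c b θ h0 h1
  have e1 := norm_convex (by linarith : 1 ≤ q) (c+b) c θ h0 h1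
  have e2 := norm_convex (by linarith : 1 ≤ q) (c-b) c θ h0 h1
  have e3 := clarkson hq c b
  have f1 : (θ:𝕜) * (c+b) + ((1-θ:ℝ):𝕜) * c = c + (θ:𝕜) * b := by push_cast; ring
  have f2 : (θ:𝕜) * (c-b) + ((1-θ:ℝ):𝕜) * c = c - (θ:𝕜) * b := by push_cast; ring
  rw [f1] at e1
  rw [f2] at e2
  have e4 : (1-θ) * (2*‖c‖^q + 2*‖b‖^q) ≤ (1-θ) * (‖c + b‖^q + ‖c - b‖^q) :=
    mul_le_mul_of_nonneg_left e3 (by linarith)
  simp only
  linarith

theorem QP_av {q : ℝ} {G : 𝕜 → ℝ} (hG : QP q G) (N : ℕ) (b : ℕ → 𝕜) :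
    QP q (fun c => av G N b c) := by
  induction N generalizing b with
  | zero => exact hG
  | succ N ih =>
    intro c d θ h0 h1
    have e1 := ih (fun i => b (i+1)) (c + b 0) d θ h0 h1
    have e2 := ih (fun i => b (i+1)) (c - b 0) d θ h0 h1
    simp only [av_succ] at *
    rw [show c + (θ:𝕜)*d + b 0 = c + b 0 + (θ:𝕜)*d by ring,
      show c + (θ:𝕜)*d - b 0 = c - b 0 + (θ:𝕜)*d by ring,
      show c - (θ:𝕜)*d + b 0 = c + b 0 - (θ:𝕜)*d by ring,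
      show c - (θ:𝕜)*d - b 0 = c - b 0 - (θ:𝕜)*d by ring,
      show c + d + b 0 = c + b 0 + d by ring, show c + d - b 0 = c - b 0 + d by ring,
      show c - d + b 0 = c + b 0 - d by ring, show c - d - b 0 = c - b 0 - d by ring]
    linarith

theorem av_contract {q : ℝ} {G : 𝕜 → ℝ} (hG : QP q G) (N : ℕ) (b : ℕ → 𝕜) (θ : ℕ → ℝ)
    (h0 : ∀ i, 0 ≤ θ i) (h1 : ∀ i, θ i ≤ 1) (c : 𝕜) :
    av G N (fun i => (θ i : 𝕜) * b i) c + ∑ i ∈ range N, (1 - θ i) * ‖b i‖^q ≤ av G N b c := by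
  induction N generalizing b θ c with
  | zero => simp [av_zero]
  | succ N ih =>
    have e1 := ih (fun i => b (i+1)) (fun i => θ (i+1)) (fun i => h0 _) (fun i => h1 _)
      (c + (θ 0 : 𝕜) * b 0)
    have e2 := ih (fun i => b (i+1)) (fun i => θ (i+1)) (fun i => h0 _) (fun i => h1 _)
      (c - (θ 0 : 𝕜) * b 0)
    have e3 := QP_av hG N (fun i => b (i+1)) c (b 0) (θ 0) (h0 0) (h1 0)
    rw [av_succ, av_succ, Finset.sum_range_succ']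
    simp only at *
    linarith

end Pool.Agent.R271.Kh
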