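import Pool.Agent.R271.KhTwo

namespace Pool.Agent.R271.Kh

open Filter Topology Set

/-- `(E, F)` has the weak maximizing property: every bounded operator `T : E → F` possessing a
maximizing sequence (in the unit sphere) which is not weakly null attains its norm. -/
def WMP (𝕜 : Type*) [RCLike 𝕜] (E F : Type*) [NormedAddCommGroup E] [NormedSpace 𝕜 E]
    [NormedAddCommGroup F] [NormedSpace 𝕜 F] : Prop :=
  ∀ T : E →L[𝕜] F,
    (∃ x : ℕ → E, (∀ n, ‖x n‖ = 1) ∧ Tendsto (fun n => ‖T (x n)‖) atTop (𝓝 ‖T‖) ∧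
      ¬ ∀ φ : E →L[𝕜] 𝕜, Tendsto (fun n => φ (x n)) atTop (𝓝 0)) →
    ∃ x₀ : E, ‖x₀‖ = 1 ∧ ‖T x₀‖ = ‖T‖

variable {𝕜 E F : Type*} [RCLike 𝕜] [NormedAddCommGroup E] [NormedSpace 𝕜 E]
    [NormedAddCommGroup F] [NormedSpace 𝕜 F] [CompleteSpace F]

theorem summable_of_sq {R : ℕ → F} {κ : ℝ} (hκ : 0 ≤ κ)
    (hK : ∀ (t : Finset ℕ) (b : ℕ → 𝕜), ‖∑ i ∈ t, b i • R i‖ ≤ κ * √(∑ i ∈ t, ‖b i‖^2))
    (b : ℕ → 𝕜) {B : ℝ} (hB : ∀ t : Finset ℕ, √(∑ i ∈ t, ‖b i‖^2) ≤ B) :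
    Summable (fun i => b i • R i) := by
  have hB0 : 0 ≤ B := by simpa using hB ∅
  have hs : Summable (fun i => ‖b i‖^2) := by
    refine summable_of_sum_le (c := B^2) (fun i => by positivity) (fun t => ?_)
    exact (Real.sqrt_le_left hB0).1 (hB t)
  rw [summable_iff_vanishing_norm] at hs ⊢
  intro ε hε
  obtain ⟨s, hs⟩ := hs ((ε/(κ+1))^2) (by positivity)
  refine ⟨s, fun t ht => ?_⟩
  have h1 := hs t ht
  have h0 : 0 ≤ ∑ i ∈ t, ‖b i‖^2 := Finset.sum_nonneg fun i _ => by positivity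
  rw [Real.norm_of_nonneg h0] at h1
  have h2 : √(∑ i ∈ t, ‖b i‖^2) < ε/(κ+1) := by
    rw [Real.sqrt_lt' (by positivity)]
    exact h1
  calc ‖∑ i ∈ t, b i • R i‖ ≤ κ * √(∑ i ∈ t, ‖b i‖^2) := hK t b
    _ ≤ κ * (ε/(κ+1)) := mul_le_mul_of_nonneg_left h2.le hκ
    _ < (κ+1) * (ε/(κ+1)) := mul_lt_mul_of_pos_right (by linarith) (by positivity)
    _ = ε := by field_simp

theorem norm_tsum_le {R : ℕ → F} {κ : ℝ} (hκ : 0 ≤ κ)
    (hK : ∀ (t : Finset ℕ) (b : ℕ → 𝕜), ‖∑ i ∈ t, b i • R i‖ ≤ κ * √(∑ i ∈ t, ‖b i‖^2))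
    (b : ℕ → 𝕜) {B : ℝ} (hB : ∀ t : Finset ℕ, √(∑ i ∈ t, ‖b i‖^2) ≤ B) :
    ‖∑' i, b i • R i‖ ≤ κ * B := by
  have hs := (summable_of_sq hκ hK b hB).hasSum
  refine le_of_tendsto' hs.norm (fun t => ?_)
  exact (hK t b).trans (mul_le_mul_of_nonneg_left (hB t) hκ)

theorem exists_maximizing (T : E →L[𝕜] F) (hT : 0 < ‖T‖) :
    ∃ x : ℕ → E, (∀ n, ‖x n‖ = 1) ∧ Tendsto (fun n => ‖T (x n)‖) atTop (𝓝 ‖T‖) := by
  have h : ∀ n : ℕ, ∃ x : E, ‖x‖ = 1 ∧ ‖T‖ * (1 - 1/((n:ℝ)+1)) ≤ ‖T x‖ := by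
    intro n
    rcases Nat.eq_zero_or_pos n with rfl | hn
    · -- any unit vector
      obtain ⟨y, -, hy⟩ := T.exists_lt_apply_of_lt_opNorm hT
      have hy0 : y ≠ 0 := by rintro rfl; simp at hy
      have hyn : ‖y‖ ≠ 0 := norm_ne_zero_iff.2 hy0
      refine ⟨((‖y‖⁻¹ : ℝ) : 𝕜) • y, ?_, ?_⟩
      · rw [norm_smul, RCLike.norm_ofReal, abs_of_nonneg (by positivity), inv_mul_cancel₀ hyn]
      · simp
    · have hlt : ‖T‖ * (1 - 1/((n:ℝ)+1)) < ‖T‖ := by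
        have : 0 < 1/((n:ℝ)+1) := by positivity
        nlinarith
      obtain ⟨y, hy1, hy⟩ := T.exists_lt_apply_of_lt_opNorm hlt
      have hnn : 0 < 1 - 1/((n:ℝ)+1) := by
        have : (1:ℝ) ≤ n := by exact_mod_cast hn
        rw [sub_pos, div_lt_one (by positivity)]
        linarith
      have hy0 : y ≠ 0 := by
        rintro rfl
        simp only [map_zero, norm_zero] at hy
        nlinarith [mul_pos hT hnn]
      have hyn : 0 < ‖y‖ := norm_pos_iff.2 hy0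
      refine ⟨((‖y‖⁻¹ : ℝ) : 𝕜) • y, ?_, ?_⟩
      · rw [norm_smul, RCLike.norm_ofReal, abs_of_nonneg (by positivity),
          inv_mul_cancel₀ hyn.ne']
      · rw [map_smul, norm_smul, RCLike.norm_ofReal, abs_of_nonneg (by positivity)]
        have h1 : 1 ≤ ‖y‖⁻¹ := (one_le_inv₀ hyn).2 hy1.le
        nlinarith [norm_nonneg (T y)]
  choose x hx1 hx2 using h
  refine ⟨x, hx1, ?_⟩
  have hlim : Tendsto (fun n : ℕ => ‖T‖ * (1 - 1/((n:ℝ)+1))) atTop (𝓝 (‖T‖ * (1 - 0))) :=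
    (tendsto_one_div_add_atTop_nhds_zero_nat.const_sub 1).const_mul _
  rw [sub_zero, mul_one] at hlim
  refine tendsto_of_tendsto_of_tendsto_of_le_of_le hlim tendsto_const_nhds hx2 (fun n => ?_)
  have := T.le_opNorm (x n)
  rwa [hx1 n, mul_one] at this

theorem not_WMP {p q : ℝ} (hp : 1 < p) (hq : 2 ≤ q) {κ₁ κ₂ : ℝ} (hκ1 : 0 ≤ κ₁) (hκ2 : 0 ≤ κ₂)
    (Ex : E →L[𝕜] 𝕜) (hEx : ∀ f, ‖Ex f‖ ≤ ‖f‖) (a : ℕ → E →L[𝕜] 𝕜)
    (ha : ∀ (t : Finset ℕ) (f : E), √(∑ i ∈ t, ‖a i f‖^2) ≤ κ₁ * ‖f‖)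
    (u : F) (R : ℕ → F)
    (hK : ∀ (t : Finset ℕ) (b : ℕ → 𝕜), ‖∑ i ∈ t, b i • R i‖ ≤ κ₂ * √(∑ i ∈ t, ‖b i‖^2))
    (hnorm : ∀ (N : ℕ) (b : ℕ → 𝕜) (c : 𝕜),
      ‖c • u + ∑ i ∈ Finset.range N, b i • R i‖^q = av (fun x => ‖x‖^q) N b c)
    (U : E → E) (hU : ∀ f, ‖U f‖ = ‖f‖) (hUE : ∀ f, Ex (U f) = Ex f)
    (hU0 : ∀ f, a 0 (U f) = 0) (hUs : ∀ i f, a (i+1) (U f) = a i f)
    (tv : ℝ → E) (htv : ∀ ε, 0 < ε → ε < 1 → ‖tv ε‖^p = FF p ε)
    (htE : ∀ ε, Ex (tv ε) = 1) (ht0 : ∀ ε, a 0 (tv ε) = (ε : 𝕜))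
    (hts : ∀ i ε, a (i+1) (tv ε) = 0)
    (hκ : κ₁ * κ₂ < √((q-1)/(p-1))) : ¬ WMP 𝕜 E F := by
  have hp0 : 0 < p := by linarith
  have hq0 : 0 < q := by linarith
  -- the parameters
  set L : ℝ := √((q-1)/(p-1)) with hL
  have hLsq : L^2 = (q-1)/(p-1) := Real.sq_sqrt (div_nonneg (by linarith) (by linarith))
  obtain ⟨s, hs1, hs2⟩ := exists_between hκ
  have hs0 : 0 < s := lt_of_le_of_lt (mul_nonneg hκ1 hκ2) hs1
  have hL0 : 0 < L := hs0.trans hs2
  obtain ⟨c₀, hc1, hc2⟩ := exists_between ((div_lt_one hL0).2 hs2)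
  have hc0 : 0 < c₀ := (div_pos hs0 hL0).trans hc1
  have hsL : s < c₀ * L := (div_lt_iff₀ hL0).1 hc1
  set ρ : ℝ := c₀ / s with hρ
  have hρ0 : 0 < ρ := div_pos hc0 hs0
  have hρ1 : p - 1 < (q-1) * ρ^2 := by
    have h1 : s^2 < c₀^2 * ((q-1)/(p-1)) := by
      rw [← hLsq, ← mul_pow]
      exact pow_lt_pow_left₀ hsL hs0.le two_ne_zero
    have hp1 : 0 < p - 1 := by linarith
    rw [← mul_div_assoc, lt_div_iff₀ hp1] at h1
    rw [hρ, div_pow, ← mul_div_assoc, lt_div_iff₀ (by positivity)]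
    linarith
  set c : ℕ → ℝ := fun i => 1 - (1-c₀)/((i:ℝ)+1) with hc
  have hcz : c 0 = c₀ := by simp [hc]
  have hcle : ∀ i, c i ≤ 1 := by
    intro i
    have : 0 ≤ (1-c₀)/((i:ℝ)+1) := div_nonneg (by linarith) (by positivity)
    simp only [hc]; linarith
  have hcpos : ∀ i, 0 < c i := by
    intro i
    have : (1-c₀)/((i:ℝ)+1) ≤ 1 - c₀ :=
      div_le_self (by linarith) (by have := Nat.cast_nonneg (α := ℝ) i; linarith)
    simp only [hc]; linarith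
  have hclt : ∀ i, c i < c (i+1) := by
    intro i
    have : (1-c₀)/(((i+1:ℕ):ℝ)+1) < (1-c₀)/((i:ℝ)+1) := by
      apply div_lt_div_of_pos_left (by linarith) (by positivity)
      push_cast; linarith
    simp only [hc]; linarith
  -- the square function bound with the weights
  have ha' : ∀ (t : Finset ℕ) (f : E), √(∑ i ∈ t, ‖(c i : 𝕜) * a i f‖^2) ≤ κ₁ * ‖f‖ := by
    intro t f
    refine le_trans (Real.sqrt_le_sqrt (Finset.sum_le_sum fun i _ => ?_)) (ha t f)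
    rw [norm_mul, RCLike.norm_ofReal, abs_of_pos (hcpos i)]
    apply pow_le_pow_left₀ (by have := hcpos i; positivity)
    exact mul_le_of_le_one_left (norm_nonneg _) (hcle i)
  have hsum : ∀ f : E, Summable (fun i => ((c i : 𝕜) * a i f) • R i) := fun f =>
    summable_of_sq hκ2 hK _ (fun t => ha' t f)
  have hu : ‖u‖ = 1 := by
    have h := hnorm 0 (fun _ => 0) 1
    simp only [Finset.range_zero, Finset.sum_empty, add_zero, one_smul, av_zero, norm_one,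
      Real.one_rpow] at h
    have h2 : (‖u‖^q)^(1/q) = 1 := by rw [h, Real.one_rpow]
    rwa [← Real.rpow_mul (norm_nonneg u), mul_one_div_cancel hq0.ne', Real.rpow_one] at h2
  -- the operator
  let T₀ : E →ₗ[𝕜] F :=
    { toFun := fun f => ((s : 𝕜) * Ex f) • u + ∑' i, ((c i : 𝕜) * a i f) • R i
      map_add' := by
        intro f g
        have h1 : ∑' i, ((c i : 𝕜) * a i (f + g)) • R i =
            ∑' i, ((c i : 𝕜) * a i f) • R i + ∑' i, ((c i : 𝕜) * a i g) • R i := by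
          rw [← (hsum f).tsum_add (hsum g)]
          congr 1
          funext i
          rw [map_add, mul_add, add_smul]
        rw [h1, map_add, mul_add, add_smul]
        abel
      map_smul' := by
        intro z f
        have h1 : ∑' i, ((c i : 𝕜) * a i (z • f)) • R i =
            z • ∑' i, ((c i : 𝕜) * a i f) • R i := by
          rw [← (hsum f).tsum_const_smul z]
          congr 1
          funext i
          rw [map_smul, smul_eq_mul, smul_smul]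
          congr 1
          ring
        rw [h1, map_smul, smul_eq_mul, RingHom.id_apply, smul_add, smul_smul]
        congr 2
        ring }
  have hbd0 : ∀ f, ‖T₀ f‖ ≤ s * ‖Ex f‖ + κ₁ * κ₂ * ‖f‖ := by
    intro f
    have h1 : ‖((s : 𝕜) * Ex f) • u‖ = s * ‖Ex f‖ := by
      rw [norm_smul, norm_mul, RCLike.norm_ofReal, abs_of_pos hs0, hu, mul_one]
    have h2 := norm_tsum_le hκ2 hK _ (fun t => ha' t f)
    calc ‖T₀ f‖ ≤ ‖((s : 𝕜) * Ex f) • u‖ + ‖∑' i, ((c i : 𝕜) * a i f) • R i‖ := norm_add_le _ _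
      _ ≤ s * ‖Ex f‖ + κ₁ * κ₂ * ‖f‖ := by rw [h1]; linarith
  let T : E →L[𝕜] F := T₀.mkContinuous (s + κ₁ * κ₂) (fun f => by
    refine (hbd0 f).trans ?_
    have := mul_le_mul_of_nonneg_left (hEx f) hs0.le
    linarith)
  have hT : ∀ f, T f = ((s : 𝕜) * Ex f) • u + ∑' i, ((c i : 𝕜) * a i f) • R i := fun f => rfl
  have hbd : ∀ f, ‖T f‖ ≤ s * ‖Ex f‖ + κ₁ * κ₂ * ‖f‖ := hbd0
  -- the norm as a limit
  have hlim : ∀ f, Tendsto (fun N : ℕ => av (fun x : 𝕜 => ‖x‖^q) N (fun i => (c i : 𝕜) * a i f)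
      ((s : 𝕜) * Ex f)) atTop (𝓝 (‖T f‖^q)) := by
    intro f
    have h1 := (hsum f).hasSum.tendsto_sum_nat
    have h2 := (h1.const_add (((s : 𝕜) * Ex f) • u)).norm.rpow_const (p := q)
      (Or.inr hq0.le)
    rw [← hT f] at h2
    refine h2.congr (fun N => ?_)
    exact hnorm N _ _
  -- the norm of `T` exceeds `s`
  have hTs : s < ‖T‖ := by
    obtain ⟨ε, he0, he1, he2, he3⟩ := two_point_test hp (by linarith : 1 < q) hρ0 hρ1
    have hTe : T (tv ε) = (s : 𝕜) • u + ∑ i ∈ Finset.range 1, (fun _ => ((c₀ * ε : ℝ) : 𝕜)) i • R i := by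
      rw [hT, htE, mul_one, tsum_eq_single 0]
      · simp only [Finset.range_one, Finset.sum_singleton, hcz, ht0]
        push_cast
        rfl
      · intro i hi
        obtain ⟨j, rfl⟩ := Nat.exists_eq_succ_of_ne_zero hi
        rw [Nat.succ_eq_add_one, hts, mul_zero, zero_smul]
    have hn : ‖T (tv ε)‖^q = s^q * FF q (ρ*ε) := by
      rw [hTe, hnorm, av_succ, av_zero, av_zero]
      have hρs : c₀ * ε = s * (ρ*ε) := by rw [hρ]; field_simp
      have e1 : ‖(s:𝕜) + ((c₀*ε : ℝ):𝕜)‖ = s * (1 + ρ*ε) := by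
        rw [← RCLike.ofReal_add, RCLike.norm_ofReal, hρs, abs_of_nonneg (by positivity)]
        ring
      have e2 : ‖(s:𝕜) - ((c₀*ε : ℝ):𝕜)‖ = s * (1 - ρ*ε) := by
        rw [← RCLike.ofReal_sub, RCLike.norm_ofReal, hρs,
          show s - s * (ρ*ε) = s * (1 - ρ*ε) by ring,
          abs_of_nonneg (mul_nonneg hs0.le (by linarith))]
      rw [e1, e2, Real.mul_rpow hs0.le (by positivity), Real.mul_rpow hs0.le (by linarith), FF]
      ring
    have hF0 : 0 < FF p ε := by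
      have h1 : 0 < (1+ε)^p := Real.rpow_pos_of_pos (by linarith) _
      have h2 : 0 < (1-ε)^p := Real.rpow_pos_of_pos (by linarith) _
      unfold FF; linarith
    have hf : ‖tv ε‖^q = (FF p ε)^(q/p) := by
      rw [← htv ε he0 he1, ← Real.rpow_mul (norm_nonneg _)]
      congr 1
      field_simp
    have h1 : s^q * FF q (ρ*ε) ≤ ‖T‖^q * (FF p ε)^(q/p) := by
      rw [← hn, ← hf, ← Real.mul_rpow (norm_nonneg _) (norm_nonneg _)]
      exact Real.rpow_le_rpow (norm_nonneg _) (T.le_opNorm _) hq0.le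
    by_contra hcon
    have hcon' : ‖T‖ ≤ s := not_lt.1 hcon
    have h2 : ‖T‖^q ≤ s^q := Real.rpow_le_rpow (norm_nonneg _) hcon' hq0.le
    have h3 : 0 < s^q := Real.rpow_pos_of_pos hs0 _
    have h4 : s^q * (FF p ε)^(q/p) < s^q * FF q (ρ*ε) := mul_lt_mul_of_pos_left he3 h3
    have h5 : ‖T‖^q * (FF p ε)^(q/p) ≤ s^q * (FF p ε)^(q/p) :=
      mul_le_mul_of_nonneg_right h2 (Real.rpow_nonneg hF0.le _)
    linarith
  intro hW
  obtain ⟨x, hx1, hx2⟩ := exists_maximizing T (hs0.trans hTs)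
  obtain ⟨f, hf1, hf2⟩ := hW T ⟨x, hx1, hx2, fun hnull => by
    have h1 := hnull Ex
    have h2 : Tendsto (fun n => s * ‖Ex (x n)‖ + κ₁ * κ₂ * ‖x n‖) atTop
        (𝓝 (s * ‖(0:𝕜)‖ + κ₁ * κ₂ * 1)) := by
      refine (h1.norm.const_mul s).add ?_
      simp only [hx1]
      exact tendsto_const_nhds
    have h3 := le_of_tendsto_of_tendsto' hx2 h2 (fun n => hbd (x n))
    rw [norm_zero, mul_zero, zero_add, mul_one] at h3
    linarith⟩
  -- compare with the shift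
  have hUf : ‖T (U f)‖ ≤ ‖T‖ := by
    have := T.le_opNorm (U f)
    rwa [hU, hf1, mul_one] at this
  set θ : ℕ → ℝ := fun i => c i / c (i+1) with hθ
  have hθ0 : ∀ i, 0 ≤ θ i := fun i => (div_pos (hcpos i) (hcpos (i+1))).le
  have hθ1 : ∀ i, θ i < 1 := fun i => (div_lt_one (hcpos (i+1))).2 (hclt i)
  set b : ℕ → 𝕜 := fun i => (c (i+1) : 𝕜) * a i f with hb
  have hbθ : (fun i => (θ i : 𝕜) * b i) = fun i => (c i : 𝕜) * a i f := by
    funext i
    simp only [hθ, hb]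
    have : (c (i+1) : 𝕜) ≠ 0 := by
      have := (hcpos (i+1)).ne'
      exact_mod_cast this
    rw [RCLike.ofReal_div]
    field_simp
  have hcontr := fun N => av_contract (QP_rpow (𝕜 := 𝕜) hq) N b θ hθ0 (fun i => (hθ1 i).le)
    ((s : 𝕜) * Ex f)
  simp only [hbθ] at hcontr
  have hlim1 := hlim f
  have hlim2 : Tendsto (fun N : ℕ => av (fun x : 𝕜 => ‖x‖^q) N b ((s : 𝕜) * Ex f)) atTop
      (𝓝 (‖T (U f)‖^q)) := by
    have h1 := (hlim (U f)).comp (tendsto_add_atTop_nat 1)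
    refine h1.congr (fun N => ?_)
    simp only [Function.comp, av_succ, hU0, hUE, hUs, mul_zero, add_zero, sub_zero]
    rw [← hb]
    ring
  have hzero : ∀ m, a m f = 0 := by
    intro m
    have h1 : ‖T f‖^q + (1 - θ m) * ‖b m‖^q ≤ ‖T (U f)‖^q := by
      refine le_of_tendsto_of_tendsto (hlim1.add_const _) hlim2 ?_
      filter_upwards [eventually_gt_atTop m] with N hN
      refine le_trans ?_ (hcontr N)
      refine add_le_add le_rfl ?_
      refine Finset.single_le_sum (f := fun i => (1 - θ i) * ‖b i‖^q) (fun i _ => ?_)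
        (Finset.mem_range.2 hN)
      exact mul_nonneg (by have := hθ1 i; linarith) (Real.rpow_nonneg (norm_nonneg _) _)
    have h2 : ‖T (U f)‖^q ≤ ‖T f‖^q := by
      rw [hf2]
      exact Real.rpow_le_rpow (norm_nonneg _) hUf hq0.le
    have h3 : (1 - θ m) * ‖b m‖^q ≤ 0 := by linarith
    have h4 : 0 < 1 - θ m := by have := hθ1 m; linarith
    have h5 : ‖b m‖^q = 0 := by
      have h6 : 0 ≤ ‖b m‖^q := Real.rpow_nonneg (norm_nonneg _) _
      nlinarith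
    have h7 : b m = 0 := by
      rw [Real.rpow_eq_zero (norm_nonneg _) hq0.ne'] at h5
      exact norm_eq_zero.1 h5
    simp only [hb, mul_eq_zero] at h7
    rcases h7 with h7 | h7
    · exact absurd (by exact_mod_cast h7) (hcpos (m+1)).ne'
    · exact h7
  have hTf : ‖T f‖ ≤ s := by
    rw [hT]
    simp only [hzero, mul_zero, zero_smul, tsum_zero, add_zero]
    rw [norm_smul, norm_mul, RCLike.norm_ofReal, abs_of_pos hs0, hu, mul_one]
    have := hEx f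
    rw [hf1] at this
    nlinarith
  rw [hf2] at hTf
  linarith

end Pool.Agent.R271.Kh
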