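import Pool.Agent.R271.Kh2

namespace Pool.Agent.R271.Kh

open Filter Topology Set

/-- the two point average -/
noncomputable def FF (r x : ℝ) : ℝ := ((1+x)^r + (1-x)^r) / 2

theorem FF_zero (r : ℝ) : FF r 0 = 1 := by simp [FF]

theorem hasDerivAt_FF (r : ℝ) {x : ℝ} (h0 : 0 ≤ x) (h1 : x < 1) :
    HasDerivAt (FF r) (r * ((1+x)^(r-1) - (1-x)^(r-1)) / 2) x := by
  have e1 : HasDerivAt (fun y : ℝ => 1 + y) 1 x := by
    simpa using (hasDerivAt_id x).const_add 1
  have e2 : HasDerivAt (fun y : ℝ => 1 - y) (-1) x := by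
    simpa using (hasDerivAt_id x).const_sub 1
  have f1 := e1.rpow_const (p := r) (Or.inl (by linarith : (1 + x) ≠ 0))
  have f2 := e2.rpow_const (p := r) (Or.inl (by linarith : (1 - x) ≠ 0))
  have h3 : HasDerivAt (FF r) ((1 * r * (1 + x) ^ (r - 1) + -1 * r * (1 - x) ^ (r - 1)) / 2) x :=
    (f1.add f2).div_const 2
  have h4 : r * ((1+x)^(r-1) - (1-x)^(r-1)) / 2 =
      (1 * r * (1 + x) ^ (r - 1) + -1 * r * (1 - x) ^ (r - 1)) / 2 := by ring
  rw [h4]
  exact h3

theorem tendsto_slope_FF (r : ℝ) :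
    Tendsto (fun x => (FF r x - 1) / x^2) (𝓝[>] 0) (𝓝 (r*(r-1)/2)) := by
  have hev : ∀ᶠ x : ℝ in 𝓝[>] 0, 0 < x ∧ x < 1 := by
    have : Ioo (0:ℝ) 1 ∈ 𝓝[>] (0:ℝ) := Ioo_mem_nhdsGT one_pos
    filter_upwards [this] with x hx using hx
  refine HasDerivAt.lhopital_zero_nhdsGT (f := fun x => FF r x - 1) (g := fun x => x^2)
    (f' := fun x => r * ((1+x)^(r-1) - (1-x)^(r-1)) / 2) (g' := fun x => 2*x) ?_ ?_ ?_ ?_ ?_ ?_
  · filter_upwards [hev] with x hx
    exact (hasDerivAt_FF r hx.1.le hx.2).sub_const 1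
  · filter_upwards with x
    simpa using hasDerivAt_pow 2 x
  · filter_upwards [hev] with x hx
    have := hx.1
    positivity
  · have h : ContinuousAt (FF r) 0 := (hasDerivAt_FF r le_rfl one_pos).continuousAt
    have h2 : Tendsto (fun x => FF r x - 1) (𝓝 0) (𝓝 (FF r 0 - 1)) :=
      h.tendsto.sub_const 1
    rw [FF_zero, sub_self] at h2
    exact h2.mono_left nhdsWithin_le_nhds
  · have : Tendsto (fun x : ℝ => x^2) (𝓝 0) (𝓝 (0^2)) := (continuous_pow 2).tendsto 0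
    rw [zero_pow two_ne_zero] at this
    exact this.mono_left nhdsWithin_le_nhds
  · have e1 : HasDerivAt (fun y : ℝ => 1 + y) 1 0 := by
      simpa using (hasDerivAt_id (0:ℝ)).const_add 1
    have e2 : HasDerivAt (fun y : ℝ => 1 - y) (-1) 0 := by
      simpa using (hasDerivAt_id (0:ℝ)).const_sub 1
    have f1 := e1.rpow_const (p := r-1) (Or.inl (by norm_num))
    have f2 := e2.rpow_const (p := r-1) (Or.inl (by norm_num))
    have f3 := (f1.sub f2).tendsto_slope_zero_right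
    have f4 := f3.const_mul (r/4)
    refine (f4.congr' ?_).trans_eq ?_
    · filter_upwards [hev] with x hx
      have hx0 := hx.1.ne'
      simp only [zero_add, add_zero, sub_zero, Real.one_rpow, sub_self, smul_eq_mul,
        Pi.sub_apply]
      field_simp
      ring
    · congr 1
      simp
      ring

theorem two_point_test {p q ρ : ℝ} (hp : 1 < p) (hq : 1 < q) (hρ : 0 < ρ)
    (h : p - 1 < (q-1) * ρ^2) :
    ∃ ε : ℝ, 0 < ε ∧ ε < 1 ∧ ρ * ε < 1 ∧ (FF p ε)^(q/p) < FF q (ρ*ε) := by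
  have hp0 : 0 < p := by linarith
  have hq0 : 0 < q := by linarith
  have t1 := tendsto_slope_FF p
  have t2 : Tendsto (fun x => (FF q (ρ*x) - 1) / x^2) (𝓝[>] 0) (𝓝 (ρ^2 * (q*(q-1)/2))) := by
    have hc : Tendsto (fun x : ℝ => ρ * x) (𝓝[>] 0) (𝓝[>] 0) := by
      refine tendsto_nhdsWithin_iff.2 ⟨?_, ?_⟩
      · have : Tendsto (fun x : ℝ => ρ * x) (𝓝 0) (𝓝 (ρ*0)) := (continuous_const_mul ρ).tendsto 0
        rw [mul_zero] at this
        exact this.mono_left nhdsWithin_le_nhds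
      · filter_upwards [self_mem_nhdsWithin] with x hx
        exact mul_pos hρ hx
    have := ((tendsto_slope_FF q).comp hc).const_mul (ρ^2)
    refine this.congr' ?_
    filter_upwards [self_mem_nhdsWithin] with x hx
    have hx0 : x ≠ 0 := (ne_of_gt hx)
    simp only [Function.comp]
    field_simp
  -- A(x) = (q/p) (FF p x - 1)
  have t3 : Tendsto (fun x : ℝ => (q/p) * ((FF p x - 1)/x^2)
      + ((q/p) * ((FF p x - 1)/x^2))^2 * x^2) (𝓝[>] 0)
      (𝓝 ((q/p) * (p*(p-1)/2) + ((q/p) * (p*(p-1)/2))^2 * 0^2)) := by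
    have hx2 : Tendsto (fun x : ℝ => x^2) (𝓝[>] 0) (𝓝 (0^2)) :=
      ((continuous_pow 2).tendsto 0).mono_left nhdsWithin_le_nhds
    exact (t1.const_mul (q/p)).add (((t1.const_mul (q/p)).pow 2).mul hx2)
  have t4 : Tendsto (fun x : ℝ => (q/p) * (FF p x - 1)) (𝓝[>] 0) (𝓝 0) := by
    have h1 : ContinuousAt (FF p) 0 := (hasDerivAt_FF p le_rfl one_pos).continuousAt
    have h2 : Tendsto (fun x => (q/p) * (FF p x - 1)) (𝓝 0) (𝓝 ((q/p) * (FF p 0 - 1))) :=
      (h1.tendsto.sub_const 1).const_mul _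
    rw [FF_zero, sub_self, mul_zero] at h2
    exact h2.mono_left nhdsWithin_le_nhds
  have hlt : (q/p) * (p*(p-1)/2) + ((q/p) * (p*(p-1)/2))^2 * 0^2 < ρ^2 * (q*(q-1)/2) := by
    have : (q/p) * (p*(p-1)/2) = q * (p-1)/2 := by field_simp
    rw [this]
    nlinarith
  have hev := t3.eventually_lt t2 hlt
  have hev1 : ∀ᶠ x : ℝ in 𝓝[>] 0, |(q/p) * (FF p x - 1)| < 1 := by
    have := t4.abs
    rw [abs_zero] at this
    exact this.eventually_lt_const one_pos
  have hev2 : ∀ᶠ x : ℝ in 𝓝[>] 0, 0 < x ∧ x < min 1 (1/ρ) := by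
    have : Ioo (0:ℝ) (min 1 (1/ρ)) ∈ 𝓝[>] (0:ℝ) := Ioo_mem_nhdsGT (by positivity)
    filter_upwards [this] with x hx using hx
  obtain ⟨x, hx1, hx2, hx3⟩ := (hev.and (hev1.and hev2)).exists
  have hxpos := hx3.1
  have hx1' : x < 1 := lt_of_lt_of_le hx3.2 (min_le_left _ _)
  have hxρ : ρ * x < 1 := by
    have : x < 1/ρ := lt_of_lt_of_le hx3.2 (min_le_right _ _)
    rw [lt_div_iff₀ hρ] at this
    linarith
  refine ⟨x, hxpos, hx1', hxρ, ?_⟩
  have hFpos : 0 < FF p x := by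
    have h1 : 0 < (1+x)^p := Real.rpow_pos_of_pos (by linarith) _
    have h2 : 0 < (1-x)^p := Real.rpow_pos_of_pos (by linarith) _
    unfold FF; linarith
  set A : ℝ := (q/p) * (FF p x - 1) with hA
  have b1 : (FF p x)^(q/p) ≤ Real.exp A := by
    have h1 : FF p x ≤ Real.exp (FF p x - 1) := by
      have := Real.add_one_le_exp (FF p x - 1); linarith
    have h2 := Real.rpow_le_rpow hFpos.le h1 (by positivity : 0 ≤ q/p)
    rw [← Real.exp_mul, mul_comm] at h2
    exact h2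
  have b2 : Real.exp A ≤ 1 + A + A^2 := by
    have := Real.abs_exp_sub_one_sub_id_le hx2.le
    have := (abs_le.1 this).2
    linarith
  have b3 : A + A^2 < FF q (ρ*x) - 1 := by
    have h1 := mul_lt_mul_of_pos_right hx1 (by positivity : 0 < x^2)
    have e1 : (q/p * ((FF p x - 1)/x^2) + (q/p * ((FF p x - 1)/x^2))^2 * x^2) * x^2 = A + A^2 := by
      rw [hA]; field_simp
    have e2 : (FF q (ρ*x) - 1)/x^2 * x^2 = FF q (ρ*x) - 1 := by field_simp
    rw [e1, e2] at h1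
    exact h1
  linarith

end Pool.Agent.R271.Kh
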