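import Mathlib

/-!
# A self-similar set in the line with Hausdorff dimension at most `1/2` and multiplicatively
dense scales
-/

open Filter Topology Metric Set
open scoped ENNReal

namespace Pool.Agent.R271.LineFractal

/-- The ratios. -/
noncomputable def cc : Fin 3 → ℝ := ![1 / 4, 1 / 9, 1 / 100]

/-- The translations. -/
noncomputable def tt : Fin 3 → ℝ := ![0, 0, 99 / 100]

/-- The maps. -/
noncomputable def S (i : Fin 3) (x : ℝ) : ℝ := cc i * x + tt i

lemma cc_pos (i : Fin 3) : 0 < cc i := by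
  fin_cases i <;> simp [cc]

lemma cc_le (i : Fin 3) : cc i ≤ 1 / 4 := by
  fin_cases i <;> simp [cc] <;> norm_num

lemma S_mem {x : ℝ} (i : Fin 3) (hx : x ∈ Icc (0 : ℝ) 1) : S i x ∈ Icc (0 : ℝ) 1 := by
  obtain ⟨h0, h1⟩ := hx
  fin_cases i
  · simp only [S, cc, tt, Fin.zero_eta, Matrix.cons_val_zero]
    constructor <;> linarith
  · simp only [S, cc, tt, Fin.mk_one, Matrix.cons_val_one, Matrix.cons_val_zero]
    constructor <;> linarith
  · simp only [S, cc, tt, Fin.reduceFinMk, Matrix.cons_val]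
    constructor <;> linarith

/-- The approximating sets. -/
noncomputable def K : ℕ → Set ℝ
  | 0 => Icc 0 1
  | n + 1 => ⋃ i, S i '' K n

lemma K_succ (n : ℕ) : K (n + 1) = ⋃ i, S i '' K n := rfl

lemma K_anti_succ (n : ℕ) : K (n + 1) ⊆ K n := by
  induction n with
  | zero =>
    intro x hx
    rw [K_succ, mem_iUnion] at hx
    obtain ⟨i, y, hy, rfl⟩ := hx
    exact S_mem i hy
  | succ n ih =>
    intro x hx
    rw [K_succ, mem_iUnion] at hx ⊢
    obtain ⟨i, y, hy, rfl⟩ := hx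
    exact ⟨i, y, ih hy, rfl⟩

lemma K_anti {m n : ℕ} (h : m ≤ n) : K n ⊆ K m := by
  induction h with
  | refl => exact subset_rfl
  | step _ ih => exact (K_anti_succ _).trans ih

lemma continuous_S (i : Fin 3) : Continuous (S i) := by
  unfold S
  fun_prop

lemma isCompact_K (n : ℕ) : IsCompact (K n) := by
  induction n with
  | zero => exact isCompact_Icc
  | succ n ih => exact isCompact_iUnion fun i => ih.image (continuous_S i)

/-- The attractor. -/
noncomputable def F : Set ℝ := ⋂ n, K n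

lemma F_subset (n : ℕ) : F ⊆ K n := iInter_subset _ n

lemma isCompact_F : IsCompact F :=
  (isCompact_K 0).of_isClosed_subset (isClosed_iInter fun n => (isCompact_K n).isClosed)
    (F_subset 0)

lemma S_mem_F {x : ℝ} (i : Fin 3) (hx : x ∈ F) : S i x ∈ F := by
  rw [F, mem_iInter]
  intro n
  apply K_anti_succ n
  rw [K_succ, mem_iUnion]
  exact ⟨i, x, F_subset n hx, rfl⟩

lemma exists_of_mem_F {x : ℝ} (hx : x ∈ F) : ∃ i, ∃ y ∈ F, S i y = x := by
  by_contra hcon
  push Not at hcon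
  set y : Fin 3 → ℝ := fun i => (x - tt i) / cc i with hy
  have hSy : ∀ i, S i (y i) = x := by
    intro i
    have := (cc_pos i).ne'
    rw [S, hy]
    field_simp
    ring
  have h1 : ∀ i, ∃ n, y i ∉ K n := by
    intro i
    by_contra h
    push Not at h
    exact hcon i (y i) (mem_iInter.2 h) (hSy i)
  choose n hn using h1
  have h2 := F_subset (Finset.univ.sup n + 1) hx
  rw [K_succ, mem_iUnion] at h2
  obtain ⟨i, z, hz, hzx⟩ := h2
  have h3 : z = y i := by
    have h4 := hSy i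
    rw [← hzx, S, S] at h4
    have h5 : cc i * y i = cc i * z := by linarith
    exact (mul_left_cancel₀ (cc_pos i).ne' h5).symm
  apply hn i
  rw [← h3]
  exact K_anti (Finset.le_sup (Finset.mem_univ i)) hz

lemma F_eq : F = ⋃ i, S i '' F := by
  apply subset_antisymm
  · intro x hx
    obtain ⟨i, y, hy, rfl⟩ := exists_of_mem_F hx
    exact mem_iUnion.2 ⟨i, y, hy, rfl⟩
  · intro x hx
    obtain ⟨i, y, hy, rfl⟩ := mem_iUnion.1 hx
    exact S_mem_F i hy

lemma zero_mem_F : (0 : ℝ) ∈ F := by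
  rw [F, mem_iInter]
  intro n
  induction n with
  | zero => exact ⟨le_rfl, zero_le_one⟩
  | succ n ih =>
    rw [K_succ, mem_iUnion]
    exact ⟨0, 0, ih, by simp [S, tt]⟩

lemma one_mem_F : (1 : ℝ) ∈ F := by
  rw [F, mem_iInter]
  intro n
  induction n with
  | zero => exact ⟨zero_le_one, le_rfl⟩
  | succ n ih =>
    rw [K_succ, mem_iUnion]
    exact ⟨2, 1, ih, by simp [S, cc, tt]; norm_num⟩

lemma F_unit {x : ℝ} (hx : x ∈ F) : x ∈ Icc (0 : ℝ) 1 := F_subset 0 hx

lemma prod_mem_F (m n : ℕ) : 1 / ((4 : ℝ) ^ m * 9 ^ n) ∈ F := by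
  induction m with
  | zero =>
    induction n with
    | zero => simpa using one_mem_F
    | succ n ih =>
      have h1 := S_mem_F 1 ih
      have h2 : S 1 (1 / ((4 : ℝ) ^ 0 * 9 ^ n)) = 1 / ((4 : ℝ) ^ 0 * 9 ^ (n + 1)) := by
        simp only [S, cc, tt, Matrix.cons_val_one, Matrix.cons_val_zero]
        rw [pow_succ]
        field_simp
        ring
      rwa [h2] at h1
  | succ m ih =>
    have h1 := S_mem_F 0 ih
    have h2 : S 0 (1 / ((4 : ℝ) ^ m * 9 ^ n)) = 1 / ((4 : ℝ) ^ (m + 1) * 9 ^ n) := by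
      simp only [S, cc, tt, Matrix.cons_val_zero]
      rw [pow_succ]
      field_simp
      ring
    rwa [h2] at h1

/-! ### The multiplicative net -/

lemma net_aux {P Q δ : ℝ} (hP : 1 < P) (hQ : 1 < Q) (a b : ℕ) (h1 : 1 < P ^ a / Q ^ b)
    (h2 : P ^ a / Q ^ b ≤ 1 + δ) : ∃ T₀ : ℝ, 0 < T₀ ∧ ∀ T : ℝ, T₀ ≤ T → ∃ m n : ℕ,
      T ≤ P ^ m * Q ^ n ∧ P ^ m * Q ^ n ≤ T * (1 + δ) := by
  set ρ : ℝ := P ^ a / Q ^ b with hρ
  have hQ0 : 0 < Q := by linarith
  have hP0 : 0 < P := by linarith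
  obtain ⟨J, hJ⟩ := pow_unbounded_of_one_lt Q h1
  refine ⟨Q ^ (b * J), by positivity, fun T hT => ?_⟩
  -- the largest `k` with `Q ^ k ≤ T`
  have hT1 : 1 ≤ T := le_trans (one_le_pow₀ hQ.le) hT
  have hT0 : 0 < T := by linarith
  obtain ⟨k, hk1, hk2⟩ := exists_nat_pow_near hT1 hQ
  have hkb : b * J ≤ k := by
    by_contra hcon
    push Not at hcon
    have h3 : Q ^ (k + 1) ≤ Q ^ (b * J) := pow_le_pow_right₀ hQ.le hcon
    linarith
  -- the smallest `j` with `T ≤ Q ^ k * ρ ^ j`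
  have hex : ∃ j : ℕ, T ≤ Q ^ k * ρ ^ j := by
    refine ⟨J, ?_⟩
    have h3 : Q ^ k * Q ≤ Q ^ k * ρ ^ J := mul_le_mul_of_nonneg_left hJ.le (by positivity)
    rw [← pow_succ] at h3
    linarith
  classical
  set j := Nat.find hex with hj
  have hj1 : T ≤ Q ^ k * ρ ^ j := Nat.find_spec hex
  have hjJ : j ≤ J := by
    apply Nat.find_min' hex
    have h3 : Q ^ k * Q ≤ Q ^ k * ρ ^ J := mul_le_mul_of_nonneg_left hJ.le (by positivity)
    rw [← pow_succ] at h3
    linarith
  have hδ : 0 < 1 + δ := by linarith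
  have hj2 : Q ^ k * ρ ^ j ≤ T * (1 + δ) := by
    rcases Nat.eq_zero_or_pos j with h0 | h0
    · rw [h0, pow_zero, mul_one]
      nlinarith
    · have h3 := Nat.find_min hex (m := j - 1) (by omega)
      rw [not_le] at h3
      have h4 : ρ ^ j = ρ ^ (j - 1) * ρ := by
        rw [← pow_succ, Nat.sub_add_cancel h0]
      rw [h4, ← mul_assoc]
      have h5 : 0 < Q ^ k * ρ ^ (j - 1) := by positivity
      exact mul_le_mul h3.le h2 (by linarith) hT0.le
  have hbj : b * j ≤ k := le_trans (Nat.mul_le_mul_left b hjJ) hkb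
  have heq : P ^ (a * j) * Q ^ (k - b * j) = Q ^ k * ρ ^ j := by
    rw [hρ, div_pow, ← pow_mul, ← pow_mul]
    have h3 : Q ^ k = Q ^ (k - b * j) * Q ^ (b * j) := by
      rw [← pow_add, Nat.sub_add_cancel hbj]
    rw [h3]
    field_simp
  exact ⟨a * j, k - b * j, by rw [heq]; exact hj1, by rw [heq]; exact hj2⟩

lemma net {δ : ℝ} (hδ : 0 < δ) : ∃ T₀ : ℝ, 0 < T₀ ∧ ∀ T : ℝ, T₀ ≤ T → ∃ m n : ℕ,
    T ≤ (4 : ℝ) ^ m * 9 ^ n ∧ (4 : ℝ) ^ m * 9 ^ n ≤ T * (1 + δ) := by
  have hl9 : 0 < Real.log 9 := Real.log_pos (by norm_num)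
  have hl4 : 0 < Real.log 4 := Real.log_pos (by norm_num)
  have hl : 0 < Real.log (1 + δ) := Real.log_pos (by linarith)
  obtain ⟨n, hn⟩ := exists_nat_gt (Real.log 9 / Real.log (1 + δ))
  have hn0 : 0 < n := by
    have : (0 : ℝ) < n := lt_trans (by positivity) hn
    exact_mod_cast this
  obtain ⟨j, k, hk0, hkn, hjk⟩ := Real.exists_int_int_abs_mul_sub_le (Real.log 4 / Real.log 9) hn0
  have hn0' : (0 : ℝ) < n := by exact_mod_cast hn0
  have hj0 : 0 ≤ j := by
    by_contra hcon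
    push Not at hcon
    have h1 : (j : ℝ) ≤ -1 := by
      have : j ≤ -1 := by omega
      exact_mod_cast this
    have h2 : (0 : ℝ) < k * (Real.log 4 / Real.log 9) := by
      have : (0 : ℝ) < k := by exact_mod_cast hk0
      positivity
    have h3 := (abs_le.1 hjk).2
    have h4 : 1 / ((n : ℝ) + 1) < 1 := by
      rw [div_lt_one (by positivity)]; linarith
    linarith
  obtain ⟨b, rfl⟩ := Int.eq_ofNat_of_zero_le hj0
  obtain ⟨a, rfl⟩ := Int.eq_ofNat_of_zero_le hk0.le
  have ha0 : 0 < a := by exact_mod_cast hk0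
  push_cast at hjk
  set t : ℝ := a * Real.log 4 - b * Real.log 9 with ht
  have ht1 : |t| ≤ Real.log (1 + δ) := by
    have h1 : t = (a * (Real.log 4 / Real.log 9) - b) * Real.log 9 := by
      rw [ht]; field_simp
    rw [h1, abs_mul, abs_of_pos hl9]
    calc |(a : ℝ) * (Real.log 4 / Real.log 9) - b| * Real.log 9
        ≤ 1 / ((n : ℝ) + 1) * Real.log 9 := mul_le_mul_of_nonneg_right hjk hl9.le
      _ ≤ Real.log (1 + δ) := by
        rw [div_lt_iff₀ hl] at hn
        rw [one_div, inv_mul_le_iff₀ (by positivity)]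
        nlinarith
  have hexp : Real.exp t = (4 : ℝ) ^ a / 9 ^ b := by
    rw [ht, Real.exp_sub, mul_comm, Real.exp_mul, Real.exp_log (by norm_num), mul_comm,
      Real.exp_mul, Real.exp_log (by norm_num), Real.rpow_natCast, Real.rpow_natCast]
  have hexp' : Real.exp (-t) = (9 : ℝ) ^ b / 4 ^ a := by
    rw [Real.exp_neg, hexp, inv_div]
  have ht0 : t ≠ 0 := by
    intro h0
    rw [h0, Real.exp_zero] at hexp
    have h1 : (4 : ℝ) ^ a = 9 ^ b := by
      have : (9 : ℝ) ^ b ≠ 0 := by positivity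
      field_simp at hexp
      linarith
    have h2 : 4 ^ a = 9 ^ b := by exact_mod_cast h1
    have h3 : Even (4 ^ a) := (by decide : Even 4).pow_of_ne_zero ha0.ne'
    rw [h2] at h3
    exact (Nat.not_even_iff_odd.2 ((by decide : Odd 9).pow)) h3
  rcases lt_or_gt_of_ne ht0 with h | h
  · -- `9 ^ b / 4 ^ a` is slightly larger than one
    obtain ⟨T₀, hT₀, hT⟩ := net_aux (P := 9) (Q := 4) (δ := δ) (by norm_num) (by norm_num) b a
      (by
        rw [← hexp']
        exact Real.one_lt_exp_iff.2 (by linarith))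
      (by
        rw [← hexp', ← Real.exp_log (show 0 < 1 + δ by linarith)]
        apply Real.exp_le_exp.2
        have := (abs_le.1 ht1).1
        linarith)
    refine ⟨T₀, hT₀, fun T hTT => ?_⟩
    obtain ⟨m, n, h1, h2⟩ := hT T hTT
    exact ⟨n, m, by rw [mul_comm]; exact h1, by rw [mul_comm]; exact h2⟩
  · exact net_aux (P := 4) (Q := 9) (δ := δ) (by norm_num) (by norm_num) a b
      (by
        rw [← hexp]
        exact Real.one_lt_exp_iff.2 h)
      (by
        rw [← hexp, ← Real.exp_log (show 0 < 1 + δ by linarith)]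
        apply Real.exp_le_exp.2
        exact (abs_le.1 ht1).2)

/-- At small scales the set `F` is almost dense in a multiplicative sense. -/
lemma net_F {δ : ℝ} (hδ : 0 < δ) : ∃ z₀ : ℝ, 0 < z₀ ∧ ∀ z : ℝ, 0 < z → z ≤ z₀ →
    ∃ y ∈ F, z * (1 - δ) ≤ y ∧ y ≤ z := by
  obtain ⟨T₀, hT₀, hT⟩ := net hδ
  refine ⟨1 / T₀, by positivity, fun z hz0 hz => ?_⟩
  have h1 : T₀ ≤ 1 / z := by
    rw [le_div_iff₀ hz0]
    rw [le_div_iff₀ hT₀] at hz
    linarith
  obtain ⟨m, n, h2, h3⟩ := hT _ h1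
  refine ⟨_, prod_mem_F m n, ?_, ?_⟩
  · have hpos : (0 : ℝ) < 4 ^ m * 9 ^ n := by positivity
    rw [le_div_iff₀ hpos]
    by_cases hδ1 : 1 - δ ≤ 0
    · have : z * (1 - δ) ≤ 0 := mul_nonpos_of_nonneg_of_nonpos hz0.le hδ1
      nlinarith
    · push Not at hδ1
      calc z * (1 - δ) * (4 ^ m * 9 ^ n) ≤ z * (1 - δ) * (1 / z * (1 + δ)) :=
            mul_le_mul_of_nonneg_left h3 (by positivity)
        _ = (1 - δ) * (1 + δ) := by field_simp
        _ ≤ 1 := by nlinarith
  · have hpos : (0 : ℝ) < 4 ^ m * 9 ^ n := by positivity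
    rw [div_le_iff₀ hpos]
    rw [div_le_iff₀ hz0] at h2
    linarith

/-! ### Hausdorff dimension -/

/-- Compositions of the maps. -/
noncomputable def comp : (n : ℕ) → (Fin n → Fin 3) → ℝ → ℝ
  | 0, _ => id
  | n + 1, w => fun x => S (w 0) (comp n (Fin.tail w) x)

lemma F_subset_comp (n : ℕ) : F ⊆ ⋃ w : Fin n → Fin 3, comp n w '' F := by
  induction n with
  | zero =>
    intro x hx
    exact mem_iUnion.2 ⟨Fin.elim0, x, hx, rfl⟩
  | succ n ih =>
    intro x hx
    obtain ⟨i, y, hy, rfl⟩ := exists_of_mem_F hx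
    obtain ⟨w, z, hz, rfl⟩ := mem_iUnion.1 (ih hy)
    refine mem_iUnion.2 ⟨Fin.cons i w, z, hz, ?_⟩
    show S ((Fin.cons i w : Fin (n + 1) → Fin 3) 0)
      (comp n (Fin.tail (Fin.cons i w : Fin (n + 1) → Fin 3)) z) = _
    rw [Fin.cons_zero, Fin.tail_cons]

lemma abs_comp_sub (n : ℕ) (w : Fin n → Fin 3) (x y : ℝ) :
    |comp n w x - comp n w y| = (∏ i, cc (w i)) * |x - y| := by
  induction n with
  | zero => simp [comp]
  | succ n ih =>
    show |S (w 0) (comp n (Fin.tail w) x) - S (w 0) (comp n (Fin.tail w) y)| = _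
    rw [S, S, add_sub_add_right_eq_sub, ← mul_sub, abs_mul, ih, Fin.prod_univ_succ,
      abs_of_pos (cc_pos _), mul_assoc]
    rfl

/-- Square roots of the ratios. -/
noncomputable def bb : Fin 3 → ℝ := ![1 / 2, 1 / 3, 1 / 10]

lemma bb_nonneg (i : Fin 3) : 0 ≤ bb i := by
  fin_cases i <;> simp [bb]

lemma bb_sq (i : Fin 3) : bb i ^ 2 = cc i := by
  fin_cases i <;> simp [bb, cc] <;> norm_num

lemma dimH_F_le : dimH F ≤ ((1 / 2 : NNReal) : ℝ≥0∞) := by
  apply dimH_le_of_hausdorffMeasure_ne_top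
  have h1 := MeasureTheory.Measure.hausdorffMeasure_le_liminf_sum (X := ℝ) (β := ℕ)
    (ι := fun n => Fin n → Fin 3) (l := atTop) (((1 / 2 : NNReal) : ℝ)) F
    (fun n => ENNReal.ofReal ((1 / 4) ^ n)) (by
      have h2 : Tendsto (fun n : ℕ => ((1 : ℝ) / 4) ^ n) atTop (𝓝 0) :=
        tendsto_pow_atTop_nhds_zero_of_lt_one (by norm_num) (by norm_num)
      have h3 := ENNReal.tendsto_ofReal h2
      rwa [ENNReal.ofReal_zero] at h3)
    (fun n w => comp n w '' F)
    (Eventually.of_forall fun n w => ?_) (Eventually.of_forall fun n => F_subset_comp n)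
  · refine ne_top_of_le_ne_top ENNReal.one_ne_top (h1.trans ?_)
    have h2 : ∀ n : ℕ, ∑ w : Fin n → Fin 3, ediam (comp n w '' F) ^ (((1 / 2 : NNReal) : ℝ)) ≤
        1 := by
      intro n
      have h3 : ∀ w : Fin n → Fin 3, ediam (comp n w '' F) ^ (((1 / 2 : NNReal) : ℝ)) ≤
          ENNReal.ofReal (∏ i, bb (w i)) := by
        intro w
        have h4 : ediam (comp n w '' F) ≤ ENNReal.ofReal (∏ i, cc (w i)) := by
          apply Metric.ediam_le
          rintro _ ⟨x, hx, rfl⟩ _ ⟨y, hy, rfl⟩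
          rw [edist_dist, Real.dist_eq, abs_comp_sub]
          apply ENNReal.ofReal_le_ofReal
          have h5 : 0 ≤ ∏ i, cc (w i) := Finset.prod_nonneg fun i _ => (cc_pos _).le
          have h6 : |x - y| ≤ 1 := by
            have hx' := F_unit hx
            have hy' := F_unit hy
            rw [abs_le]
            constructor <;> linarith [hx'.1, hx'.2, hy'.1, hy'.2]
          calc (∏ i, cc (w i)) * |x - y| ≤ (∏ i, cc (w i)) * 1 :=
                mul_le_mul_of_nonneg_left h6 h5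
            _ = _ := mul_one _
        refine (ENNReal.rpow_le_rpow h4 (by positivity)).trans ?_
        have h5 : (∏ i, cc (w i)) = (∏ i, bb (w i)) ^ (2 : ℝ) := by
          rw [Real.rpow_two, ← Finset.prod_pow]
          exact Finset.prod_congr rfl fun i _ => (bb_sq _).symm
        have h6 : 0 ≤ ∏ i, bb (w i) := Finset.prod_nonneg fun i _ => bb_nonneg _
        rw [h5, ENNReal.ofReal_rpow_of_nonneg (by positivity) (by positivity), ← Real.rpow_mul h6]
        norm_num
      refine (Finset.sum_le_sum fun w _ => h3 w).trans ?_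
      rw [← ENNReal.ofReal_sum_of_nonneg fun w _ => Finset.prod_nonneg fun i _ => bb_nonneg _]
      have h4 : ∑ w : Fin n → Fin 3, ∏ i, bb (w i) = (∑ j, bb j) ^ n := by
        have h5 := Finset.prod_univ_sum (fun _ : Fin n => (Finset.univ : Finset (Fin 3)))
          (fun _ j => bb j)
        rw [Finset.prod_const, Finset.card_univ, Fintype.card_fin, Fintype.piFinset_univ] at h5
        exact h5.symm
      rw [h4]
      have h5 : (∑ j, bb j) = 14 / 15 := by
        rw [Fin.sum_univ_three]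
        simp [bb]
        norm_num
      rw [h5, ← ENNReal.ofReal_one]
      exact ENNReal.ofReal_le_ofReal (pow_le_one₀ (by norm_num) (by norm_num))
    refine (liminf_le_liminf (Eventually.of_forall h2)).trans ?_
    simp
  · apply Metric.ediam_le
    rintro _ ⟨x, hx, rfl⟩ _ ⟨y, hy, rfl⟩
    rw [edist_dist, Real.dist_eq, abs_comp_sub]
    apply ENNReal.ofReal_le_ofReal
    have h5 : 0 ≤ ∏ i, cc (w i) := Finset.prod_nonneg fun i _ => (cc_pos _).le
    have h6 : |x - y| ≤ 1 := by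
      have hx' := F_unit hx
      have hy' := F_unit hy
      rw [abs_le]
      constructor <;> linarith [hx'.1, hx'.2, hy'.1, hy'.2]
    have h7 : ∏ i, cc (w i) ≤ (1 / 4) ^ n := by
      calc ∏ i, cc (w i) ≤ ∏ _i : Fin n, (1 / 4 : ℝ) :=
            Finset.prod_le_prod (fun i _ => (cc_pos _).le) fun i _ => cc_le _
        _ = (1 / 4) ^ n := by rw [Finset.prod_const, Finset.card_univ, Fintype.card_fin]
    calc (∏ i, cc (w i)) * |x - y| ≤ (∏ i, cc (w i)) * 1 := mul_le_mul_of_nonneg_left h6 h5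
      _ = ∏ i, cc (w i) := mul_one _
      _ ≤ _ := h7

end Pool.Agent.R271.LineFractal
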