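import Mathlib

set_option autoImplicit false

/-!
Selection lemmas: inductive choice of subsequences, and a triangular form of Rosenthal's lemma.
-/

open Filter Topology

namespace Pool.Agent.R271.QS

/-- Inductive choice of a subsequence, where the next index has to satisfy a condition which depends
on the set of the indices already chosen. -/
theorem exists_seq_of_finset {P : Finset ℕ → ℕ → Prop}
    (h : ∀ F : Finset ℕ, ∃ n, (∀ m ∈ F, m < n) ∧ P F n) :
    ∃ ψ : ℕ → ℕ, StrictMono ψ ∧ ∀ j, P ((Finset.range j).image ψ) (ψ j) := by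
  choose nx h1 h2 using h
  let G : ℕ → Finset ℕ := fun j => Nat.rec ∅ (fun _ F => insert (nx F) F) j
  have hG0 : G 0 = ∅ := rfl
  have hGs : ∀ j, G (j + 1) = insert (nx (G j)) (G j) := fun j => rfl
  have key : ∀ j, G j = (Finset.range j).image (fun i => nx (G i)) := by
    intro j
    induction j with
    | zero => simp [hG0]
    | succ j ih =>
      rw [hGs, Finset.range_add_one, Finset.image_insert, ← ih]
  refine ⟨fun i => nx (G i), strictMono_nat_of_lt_succ fun n => ?_, fun j => ?_⟩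
  · apply h1
    rw [hGs]
    exact Finset.mem_insert_self _ _
  · rw [← key]
    exact h2 _

/-- The free ultrafilter used for the limits. -/
noncomputable abbrev UU : Ultrafilter ℕ := Filter.hyperfilter ℕ

theorem UU_le : (UU : Filter ℕ) ≤ atTop := by
  have := Filter.hyperfilter_le_cofinite (α := ℕ)
  rwa [Nat.cofinite_eq_atTop] at this

/-- A bounded sequence in a proper space has a limit along the ultrafilter. -/
theorem exists_lim {Y : Type*} [PseudoMetricSpace Y] [ProperSpace Y] (u : ℕ → Y) (p : Y) (C : ℝ)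
    (h : ∀ᶠ n in (UU : Filter ℕ), dist (u n) p ≤ C) :
    ∃ l, dist l p ≤ C ∧ Tendsto u UU (𝓝 l) := by
  have hc : IsCompact (Metric.closedBall p C) := isCompact_closedBall p C
  have hm : Metric.closedBall p C ∈ (UU.map u : Filter Y) := by
    rw [Ultrafilter.coe_map, Filter.mem_map]
    exact h
  obtain ⟨l, hl, hle⟩ := hc.ultrafilter_le_nhds' (UU.map u) hm
  exact ⟨l, hl, hle⟩

/-- An eventual property along the ultrafilter holds for arbitrarily large indices. -/
theorem exists_large {P : ℕ → Prop} (h : ∀ᶠ n in (UU : Filter ℕ), P n) (F : Finset ℕ) :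
    ∃ n, (∀ m ∈ F, m < n) ∧ P n := by
  have h1 : ∀ᶠ n in (UU : Filter ℕ), F.sup id + 1 ≤ n := UU_le (eventually_ge_atTop _)
  obtain ⟨n, hn1, hn2⟩ := (h1.and h).exists
  refine ⟨n, fun m hm => ?_, hn2⟩
  have : m ≤ F.sup id := Finset.le_sup (f := id) hm
  omega

/-- A triangular form of Rosenthal's lemma. -/
theorem rosenthal {b : ℕ → ℕ → ℝ} {C : ℝ} (hb : ∀ i j, 0 ≤ b i j)
    (hC : ∀ j, ∑ i ∈ Finset.range j, b i j ≤ C) {η : ℝ} (hη : 0 < η) :
    ∃ ψ : ℕ → ℕ, StrictMono ψ ∧ ∀ j, ∑ l ∈ Finset.range j, b (ψ l) (ψ j) ≤ η := by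
  -- limits
  have hlim : ∀ i, ∃ l : ℝ, Tendsto (fun j => b i j) UU (𝓝 l) := by
    intro i
    have h1 : ∀ᶠ j in (UU : Filter ℕ), dist (b i j) 0 ≤ C := by
      filter_upwards [UU_le (eventually_ge_atTop (i + 1))] with j hj
      rw [Real.dist_eq, sub_zero, abs_of_nonneg (hb i j)]
      exact (Finset.single_le_sum (f := fun i => b i j) (fun i _ => hb i j)
        (Finset.mem_range.2 (by omega))).trans (hC j)
    obtain ⟨l, _, hl⟩ := exists_lim (fun j => b i j) 0 C h1
    exact ⟨l, hl⟩
  choose c hc using hlim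
  have hc0 : ∀ i, 0 ≤ c i := fun i => ge_of_tendsto' (hc i) fun j => hb i j
  have hsum : ∀ F : Finset ℕ, ∑ i ∈ F, c i ≤ C := by
    intro F
    have h1 : Tendsto (fun j => ∑ i ∈ F, b i j) UU (𝓝 (∑ i ∈ F, c i)) :=
      tendsto_finset_sum F fun i _ => hc i
    refine le_of_tendsto h1 ?_
    filter_upwards [UU_le (eventually_ge_atTop (F.sup id + 1))] with j hj
    refine le_trans (Finset.sum_le_sum_of_subset_of_nonneg ?_ fun i _ _ => hb i j) (hC j)
    intro i hi
    have : i ≤ F.sup id := Finset.le_sup (f := id) hi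
    exact Finset.mem_range.2 (by omega)
  have hsm : Summable c := summable_of_sum_le hc0 hsum
  have ht : Tendsto c atTop (𝓝 0) := hsm.tendsto_atTop_zero
  obtain ⟨ψ, hψ, hP⟩ := exists_seq_of_finset (P := fun F n =>
      c n < η / 2 * (1 / 2) ^ (F.card + 1) ∧ ∑ i ∈ F, b i n < ∑ i ∈ F, c i + η / 2) (by
    intro F
    have h1 : Tendsto (fun j => ∑ i ∈ F, b i j) UU (𝓝 (∑ i ∈ F, c i)) :=
      tendsto_finset_sum F fun i _ => hc i
    have h2 : ∀ᶠ j in (UU : Filter ℕ), ∑ i ∈ F, b i j < ∑ i ∈ F, c i + η / 2 :=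
      h1.eventually_lt_const (by linarith)
    have h3 : ∀ᶠ n in (UU : Filter ℕ), c n < η / 2 * (1 / 2) ^ (F.card + 1) :=
      UU_le (ht.eventually_lt_const (by positivity))
    exact exists_large (h3.and h2) F)
  refine ⟨ψ, hψ, fun j => ?_⟩
  have h1 := (hP j).2
  rw [Finset.sum_image (fun a _ b _ h => hψ.injective h),
    Finset.sum_image (fun a _ b _ h => hψ.injective h)] at h1
  have h2 : ∀ l, c (ψ l) ≤ η / 2 * (1 / 2) ^ (l + 1) := by
    intro l
    have := (hP l).1.le
    rwa [Finset.card_image_of_injective _ hψ.injective, Finset.card_range] at this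
  have h3 : ∑ l ∈ Finset.range j, c (ψ l) ≤ η / 2 := by
    refine (Finset.sum_le_sum fun l _ => h2 l).trans ?_
    rw [← Finset.mul_sum]
    have h4 : ∑ l ∈ Finset.range j, ((1 : ℝ) / 2) ^ (l + 1) ≤ 1 := by
      have h5 : ∀ j : ℕ, ∑ l ∈ Finset.range j, ((1 : ℝ) / 2) ^ (l + 1) = 1 - (1 / 2) ^ j := by
        intro j
        induction j with
        | zero => simp
        | succ j ih => rw [Finset.sum_range_succ, ih]; ring
      rw [h5]
      have : (0 : ℝ) ≤ (1 / 2) ^ j := by positivity
      linarith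
    nlinarith
  linarith

end Pool.Agent.R271.QS
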