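import Mathlib
import Pool.Agent.R271.QSSel

set_option autoImplicit false

/-!
Abstract description of Lipschitz-free spaces, and a number of basic facts.
-/

open Filter Topology

namespace Pool.Agent.R271.QS

variable {𝕜 M X : Type*} [RCLike 𝕜] [MetricSpace M] [NormedAddCommGroup X] [NormedSpace 𝕜 X]

section sep

/-- Separation of a convex set from a ball around the origin. -/
theorem sep {C : Set X} {κ : ℝ} (hκ : 0 < κ)
    (hC : ∀ x ∈ C, ∀ y ∈ C, ∀ a b : ℝ, 0 ≤ a → 0 ≤ b → a + b = 1 →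
      ((a : 𝕜)) • x + ((b : 𝕜)) • y ∈ C)
    (h : ∀ x ∈ C, κ ≤ ‖x‖) :
    ∃ f : StrongDual 𝕜 X, ‖f‖ ≤ 1 ∧ ∀ x ∈ C, κ ≤ RCLike.re (f x) := by
  rcases C.eq_empty_or_nonempty with rfl | ⟨x₀, hx₀⟩
  · exact ⟨0, by simp, by simp⟩
  let _ : NormedSpace ℝ X := NormedSpace.restrictScalars ℝ 𝕜 X
  have _ : IsScalarTower ℝ 𝕜 X := by
    refine ⟨fun r c x => ?_⟩
    change _ = ((r : 𝕜)) • (c • x)
    rw [smul_smul, RCLike.real_smul_eq_coe_mul]
  have hsm : ∀ (r : ℝ) (x : X), r • x = ((r : 𝕜)) • x := by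
    intro r x
    rw [← RCLike.real_smul_eq_coe_smul (K := 𝕜)]
  have hCc : Convex ℝ C := by
    intro x hx y hy a b ha hb hab
    rw [hsm, hsm]
    exact hC x hx y hy a b ha hb hab
  have hdisj : Disjoint (Metric.ball (0 : X) κ) C := by
    rw [Set.disjoint_left]
    intro x hx hx'
    rw [mem_ball_zero_iff] at hx
    exact absurd (h x hx') (not_le.2 hx)
  obtain ⟨f, u, h1, h2⟩ := RCLike.geometric_hahn_banach_open (𝕜 := 𝕜) (convex_ball (0 : X) κ)
    Metric.isOpen_ball hCc hdisj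
  have hu : 0 < u := by
    have := h1 0 (by simpa using hκ)
    simpa using this
  have hb : ∀ x : X, ‖x‖ < κ → ‖f x‖ ≤ u := by
    intro x hx
    by_cases h0 : f x = 0
    · rw [h0, norm_zero]; exact hu.le
    have hn : (0 : ℝ) < ‖f x‖ := norm_pos_iff.2 h0
    have hnk : ((‖f x‖ : ℝ) : 𝕜) ≠ 0 := by
      rw [Ne, RCLike.ofReal_eq_zero]
      exact hn.ne'
    set c : 𝕜 := (starRingEnd 𝕜 (f x)) / ((‖f x‖ : ℝ) : 𝕜) with hc
    have hcn : ‖c‖ = 1 := by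
      rw [hc, norm_div, RCLike.norm_conj, RCLike.norm_ofReal, abs_of_nonneg (norm_nonneg _),
        div_self hn.ne']
    have h3 := h1 (c • x) (by rw [mem_ball_zero_iff, norm_smul, hcn, one_mul]; exact hx)
    have h4 : f (c • x) = ((‖f x‖ : ℝ) : 𝕜) := by
      rw [map_smul, smul_eq_mul, hc, div_mul_eq_mul_div, RCLike.conj_mul, sq, mul_div_assoc,
        div_self hnk, mul_one]
    rw [h4, RCLike.ofReal_re] at h3
    exact h3.le
  have hfn : ‖f‖ ≤ u / κ := by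
    refine ContinuousLinearMap.opNorm_le_bound _ (by positivity) fun x => ?_
    rcases eq_or_ne x 0 with rfl | hx0
    · simp
    have hx : 0 < ‖x‖ := norm_pos_iff.2 hx0
    by_contra hcon
    rw [not_le] at hcon
    have hfx : 0 < ‖f x‖ := lt_of_le_of_lt (by positivity) hcon
    have h5 : u * ‖x‖ < κ * ‖f x‖ := by
      calc u * ‖x‖ = κ * (u / κ * ‖x‖) := by field_simp
        _ < _ := mul_lt_mul_of_pos_left hcon hκ
    obtain ⟨t, ht1, ht2⟩ := exists_between ((div_lt_one (by positivity)).2 h5)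
    have ht0 : 0 < t := lt_of_le_of_lt (by positivity) ht1
    have h6 := hb (((t * κ / ‖x‖ : ℝ) : 𝕜) • x) (by
      rw [norm_smul, RCLike.norm_ofReal, abs_of_pos (by positivity), div_mul_cancel₀ _ hx.ne']
      nlinarith)
    rw [map_smul, norm_smul, RCLike.norm_ofReal, abs_of_pos (by positivity), div_mul_eq_mul_div,
      div_le_iff₀ hx] at h6
    rw [div_lt_iff₀ (by positivity)] at ht1
    nlinarith
  refine ⟨((κ / u : ℝ) : 𝕜) • f, ?_, ?_⟩
  · rw [norm_smul, RCLike.norm_ofReal, abs_of_pos (by positivity)]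
    calc κ / u * ‖f‖ ≤ κ / u * (u / κ) := mul_le_mul_of_nonneg_left hfn (by positivity)
      _ = 1 := by field_simp
  · intro x hx
    rw [_root_.smul_apply, smul_eq_mul, RCLike.re_ofReal_mul]
    have h3 := h2 x hx
    calc κ = κ / u * u := by field_simp
      _ ≤ _ := mul_le_mul_of_nonneg_left h3 (by positivity)

end sep

/-- The abstract properties of a Lipschitz-free space which are used in the proofs. -/
structure LD (𝕜 : Type*) {M X : Type*} [RCLike 𝕜] [MetricSpace M] [NormedAddCommGroup X]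
    [NormedSpace 𝕜 X] (o : M) (δ : M → X) : Prop where
  base : δ o = 0
  lip : ∀ x y, ‖δ x - δ y‖ ≤ dist x y
  lift : ∀ f : M → 𝕜, f o = 0 → (∀ x y, ‖f x - f y‖ ≤ dist x y) →
    ∃ φ : StrongDual 𝕜 X, ‖φ‖ ≤ 1 ∧ ∀ x, φ (δ x) = f x

variable {o : M} {δ : M → X}

theorem LD.liftK (h : LD 𝕜 o δ) {K : ℝ} (hK : 0 ≤ K) (f : M → 𝕜) (h0 : f o = 0)
    (hf : ∀ x y, ‖f x - f y‖ ≤ K * dist x y) :
    ∃ φ : StrongDual 𝕜 X, ‖φ‖ ≤ K ∧ ∀ x, φ (δ x) = f x := by
  rcases hK.eq_or_lt with rfl | hK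
  · refine ⟨0, by simp, fun x => ?_⟩
    have := hf x o
    rw [h0, sub_zero, zero_mul] at this
    rw [norm_le_zero_iff.1 this]
    simp
  · have hKk : ((K : ℝ) : 𝕜) ≠ 0 := by
      rw [Ne, RCLike.ofReal_eq_zero]
      exact hK.ne'
    obtain ⟨φ, h1, h2⟩ := h.lift (fun x => ((K⁻¹ : ℝ) : 𝕜) * f x) (by simp [h0]) (fun x y => by
      rw [← mul_sub, norm_mul, RCLike.norm_ofReal, abs_of_pos (by positivity)]
      calc K⁻¹ * ‖f x - f y‖ ≤ K⁻¹ * (K * dist x y) :=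
            mul_le_mul_of_nonneg_left (hf x y) (by positivity)
        _ = dist x y := by field_simp)
    refine ⟨((K : ℝ) : 𝕜) • φ, ?_, fun x => ?_⟩
    · rw [norm_smul, RCLike.norm_ofReal, abs_of_pos hK]
      nlinarith [norm_nonneg φ]
    · rw [_root_.smul_apply, h2, smul_eq_mul, RCLike.ofReal_inv, mul_inv_cancel_left₀ hKk]

theorem LD.pair_le (h : LD 𝕜 o δ) {K : ℝ} (hK : 0 ≤ K) (f : M → 𝕜) (h0 : f o = 0)
    (hf : ∀ x y, ‖f x - f y‖ ≤ K * dist x y) (S : Finset M) (c : M → 𝕜) :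
    ‖∑ y ∈ S, c y * f y‖ ≤ K * ‖∑ y ∈ S, c y • δ y‖ := by
  obtain ⟨φ, h1, h2⟩ := h.liftK hK f h0 hf
  have h3 : ∑ y ∈ S, c y * f y = φ (∑ y ∈ S, c y • δ y) := by
    rw [map_sum]
    refine Finset.sum_congr rfl fun y _ => ?_
    rw [map_smul, h2, smul_eq_mul]
  rw [h3]
  exact (φ.le_opNorm _).trans (mul_le_mul_of_nonneg_right h1 (norm_nonneg _))

/-- A unimodular factor. -/
noncomputable def sg (z : 𝕜) : 𝕜 := (starRingEnd 𝕜 z) / ((‖z‖ : ℝ) : 𝕜)

theorem norm_sg (z : 𝕜) : ‖sg z‖ ≤ 1 := by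
  unfold sg
  rw [norm_div, RCLike.norm_conj, RCLike.norm_ofReal, abs_of_nonneg (norm_nonneg _)]
  exact div_self_le_one _

theorem mul_sg (z : 𝕜) : z * sg z = ((‖z‖ : ℝ) : 𝕜) := by
  unfold sg
  rcases eq_or_ne z 0 with rfl | hz
  · simp
  have hnk : ((‖z‖ : ℝ) : 𝕜) ≠ 0 := by
    rw [Ne, RCLike.ofReal_eq_zero]
    exact norm_ne_zero_iff.2 hz
  rw [mul_div_assoc', RCLike.mul_conj, sq, mul_div_assoc, div_self hnk, mul_one]

/-- The bound of the total variation by the norm. -/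
theorem LD.tv (h : LD 𝕜 o δ) {ε : ℝ} (hε : 0 < ε) (hsep : ∀ x y : M, x ≠ y → ε ≤ dist x y)
    (S : Finset M) (c : M → 𝕜) (hc : c o = 0) :
    ∑ y ∈ S, ‖c y‖ ≤ 2 / ε * ‖∑ y ∈ S, c y • δ y‖ := by
  have h1 := h.pair_le (K := 1) zero_le_one (fun y => ((ε / 2 : ℝ) : 𝕜) * sg (c y))
    (by simp [hc, sg]) (fun x y => by
      rcases eq_or_ne x y with rfl | hxy
      · simp
      · have h2 : ∀ z : M, ‖((ε / 2 : ℝ) : 𝕜) * sg (c z)‖ ≤ ε / 2 := by
          intro z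
          rw [norm_mul, RCLike.norm_ofReal, abs_of_pos (by positivity)]
          nlinarith [norm_sg (c z), norm_nonneg (sg (c z))]
        refine (norm_sub_le _ _).trans ?_
        have := hsep x y hxy
        linarith [h2 x, h2 y]) S c
  have h3 : ∑ y ∈ S, c y * (((ε / 2 : ℝ) : 𝕜) * sg (c y)) =
      ((ε / 2 * ∑ y ∈ S, ‖c y‖ : ℝ) : 𝕜) := by
    rw [RCLike.ofReal_mul, RCLike.ofReal_sum, Finset.mul_sum]
    refine Finset.sum_congr rfl fun y _ => ?_
    rw [mul_left_comm, mul_sg]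
  rw [h3, RCLike.norm_ofReal, abs_of_nonneg (mul_nonneg (by positivity)
    (Finset.sum_nonneg fun _ _ => norm_nonneg _)), one_mul] at h1
  rw [div_mul_eq_mul_div, le_div_iff₀ hε]
  linarith

/-- Extension of Lipschitz functions. -/
theorem ext_lip {D : Set M} {f : M → 𝕜} {K : ℝ} (hK : 0 ≤ K)
    (hf : ∀ x ∈ D, ∀ y ∈ D, ‖f x - f y‖ ≤ K * dist x y) :
    ∃ F : M → 𝕜, (∀ x ∈ D, F x = f x) ∧ ∀ x y, ‖F x - F y‖ ≤ 2 * K * dist x y := by
  have hre : LipschitzOnWith (Real.toNNReal K) (fun x => RCLike.re (f x)) D := by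
    refine LipschitzOnWith.of_dist_le_mul fun x hx y hy => ?_
    rw [Real.coe_toNNReal _ hK, Real.dist_eq, ← map_sub]
    exact (RCLike.abs_re_le_norm _).trans (hf x hx y hy)
  have him : LipschitzOnWith (Real.toNNReal K) (fun x => RCLike.im (f x)) D := by
    refine LipschitzOnWith.of_dist_le_mul fun x hx y hy => ?_
    rw [Real.coe_toNNReal _ hK, Real.dist_eq, ← map_sub]
    exact (RCLike.abs_im_le_norm _).trans (hf x hx y hy)
  obtain ⟨g, hg, hgD⟩ := hre.extend_real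
  obtain ⟨k, hk, hkD⟩ := him.extend_real
  refine ⟨fun x => ((g x : ℝ) : 𝕜) + ((k x : ℝ) : 𝕜) * RCLike.I, fun x hx => ?_, fun x y => ?_⟩
  · have e1 : RCLike.re (f x) = g x := hgD hx
    have e2 : RCLike.im (f x) = k x := hkD hx
    change ((g x : ℝ) : 𝕜) + ((k x : ℝ) : 𝕜) * RCLike.I = f x
    rw [← e1, ← e2]
    exact RCLike.re_add_im _
  · have h1 : ((g x : ℝ) : 𝕜) + ((k x : ℝ) : 𝕜) * RCLike.I -
        (((g y : ℝ) : 𝕜) + ((k y : ℝ) : 𝕜) * RCLike.I) =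
        ((g x - g y : ℝ) : 𝕜) + ((k x - k y : ℝ) : 𝕜) * RCLike.I := by
      rw [RCLike.ofReal_sub, RCLike.ofReal_sub]
      ring
    rw [h1]
    have h2 := hg.dist_le_mul x y
    have h3 := hk.dist_le_mul x y
    rw [Real.coe_toNNReal _ hK, Real.dist_eq] at h2 h3
    have h4 : ‖(RCLike.I : 𝕜)‖ ≤ 1 := by
      rcases RCLike.I_eq_zero_or_im_I_eq_one (K := 𝕜) with h | h
      · rw [h, norm_zero]; exact zero_le_one
      · exact (RCLike.norm_I_of_ne_zero (by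
          intro h0; rw [h0] at h; simp at h)).le
    refine (norm_add_le _ _).trans ?_
    rw [norm_mul, RCLike.norm_ofReal, RCLike.norm_ofReal]
    nlinarith [abs_nonneg (k x - k y), norm_nonneg (RCLike.I : 𝕜)]

/-- A functional which vanishes on the evaluations at finitely many points and is large at a point
far away from their span. -/
theorem annih (V : Submodule 𝕜 X) {x : X} {r : ℝ} (hr : 0 < r) (h : ∀ v ∈ V, r ≤ ‖x - v‖) :
    ∃ φ : StrongDual 𝕜 X, ‖φ‖ ≤ 1 ∧ (∀ v ∈ V, φ v = 0) ∧ r ≤ RCLike.re (φ x) := by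
  obtain ⟨φ, h1, h2⟩ := sep (𝕜 := 𝕜) (C := {z | ∃ v ∈ V, z = x - v}) hr (by
    rintro _ ⟨v, hv, rfl⟩ _ ⟨w, hw, rfl⟩ a b _ _ hab
    refine ⟨(a : 𝕜) • v + (b : 𝕜) • w, V.add_mem (V.smul_mem _ hv) (V.smul_mem _ hw), ?_⟩
    have h3 : (a : 𝕜) + (b : 𝕜) = 1 := by
      rw [← RCLike.ofReal_add, hab, RCLike.ofReal_one]
    calc (a : 𝕜) • (x - v) + (b : 𝕜) • (x - w) =
        ((a : 𝕜) + (b : 𝕜)) • x - ((a : 𝕜) • v + (b : 𝕜) • w) := by
          rw [smul_sub, smul_sub, add_smul]; abel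
      _ = _ := by rw [h3, one_smul]) (by
    rintro _ ⟨v, hv, rfl⟩
    exact h v hv)
  refine ⟨φ, h1, fun v hv => ?_, ?_⟩
  · by_contra hne
    have hn : 0 < ‖φ v‖ := norm_pos_iff.2 hne
    set t : ℝ := (RCLike.re (φ x) + 1) / ‖φ v‖ with ht
    have h3 := h2 (x - ((t : ℝ) : 𝕜) • (sg (φ v) • v))
      ⟨_, V.smul_mem _ (V.smul_mem _ hv), rfl⟩
    have h4 : φ (((t : ℝ) : 𝕜) • (sg (φ v) • v)) = ((t * ‖φ v‖ : ℝ) : 𝕜) := by
      rw [map_smul, map_smul, smul_eq_mul, smul_eq_mul, mul_comm (sg _), mul_sg,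
        RCLike.ofReal_mul]
    rw [map_sub, h4, map_sub, RCLike.ofReal_re, ht, div_mul_cancel₀ _ hn.ne'] at h3
    linarith
  · have := h2 (x - 0) ⟨0, V.zero_mem, rfl⟩
    rwa [sub_zero] at this

/-- Most terms of a separated sequence are far away from a given finite dimensional subspace. -/
theorem far (V : Submodule 𝕜 X) [FiniteDimensional 𝕜 V] {x : ℕ → X} {R s : ℝ}
    (hR : ∀ n, ‖x n‖ ≤ R) (hs : ∀ n m, n ≠ m → s ≤ ‖x n - x m‖) {η : ℝ} (hη : 0 < η) :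
    ∀ᶠ n in (UU : Filter ℕ), ∀ v ∈ V, s / 2 - η ≤ ‖x n - v‖ := by
  by_contra hcon
  rw [← Ultrafilter.eventually_not] at hcon
  have h1 : ∀ n, ∃ v : V, (¬ ∀ v ∈ V, s / 2 - η ≤ ‖x n - v‖) → ‖x n - v‖ < s / 2 - η := by
    intro n
    by_cases h : ∀ v ∈ V, s / 2 - η ≤ ‖x n - v‖
    · exact ⟨0, fun h' => absurd h h'⟩
    · have h' := h
      push Not at h'
      obtain ⟨v, hv, hlt⟩ := h'
      exact ⟨⟨v, hv⟩, fun _ => hlt⟩
  choose v hv using h1
  have : ProperSpace V := FiniteDimensional.proper_rclike 𝕜 V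
  obtain ⟨l, _, hl⟩ := exists_lim v 0 (R + (s / 2 - η)) (by
    filter_upwards [hcon] with n hn
    have h2 := hv n hn
    rw [dist_zero_right]
    have h3 : ‖(v n : X)‖ ≤ ‖x n‖ + ‖x n - v n‖ := by
      have := norm_sub_le (x n) (x n - v n)
      rwa [sub_sub_cancel] at this
    have h4 : ‖v n‖ = ‖(v n : X)‖ := rfl
    rw [h4]
    linarith [hR n])
  have h5 : ∀ᶠ n in (UU : Filter ℕ), dist (v n) l < η := by
    exact (Metric.tendsto_nhds.1 hl) η hη
  have h6 : ∀ᶠ n in (UU : Filter ℕ), ‖x n - l‖ < s / 2 := by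
    filter_upwards [h5, hcon] with n h7 hn
    have h8 := hv n hn
    have h9 : ‖(v n : X) - l‖ < η := by
      rw [dist_eq_norm] at h7
      exact h7
    calc ‖x n - l‖ = ‖(x n - v n) + (v n - l)‖ := by rw [sub_add_sub_cancel]
      _ ≤ ‖x n - v n‖ + ‖(v n : X) - l‖ := norm_add_le _ _
      _ < s / 2 := by linarith
  obtain ⟨n, _, hn⟩ := exists_large h6 ∅
  obtain ⟨m, hm, hm2⟩ := exists_large h6 {n}
  have hnm : n < m := hm n (by simp)
  have h10 := hs n m hnm.ne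
  have h11 : ‖x n - x m‖ ≤ ‖x n - l‖ + ‖x m - l‖ := by
    have := norm_sub_le (x n - l) (x m - l)
    rwa [sub_sub_sub_cancel_right] at this
  linarith

end Pool.Agent.R271.QS
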