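import Mathlib
import Pool.Agent.R271.QSData

set_option autoImplicit false

/-!
Lower `ℓ_1`-estimates for combinations with vanishing sum.
-/

open Filter Topology

namespace Pool.Agent.R271.QS

variable {𝕜 M X : Type*} [RCLike 𝕜] [MetricSpace M] [NormedAddCommGroup X] [NormedSpace 𝕜 X]

/-- The lower `ℓ_1`-estimate for combinations with vanishing sum of coefficients. -/
def DL (𝕜 : Type*) {X : Type*} [RCLike 𝕜] [NormedAddCommGroup X] [NormedSpace 𝕜 X]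
    (v : ℕ → X) (κ : ℝ) : Prop :=
  ∀ (S : Finset ℕ) (a : ℕ → ℝ), ∑ j ∈ S, a j = 0 →
    κ * ∑ j ∈ S, |a j| ≤ ‖∑ j ∈ S, ((a j : ℝ) : 𝕜) • v j‖

theorem DL_of_signs {v : ℕ → X} {w : ℕ → 𝕜} {K t e : ℝ} (hK : 0 < K)
    (hw : ∀ l, t ≤ RCLike.re (w l))
    (h : ∀ (θ : ℕ → ℝ), (∀ l, |θ l| ≤ 1) → ∀ L : Finset ℕ, ∃ Φ : StrongDual 𝕜 X, ‖Φ‖ ≤ K ∧
      ∃ κ : 𝕜, ∀ l ∈ L, ‖Φ (v l) - κ - ((θ l : ℝ) : 𝕜) * w l‖ ≤ e) :
    DL 𝕜 v ((t - e) / K) := by
  intro S a ha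
  set θ : ℕ → ℝ := fun l => if 0 ≤ a l then 1 else -1 with hθ
  have h1 : ∀ l, |θ l| ≤ 1 := by
    intro l
    rw [hθ]
    dsimp only
    split_ifs <;> simp
  have h2 : ∀ l, a l * θ l = |a l| := by
    intro l
    rw [hθ]
    dsimp only
    split_ifs with hc
    · rw [mul_one, abs_of_nonneg hc]
    · rw [abs_of_neg (not_le.1 hc)]; ring
  obtain ⟨Φ, hΦ, κ, hκ⟩ := h θ h1 S
  have h3 : Φ (∑ j ∈ S, ((a j : ℝ) : 𝕜) • v j) = ∑ j ∈ S, ((a j : ℝ) : 𝕜) *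
      (Φ (v j) - κ - ((θ j : ℝ) : 𝕜) * w j) + ∑ j ∈ S, ((|a j| : ℝ) : 𝕜) * w j := by
    have h4 : ∑ j ∈ S, ((a j : ℝ) : 𝕜) * κ = 0 := by
      rw [← Finset.sum_mul, ← RCLike.ofReal_sum, ha, RCLike.ofReal_zero, zero_mul]
    rw [map_sum]
    have h5 : ∀ j ∈ S, Φ (((a j : ℝ) : 𝕜) • v j) = ((a j : ℝ) : 𝕜) *
        (Φ (v j) - κ - ((θ j : ℝ) : 𝕜) * w j) + ((|a j| : ℝ) : 𝕜) * w j +
          ((a j : ℝ) : 𝕜) * κ := by
      intro j _
      rw [map_smul, smul_eq_mul, ← h2 j, RCLike.ofReal_mul]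
      ring
    rw [Finset.sum_congr rfl h5, Finset.sum_add_distrib, Finset.sum_add_distrib, h4, add_zero]
  have h6 : t * ∑ j ∈ S, |a j| ≤ RCLike.re (∑ j ∈ S, ((|a j| : ℝ) : 𝕜) * w j) := by
    rw [map_sum, Finset.mul_sum]
    refine Finset.sum_le_sum fun j _ => ?_
    rw [RCLike.re_ofReal_mul, mul_comm]
    exact mul_le_mul_of_nonneg_left (hw j) (abs_nonneg _)
  have h7 : ‖∑ j ∈ S, ((a j : ℝ) : 𝕜) * (Φ (v j) - κ - ((θ j : ℝ) : 𝕜) * w j)‖ ≤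
      e * ∑ j ∈ S, |a j| := by
    rw [Finset.mul_sum]
    refine (norm_sum_le _ _).trans (Finset.sum_le_sum fun j hj => ?_)
    rw [norm_mul, RCLike.norm_ofReal, mul_comm]
    exact mul_le_mul_of_nonneg_right (hκ j hj) (abs_nonneg _)
  have h8 : RCLike.re (Φ (∑ j ∈ S, ((a j : ℝ) : 𝕜) • v j)) ≤
      K * ‖∑ j ∈ S, ((a j : ℝ) : 𝕜) • v j‖ := by
    refine (RCLike.re_le_norm _).trans ((Φ.le_opNorm _).trans ?_)
    exact mul_le_mul_of_nonneg_right hΦ (norm_nonneg _)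
  have h9 : -(e * ∑ j ∈ S, |a j|) ≤
      RCLike.re (∑ j ∈ S, ((a j : ℝ) : 𝕜) * (Φ (v j) - κ - ((θ j : ℝ) : 𝕜) * w j)) := by
    have := (abs_le.1 ((RCLike.abs_re_le_norm _).trans h7)).1
    exact this
  rw [h3, map_add] at h8
  rw [div_mul_eq_mul_div, div_le_iff₀ hK]
  nlinarith

theorem DL.comp {v : ℕ → X} {κ : ℝ} (h : DL 𝕜 v κ) {ψ : ℕ → ℕ} (hψ : Function.Injective ψ) :
    DL 𝕜 (v ∘ ψ) κ := by
  intro S a ha
  have hinv : ∀ j, (Function.extend ψ a 0) (ψ j) = a j := fun j => hψ.extend_apply a 0 j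
  have := h (S.image ψ) (Function.extend ψ a 0) (by
    rw [Finset.sum_image fun _ _ _ _ h => hψ h]
    rw [← ha]
    exact Finset.sum_congr rfl fun j _ => hinv j)
  rw [Finset.sum_image fun _ _ _ _ h => hψ h, Finset.sum_image fun _ _ _ _ h => hψ h] at this
  have e1 : ∑ j ∈ S, |Function.extend ψ a 0 (ψ j)| = ∑ j ∈ S, |a j| :=
    Finset.sum_congr rfl fun j _ => by rw [hinv]
  have e2 : ∑ j ∈ S, ((Function.extend ψ a 0 (ψ j) : ℝ) : 𝕜) • v (ψ j) =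
      ∑ j ∈ S, ((a j : ℝ) : 𝕜) • (v ∘ ψ) j :=
    Finset.sum_congr rfl fun j _ => by rw [hinv]; rfl
  rwa [e1, e2] at this

theorem DL.mono {v : ℕ → X} {κ κ' : ℝ} (h : DL 𝕜 v κ) (hk : κ' ≤ κ) : DL 𝕜 v κ' := by
  intro S a ha
  refine le_trans (mul_le_mul_of_nonneg_right hk (Finset.sum_nonneg fun _ _ => abs_nonneg _)) ?_
  exact h S a ha

/-- Stability under small perturbations. -/
theorem DL.perturb {v w : ℕ → X} {κ τ : ℝ} (h : DL 𝕜 v κ) (hvw : ∀ n, ‖w n - v n‖ ≤ τ) :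
    DL 𝕜 w (κ - τ) := by
  intro S a ha
  have h1 := h S a ha
  have h2 : ‖∑ j ∈ S, ((a j : ℝ) : 𝕜) • (w j - v j)‖ ≤ τ * ∑ j ∈ S, |a j| := by
    rw [Finset.mul_sum]
    refine (norm_sum_le _ _).trans (Finset.sum_le_sum fun j _ => ?_)
    rw [norm_smul, RCLike.norm_ofReal, mul_comm]
    exact mul_le_mul_of_nonneg_right (hvw j) (abs_nonneg _)
  have h3 : ∑ j ∈ S, ((a j : ℝ) : 𝕜) • w j = ∑ j ∈ S, ((a j : ℝ) : 𝕜) • v j +
      ∑ j ∈ S, ((a j : ℝ) : 𝕜) • (w j - v j) := by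
    rw [← Finset.sum_add_distrib]
    refine Finset.sum_congr rfl fun j _ => ?_
    rw [← smul_add, add_sub_cancel]
  have h4 : ‖∑ j ∈ S, ((a j : ℝ) : 𝕜) • v j‖ ≤ ‖∑ j ∈ S, ((a j : ℝ) : 𝕜) • w j‖ +
      ‖∑ j ∈ S, ((a j : ℝ) : 𝕜) • (w j - v j)‖ := by
    rw [h3]
    have := norm_sub_le (∑ j ∈ S, ((a j : ℝ) : 𝕜) • v j + ∑ j ∈ S, ((a j : ℝ) : 𝕜) • (w j - v j))
      (∑ j ∈ S, ((a j : ℝ) : 𝕜) • (w j - v j))
    rwa [add_sub_cancel_right] at this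
  rw [sub_mul]
  linarith

/-- Counting lemma for sequences which decrease by factors larger than two. -/
theorem count (w : ℕ → ℝ) {a ρ : ℝ} (ha : 0 < a) :
    ∀ A : Finset ℕ, (∀ i ∈ A, a < w i) → (∀ i ∈ A, ∀ i' ∈ A, i < i' → 2 * w i' < w i) →
      (∀ i ∈ A, w i ≤ ρ) → ∀ i ∈ A, (∀ i' ∈ A, i ≤ i') → (2 : ℝ) ^ A.card * a < 2 * w i := by
  intro A
  induction A using Finset.induction_on_min with
  | empty => intro _ _ _ i hi; simp at hi
  | insert m A hm ih =>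
    intro h1 h2 h3 i hi hmin
    have hmA : m ∉ A := fun h => lt_irrefl _ (hm m h)
    have him : i = m := by
      apply le_antisymm (hmin m (Finset.mem_insert_self _ _))
      rcases Finset.mem_insert.1 hi with h | h
      · exact h.ge
      · exact (hm i h).le
    subst him
    rw [Finset.card_insert_of_notMem hmA]
    rcases A.eq_empty_or_nonempty with rfl | hne
    · simp only [Finset.card_empty, zero_add, pow_one]
      have := h1 i (Finset.mem_insert_self _ _)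
      linarith
    · have h4 := ih (fun k hk => h1 k (Finset.mem_insert_of_mem hk))
        (fun k hk k' hk' => h2 k (Finset.mem_insert_of_mem hk) k' (Finset.mem_insert_of_mem hk'))
        (fun k hk => h3 k (Finset.mem_insert_of_mem hk)) (A.min' hne) (A.min'_mem hne)
        (fun k hk => A.min'_le k hk)
      have h5 := h2 i (Finset.mem_insert_self _ _) (A.min' hne)
        (Finset.mem_insert_of_mem (A.min'_mem hne)) (hm _ (A.min'_mem hne))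
      rw [pow_succ]
      linarith

end Pool.Agent.R271.QS
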