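import Mathlib
import Pool.Agent.R271.QSDL

set_option autoImplicit false

/-!
The bounded case: sequences of elements supported in a fixed ball.
-/

open Filter Topology

namespace Pool.Agent.R271.QS

variable {𝕜 M X : Type*} [RCLike 𝕜] [MetricSpace M] [NormedAddCommGroup X] [NormedSpace 𝕜 X]
variable {o : M} {δ : M → X}

theorem core [DecidableEq M] (h : LD 𝕜 o δ) {ε ρ : ℝ} (hε : 0 < ε) (hsep : ∀ x y : M, x ≠ y → ε ≤ dist x y)
    (hρ : 0 < ρ) {E S : ℕ → Finset M} {μ : ℕ → M → 𝕜} {φ : ℕ → StrongDual 𝕜 X} {c : M → 𝕜}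
    {x : ℕ → X} {C1 η t : ℝ} (hoE : o ∈ E 0) (hE : ∀ j, E j ⊆ E (j + 1))
    (hSE : ∀ j, S j ⊆ E (j + 1)) (hμ : ∀ j y, y ∉ S j → μ j y = 0)
    (hμρ : ∀ j y, ρ < dist y o → μ j y = 0) (hcρ : ∀ y, ρ < dist y o → c y = 0)
    (hTV : ∀ j, ∑ y ∈ S j, ‖μ j y‖ ≤ C1) (hη : 0 < η)
    (hc0 : ∀ j, ∑ y ∈ E j \ E 0, ‖c y‖ ≤ η) (hcl : ∀ j, ∑ y ∈ E j, ‖μ j y - c y‖ ≤ η)
    (hx : ∀ j, x j = ∑ y ∈ S j, μ j y • δ y) (hφ1 : ∀ j, ‖φ j‖ ≤ 1)
    (hφ0 : ∀ j, ∀ y ∈ E j, φ j (δ y) = 0) (hφx : ∀ j, t ≤ RCLike.re (φ j (x j))) :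
    ∃ ψ : ℕ → ℕ, StrictMono ψ ∧ DL 𝕜 (x ∘ ψ) ((t - 25 * ρ * η) / 8) := by
  classical
  have hEm : Monotone E := monotone_nat_of_le_succ hE
  let g : ℕ → M → 𝕜 := fun j y => φ j (δ y)
  have hg : ∀ j y z, ‖g j y - g j z‖ ≤ dist y z := by
    intro j y z
    have e : g j y - g j z = φ j (δ y - δ z) := (map_sub _ _ _).symm
    rw [e]
    refine ((φ j).le_opNorm _).trans ?_
    have h1 := hφ1 j
    have h2 := h.lip y z
    nlinarith [norm_nonneg (δ y - δ z), norm_nonneg (φ j)]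
  have hg0 : ∀ j, ∀ y ∈ E j, g j y = 0 := hφ0
  have hgo : ∀ j, g j o = 0 := fun j => hg0 j o (hEm (Nat.zero_le j) hoE)
  have hgb : ∀ j y, ‖g j y‖ ≤ dist y o := by
    intro j y
    have := hg j y o
    rwa [hgo, sub_zero] at this
  let B : ℕ → Set M := fun i => {y | ∃ z ∈ E (i + 1), 3 * dist z y < ‖g i z‖}
  let b : ℕ → ℕ → ℝ := fun i j => ∑ y ∈ (S j \ E j).filter (fun y => y ∈ B i), ‖μ j y‖
  obtain ⟨N0, hN0⟩ : ∃ N : ℕ, ρ ≤ 2 ^ N * ε := by
    obtain ⟨N, hN⟩ := pow_unbounded_of_one_lt (ρ / ε) (one_lt_two)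
    refine ⟨N, ?_⟩
    rw [div_lt_iff₀ hε] at hN
    exact hN.le
  have hcount : ∀ j, ∀ y ∈ S j \ E j, dist y o ≤ ρ →
      ((Finset.range j).filter (fun i => y ∈ B i)).card ≤ N0 := by
    intro j y hy hyρ
    have hyE : y ∉ E j := (Finset.mem_sdiff.1 hy).2
    have hz : ∀ i, ∃ z, y ∈ B i → z ∈ E (i + 1) ∧ 3 * dist z y < ‖g i z‖ := by
      intro i
      by_cases hi : y ∈ B i
      · obtain ⟨z, hz1, hz2⟩ := hi
        exact ⟨z, fun _ => ⟨hz1, hz2⟩⟩
      · exact ⟨o, fun h' => absurd h' hi⟩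
    choose z hz using hz
    set A := (Finset.range j).filter (fun i => y ∈ B i) with hA
    rcases A.eq_empty_or_nonempty with he | hne
    · rw [he, Finset.card_empty]; exact Nat.zero_le _
    have hmem : ∀ i ∈ A, i < j ∧ y ∈ B i := by
      intro i hi
      rw [hA, Finset.mem_filter, Finset.mem_range] at hi
      exact hi
    have h1 : ∀ i ∈ A, 3 * ε < ‖g i (z i)‖ := by
      intro i hi
      obtain ⟨hij, hB⟩ := hmem i hi
      obtain ⟨hz1, hz2⟩ := hz i hB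
      have hzE : z i ∈ E j := hEm (by omega : i + 1 ≤ j) hz1
      have hne' : z i ≠ y := fun h' => hyE (h' ▸ hzE)
      have := hsep _ _ hne'
      linarith
    have h2 : ∀ i ∈ A, ∀ i' ∈ A, i < i' → 2 * ‖g i' (z i')‖ < ‖g i (z i)‖ := by
      intro i hi i' hi' hlt
      obtain ⟨hz1, hz2⟩ := hz i (hmem i hi).2
      obtain ⟨hz3, hz4⟩ := hz i' (hmem i' hi').2
      have h3 : g i' (z i) = 0 := hg0 i' _ (hEm (by omega : i + 1 ≤ i') hz1)
      have h4 := hg i' (z i') (z i)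
      rw [h3, sub_zero] at h4
      have h5 := dist_triangle_right (z i') (z i) y
      linarith
    have h4 := count (fun i => ‖g i (z i)‖) (a := 3 * ε) (ρ := 3 / 2 * ρ) (by positivity) A h1 h2
      (by
        intro i hi
        obtain ⟨hz1, hz2⟩ := hz i (hmem i hi).2
        have h5 := hgb i (z i)
        have h6 := dist_triangle (z i) y o
        have : ‖g i (z i)‖ ≤ 3 / 2 * ρ := by linarith
        exact this) (A.min' hne) (A.min'_mem hne) (fun k hk => A.min'_le k hk)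
    by_contra hcon
    rw [not_le] at hcon
    obtain ⟨hz1, hz2⟩ := hz _ (hmem _ (A.min'_mem hne)).2
    have h5 := hgb (A.min' hne) (z (A.min' hne))
    have h6 := dist_triangle (z (A.min' hne)) y o
    have h7 : (2 : ℝ) ^ N0 ≤ 2 ^ A.card := pow_le_pow_right₀ (by norm_num) hcon.le
    have h8 : (2 : ℝ) ^ N0 * (3 * ε) ≤ 2 ^ A.card * (3 * ε) :=
      mul_le_mul_of_nonneg_right h7 (by positivity)
    nlinarith
  have hbC : ∀ j, ∑ i ∈ Finset.range j, b i j ≤ N0 * C1 := by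
    intro j
    have e1 : ∑ i ∈ Finset.range j, b i j = ∑ y ∈ S j \ E j,
        (((Finset.range j).filter (fun i => y ∈ B i)).card : ℝ) * ‖μ j y‖ := by
      simp only [b, Finset.sum_filter]
      rw [Finset.sum_comm]
      refine Finset.sum_congr rfl fun y _ => ?_
      rw [← Finset.sum_filter, Finset.sum_const, nsmul_eq_mul]
    rw [e1]
    have h1 : ∑ y ∈ S j \ E j,
        (((Finset.range j).filter (fun i => y ∈ B i)).card : ℝ) * ‖μ j y‖ ≤
        ∑ y ∈ S j \ E j, (N0 : ℝ) * ‖μ j y‖ := by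
      refine Finset.sum_le_sum fun y hy => ?_
      rcases le_or_gt (dist y o) ρ with hle | hlt
      · exact mul_le_mul_of_nonneg_right (by exact_mod_cast hcount j y hy hle) (norm_nonneg _)
      · rw [hμρ j y hlt, norm_zero, mul_zero, mul_zero]
    refine h1.trans ?_
    rw [← Finset.mul_sum]
    refine mul_le_mul_of_nonneg_left ?_ (Nat.cast_nonneg _)
    refine le_trans ?_ (hTV j)
    exact Finset.sum_le_sum_of_subset_of_nonneg Finset.sdiff_subset fun _ _ _ => norm_nonneg _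
  obtain ⟨ψ, hψ, hb⟩ := rosenthal (b := b)
    (fun i j => Finset.sum_nonneg fun _ _ => norm_nonneg _) hbC hη
  refine ⟨ψ, hψ, ?_⟩
  have hφx' : ∀ l, t ≤ RCLike.re (φ (ψ l) (x (ψ l))) := fun l => hφx (ψ l)
  refine DL_of_signs (w := fun l => φ (ψ l) (x (ψ l))) (K := 8) (by norm_num) hφx' ?_
  intro θ hθ L
  let good : ℕ → M → Prop := fun l y => y ∈ S (ψ l) \ E (ψ l) ∧ ∀ l' < l, y ∉ B (ψ l')
  have hEψ : ∀ l l', l < l' → E (ψ l + 1) ⊆ E (ψ l') := by
    intro l l' hlt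
    exact hEm (Nat.succ_le_of_lt (hψ hlt))
  have hgd1 : ∀ l l' y, l < l' → good l y → ¬ good l' y := by
    intro l l' y hlt h1 h2
    have h3 : y ∈ E (ψ l + 1) := hSE _ (Finset.mem_sdiff.1 h1.1).1
    exact (Finset.mem_sdiff.1 h2.1).2 (hEψ l l' hlt h3)
  have huniq : ∀ l l' y, good l y → good l' y → l = l' := by
    intro l l' y h1 h2
    rcases lt_trichotomy l l' with hlt | heq | hlt
    · exact absurd h2 (hgd1 l l' y hlt h1)
    · exact heq
    · exact absurd h1 (hgd1 l' l y hlt h2)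
  have hgoodo : ∀ l, ¬ good l o := fun l h1 =>
    (Finset.mem_sdiff.1 h1.1).2 (hEm (Nat.zero_le _) hoE)
  let f : M → 𝕜 := fun y => if hh : ∃ l, good l y then ((θ hh.choose : ℝ) : 𝕜) * g (ψ hh.choose) y
    else 0
  have hfv : ∀ l y, good l y → f y = ((θ l : ℝ) : 𝕜) * g (ψ l) y := by
    intro l y hy
    have hh : ∃ l, good l y := ⟨l, hy⟩
    have e1 : f y = ((θ hh.choose : ℝ) : 𝕜) * g (ψ hh.choose) y := dif_pos hh
    rw [e1, huniq _ _ _ hh.choose_spec hy]
  have hfo : f o = 0 := dif_neg (fun ⟨l, hl⟩ => hgoodo l hl)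
  have hθn : ∀ l (w : 𝕜), ‖((θ l : ℝ) : 𝕜) * w‖ ≤ ‖w‖ := by
    intro l w
    rw [norm_mul, RCLike.norm_ofReal]
    nlinarith [hθ l, norm_nonneg w, abs_nonneg (θ l)]
  have hasym : ∀ l l' y z, l < l' → good l y → good l' z → ‖f y - f z‖ ≤ 4 * dist y z := by
    intro l l' y z hlt hy hz
    rw [hfv l y hy, hfv l' z hz]
    have hyE : y ∈ E (ψ l + 1) := hSE _ (Finset.mem_sdiff.1 hy.1).1
    have h1 : ‖g (ψ l) y‖ ≤ 3 * dist y z := by
      by_contra hcon
      rw [not_le] at hcon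
      exact hz.2 l hlt ⟨y, hyE, hcon⟩
    have h2 : ‖g (ψ l') z‖ ≤ dist y z := by
      have h3 := hg (ψ l') z y
      rw [hg0 (ψ l') y (hEψ l l' hlt hyE), sub_zero, dist_comm] at h3
      exact h3
    refine (norm_sub_le _ _).trans ?_
    linarith [hθn l (g (ψ l) y), hθn l' (g (ψ l') z)]
  have hfD : ∀ y ∈ {y | y = o ∨ ∃ l, good l y}, ∀ z ∈ {y | y = o ∨ ∃ l, good l y},
      ‖f y - f z‖ ≤ 4 * dist y z := by
    rintro y (rfl | ⟨l, hl⟩) z (rfl | ⟨l', hl'⟩)
    · simp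
    · rw [hfo, zero_sub, norm_neg, hfv l' z hl']
      have h1 := hθn l' (g (ψ l') z)
      have h2 := hgb (ψ l') z
      rw [dist_comm] at h2
      have h3 : 0 ≤ dist y z := dist_nonneg
      linarith
    · rw [hfo, sub_zero, hfv l y hl]
      have h1 := hθn l (g (ψ l) y)
      have h2 := hgb (ψ l) y
      have h3 : 0 ≤ dist y z := dist_nonneg
      linarith
    · rcases lt_trichotomy l l' with hlt | heq | hlt
      · exact hasym l l' y z hlt hl hl'
      · subst heq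
        rw [hfv l y hl, hfv l z hl', ← mul_sub]
        refine (hθn _ _).trans ((hg _ _ _).trans ?_)
        have h3 : 0 ≤ dist y z := dist_nonneg
        linarith
      · rw [norm_sub_rev, dist_comm]
        exact hasym l' l z y hlt hl' hl
  obtain ⟨F, hFD, hFL⟩ := ext_lip (by norm_num : (0 : ℝ) ≤ 4) hfD
  have hFo : F o = 0 := by
    rw [hFD o (Or.inl rfl), hfo]
  obtain ⟨Φ, hΦ, hΦF⟩ := h.liftK (K := 8) (by norm_num) F hFo (fun y z => by
    have := hFL y z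
    norm_num at this
    exact this)
  refine ⟨Φ, hΦ, ∑ y ∈ E 0, c y * F y, fun l _ => ?_⟩
  have hFb : ∀ y, ‖F y‖ ≤ 8 * dist y o := by
    intro y
    have := hFL y o
    rw [hFo, sub_zero] at this
    norm_num at this
    exact this
  have hFw : ∀ (w : 𝕜) (y : M), (ρ < dist y o → w = 0) → ‖w * F y‖ ≤ 8 * ρ * ‖w‖ := by
    intro w y hw
    rcases le_or_gt (dist y o) ρ with hle | hlt
    · rw [norm_mul, mul_comm]
      refine mul_le_mul_of_nonneg_right ?_ (norm_nonneg _)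
      linarith [hFb y]
    · rw [hw hlt]; simp
  generalize hj : ψ l = j
  have hj' : ∀ l' < l, E (ψ l' + 1) ⊆ E j := fun l' hl' => hj ▸ hEψ l' l hl'
  have hsplit : ∀ G : M → 𝕜, ∑ y ∈ S j, μ j y * G y =
      ∑ y ∈ S j \ E j, μ j y * G y + ∑ y ∈ E j, μ j y * G y := by
    intro G
    rw [← Finset.sum_union Finset.sdiff_disjoint, Finset.sdiff_union_self_eq_union]
    refine Finset.sum_subset Finset.subset_union_left fun y _ hy => ?_
    rw [hμ j y hy, zero_mul]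
  have e1 : Φ (x j) = ∑ y ∈ S j \ E j, μ j y * F y + ∑ y ∈ E j, μ j y * F y := by
    rw [← hsplit, hx j, map_sum]
    refine Finset.sum_congr rfl fun y _ => ?_
    rw [map_smul, hΦF, smul_eq_mul]
  have e2 : φ j (x j) = ∑ y ∈ S j \ E j, μ j y * g j y := by
    have e3 : φ j (x j) = ∑ y ∈ S j, μ j y * g j y := by
      rw [hx j, map_sum]
      refine Finset.sum_congr rfl fun y _ => ?_
      rw [map_smul, smul_eq_mul]
    rw [e3, hsplit]
    have e4 : ∑ y ∈ E j, μ j y * g j y = 0 := by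
      refine Finset.sum_eq_zero fun y hy => ?_
      rw [hg0 j y hy, mul_zero]
    rw [e4, add_zero]
  have e5 : ∑ y ∈ E j, μ j y * F y = ∑ y ∈ E j, (μ j y - c y) * F y +
      (∑ y ∈ E j \ E 0, c y * F y + ∑ y ∈ E 0, c y * F y) := by
    rw [Finset.sum_sdiff (hEm (Nat.zero_le j)), ← Finset.sum_add_distrib]
    refine Finset.sum_congr rfl fun y _ => ?_
    ring
  have e6 : (Φ ((x ∘ ψ) l)) - ∑ y ∈ E 0, c y * F y - ((θ l : ℝ) : 𝕜) * φ j (x j) =
      ∑ y ∈ S j \ E j, μ j y * (F y - ((θ l : ℝ) : 𝕜) * g j y) +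
        (∑ y ∈ E j, (μ j y - c y) * F y + ∑ y ∈ E j \ E 0, c y * F y) := by
    have e7 : ∑ y ∈ S j \ E j, μ j y * (F y - ((θ l : ℝ) : 𝕜) * g j y) =
        ∑ y ∈ S j \ E j, μ j y * F y - ((θ l : ℝ) : 𝕜) * ∑ y ∈ S j \ E j, μ j y * g j y := by
      rw [Finset.mul_sum, ← Finset.sum_sub_distrib]
      refine Finset.sum_congr rfl fun y _ => ?_
      ring
    rw [Function.comp_apply, hj, e1, e2, e5, e7]
    ring
  have n1 : ‖∑ y ∈ E j, (μ j y - c y) * F y‖ ≤ 8 * ρ * η := by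
    refine (norm_sum_le _ _).trans ?_
    refine (Finset.sum_le_sum fun y _ => hFw (μ j y - c y) y (fun hlt => by
      rw [hμρ j y hlt, hcρ y hlt, sub_zero])).trans ?_
    rw [← Finset.mul_sum]
    exact mul_le_mul_of_nonneg_left (hcl j) (by positivity)
  have n2 : ‖∑ y ∈ E j \ E 0, c y * F y‖ ≤ 8 * ρ * η := by
    refine (norm_sum_le _ _).trans ?_
    refine (Finset.sum_le_sum fun y _ => hFw (c y) y (fun hlt => hcρ y hlt)).trans ?_
    rw [← Finset.mul_sum]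
    exact mul_le_mul_of_nonneg_left (hc0 j) (by positivity)
  have n3 : ‖∑ y ∈ S j \ E j, μ j y * (F y - ((θ l : ℝ) : 𝕜) * g j y)‖ ≤ 9 * ρ * η := by
    have p1 : ∀ y ∈ S j \ E j, ‖μ j y * (F y - ((θ l : ℝ) : 𝕜) * g j y)‖ ≤
        9 * ρ * ∑ l' ∈ Finset.range l, if y ∈ B (ψ l') then ‖μ j y‖ else 0 := by
      intro y hy
      have hnn : 0 ≤ ∑ l' ∈ Finset.range l, if y ∈ B (ψ l') then ‖μ j y‖ else 0 :=
        Finset.sum_nonneg fun l' _ => by split_ifs <;> simp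
      by_cases hgd : ∀ l' < l, y ∉ B (ψ l')
      · have hgd' : good l y := ⟨by rw [hj]; exact hy, hgd⟩
        rw [hFD y (Or.inr ⟨l, hgd'⟩), hfv l y hgd', hj, sub_self, mul_zero, norm_zero]
        positivity
      · push Not at hgd
        obtain ⟨l', hl', hB⟩ := hgd
        have p2 : ‖μ j y‖ ≤ ∑ l' ∈ Finset.range l, if y ∈ B (ψ l') then ‖μ j y‖ else 0 := by
          have := Finset.single_le_sum
            (f := fun l' => if y ∈ B (ψ l') then ‖μ j y‖ else 0)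
            (fun l' _ => by split_ifs <;> simp) (Finset.mem_range.2 hl')
          simp only [if_pos hB] at this
          exact this
        rcases le_or_gt (dist y o) ρ with hle | hlt
        · have p3 : ‖F y - ((θ l : ℝ) : 𝕜) * g j y‖ ≤ 9 * ρ := by
            refine (norm_sub_le _ _).trans ?_
            linarith [hFb y, hθn l (g j y), hgb j y]
          rw [norm_mul]
          calc ‖μ j y‖ * ‖F y - ((θ l : ℝ) : 𝕜) * g j y‖ ≤ ‖μ j y‖ * (9 * ρ) :=
                mul_le_mul_of_nonneg_left p3 (norm_nonneg _)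
            _ = 9 * ρ * ‖μ j y‖ := by ring
            _ ≤ _ := mul_le_mul_of_nonneg_left p2 (by positivity)
        · rw [hμρ j y hlt, zero_mul, norm_zero, ← norm_zero (E := 𝕜), ← hμρ j y hlt]
          rw [hμρ j y hlt, norm_zero]
          have : (0 : ℝ) ≤ 9 * ρ * ∑ l' ∈ Finset.range l, if y ∈ B (ψ l') then (0 : ℝ) else 0 := by
            simp
          exact this
    refine (norm_sum_le _ _).trans ((Finset.sum_le_sum p1).trans ?_)
    rw [← Finset.mul_sum, Finset.sum_comm]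
    refine mul_le_mul_of_nonneg_left ?_ (by positivity)
    refine le_trans (le_of_eq ?_) (hb l)
    refine Finset.sum_congr rfl fun l' _ => ?_
    simp only [b]
    rw [hj, Finset.sum_filter]
  rw [e6]
  refine (norm_add_le _ _).trans ?_
  have n4 := norm_add_le (∑ y ∈ E j, (μ j y - c y) * F y) (∑ y ∈ E j \ E 0, c y * F y)
  linarith

end Pool.Agent.R271.QS
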