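import Mathlib
import Pool.Agent.R271.QSDL

set_option autoImplicit false

/-!
Consequences of the lower `ℓ_1`-estimate for combinations with vanishing sum.
-/

open Filter Topology

namespace Pool.Agent.R271.QS

variable {𝕜 X : Type*} [RCLike 𝕜] [NormedAddCommGroup X] [NormedSpace 𝕜 X]

/-- Linear combinations with real coefficients. -/
noncomputable def comb (𝕜 : Type*) {X : Type*} [RCLike 𝕜] [NormedAddCommGroup X]
    [NormedSpace 𝕜 X] (y : ℕ → X) (a : ℕ →₀ ℝ) : X := a.sum fun j r => ((r : ℝ) : 𝕜) • y j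

/-- Weighted sum of coefficients. -/
noncomputable def tot (σ : ℕ → ℝ) (a : ℕ →₀ ℝ) : ℝ := a.sum fun j r => σ j * r

theorem comb_add_smul (y : ℕ → X) (s t : ℝ) (a b : ℕ →₀ ℝ) :
    comb 𝕜 y (s • a + t • b) = ((s : ℝ) : 𝕜) • comb 𝕜 y a + ((t : ℝ) : 𝕜) • comb 𝕜 y b := by
  unfold comb
  rw [Finsupp.sum_add_index' (by simp) (by intro j r r'; rw [RCLike.ofReal_add, add_smul]),
    Finsupp.sum_smul_index' (by simp), Finsupp.sum_smul_index' (by simp), Finsupp.smul_sum,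
    Finsupp.smul_sum]
  simp only [smul_eq_mul, RCLike.ofReal_mul, mul_smul]

theorem tot_add_smul (σ : ℕ → ℝ) (s t : ℝ) (a b : ℕ →₀ ℝ) :
    tot σ (s • a + t • b) = s * tot σ a + t * tot σ b := by
  unfold tot
  rw [Finsupp.sum_add_index' (by simp) (by intro j r r'; ring),
    Finsupp.sum_smul_index' (by simp), Finsupp.sum_smul_index' (by simp), Finsupp.mul_sum,
    Finsupp.mul_sum]
  simp only [smul_eq_mul, mul_left_comm]

@[simp] theorem comb_single (y : ℕ → X) (j : ℕ) (r : ℝ) :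
    comb 𝕜 y (Finsupp.single j r) = ((r : ℝ) : 𝕜) • y j := by
  unfold comb
  rw [Finsupp.sum_single_index (by simp)]

@[simp] theorem tot_single (σ : ℕ → ℝ) (j : ℕ) (r : ℝ) :
    tot σ (Finsupp.single j r) = σ j * r := by
  unfold tot
  rw [Finsupp.sum_single_index (by simp)]

theorem comb_sub (y : ℕ → X) (a b : ℕ →₀ ℝ) : comb 𝕜 y (a - b) = comb 𝕜 y a - comb 𝕜 y b := by
  have := comb_add_smul (𝕜 := 𝕜) y 1 (-1) a b
  rw [one_smul, neg_one_smul, ← sub_eq_add_neg, RCLike.ofReal_one, one_smul, RCLike.ofReal_neg,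
    RCLike.ofReal_one, neg_one_smul, ← sub_eq_add_neg] at this
  exact this

theorem tot_sub (σ : ℕ → ℝ) (a b : ℕ →₀ ℝ) : tot σ (a - b) = tot σ a - tot σ b := by
  have := tot_add_smul σ 1 (-1) a b
  rw [one_smul, neg_one_smul, ← sub_eq_add_neg] at this
  rw [this]; ring

/-- The lower estimate for finitely supported coefficients. -/
theorem DL.finsupp {y : ℕ → X} {κ : ℝ} (h : DL 𝕜 y κ) {a : ℕ →₀ ℝ}
    (ha : tot (fun _ => 1) a = 0) {σ : ℕ → ℝ} (hσ : ∀ j, |a j| = σ j * a j) :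
    κ * tot σ a ≤ ‖comb 𝕜 y a‖ := by
  have h1 := h a.support a (by
    unfold tot Finsupp.sum at ha
    simpa using ha)
  unfold tot comb Finsupp.sum
  simp only [← hσ]
  exact h1

theorem exists_funct {x : ℕ → X} {κ : ℝ} (hκ : 0 < κ) {ψ : ℕ → ℕ} (hψ : StrictMono ψ)
    (h : DL 𝕜 (x ∘ ψ) κ) :
    ∃ f : StrongDual 𝕜 X, ‖f‖ ≤ 1 ∧ ∀ n, ∃ k ≥ n, ∃ l ≥ n, 2 * κ ≤ ‖f (x k) - f (x l)‖ := by
  set y := x ∘ ψ with hy
  let σ : ℕ → ℝ := fun j => if Even j then 1 else -1
  have hσ2 : ∀ j, |σ j| = 1 := by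
    intro j
    simp only [σ]
    split_ifs <;> simp
  obtain ⟨f, hf1, hf2⟩ := sep (𝕜 := 𝕜) (κ := 2 * κ)
    (C := {w : X | ∃ a : ℕ →₀ ℝ, (∀ j, 0 ≤ σ j * a j) ∧ tot (fun _ => 1) a = 0 ∧ tot σ a = 2 ∧
      w = comb 𝕜 y a}) (by positivity) (by
    rintro _ ⟨a, ha1, ha2, ha3, rfl⟩ _ ⟨b, hb1, hb2, hb3, rfl⟩ s t hs ht hst
    refine ⟨s • a + t • b, fun j => ?_, ?_, ?_, ?_⟩
    · have e : σ j * (s • a + t • b) j = s * (σ j * a j) + t * (σ j * b j) := by
        rw [Finsupp.add_apply, Finsupp.smul_apply, Finsupp.smul_apply, smul_eq_mul, smul_eq_mul]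
        ring
      rw [e]
      exact add_nonneg (mul_nonneg hs (ha1 j)) (mul_nonneg ht (hb1 j))
    · rw [tot_add_smul, ha2, hb2]; ring
    · rw [tot_add_smul, ha3, hb3, ← add_mul, hst, one_mul]
    · rw [comb_add_smul]) (by
    rintro _ ⟨a, ha1, ha2, ha3, rfl⟩
    have h1 := h.finsupp ha2 (σ := σ) (fun j => by
      have : |σ j * a j| = σ j * a j := abs_of_nonneg (ha1 j)
      rwa [abs_mul, hσ2, one_mul] at this)
    rw [ha3] at h1
    linarith)
  refine ⟨f, hf1, fun n => ⟨ψ (2 * n), ?_, ψ (2 * n + 1), ?_, ?_⟩⟩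
  · exact le_trans (by omega) (hψ.le_apply (x := 2 * n))
  · exact le_trans (by omega) (hψ.le_apply (x := 2 * n + 1))
  · have h1 := hf2 (comb 𝕜 y (Finsupp.single (2 * n) 1 - Finsupp.single (2 * n + 1) 1))
      ⟨_, fun j => ?_, ?_, ?_, rfl⟩
    · rw [comb_sub, comb_single, comb_single, RCLike.ofReal_one, one_smul, one_smul, map_sub] at h1
      exact h1.trans (RCLike.re_le_norm _)
    · have he : σ (2 * n) = 1 := if_pos (even_two_mul n)
      have ho : σ (2 * n + 1) = -1 := if_neg (by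
        rw [Nat.not_even_iff_odd]; exact odd_two_mul_add_one n)
      rw [Finsupp.sub_apply, Finsupp.single_apply, Finsupp.single_apply]
      by_cases h1 : 2 * n = j
      · have h2 : ¬ (2 * n + 1 = j) := by omega
        rw [if_pos h1, if_neg h2, ← h1, he]
        norm_num
      · by_cases h2 : 2 * n + 1 = j
        · rw [if_neg h1, if_pos h2, ← h2, ho]
          norm_num
        · rw [if_neg h1, if_neg h2]
          norm_num
    · rw [tot_sub, tot_single, tot_single]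
      ring
    · have he : σ (2 * n) = 1 := if_pos (even_two_mul n)
      have ho : σ (2 * n + 1) = -1 := if_neg (by
        rw [Nat.not_even_iff_odd]; exact odd_two_mul_add_one n)
      rw [tot_sub, tot_single, tot_single, he, ho]
      norm_num

/-- Existence of weak-star limits along the ultrafilter. -/
theorem exists_bilimit {y : ℕ → X} {R : ℝ} (hR : ∀ n, ‖y n‖ ≤ R) :
    ∃ z : StrongDual 𝕜 (StrongDual 𝕜 X),
      Tendsto (fun n => StrongDual.toWeakDual (NormedSpace.inclusionInDoubleDual 𝕜 X (y n))) UU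
        (𝓝 (StrongDual.toWeakDual z)) ∧
      ∀ f : StrongDual 𝕜 X, Tendsto (fun n => f (y n)) UU (𝓝 (z f)) := by
  have hc := WeakDual.isCompact_closedBall (0 : StrongDual 𝕜 (StrongDual 𝕜 X)) R
  obtain ⟨z, _, hz⟩ := hc.ultrafilter_le_nhds' (UU.map
    (fun n => StrongDual.toWeakDual (NormedSpace.inclusionInDoubleDual 𝕜 X (y n)))) (by
      rw [Ultrafilter.mem_map]
      refine Filter.univ_mem' fun n => ?_
      have hmem : NormedSpace.inclusionInDoubleDual 𝕜 X (y n) ∈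
          Metric.closedBall (0 : StrongDual 𝕜 (StrongDual 𝕜 X)) R := by
        have h2 := (mem_closedBall_zero_iff (E := StrongDual 𝕜 (StrongDual 𝕜 X))
          (a := NormedSpace.inclusionInDoubleDual 𝕜 X (y n)) (r := R)).2
          ((NormedSpace.double_dual_bound 𝕜 X (y n)).trans (hR n))
        exact h2
      exact hmem)
  refine ⟨WeakDual.toStrongDual z, hz, fun f => ?_⟩
  have h1 : Continuous (fun w : WeakDual 𝕜 (StrongDual 𝕜 X) => w f) := WeakDual.eval_continuous f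
  exact (h1.tendsto z).comp hz

/-- A weak-star limit of a sequence with the lower estimate is far away from `X`. -/
theorem dist_ge {y : ℕ → X} {κ : ℝ} (hκ : 0 < κ) (h : DL 𝕜 y κ)
    {z : StrongDual 𝕜 (StrongDual 𝕜 X)}
    (hz : ∀ f : StrongDual 𝕜 X, Tendsto (fun n => f (y n)) UU (𝓝 (z f))) (x : X) :
    κ ≤ ‖z - NormedSpace.inclusionInDoubleDual 𝕜 X x‖ := by
  by_contra hcon
  rw [not_le] at hcon
  have key : ∀ k : ℕ, ∃ a : ℕ →₀ ℝ, (∀ j, 0 ≤ a j) ∧ (∀ j < k, a j = 0) ∧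
      tot (fun _ => 1) a = 1 ∧ ‖comb 𝕜 y a - x‖ < κ := by
    intro k
    by_contra hno
    push Not at hno
    obtain ⟨f, hf1, hf2⟩ := sep (𝕜 := 𝕜) (κ := κ)
      (C := {w : X | ∃ a : ℕ →₀ ℝ, (∀ j, 0 ≤ a j) ∧ (∀ j < k, a j = 0) ∧ tot (fun _ => 1) a = 1 ∧
        w = comb 𝕜 y a - x}) hκ (by
      rintro _ ⟨a, ha1, ha2, ha3, rfl⟩ _ ⟨b, hb1, hb2, hb3, rfl⟩ s t hs ht hst
      refine ⟨s • a + t • b, fun j => ?_, fun j hj => ?_, ?_, ?_⟩
      · rw [Finsupp.add_apply, Finsupp.smul_apply, Finsupp.smul_apply, smul_eq_mul, smul_eq_mul]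
        exact add_nonneg (mul_nonneg hs (ha1 j)) (mul_nonneg ht (hb1 j))
      · rw [Finsupp.add_apply, Finsupp.smul_apply, Finsupp.smul_apply, ha2 j hj, hb2 j hj]
        simp
      · rw [tot_add_smul, ha3, hb3, mul_one, mul_one, hst]
      · rw [comb_add_smul, smul_sub, smul_sub]
        have h3 : (s : 𝕜) • x + (t : 𝕜) • x = x := by
          rw [← add_smul, ← RCLike.ofReal_add, hst, RCLike.ofReal_one, one_smul]
        rw [← sub_eq_zero]
        have h4 : (s : 𝕜) • comb 𝕜 y a - (s : 𝕜) • x + ((t : 𝕜) • comb 𝕜 y b - (t : 𝕜) • x) -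
            ((s : 𝕜) • comb 𝕜 y a + (t : 𝕜) • comb 𝕜 y b - x) =
            x - ((s : 𝕜) • x + (t : 𝕜) • x) := by abel
        rw [h4, h3, sub_self]) (by
      rintro _ ⟨a, ha1, ha2, ha3, rfl⟩
      exact hno a ha1 ha2 ha3)
    have h1 : ∀ m ≥ k, κ ≤ RCLike.re (f (y m) - f x) := by
      intro m hm
      have h2 := hf2 (comb 𝕜 y (Finsupp.single m 1) - x) ⟨_, fun j => ?_, fun j hj => ?_, ?_, rfl⟩
      · rwa [comb_single, RCLike.ofReal_one, one_smul, map_sub] at h2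
      · rw [Finsupp.single_apply]; split_ifs <;> norm_num
      · rw [Finsupp.single_apply, if_neg (by omega)]
      · rw [tot_single]; norm_num
    have h2 : Tendsto (fun n => RCLike.re (f (y n) - f x)) UU (𝓝 (RCLike.re (z f - f x))) :=
      (RCLike.continuous_re.tendsto _).comp ((hz f).sub_const (f x))
    have h3 : κ ≤ RCLike.re (z f - f x) := by
      refine ge_of_tendsto h2 ?_
      filter_upwards [UU_le (eventually_ge_atTop k)] with n hn
      exact h1 n hn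
    have h4 : ‖z f - f x‖ ≤ ‖z - NormedSpace.inclusionInDoubleDual 𝕜 X x‖ := by
      have h5 : z f - f x = (z - NormedSpace.inclusionInDoubleDual 𝕜 X x) f := rfl
      rw [h5]
      refine (ContinuousLinearMap.le_opNorm _ _).trans ?_
      nlinarith [norm_nonneg (z - NormedSpace.inclusionInDoubleDual 𝕜 X x)]
    have h5 := (RCLike.re_le_norm (z f - f x))
    linarith
  obtain ⟨a, ha1, _, ha3, ha4⟩ := key 0
  obtain ⟨b, hb1, hb2, hb3, hb4⟩ := key (a.support.sup id + 1)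
  have hab : ∀ j, a j = 0 ∨ b j = 0 := by
    intro j
    by_cases hj : j ∈ a.support
    · right
      refine hb2 j ?_
      have : j ≤ a.support.sup id := Finset.le_sup (f := id) hj
      omega
    · left
      exact Finsupp.notMem_support_iff.1 hj
  let σ : ℕ → ℝ := fun j => if a j = 0 then -1 else 1
  have hσ : ∀ j, |(a - b) j| = σ j * (a - b) j := by
    intro j
    rw [Finsupp.sub_apply]
    rcases hab j with h1 | h1
    · have h2 : σ j = -1 := if_pos h1
      rw [h2, h1, zero_sub, abs_neg, abs_of_nonneg (hb1 j)]; ring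
    · rw [h1, sub_zero, abs_of_nonneg (ha1 j)]
      by_cases h2 : a j = 0
      · rw [h2, mul_zero]
      · have h3 : σ j = 1 := if_neg h2
        rw [h3, one_mul]
  have h1 := h.finsupp (a := a - b) (by rw [tot_sub, ha3, hb3, sub_self]) hσ
  have e1 : tot σ a = 1 := by
    rw [← ha3]
    unfold tot Finsupp.sum
    refine Finset.sum_congr rfl fun j hj => ?_
    have h3 : σ j = 1 := if_neg (Finsupp.mem_support_iff.1 hj)
    change σ j * a j = 1 * a j
    rw [h3]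
  have e2 : tot σ b = -1 := by
    rw [← hb3]
    unfold tot Finsupp.sum
    rw [← Finset.sum_neg_distrib]
    refine Finset.sum_congr rfl fun j hj => ?_
    have h2 : a j = 0 := (hab j).resolve_right (Finsupp.mem_support_iff.1 hj)
    have h3 : σ j = -1 := if_pos h2
    change σ j * b j = -(1 * b j)
    rw [h3]; ring
  rw [tot_sub, e1, e2, comb_sub] at h1
  have h2 : ‖comb 𝕜 y a - comb 𝕜 y b‖ ≤ ‖comb 𝕜 y a - x‖ + ‖comb 𝕜 y b - x‖ := by
    have := norm_sub_le (comb 𝕜 y a - x) (comb 𝕜 y b - x)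
    rwa [sub_sub_sub_cancel_right] at this
  linarith

/-- The property of Banach spaces which is established for Lipschitz-free spaces. -/
def SDL (𝕜 X : Type*) [RCLike 𝕜] [NormedAddCommGroup X] [NormedSpace 𝕜 X] (c : ℝ) : Prop :=
  ∀ (x : ℕ → X) (R s : ℝ), (∀ n, ‖x n‖ ≤ R) → 0 < s → (∀ n m, n ≠ m → s ≤ ‖x n - x m‖) →
    ∃ ψ : ℕ → ℕ, StrictMono ψ ∧ DL 𝕜 (x ∘ ψ) (c * s)

/-- Quantitative Schur property, real form. -/
theorem schur_real {c : ℝ} (hc : 0 < c) (hc1 : c ≤ 1 / 2) (h : SDL 𝕜 X c) {x : ℕ → X} {R : ℝ}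
    (hR : ∀ n, ‖x n‖ ≤ R) {s : ℝ} (hs : 0 < s) (hca : ∀ N, ∃ k ≥ N, ∃ l ≥ N, s < ‖x k - x l‖) :
    ∃ f : StrongDual 𝕜 X, ‖f‖ ≤ 1 ∧
      ∀ n, ∃ k ≥ n, ∃ l ≥ n, 2 * c * (s / 5) ≤ ‖f (x k) - f (x l)‖ := by
  by_cases hsepd : ∀ F : Finset ℕ, ∃ n, (∀ m ∈ F, m < n) ∧ ∀ m ∈ F, s / 5 ≤ ‖x n - x m‖
  · obtain ⟨ν, hν, hP⟩ := exists_seq_of_finset (P := fun F n => ∀ m ∈ F, s / 5 ≤ ‖x n - x m‖) hsepd
    have hlt : ∀ i j, i < j → s / 5 ≤ ‖x (ν j) - x (ν i)‖ := fun i j hij =>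
      hP j (ν i) (Finset.mem_image_of_mem ν (Finset.mem_range.2 hij))
    obtain ⟨ψ, hψ, hD⟩ := h (x ∘ ν) R (s / 5) (fun n => hR _) (by positivity) (fun n m hnm => by
      rcases lt_or_gt_of_ne hnm with h1 | h1
      · have := hlt n m h1
        rwa [norm_sub_rev] at this
      · exact hlt m n h1)
    obtain ⟨f, hf1, hf2⟩ := exists_funct (x := x) (ψ := ν ∘ ψ) (by positivity) (hν.comp hψ) hD
    refine ⟨f, hf1, fun n => ?_⟩
    obtain ⟨k, hk, l, hl, h1⟩ := hf2 n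
    exact ⟨k, hk, l, hl, by linarith⟩
  · push Not at hsepd
    obtain ⟨F, hF⟩ := hsepd
    -- the pigeonhole principle
    have hpair : ∃ p ∈ F ×ˢ F, ∃ᶠ N in atTop, ∃ k ≥ N, ∃ l ≥ N, s < ‖x k - x l‖ ∧
        ‖x k - x p.1‖ < s / 5 ∧ ‖x l - x p.2‖ < s / 5 := by
      by_contra hno
      push Not at hno
      have h1 : ∀ᶠ N in atTop, ∀ p ∈ F ×ˢ F, ¬ ∃ k ≥ N, ∃ l ≥ N, s < ‖x k - x l‖ ∧
          ‖x k - x p.1‖ < s / 5 ∧ ‖x l - x p.2‖ < s / 5 := by
        rw [Filter.eventually_all_finset]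
        intro p hp
        have := hno p hp
        rw [Filter.eventually_congr (Eventually.of_forall fun N => ?_)]
        · exact this
        · push Not
          rfl
      obtain ⟨N, hN, hNF⟩ := (h1.and (eventually_ge_atTop (F.sup id + 1))).exists
      obtain ⟨k, hk, l, hl, hkl⟩ := hca N
      have hlarge : ∀ n ≥ N, ∃ m ∈ F, ‖x n - x m‖ < s / 5 := by
        intro n hn
        refine hF n fun m hm => ?_
        have : m ≤ F.sup id := Finset.le_sup (f := id) hm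
        omega
      obtain ⟨m, hm, hm2⟩ := hlarge k hk
      obtain ⟨m', hm', hm2'⟩ := hlarge l hl
      exact hN (m, m') (Finset.mem_product.2 ⟨hm, hm'⟩) ⟨k, hk, l, hl, hkl, hm2, hm2'⟩
    obtain ⟨⟨m, m'⟩, _, hfr⟩ := hpair
    obtain ⟨f, hf1, hf2⟩ := exists_dual_vector'' 𝕜 (x m - x m')
    have hfb : ∀ v : X, ‖f v‖ ≤ ‖v‖ := fun v => by
      refine (f.le_opNorm v).trans ?_
      nlinarith [norm_nonneg v]
    refine ⟨f, hf1, fun n => ?_⟩
    obtain ⟨N, hNn, k, hk, l, hl, h1, h2, h3⟩ := (Filter.frequently_atTop.1 hfr) n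
    refine ⟨k, le_trans hNn hk, l, le_trans hNn hl, ?_⟩
    simp only at h2 h3
    have h4 : ‖x k - x l‖ ≤ ‖x k - x m‖ + ‖x m - x m'‖ + ‖x l - x m'‖ := by
      have e : x k - x l = (x k - x m) + (x m - x m') - (x l - x m') := by abel
      rw [e]
      exact (norm_sub_le _ _).trans (add_le_add_left (norm_add_le _ _) _)
    have h5 : ‖f (x m - x m')‖ = ‖x m - x m'‖ := by
      rw [hf2, RCLike.norm_ofReal, abs_of_nonneg (norm_nonneg _)]
    have h6 : ‖f (x m - x m')‖ ≤ ‖f (x k - x m)‖ + ‖f (x k) - f (x l)‖ + ‖f (x l - x m')‖ := by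
      have e : f (x m - x m') = -f (x k - x m) + (f (x k) - f (x l)) + f (x l - x m') := by
        simp only [map_sub]; ring
      rw [e]
      refine (norm_add_le _ _).trans (add_le_add_left ((norm_add_le _ _).trans ?_) _)
      rw [norm_neg]
    have h7 := hfb (x k - x m)
    have h8 := hfb (x l - x m')
    nlinarith

end Pool.Agent.R271.QS
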