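import Mathlib
import Pool.Agent.R271.QSB

set_option autoImplicit false

/-!
The general case: separated sequences in Lipschitz-free spaces over uniformly separated metric
spaces.
-/

open Filter Topology

namespace Pool.Agent.R271.QS

variable {𝕜 M X : Type*} [RCLike 𝕜] [MetricSpace M] [NormedAddCommGroup X] [NormedSpace 𝕜 X]
variable {o : M} {δ : M → X}

theorem lemmaB [DecidableEq M] (h : LD 𝕜 o δ) {ε ρ : ℝ} (hε : 0 < ε)
    (hsep : ∀ x y : M, x ≠ y → ε ≤ dist x y) (hρ : 0 < ρ) {μ : ℕ → M → 𝕜} {S : ℕ → Finset M}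
    (hS : ∀ n y, y ∉ S n → μ n y = 0) (hμo : ∀ n, μ n o = 0)
    (hμρ : ∀ n y, ρ < dist y o → μ n y = 0) {x : ℕ → X}
    (hx : ∀ n, x n = ∑ y ∈ S n, μ n y • δ y) {R : ℝ} (hR : ∀ n, ‖x n‖ ≤ R) {s : ℝ} (hs : 0 < s)
    (hs' : ∀ n m, n ≠ m → s ≤ ‖x n - x m‖) :
    ∃ ψ : ℕ → ℕ, StrictMono ψ ∧ DL 𝕜 (x ∘ ψ) (s / 18) := by
  set η : ℝ := s / (18 * (1 + 25 * ρ)) with hηd
  have hη : 0 < η := by positivity
  have hη2 : η * (1 + 25 * ρ) = s / 18 := by
    rw [hηd]; field_simp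
  have hη3 : 0 < s / 2 - η := by nlinarith
  have hTV : ∀ n, ∑ y ∈ S n, ‖μ n y‖ ≤ 2 / ε * R := by
    intro n
    refine (h.tv hε hsep (S n) (μ n) (hμo n)).trans ?_
    rw [← hx]
    exact mul_le_mul_of_nonneg_left (hR n) (by positivity)
  have hTV' : ∀ n (E : Finset M), ∑ y ∈ E, ‖μ n y‖ ≤ 2 / ε * R := by
    intro n E
    refine le_trans (Finset.sum_le_sum_of_subset_of_nonneg (Finset.subset_union_left (s₂ := S n))
      fun _ _ _ => norm_nonneg _) ?_
    rw [← Finset.sum_subset (Finset.subset_union_right (s₁ := E) (s₂ := S n))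
      (fun y _ hy => by rw [hS n y hy, norm_zero])]
    exact hTV n
  have hlim : ∀ y, ∃ l : 𝕜, Tendsto (fun n => μ n y) UU (𝓝 l) := by
    intro y
    obtain ⟨l, _, hl⟩ := exists_lim (fun n => μ n y) 0 (2 / ε * R) (Eventually.of_forall fun n => by
      rw [dist_zero_right]
      have := hTV' n {y}
      rwa [Finset.sum_singleton] at this)
    exact ⟨l, hl⟩
  choose c hc using hlim
  have hcs : ∀ E : Finset M, ∑ y ∈ E, ‖c y‖ ≤ 2 / ε * R := by
    intro E
    have h1 : Tendsto (fun n => ∑ y ∈ E, ‖μ n y‖) UU (𝓝 (∑ y ∈ E, ‖c y‖)) :=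
      tendsto_finsetSum E fun y _ => (hc y).norm
    exact le_of_tendsto' h1 fun n => hTV' n E
  have hcρ : ∀ y, ρ < dist y o → c y = 0 := by
    intro y hy
    refine tendsto_nhds_unique (hc y) ?_
    have : (fun n => μ n y) = fun _ => 0 := funext fun n => hμρ n y hy
    rw [this]
    exact tendsto_const_nhds
  have hsm : Summable (fun y => ‖c y‖) := summable_of_sum_le (fun _ => norm_nonneg _) hcs
  obtain ⟨E00, hE00⟩ := (summable_iff_vanishing_norm.1 hsm) η hη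
  let E : Finset ℕ → Finset M := fun F => insert o E00 ∪ F.biUnion S
  have hEm : ∀ F F' : Finset ℕ, F ⊆ F' → E F ⊆ E F' := fun F F' hFF =>
    Finset.union_subset_union_right (Finset.biUnion_subset_biUnion_of_subset_left S hFF)
  obtain ⟨ν, hν, hP⟩ := exists_seq_of_finset (P := fun F n =>
      ∑ y ∈ E F, ‖μ n y - c y‖ ≤ η ∧ ∃ φ : StrongDual 𝕜 X, ‖φ‖ ≤ 1 ∧
        (∀ y ∈ E F, φ (δ y) = 0) ∧ s / 2 - η ≤ RCLike.re (φ (x n))) (by
    intro F
    have h1 : Tendsto (fun n => ∑ y ∈ E F, ‖μ n y - c y‖) UU (𝓝 (∑ y ∈ E F, ‖c y - c y‖)) :=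
      tendsto_finsetSum _ fun y _ => ((hc y).sub_const (c y)).norm
    have h2 : ∑ y ∈ E F, ‖c y - c y‖ = 0 := Finset.sum_eq_zero fun y _ => by
      rw [sub_self, norm_zero]
    rw [h2] at h1
    have h3 := h1.eventually_lt_const hη
    have hfd : FiniteDimensional 𝕜 (Submodule.span 𝕜 (δ '' (E F : Set M))) :=
      FiniteDimensional.span_of_finite 𝕜 ((E F).finite_toSet.image δ)
    have h4 := far (Submodule.span 𝕜 (δ '' (E F : Set M))) hR hs' hη
    obtain ⟨n, hn, hn1, hn2⟩ := exists_large (h3.and h4) F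
    refine ⟨n, hn, hn1.le, ?_⟩
    obtain ⟨φ, p1, p2, p3⟩ := annih (Submodule.span 𝕜 (δ '' (E F : Set M))) hη3 hn2
    exact ⟨φ, p1, fun y hy => p2 _ (Submodule.subset_span ⟨y, hy, rfl⟩), p3⟩)
  choose hP1 φ hP2 hP3 hP4 using hP
  have hE0 : E ((Finset.range 0).image ν) = insert o E00 := by
    simp [E]
  obtain ⟨ψ, hψ, hD⟩ := core h hε hsep hρ (E := fun j => E ((Finset.range j).image ν))
    (S := fun j => S (ν j)) (μ := fun j => μ (ν j)) (φ := φ) (c := c) (x := fun j => x (ν j))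
    (C1 := 2 / ε * R) (η := η) (t := s / 2 - η)
    (by rw [hE0]; exact Finset.mem_insert_self _ _)
    (fun j => hEm _ _ (Finset.image_subset_image (Finset.range_mono (Nat.le_succ j))))
    (fun j => by
      refine subset_trans ?_ Finset.subset_union_right
      exact Finset.subset_biUnion_of_mem S
        (Finset.mem_image_of_mem ν (Finset.mem_range.2 (Nat.lt_succ_self j))))
    (fun j y hy => hS _ y hy) (fun j y hy => hμρ _ y hy) hcρ (fun j => hTV _) hη
    (fun j => by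
      rw [hE0]
      have := hE00 (E ((Finset.range j).image ν) \ insert o E00) (by
        refine Finset.disjoint_of_subset_right (Finset.subset_insert o E00) ?_
        exact Finset.sdiff_disjoint)
      rw [Real.norm_eq_abs] at this
      exact (le_abs_self _).trans this.le)
    hP1 (fun j => hx _) hP2 hP3 hP4
  refine ⟨ν ∘ ψ, hν.comp hψ, ?_⟩
  have e : (s / 2 - η - 25 * ρ * η) / 8 = s / 18 := by
    have : η + 25 * ρ * η = s / 18 := by rw [← hη2]; ring
    linarith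
  rw [e] at hD
  exact hD

/-- Cutoff function. -/
noncomputable def cut (ρ t : ℝ) : ℝ := min 1 (max 0 ((2 * ρ - t) / ρ))

theorem cut_nonneg (ρ t : ℝ) : 0 ≤ cut ρ t := le_min zero_le_one (le_max_left _ _)

theorem cut_le_one (ρ t : ℝ) : cut ρ t ≤ 1 := min_le_left _ _

theorem cut_eq_one {ρ t : ℝ} (hρ : 0 < ρ) (ht : t ≤ ρ) : cut ρ t = 1 := by
  unfold cut
  have : 1 ≤ (2 * ρ - t) / ρ := by
    rw [le_div_iff₀ hρ]; linarith
  exact min_eq_left (this.trans (le_max_right _ _))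

theorem cut_eq_zero {ρ t : ℝ} (hρ : 0 < ρ) (ht : 2 * ρ ≤ t) : cut ρ t = 0 := by
  unfold cut
  have : (2 * ρ - t) / ρ ≤ 0 := div_nonpos_of_nonpos_of_nonneg (by linarith) hρ.le
  rw [max_eq_left this]
  simp

theorem abs_cut_sub_le {ρ : ℝ} (hρ : 0 < ρ) (t t' : ℝ) :
    |cut ρ t - cut ρ t'| ≤ |t - t'| / ρ := by
  unfold cut
  have h1 := abs_min_sub_min_le_max (1 : ℝ) (max 0 ((2 * ρ - t) / ρ)) 1 (max 0 ((2 * ρ - t') / ρ))
  have h2 := abs_max_sub_max_le_max (0 : ℝ) ((2 * ρ - t) / ρ) 0 ((2 * ρ - t') / ρ)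
  rw [sub_self, abs_zero] at h1 h2
  rw [max_eq_right (abs_nonneg (max 0 ((2 * ρ - t) / ρ) - max 0 ((2 * ρ - t') / ρ)))] at h1
  rw [max_eq_right (abs_nonneg ((2 * ρ - t) / ρ - (2 * ρ - t') / ρ))] at h2
  refine (h1.trans h2).trans (le_of_eq ?_)
  rw [← sub_div, abs_div, abs_of_pos hρ, sub_sub_sub_cancel_left, abs_sub_comm]

theorem mul_cut_sub_le {ρ : ℝ} (hρ : 0 < ρ) {t t' : ℝ} (ht : 0 ≤ t) (htt : t ≤ t') :
    |cut ρ t - cut ρ t'| * t ≤ 2 * (t' - t) := by
  rcases le_or_gt (2 * ρ) t with h | h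
  · rw [cut_eq_zero hρ h, cut_eq_zero hρ (h.trans htt), sub_self, abs_zero, zero_mul]
    linarith
  · have h1 := abs_cut_sub_le hρ t t'
    rw [abs_sub_comm t t', abs_of_nonneg (sub_nonneg.2 htt)] at h1
    calc |cut ρ t - cut ρ t'| * t ≤ (t' - t) / ρ * (2 * ρ) :=
          mul_le_mul h1 h.le ht (div_nonneg (sub_nonneg.2 htt) hρ.le)
      _ = 2 * (t' - t) := by field_simp

/-- Multiplication of a Lipschitz function by a cutoff function. -/
theorem cut_lip {ρ r : ℝ} (hρ : 0 < ρ) (hr : 0 < r) {f : M → 𝕜} (h0 : f o = 0)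
    (hf : ∀ x y, ‖f x - f y‖ ≤ dist x y) (x y : M) :
    ‖(((1 - cut ρ (dist x o)) * cut r (dist x o) : ℝ) : 𝕜) * f x -
      (((1 - cut ρ (dist y o)) * cut r (dist y o) : ℝ) : 𝕜) * f y‖ ≤ 5 * dist x y := by
  have key : ∀ x y : M, dist x o ≤ dist y o →
      ‖(((1 - cut ρ (dist x o)) * cut r (dist x o) : ℝ) : 𝕜) * f x -
      (((1 - cut ρ (dist y o)) * cut r (dist y o) : ℝ) : 𝕜) * f y‖ ≤ 5 * dist x y := by
    intro x y hxy
    set t := dist x o with ht
    set t' := dist y o with ht'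
    set u := (1 - cut ρ t) * cut r t with hu
    set u' := (1 - cut ρ t') * cut r t' with hu'
    have e : ((u : ℝ) : 𝕜) * f x - ((u' : ℝ) : 𝕜) * f y =
        ((u' : ℝ) : 𝕜) * (f x - f y) + ((u - u' : ℝ) : 𝕜) * f x := by
      rw [RCLike.ofReal_sub]; ring
    rw [e]
    have ht0 : 0 ≤ t := dist_nonneg
    have h1 : |u'| ≤ 1 := by
      rw [hu', abs_le]
      have a1 := cut_nonneg ρ t'
      have a2 := cut_le_one ρ t'
      have a3 := cut_nonneg r t'
      have a4 := cut_le_one r t'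
      constructor <;> nlinarith
    have h2 : |u - u'| ≤ |cut ρ t - cut ρ t'| + |cut r t - cut r t'| := by
      have e2 : u - u' = (1 - cut ρ t) * (cut r t - cut r t') -
          (cut ρ t - cut ρ t') * cut r t' := by
        rw [hu, hu']; ring
      rw [e2]
      refine (abs_sub _ _).trans ?_
      rw [abs_mul, abs_mul]
      have a1 : |1 - cut ρ t| ≤ 1 := by
        rw [abs_le]
        constructor <;> linarith [cut_nonneg ρ t, cut_le_one ρ t]
      have a2 : |cut r t'| ≤ 1 := by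
        rw [abs_le]
        constructor <;> linarith [cut_nonneg r t', cut_le_one r t']
      nlinarith [abs_nonneg (cut r t - cut r t'), abs_nonneg (cut ρ t - cut ρ t')]
    have h3 : ‖f x‖ ≤ t := by
      have := hf x o
      rwa [h0, sub_zero] at this
    have h4 : t' - t ≤ dist x y := by
      have := dist_triangle y x o
      rw [dist_comm y x] at this
      linarith
    have h5 := mul_cut_sub_le hρ ht0 hxy
    have h6 := mul_cut_sub_le hr ht0 hxy
    refine (norm_add_le _ _).trans ?_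
    rw [norm_mul, norm_mul, RCLike.norm_ofReal, RCLike.norm_ofReal]
    have h7 : |u'| * ‖f x - f y‖ ≤ dist x y := by
      nlinarith [hf x y, norm_nonneg (f x - f y)]
    have h8 : |u - u'| * ‖f x‖ ≤ (|cut ρ t - cut ρ t'| + |cut r t - cut r t'|) * t :=
      mul_le_mul h2 h3 (norm_nonneg _) (add_nonneg (abs_nonneg _) (abs_nonneg _))
    rw [add_mul] at h8
    linarith
  rcases le_total (dist x o) (dist y o) with h | h
  · exact key x y h
  · have h1 := key y x h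
    rw [norm_sub_rev, dist_comm y x] at h1
    exact h1

/-- Sums of disjointly supported Lipschitz functions. -/
theorem disj_sum {p : ℕ → M → 𝕜} (hp : ∀ l y z, ‖p l y - p l z‖ ≤ 5 * dist y z)
    (hd : ∀ i j y, i < j → p i y = 0 ∨ p j y = 0) (L : Finset ℕ) (θ : ℕ → 𝕜)
    (hθ : ∀ l, ‖θ l‖ ≤ 1) (y z : M) :
    ‖∑ l ∈ L, θ l * p l y - ∑ l ∈ L, θ l * p l z‖ ≤ 10 * dist y z := by
  classical
  have hcard : ∀ y : M, ((L.filter (fun l => p l y ≠ 0)).card : ℝ) ≤ 1 := by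
    intro y
    have : (L.filter (fun l => p l y ≠ 0)).card ≤ 1 := by
      rw [Finset.card_le_one]
      intro a ha b hb
      rw [Finset.mem_filter] at ha hb
      by_contra hne
      rcases lt_or_gt_of_ne hne with hlt | hlt
      · rcases hd a b y hlt with h | h
        · exact ha.2 h
        · exact hb.2 h
      · rcases hd b a y hlt with h | h
        · exact hb.2 h
        · exact ha.2 h
    exact_mod_cast this
  rw [← Finset.sum_sub_distrib]
  have h1 : ∀ l ∈ L, ‖θ l * p l y - θ l * p l z‖ ≤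
      (if p l y ≠ 0 then 5 * dist y z else 0) + (if p l z ≠ 0 then 5 * dist y z else 0) := by
    intro l _
    rw [← mul_sub, norm_mul]
    have hdn : 0 ≤ dist y z := dist_nonneg
    have h2 : ‖θ l‖ * ‖p l y - p l z‖ ≤ 5 * dist y z := by
      nlinarith [hp l y z, hθ l, norm_nonneg (θ l), norm_nonneg (p l y - p l z)]
    by_cases h3 : p l y = 0
    · by_cases h4 : p l z = 0
      · rw [h3, h4]; simp
      · rw [if_pos h4]
        split_ifs <;> linarith
    · rw [if_pos h3]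
      split_ifs <;> linarith
  refine (norm_sum_le _ _).trans ((Finset.sum_le_sum h1).trans ?_)
  rw [Finset.sum_add_distrib, ← Finset.sum_filter, ← Finset.sum_filter, Finset.sum_const,
    Finset.sum_const, nsmul_eq_mul, nsmul_eq_mul]
  have hdn : 0 ≤ dist y z := dist_nonneg
  nlinarith [hcard y, hcard z]

theorem caseA (h : LD 𝕜 o δ) {μ : ℕ → M → 𝕜} {S : ℕ → Finset M} {x : ℕ → X}
    (hx : ∀ n, x n = ∑ y ∈ S n, μ n y • δ y) {R : ℝ} (hR : ∀ n, ‖x n‖ ≤ R) {τ : ℝ} (hτ : 0 < τ)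
    (hA : ∀ ρ : ℝ, 0 < ρ → ∀ᶠ n in (UU : Filter ℕ),
      τ ≤ ‖∑ y ∈ S n, (((1 - cut ρ (dist y o) : ℝ) : 𝕜) * μ n y) • δ y‖) :
    ∃ ψ : ℕ → ℕ, StrictMono ψ ∧ DL 𝕜 (x ∘ ψ) (τ / 20) := by
  set r : ℕ → ℝ := fun n => 1 + ∑ y ∈ S n, dist y o with hr
  have hr1 : ∀ n, 1 ≤ r n := by
    intro n
    have : 0 ≤ ∑ y ∈ S n, dist y o := Finset.sum_nonneg fun _ _ => dist_nonneg
    rw [hr]
    dsimp only
    linarith
  have hr2 : ∀ n, ∀ y ∈ S n, dist y o ≤ r n := by
    intro n y hy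
    have := Finset.single_le_sum (f := fun y => dist y o) (fun _ _ => dist_nonneg) hy
    rw [hr]
    dsimp only at this ⊢
    linarith
  let ρ : Finset ℕ → ℝ := fun F => 2 * (1 + ∑ m ∈ F, r m)
  have hρ1 : ∀ F, 0 < ρ F := by
    intro F
    have : 0 ≤ ∑ m ∈ F, r m := Finset.sum_nonneg fun m _ => zero_le_one.trans (hr1 m)
    change 0 < 2 * (1 + ∑ m ∈ F, r m)
    linarith
  have hρ2 : ∀ F, ∀ m ∈ F, 2 * r m ≤ ρ F := by
    intro F m hm
    have := Finset.single_le_sum (f := r) (fun m _ => zero_le_one.trans (hr1 m)) hm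
    change 2 * r m ≤ 2 * (1 + ∑ m ∈ F, r m)
    linarith
  obtain ⟨ν, hν, hP⟩ := exists_seq_of_finset (P := fun F n =>
      ∃ p : M → 𝕜, p o = 0 ∧ (∀ y z, ‖p y - p z‖ ≤ 5 * dist y z) ∧
        (∀ y, dist y o ≤ ρ F → p y = 0) ∧ (∀ y, 2 * r n ≤ dist y o → p y = 0) ∧
        τ ≤ RCLike.re (∑ y ∈ S n, μ n y * p y)) (by
    intro F
    obtain ⟨n, hn, hn1⟩ := exists_large (hA (ρ F) (hρ1 F)) F
    refine ⟨n, hn, ?_⟩
    obtain ⟨φ, hφ1, hφ2⟩ := exists_dual_vector'' 𝕜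
      (∑ y ∈ S n, (((1 - cut (ρ F) (dist y o) : ℝ) : 𝕜) * μ n y) • δ y)
    have hrn : 0 < r n := zero_lt_one.trans_le (hr1 n)
    have hfo : φ (δ o) = 0 := by rw [h.base, map_zero]
    refine ⟨fun y => (((1 - cut (ρ F) (dist y o)) * cut (r n) (dist y o) : ℝ) : 𝕜) * φ (δ y),
      by simp only [hfo, mul_zero], ?_, ?_, ?_, ?_⟩
    · refine cut_lip (f := fun y => φ (δ y)) (hρ1 F) hrn hfo (fun y z => ?_)
      rw [← map_sub]
      refine (φ.le_opNorm _).trans ?_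
      nlinarith [h.lip y z, norm_nonneg (δ y - δ z), norm_nonneg φ]
    · intro y hy
      dsimp only
      rw [cut_eq_one (hρ1 F) hy]
      simp
    · intro y hy
      dsimp only
      rw [cut_eq_zero hrn hy]
      simp
    · have e : ∑ y ∈ S n, μ n y *
          ((((1 - cut (ρ F) (dist y o)) * cut (r n) (dist y o) : ℝ) : 𝕜) * φ (δ y)) =
          φ (∑ y ∈ S n, (((1 - cut (ρ F) (dist y o) : ℝ) : 𝕜) * μ n y) • δ y) := by
        rw [map_sum]
        refine Finset.sum_congr rfl fun y hy => ?_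
        rw [cut_eq_one hrn (hr2 n y hy), map_smul, smul_eq_mul, mul_one]
        ring
      rw [e, hφ2, RCLike.ofReal_re]
      exact hn1)
  choose p hp0 hp1 hp2 hp3 hp4 using hP
  have hρν : ∀ i j, i < j → 2 * r (ν i) ≤ ρ ((Finset.range j).image ν) := fun i j hij =>
    hρ2 _ _ (Finset.mem_image_of_mem ν (Finset.mem_range.2 hij))
  have hdis : ∀ i j y, i < j → p i y = 0 ∨ p j y = 0 := by
    intro i j y hij
    rcases le_total (2 * r (ν i)) (dist y o) with h1 | h1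
    · exact Or.inl (hp3 i y h1)
    · exact Or.inr (hp2 j y (h1.trans (hρν i j hij)))
  have hlift : ∀ j, ∃ φ : StrongDual 𝕜 X, ‖φ‖ ≤ 5 ∧ ∀ y, φ (δ y) = p j y := fun j =>
    h.liftK (by norm_num) (p j) (hp0 j) (hp1 j)
  choose Φ _ hΦ using hlift
  have hΦx : ∀ (Ψ : StrongDual 𝕜 X) (n : ℕ), Ψ (x n) = ∑ y ∈ S n, μ n y * Ψ (δ y) := by
    intro Ψ n
    rw [hx n, map_sum]
    refine Finset.sum_congr rfl fun y _ => ?_
    rw [map_smul, smul_eq_mul]
  have hbC : ∀ j, ∑ i ∈ Finset.range j, ‖Φ i (x (ν j))‖ ≤ 10 * R := by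
    intro j
    obtain ⟨Ψ, hΨ1, hΨ2⟩ := h.liftK (K := 10) (by norm_num)
      (fun y => ∑ i ∈ Finset.range j, sg (Φ i (x (ν j))) * p i y)
      (by
        refine Finset.sum_eq_zero fun i _ => ?_
        rw [hp0, mul_zero])
      (disj_sum hp1 hdis _ _ fun i => norm_sg _)
    have e1 : Ψ (x (ν j)) = ((∑ i ∈ Finset.range j, ‖Φ i (x (ν j))‖ : ℝ) : 𝕜) := by
      rw [hΦx, RCLike.ofReal_sum]
      have e2 : ∀ y ∈ S (ν j), μ (ν j) y * Ψ (δ y) =
          ∑ i ∈ Finset.range j, sg (Φ i (x (ν j))) * (μ (ν j) y * Φ i (δ y)) := by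
        intro y _
        rw [hΨ2, Finset.mul_sum]
        refine Finset.sum_congr rfl fun i _ => ?_
        rw [hΦ]
        ring
      rw [Finset.sum_congr rfl e2, Finset.sum_comm]
      refine Finset.sum_congr rfl fun i _ => ?_
      rw [← Finset.mul_sum, ← hΦx, mul_comm, mul_sg]
    have e3 : ‖Ψ (x (ν j))‖ ≤ 10 * R := by
      refine (Ψ.le_opNorm _).trans ?_
      exact mul_le_mul hΨ1 (hR _) (norm_nonneg _) (by norm_num)
    rw [e1, RCLike.norm_ofReal] at e3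
    exact (le_abs_self _).trans e3
  obtain ⟨ψ, hψ, hb⟩ := rosenthal (b := fun i j => ‖Φ i (x (ν j))‖)
    (fun _ _ => norm_nonneg _) hbC (half_pos hτ)
  refine ⟨ν ∘ ψ, hν.comp hψ, ?_⟩
  have hw : ∀ l, τ ≤ RCLike.re (Φ (ψ l) (x (ν (ψ l)))) := by
    intro l
    rw [hΦx]
    have := hp4 (ψ l)
    have e : ∑ y ∈ S (ν (ψ l)), μ (ν (ψ l)) y * Φ (ψ l) (δ y) =
        ∑ y ∈ S (ν (ψ l)), μ (ν (ψ l)) y * p (ψ l) y :=
      Finset.sum_congr rfl fun y _ => by rw [hΦ]
    rwa [e]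
  have hres : DL 𝕜 (x ∘ (ν ∘ ψ)) ((τ - τ / 2) / 10) := by
    refine DL_of_signs (w := fun l => Φ (ψ l) (x (ν (ψ l)))) (by norm_num) hw ?_
    intro θ hθ L
    have hθ' : ∀ l, ‖((θ l : ℝ) : 𝕜)‖ ≤ 1 := fun l => by rw [RCLike.norm_ofReal]; exact hθ l
    obtain ⟨Ψ, hΨ1, hΨ2⟩ := h.liftK (K := 10) (by norm_num)
      (fun y => ∑ i ∈ L, ((θ i : ℝ) : 𝕜) * p (ψ i) y)
      (by
        refine Finset.sum_eq_zero fun i _ => ?_
        rw [hp0, mul_zero])
      (disj_sum (p := fun i => p (ψ i)) (fun l => hp1 (ψ l))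
        (fun i j y hij => hdis _ _ y (hψ hij)) _ _ hθ')
    refine ⟨Ψ, hΨ1, 0, fun l hl => ?_⟩
    have e1 : Ψ (x (ν (ψ l))) = ∑ i ∈ L, ((θ i : ℝ) : 𝕜) * Φ (ψ i) (x (ν (ψ l))) := by
      rw [hΦx]
      have e2 : ∀ y ∈ S (ν (ψ l)), μ (ν (ψ l)) y * Ψ (δ y) =
          ∑ i ∈ L, ((θ i : ℝ) : 𝕜) * (μ (ν (ψ l)) y * Φ (ψ i) (δ y)) := by
        intro y _
        rw [hΨ2, Finset.mul_sum]
        refine Finset.sum_congr rfl fun i _ => ?_
        rw [hΦ]
        ring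
      rw [Finset.sum_congr rfl e2, Finset.sum_comm]
      refine Finset.sum_congr rfl fun i _ => ?_
      rw [← Finset.mul_sum, ← hΦx]
    have hzero : ∀ i, l < i → Φ (ψ i) (x (ν (ψ l))) = 0 := by
      intro i hi
      rw [hΦx]
      refine Finset.sum_eq_zero fun y hy => ?_
      rw [hΦ, hp2 (ψ i) y, mul_zero]
      have h1 := hr2 _ y hy
      have h2 := hρν (ψ l) (ψ i) (hψ hi)
      have h3 := hr1 (ν (ψ l))
      linarith
    have e3 : Ψ ((x ∘ (ν ∘ ψ)) l) - 0 - ((θ l : ℝ) : 𝕜) * Φ (ψ l) (x (ν (ψ l))) =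
        ∑ i ∈ L.erase l, ((θ i : ℝ) : 𝕜) * Φ (ψ i) (x (ν (ψ l))) := by
      rw [Function.comp_apply, Function.comp_apply, e1, ← Finset.add_sum_erase L _ hl]
      ring
    change ‖Ψ ((x ∘ (ν ∘ ψ)) l) - 0 - ((θ l : ℝ) : 𝕜) * Φ (ψ l) (x (ν (ψ l)))‖ ≤ _
    rw [e3]
    refine (norm_sum_le _ _).trans ?_
    have e4 : ∀ i ∈ L.erase l, ‖((θ i : ℝ) : 𝕜) * Φ (ψ i) (x (ν (ψ l)))‖ ≤
        if i < l then ‖Φ (ψ i) (x (ν (ψ l)))‖ else 0 := by
      intro i hi
      have hne : i ≠ l := Finset.ne_of_mem_erase hi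
      rcases lt_or_gt_of_ne hne with hlt | hlt
      · rw [if_pos hlt, norm_mul]
        nlinarith [hθ' i, norm_nonneg (Φ (ψ i) (x (ν (ψ l)))), norm_nonneg ((θ i : ℝ) : 𝕜)]
      · rw [if_neg (not_lt.2 hlt.le), hzero i hlt, mul_zero, norm_zero]
    refine (Finset.sum_le_sum e4).trans ?_
    rw [← Finset.sum_filter]
    refine le_trans (Finset.sum_le_sum_of_subset_of_nonneg ?_ fun _ _ _ => norm_nonneg _) (hb l)
    intro i hi
    exact Finset.mem_range.2 (Finset.mem_filter.1 hi).2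
  exact hres.mono (by linarith)

/-- The general case, for sequences of finitely supported elements. -/
theorem gen_fin [DecidableEq M] (h : LD 𝕜 o δ) {ε : ℝ} (hε : 0 < ε)
    (hsep : ∀ x y : M, x ≠ y → ε ≤ dist x y) {μ : ℕ → M → 𝕜} {S : ℕ → Finset M}
    (hS : ∀ n y, y ∉ S n → μ n y = 0) (hμo : ∀ n, μ n o = 0) {x : ℕ → X}
    (hx : ∀ n, x n = ∑ y ∈ S n, μ n y • δ y) {R : ℝ} (hR : ∀ n, ‖x n‖ ≤ R) {s : ℝ} (hs : 0 < s)
    (hs' : ∀ n m, n ≠ m → s ≤ ‖x n - x m‖) :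
    ∃ ψ : ℕ → ℕ, StrictMono ψ ∧ DL 𝕜 (x ∘ ψ) (s / 800) := by
  by_cases hA : ∀ ρ : ℝ, 0 < ρ → ∀ᶠ n in (UU : Filter ℕ),
      s / 40 ≤ ‖∑ y ∈ S n, (((1 - cut ρ (dist y o) : ℝ) : 𝕜) * μ n y) • δ y‖
  · obtain ⟨ψ, h1, h2⟩ := caseA h hx hR (τ := s / 40) (by positivity) hA
    exact ⟨ψ, h1, h2.mono (by linarith)⟩
  · push Not at hA
    obtain ⟨ρ, hρ, hB⟩ := hA
    obtain ⟨ν, hν, hP⟩ := exists_seq_of_finset (P := fun _ n =>
      ‖∑ y ∈ S n, (((1 - cut ρ (dist y o) : ℝ) : 𝕜) * μ n y) • δ y‖ < s / 40) (fun F => by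
        obtain ⟨n, hn, hn1⟩ := exists_large hB F
        exact ⟨n, hn, hn1⟩)
    set x' : ℕ → X := fun j => ∑ y ∈ S (ν j), (((cut ρ (dist y o) : ℝ) : 𝕜) * μ (ν j) y) • δ y
      with hx'
    have hdiff : ∀ j, ‖x (ν j) - x' j‖ ≤ s / 40 := by
      intro j
      have e : x (ν j) - x' j =
          ∑ y ∈ S (ν j), (((1 - cut ρ (dist y o) : ℝ) : 𝕜) * μ (ν j) y) • δ y := by
        rw [hx', hx, ← Finset.sum_sub_distrib]
        refine Finset.sum_congr rfl fun y _ => ?_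
        rw [← sub_smul, RCLike.ofReal_sub, RCLike.ofReal_one, sub_mul, one_mul]
      rw [e]
      exact (hP j).le
    obtain ⟨ψ, hψ, hD⟩ := lemmaB h hε hsep (ρ := 2 * ρ) (by positivity)
      (μ := fun j y => ((cut ρ (dist y o) : ℝ) : 𝕜) * μ (ν j) y) (S := fun j => S (ν j))
      (fun j y hy => by rw [hS _ y hy, mul_zero]) (fun j => by rw [hμo, mul_zero])
      (fun j y hy => by rw [cut_eq_zero hρ hy.le]; simp) (x := x') (fun j => rfl)
      (R := R + s / 40) (fun j => by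
        have h1 := hdiff j
        have h2 : ‖x' j‖ ≤ ‖x (ν j)‖ + ‖x (ν j) - x' j‖ := by
          have := norm_sub_le (x (ν j)) (x (ν j) - x' j)
          rwa [sub_sub_cancel] at this
        linarith [hR (ν j)]) (s := 19 / 20 * s) (by positivity) (fun n m hnm => by
        have h1 := hdiff n
        have h2 := hdiff m
        have h3 := hs' (ν n) (ν m) (fun h' => hnm (hν.injective h'))
        have h4 : x (ν n) - x (ν m) = (x' n - x' m) + ((x (ν n) - x' n) - (x (ν m) - x' m)) := by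
          abel
        have h5 : ‖x (ν n) - x (ν m)‖ ≤ ‖x' n - x' m‖ + (‖x (ν n) - x' n‖ + ‖x (ν m) - x' m‖) := by
          rw [h4]
          exact (norm_add_le _ _).trans (add_le_add_right (norm_sub_le _ _) _)
        linarith)
    refine ⟨ν ∘ ψ, hν.comp hψ, ?_⟩
    have hD2 := hD.perturb (w := x ∘ (ν ∘ ψ)) (τ := s / 40) (fun n => hdiff (ψ n))
    exact hD2.mono (by linarith)

/-- **Main theorem.** Every bounded `s`-separated sequence in the Lipschitz-free space over a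
uniformly separated metric space has a subsequence which satisfies the lower `ℓ_1`-estimate with
constant `s / 1600` for combinations with vanishing sum of coefficients. -/
theorem gen (h : LD 𝕜 o δ) (hd : Dense (Submodule.span 𝕜 (Set.range δ) : Set X)) {ε : ℝ}
    (hε : 0 < ε) (hsep : ∀ x y : M, x ≠ y → ε ≤ dist x y) {x : ℕ → X} {R : ℝ}
    (hR : ∀ n, ‖x n‖ ≤ R) {s : ℝ} (hs : 0 < s) (hs' : ∀ n m, n ≠ m → s ≤ ‖x n - x m‖) :
    ∃ ψ : ℕ → ℕ, StrictMono ψ ∧ DL 𝕜 (x ∘ ψ) (s / 1600) := by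
  classical
  have happ : ∀ n, ∃ c : M →₀ 𝕜, ‖x n - c.sum (fun i a => a • δ i)‖ ≤ s / 2000 := by
    intro n
    obtain ⟨z, hz, hzn⟩ := Metric.mem_closure_iff.1 (hd (x n)) (s / 2000) (by positivity)
    obtain ⟨c, hc⟩ := Finsupp.mem_span_range_iff_exists_finsupp.1 hz
    refine ⟨c, ?_⟩
    rw [hc, ← dist_eq_norm]
    exact hzn.le
  choose c hc using happ
  set μ : ℕ → M → 𝕜 := fun n y => if y = o then 0 else c n y with hμ
  set z : ℕ → X := fun n => ∑ y ∈ (c n).support, μ n y • δ y with hz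
  have hze : ∀ n, z n = (c n).sum (fun i a => a • δ i) := by
    intro n
    rw [hz, Finsupp.sum]
    refine Finset.sum_congr rfl fun y _ => ?_
    rw [hμ]
    dsimp only
    split_ifs with hy
    · rw [hy, h.base, smul_zero, smul_zero]
    · rfl
  have hdiff : ∀ n, ‖x n - z n‖ ≤ s / 2000 := fun n => by rw [hze]; exact hc n
  obtain ⟨ψ, hψ, hD⟩ := gen_fin h hε hsep (μ := μ) (S := fun n => (c n).support)
    (fun n y hy => by
      rw [hμ]
      dsimp only
      split_ifs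
      · rfl
      · exact Finsupp.notMem_support_iff.1 hy)
    (fun n => by rw [hμ]; simp) (x := z) (fun n => rfl) (R := R + s / 2000) (fun n => by
      have h1 := hdiff n
      have h2 : ‖z n‖ ≤ ‖x n‖ + ‖x n - z n‖ := by
        have := norm_sub_le (x n) (x n - z n)
        rwa [sub_sub_cancel] at this
      linarith [hR n]) (s := 999 / 1000 * s) (by positivity) (fun n m hnm => by
      have h1 := hdiff n
      have h2 := hdiff m
      have h3 := hs' n m hnm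
      have h4 : x n - x m = (z n - z m) + ((x n - z n) - (x m - z m)) := by abel
      have h5 : ‖x n - x m‖ ≤ ‖z n - z m‖ + (‖x n - z n‖ + ‖x m - z m‖) := by
        rw [h4]
        exact (norm_add_le _ _).trans (add_le_add_right (norm_sub_le _ _) _)
      linarith)
  refine ⟨ψ, hψ, ?_⟩
  have hD2 := hD.perturb (w := x ∘ ψ) (τ := s / 2000) (fun n => hdiff (ψ n))
  exact hD2.mono (by linarith)

end Pool.Agent.R271.QS
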