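import Mathlib
import Pool.Agent.R271.QSGen

set_option autoImplicit false

/-!
Lipschitz-free spaces over pointed metric spaces, with real or complex scalars.
-/

noncomputable section

namespace Pool.Agent.R271.QS

open Set

/-- The vector space of `𝕜`-valued Lipschitz functions on `M` vanishing at the base point `o`. -/
def lipSub (𝕜 : Type*) [RCLike 𝕜] (M : Type*) [MetricSpace M] (o : M) : Submodule 𝕜 (M → 𝕜) where
  carrier := {f | f o = 0 ∧ ∃ K : ℝ, 0 ≤ K ∧ ∀ x y, ‖f x - f y‖ ≤ K * dist x y}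
  zero_mem' := ⟨rfl, 0, le_rfl, fun x y => by simp⟩
  add_mem' := by
    rintro f g ⟨hf, K, hK, hfK⟩ ⟨hg, L, hL, hgL⟩
    refine ⟨by simp [hf, hg], K + L, by positivity, fun x y => ?_⟩
    have h1 := hfK x y
    have h2 := hgL x y
    have : (f + g) x - (f + g) y = (f x - f y) + (g x - g y) := by
      simp only [Pi.add_apply]; ring
    rw [this]
    calc _ ≤ ‖f x - f y‖ + ‖g x - g y‖ := norm_add_le _ _
      _ ≤ _ := by rw [add_mul]; exact add_le_add h1 h2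
  smul_mem' := by
    rintro c f ⟨hf, K, hK, hfK⟩
    refine ⟨by simp [hf], ‖c‖ * K, by positivity, fun x y => ?_⟩
    have h1 := hfK x y
    have : (c • f) x - (c • f) y = c * (f x - f y) := by
      simp only [Pi.smul_apply, smul_eq_mul]; ring
    rw [this, norm_mul, mul_assoc]
    exact mul_le_mul_of_nonneg_left h1 (norm_nonneg _)

/-- `Lip0 𝕜 M o`: the space of `𝕜`-valued Lipschitz functions on `M` vanishing at `o`, to be normed
by the least Lipschitz constant. -/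
def Lip0 (𝕜 : Type*) [RCLike 𝕜] (M : Type*) [MetricSpace M] (o : M) : Type _ := ↥(lipSub 𝕜 M o)

variable {𝕜 : Type*} [RCLike 𝕜] {M : Type*} [MetricSpace M] {o : M}

/-- The underlying function. -/
def Lip0.fn (f : Lip0 𝕜 M o) : M → 𝕜 := f.1

section raw

/-- pointwise addition -/
local instance lipACG : AddCommGroup (Lip0 𝕜 M o) := Submodule.addCommGroup (lipSub 𝕜 M o)
/-- pointwise scalar multiplication -/
local instance lipMod : Module 𝕜 (Lip0 𝕜 M o) := Submodule.module (lipSub 𝕜 M o)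

/-- The norm: the least Lipschitz constant. -/
instance : Norm (Lip0 𝕜 M o) :=
  ⟨fun f => sInf {K : ℝ | 0 ≤ K ∧ ∀ x y, ‖f.fn x - f.fn y‖ ≤ K * dist x y}⟩

theorem Lip0.ext {f g : Lip0 𝕜 M o} (h : ∀ x, f.fn x = g.fn x) : f = g :=
  Subtype.ext (funext h)

theorem Lip0.fn_add' (f g : Lip0 𝕜 M o) (x : M) : (f + g).fn x = f.fn x + g.fn x := rfl
theorem Lip0.fn_smul' (c : 𝕜) (f : Lip0 𝕜 M o) (x : M) : (c • f).fn x = c * f.fn x := rfl
theorem Lip0.fn_zero' (x : M) : (0 : Lip0 𝕜 M o).fn x = 0 := rfl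
@[simp] theorem Lip0.fn_base (f : Lip0 𝕜 M o) : f.fn o = 0 := f.2.1

/-- Constructor. -/
def Lip0.mk (f : M → 𝕜) (h0 : f o = 0) (K : ℝ) (hK : 0 ≤ K)
    (h : ∀ x y, ‖f x - f y‖ ≤ K * dist x y) : Lip0 𝕜 M o := ⟨f, h0, K, hK, h⟩

@[simp] theorem Lip0.fn_mk (f : M → 𝕜) (h0 : f o = 0) (K : ℝ) (hK : 0 ≤ K)
    (h : ∀ x y, ‖f x - f y‖ ≤ K * dist x y) (x : M) :
    (Lip0.mk f h0 K hK h).fn x = f x := rfl

theorem Lip0.set_nonempty (f : Lip0 𝕜 M o) :
    {K : ℝ | 0 ≤ K ∧ ∀ x y, ‖f.fn x - f.fn y‖ ≤ K * dist x y}.Nonempty := by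
  obtain ⟨K, hK, h⟩ := f.2.2
  exact ⟨K, hK, h⟩

theorem Lip0.norm_le' (f : Lip0 𝕜 M o) {K : ℝ} (hK : 0 ≤ K)
    (h : ∀ x y, ‖f.fn x - f.fn y‖ ≤ K * dist x y) : ‖f‖ ≤ K :=
  csInf_le ⟨0, fun _ h => h.1⟩ ⟨hK, h⟩

theorem Lip0.norm_nonneg' (f : Lip0 𝕜 M o) : 0 ≤ ‖f‖ :=
  le_csInf f.set_nonempty fun _ h => h.1

theorem Lip0.norm_sub_le (f : Lip0 𝕜 M o) (x y : M) : ‖f.fn x - f.fn y‖ ≤ ‖f‖ * dist x y := by
  rcases eq_or_ne x y with rfl | hxy
  · simp
  · have hd : 0 < dist x y := dist_pos.2 hxy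
    rw [← div_le_iff₀ hd]
    refine le_csInf f.set_nonempty ?_
    rintro K ⟨_, hK⟩
    rw [div_le_iff₀ hd]
    exact hK x y

theorem Lip0.core : NormedSpace.Core 𝕜 (Lip0 𝕜 M o) where
  norm_nonneg f := f.norm_nonneg'
  norm_smul c f := by
    apply le_antisymm
    · refine Lip0.norm_le' _ (mul_nonneg (norm_nonneg _) f.norm_nonneg') fun x y => ?_
      have h1 := f.norm_sub_le x y
      have : (c • f).fn x - (c • f).fn y = c * (f.fn x - f.fn y) := by
        simp only [Lip0.fn_smul']; ring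
      rw [this, norm_mul, mul_assoc]
      exact mul_le_mul_of_nonneg_left h1 (norm_nonneg _)
    · rcases eq_or_ne c 0 with rfl | hc
      · simp only [norm_zero, zero_mul]; exact Lip0.norm_nonneg' _
      · have hc' : 0 < ‖c‖ := norm_pos_iff.2 hc
        rw [← le_div_iff₀' hc']
        refine Lip0.norm_le' _ (div_nonneg (Lip0.norm_nonneg' _) hc'.le) fun x y => ?_
        have h1 := (c • f).norm_sub_le x y
        have : (c • f).fn x - (c • f).fn y = c * (f.fn x - f.fn y) := by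
          simp only [Lip0.fn_smul']; ring
        rw [this, norm_mul] at h1
        rw [div_mul_eq_mul_div, le_div_iff₀ hc']
        rw [mul_comm]
        exact h1
  norm_triangle f g := by
    refine Lip0.norm_le' _ (add_nonneg f.norm_nonneg' g.norm_nonneg') fun x y => ?_
    have h1 := f.norm_sub_le x y
    have h2 := g.norm_sub_le x y
    have : (f + g).fn x - (f + g).fn y = (f.fn x - f.fn y) + (g.fn x - g.fn y) := by
      simp only [Lip0.fn_add']; ring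
    rw [this]
    calc _ ≤ ‖f.fn x - f.fn y‖ + ‖g.fn x - g.fn y‖ := norm_add_le _ _
      _ ≤ _ := by rw [add_mul]; exact add_le_add h1 h2
  norm_eq_zero_iff f := by
    constructor
    · intro h
      apply Lip0.ext
      intro x
      have h1 := f.norm_sub_le x o
      rw [h, zero_mul, Lip0.fn_base, sub_zero] at h1
      exact norm_le_zero_iff.1 h1
    · rintro rfl
      apply le_antisymm _ (Lip0.norm_nonneg' _)
      refine Lip0.norm_le' _ le_rfl fun x y => by simp [Lip0.fn_zero']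

instance : NormedAddCommGroup (Lip0 𝕜 M o) :=
  NormedAddCommGroup.ofCore (Lip0.core (𝕜 := 𝕜) (M := M) (o := o))
instance : NormedSpace 𝕜 (Lip0 𝕜 M o) :=
  NormedSpace.ofCore (Lip0.core (𝕜 := 𝕜) (M := M) (o := o))

end raw

theorem Lip0.norm_def (f : Lip0 𝕜 M o) :
    ‖f‖ = sInf {K : ℝ | 0 ≤ K ∧ ∀ x y, ‖f.fn x - f.fn y‖ ≤ K * dist x y} := rfl

theorem Lip0.norm_fn_le (f : Lip0 𝕜 M o) (x : M) : ‖f.fn x‖ ≤ ‖f‖ * dist x o := by
  have := f.norm_sub_le x o
  rwa [Lip0.fn_base, sub_zero] at this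

section dual

variable {E : Type*} [NormedAddCommGroup E] [NormedSpace 𝕜 E]

/-- The dual space of the normed space `E`: the continuous `𝕜`-linear functionals on `E`. -/
def Dl (𝕜 E : Type*) [RCLike 𝕜] [NormedAddCommGroup E] [NormedSpace 𝕜 E] : Type _ := E →L[𝕜] 𝕜

/-- The operator norm makes the dual space a normed group. -/
instance : NormedAddCommGroup (Dl 𝕜 E) :=
  (ContinuousLinearMap.toNormedAddCommGroup : NormedAddCommGroup (E →L[𝕜] 𝕜))

/-- The dual space is a normed space. -/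
instance : NormedSpace 𝕜 (Dl 𝕜 E) :=
  (ContinuousLinearMap.toNormedSpace : NormedSpace 𝕜 (E →L[𝕜] 𝕜))

/-- The value of the functional `f` at `x`. -/
def Dl.ap (f : Dl 𝕜 E) (x : E) : 𝕜 := @DFunLike.coe (E →L[𝕜] 𝕜) E (fun _ => 𝕜) _ f x

end dual

/-- The evaluation functional at `x`. -/
def ev (𝕜 : Type*) [RCLike 𝕜] (M : Type*) [MetricSpace M] (o : M) (x : M) :
    Dl 𝕜 (Lip0 𝕜 M o) :=
  LinearMap.mkContinuous
    { toFun := fun f => f.fn x
      map_add' := fun _ _ => rfl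
      map_smul' := fun _ _ => rfl } (dist x o) (fun f => by
        rw [mul_comm]
        exact f.norm_fn_le x)

@[simp] theorem ev_apply (x : M) (f : Lip0 𝕜 M o) : (ev 𝕜 M o x).ap f = f.fn x := rfl

/-- The closed linear span of the evaluation functionals in the dual of `Lip0 𝕜 M o`. -/
def Free (𝕜 : Type*) [RCLike 𝕜] (M : Type*) [MetricSpace M] (o : M) :
    Submodule 𝕜 (Dl 𝕜 (Lip0 𝕜 M o)) :=
  (Submodule.span 𝕜 (Set.range (ev 𝕜 M o))).topologicalClosure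

/-- The Lipschitz-free space `F(M)` over the pointed metric space `(M, o)`: the closed linear span
of the evaluation functionals in the dual of `Lip0 𝕜 M o`, with the norm of this dual. -/
def FreeSp (𝕜 : Type*) [RCLike 𝕜] (M : Type*) [MetricSpace M] (o : M) : Type _ := ↥(Free 𝕜 M o)

instance : NormedAddCommGroup (FreeSp 𝕜 M o) := Submodule.normedAddCommGroup (Free 𝕜 M o)
instance : NormedSpace 𝕜 (FreeSp 𝕜 M o) := Submodule.normedSpace (Free 𝕜 M o)

theorem ev_mem (x : M) : ev 𝕜 M o x ∈ Free 𝕜 M o :=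
  Submodule.le_topologicalClosure _ (Submodule.subset_span ⟨x, rfl⟩)

/-- The evaluation functionals as elements of the Lipschitz-free space. -/
def dl (𝕜 : Type*) [RCLike 𝕜] (M : Type*) [MetricSpace M] (o : M) (x : M) : FreeSp 𝕜 M o :=
  ⟨ev 𝕜 M o x, ev_mem x⟩

/-- The inclusion into the dual. -/
def incl (𝕜 : Type*) [RCLike 𝕜] (M : Type*) [MetricSpace M] (o : M) :
    FreeSp 𝕜 M o →L[𝕜] Dl 𝕜 (Lip0 𝕜 M o) := (Free 𝕜 M o).subtypeL

theorem free_LD (𝕜 : Type*) [RCLike 𝕜] (M : Type*) [MetricSpace M] (o : M) :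
    LD 𝕜 o (dl 𝕜 M o) where
  base := by
    apply Subtype.ext
    change (ev 𝕜 M o o) = 0
    refine ContinuousLinearMap.ext (M₁ := Lip0 𝕜 M o) fun f => ?_
    exact f.fn_base
  lip x y := by
    have h1 : ‖dl 𝕜 M o x - dl 𝕜 M o y‖ = ‖ev 𝕜 M o x - ev 𝕜 M o y‖ := rfl
    rw [h1]
    refine ContinuousLinearMap.opNorm_le_bound (E := Lip0 𝕜 M o) (F := 𝕜) _ dist_nonneg
      fun f => ?_
    have := f.norm_sub_le x y
    rw [mul_comm]
    exact this
  lift f h0 hf := by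
    set F : Lip0 𝕜 M o := Lip0.mk f h0 1 zero_le_one (fun x y => by rw [one_mul]; exact hf x y)
      with hF
    have hFn : ‖F‖ ≤ 1 := Lip0.norm_le' _ zero_le_one (fun x y => by rw [one_mul]; exact hf x y)
    let T : Dl 𝕜 (Lip0 𝕜 M o) →L[𝕜] 𝕜 := NormedSpace.inclusionInDoubleDual 𝕜 (Lip0 𝕜 M o) F
    refine ⟨T.comp (incl 𝕜 M o), ?_, ?_⟩
    · refine ContinuousLinearMap.opNorm_le_bound _ zero_le_one fun x => ?_
      have h1 : ‖(incl 𝕜 M o x).ap F‖ ≤ ‖incl 𝕜 M o x‖ * ‖F‖ :=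
        ContinuousLinearMap.le_opNorm (E := Lip0 𝕜 M o) (F := 𝕜) (incl 𝕜 M o x) F
      have h2 : ‖x‖ = ‖incl 𝕜 M o x‖ := rfl
      change ‖(incl 𝕜 M o x).ap F‖ ≤ 1 * ‖x‖
      rw [h2]
      nlinarith [norm_nonneg (incl 𝕜 M o x), norm_nonneg F]
    · intro x
      rfl

theorem free_dense (𝕜 : Type*) [RCLike 𝕜] (M : Type*) [MetricSpace M] (o : M) :
    Dense (Submodule.span 𝕜 (Set.range (dl 𝕜 M o)) : Set (FreeSp 𝕜 M o)) := by
  intro x
  rw [Metric.mem_closure_iff]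
  intro ε hε
  have hx : incl 𝕜 M o x ∈
      closure (Submodule.span 𝕜 (Set.range (ev 𝕜 M o)) : Set (Dl 𝕜 (Lip0 𝕜 M o))) := by
    have : incl 𝕜 M o x ∈ Free 𝕜 M o := x.2
    unfold Free at this
    rwa [← Submodule.topologicalClosure_coe]
  obtain ⟨z, hz, hzd⟩ := Metric.mem_closure_iff.1 hx ε hε
  have hz' : z ∈ Free 𝕜 M o := Submodule.le_topologicalClosure _ hz
  refine ⟨⟨z, hz'⟩, ?_, hzd⟩
  have hmap : Submodule.map (incl 𝕜 M o : FreeSp 𝕜 M o →ₗ[𝕜] Dl 𝕜 (Lip0 𝕜 M o))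
      (Submodule.span 𝕜 (Set.range (dl 𝕜 M o))) =
      Submodule.span 𝕜 (Set.range (ev 𝕜 M o)) := by
    rw [Submodule.map_span, ← Set.range_comp]
    rfl
  have hz2 : z ∈ Submodule.map (incl 𝕜 M o : FreeSp 𝕜 M o →ₗ[𝕜] Dl 𝕜 (Lip0 𝕜 M o))
      (Submodule.span 𝕜 (Set.range (dl 𝕜 M o))) := by
    rw [hmap]; exact hz
  obtain ⟨w, hw, hwz⟩ := hz2
  have : w = ⟨z, hz'⟩ := Subtype.ext hwz
  rw [← this]
  exact hw

end Pool.Agent.R271.QS
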