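import Mathlib
import Pool.Agent.R271.QSFree
import Pool.Agent.R271.QSCons

set_option autoImplicit false

/-!
Quantitative Schur property, quantitative weak sequential completeness, and equivalence of measures
of weak non-compactness.
-/

open Filter Topology
open scoped ENNReal NNReal

noncomputable section

namespace Pool.Agent.R271.QS

variable {𝕜 X : Type*} [RCLike 𝕜] [NormedAddCommGroup X] [NormedSpace 𝕜 X]

/-- The canonical embedding of `X` into its bidual: `iota 𝕜 X x` is the functional `f ↦ f(x)`. -/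
def iota (𝕜 X : Type*) [RCLike 𝕜] [NormedAddCommGroup X] [NormedSpace 𝕜 X] (x : X) :
    Dl 𝕜 (Dl 𝕜 X) :=
  LinearMap.mkContinuous
    { toFun := fun f => f.ap x
      map_add' := fun _ _ => rfl
      map_smul' := fun _ _ => rfl } ‖x‖ (fun f => by
        rw [mul_comm]
        exact ContinuousLinearMap.le_opNorm (E := X) (F := 𝕜) f x)

theorem iota_eq (x : X) : iota 𝕜 X x = NormedSpace.inclusionInDoubleDual 𝕜 X x := rfl

/-- The weak-star topology of the bidual: the topology of pointwise convergence on the dual. -/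
def wstar (𝕜 X : Type*) [RCLike 𝕜] [NormedAddCommGroup X] [NormedSpace 𝕜 X] :
    TopologicalSpace (Dl 𝕜 (Dl 𝕜 X)) :=
  TopologicalSpace.induced (fun (z : Dl 𝕜 (Dl 𝕜 X)) (f : Dl 𝕜 X) => z.ap f)
    Pi.topologicalSpace

/-- The weak topology of `X`: the coarsest topology such that all elements of the dual are
continuous. -/
def weakTop (𝕜 X : Type*) [RCLike 𝕜] [NormedAddCommGroup X] [NormedSpace 𝕜 X] :
    TopologicalSpace X :=
  TopologicalSpace.induced (fun (x : X) (f : Dl 𝕜 X) => f.ap x) Pi.topologicalSpace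

/-- `δ(x_n) = sup_{x* ∈ B_{X*}} inf_n sup_{k, l ≥ n} |x*(x_k) - x*(x_l)|`. -/
def delta (𝕜 : Type*) {X : Type*} [RCLike 𝕜] [NormedAddCommGroup X] [NormedSpace 𝕜 X]
    (x : ℕ → X) : ℝ≥0∞ :=
  ⨆ (f : Dl 𝕜 X) (_ : ‖f‖ ≤ 1), ⨅ n, ⨆ (k ≥ n) (l ≥ n), edist (f.ap (x k)) (f.ap (x l))

/-- `ca(x_n) = inf_n sup_{k, l ≥ n} ‖x_k - x_l‖`. -/
def ca {X : Type*} [NormedAddCommGroup X] (x : ℕ → X) : ℝ≥0∞ :=
  ⨅ n, ⨆ (k ≥ n) (l ≥ n), edist (x k) (x l)

/-- The set of the weak-star cluster points in `X**` of the sequence `y` in `X`. -/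
def clust (𝕜 : Type*) {X : Type*} [RCLike 𝕜] [NormedAddCommGroup X] [NormedSpace 𝕜 X]
    (y : ℕ → X) : Set (Dl 𝕜 (Dl 𝕜 X)) :=
  {z | @MapClusterPt (Dl 𝕜 (Dl 𝕜 X)) (wstar 𝕜 X) ℕ z atTop fun n => iota 𝕜 X (y n)}

/-- `wck_X(x_n)`: the supremum over all subsequences `(y_k)` of `(x_n)` of the infimum of the
distances of the weak-star cluster points of `(y_k)` from `X`. -/
def wck (𝕜 : Type*) {X : Type*} [RCLike 𝕜] [NormedAddCommGroup X] [NormedSpace 𝕜 X]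
    (x : ℕ → X) : ℝ≥0∞ :=
  ⨆ (φ : ℕ → ℕ) (_ : StrictMono φ),
    ⨅ z ∈ clust 𝕜 (x ∘ φ), Metric.infEDist z (Set.range (iota 𝕜 X))

theorem sdl_free {M : Type*} [MetricSpace M] (o : M)
    (hM : ∃ ε > 0, ∀ x y : M, x ≠ y → ε ≤ dist x y) : SDL 𝕜 (FreeSp 𝕜 M o) (1 / 1600) := by
  obtain ⟨ε, hε, hsep⟩ := hM
  intro x R s hR hs hs'
  obtain ⟨ψ, h1, h2⟩ := gen (free_LD 𝕜 M o) (free_dense 𝕜 M o) hε hsep hR hs hs'
  refine ⟨ψ, h1, ?_⟩
  rwa [one_div_mul_eq_div]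

/-- Existence of weak-star limits along the ultrafilter, restated. -/
theorem exists_bilimit' {y : ℕ → X} {R : ℝ} (hR : ∀ n, ‖y n‖ ≤ R) :
    ∃ z : Dl 𝕜 (Dl 𝕜 X),
      Tendsto (fun n => iota 𝕜 X (y n)) UU (@nhds _ (wstar 𝕜 X) z) ∧
      ∀ f : StrongDual 𝕜 X, Tendsto (fun n => f (y n)) UU (𝓝 (z.ap f)) := by
  obtain ⟨z, _, hz⟩ := exists_bilimit (𝕜 := 𝕜) hR
  refine ⟨z, ?_, hz⟩
  unfold wstar
  rw [nhds_induced, tendsto_comap_iff, tendsto_pi_nhds]
  exact hz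

theorem ca_le {c : ℝ} (hc : 0 < c) (hc1 : c ≤ 1 / 2) (h : SDL 𝕜 X c) {x : ℕ → X}
    (hx : Bornology.IsBounded (Set.range x)) :
    ca x ≤ ENNReal.ofReal (5 / (2 * c)) * delta 𝕜 x := by
  obtain ⟨R, hR⟩ := hx.exists_norm_le
  have hR' : ∀ n, ‖x n‖ ≤ R := fun n => hR _ ⟨n, rfl⟩
  refine le_of_forall_lt_imp_le_of_dense fun t ht => ?_
  have htop : t ≠ ⊤ := ht.ne_top
  rcases eq_or_ne t 0 with rfl | ht0
  · exact zero_le
  · have hs : 0 < t.toReal := ENNReal.toReal_pos ht0 htop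
    have hca : ∀ N, ∃ k ≥ N, ∃ l ≥ N, t.toReal < ‖x k - x l‖ := by
      intro N
      have h1 := ht.trans_le (iInf_le _ N)
      simp only [lt_iSup_iff] at h1
      obtain ⟨k, hk, l, hl, h2⟩ := h1
      refine ⟨k, hk, l, hl, ?_⟩
      rw [edist_dist, ← ENNReal.ofReal_toReal htop,
        ENNReal.ofReal_lt_ofReal_iff_of_nonneg hs.le, dist_eq_norm] at h2
      exact h2
    obtain ⟨f, hf1, hf2⟩ := schur_real hc hc1 h hR' hs hca
    have h3 : ENNReal.ofReal (2 * c * (t.toReal / 5)) ≤ delta 𝕜 x := by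
      refine le_iSup₂_of_le (show Dl 𝕜 X from f) hf1 (le_iInf fun n => ?_)
      obtain ⟨k, hk, l, hl, h4⟩ := hf2 n
      refine le_iSup₂_of_le k hk (le_iSup₂_of_le l hl ?_)
      rw [edist_dist, dist_eq_norm]
      exact ENNReal.ofReal_le_ofReal h4
    calc t = ENNReal.ofReal (5 / (2 * c)) * ENNReal.ofReal (2 * c * (t.toReal / 5)) := by
          rw [← ENNReal.ofReal_mul (by positivity)]
          have : 5 / (2 * c) * (2 * c * (t.toReal / 5)) = t.toReal := by field_simp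
          rw [this, ENNReal.ofReal_toReal htop]
      _ ≤ _ := by gcongr

theorem wck_le_ca {x : ℕ → X} (hx : Bornology.IsBounded (Set.range x)) : wck 𝕜 x ≤ ca x := by
  obtain ⟨R, hR⟩ := hx.exists_norm_le
  refine iSup₂_le fun φ hφ => le_iInf fun n => ?_
  obtain ⟨z, hz1, hz2⟩ := exists_bilimit' (𝕜 := 𝕜) (y := x ∘ φ) (R := R) fun n => hR _ ⟨_, rfl⟩
  have hz : z ∈ clust 𝕜 (x ∘ φ) :=
    @MapClusterPt.mono _ (wstar 𝕜 X) _ _ _ _ _ (@Tendsto.mapClusterPt _ (wstar 𝕜 X) _ _ _ _ _ hz1)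
      UU_le
  refine (iInf₂_le z hz).trans ?_
  refine (Metric.infEDist_le_edist_of_mem (Set.mem_range_self (x (φ n)))).trans ?_
  set B : ℝ≥0∞ := ⨆ (k ≥ n) (l ≥ n), edist (x k) (x l) with hB
  rcases eq_or_ne B ⊤ with hBt | hBt
  · rw [hBt]; exact le_top
  have h1 : ∀ k ≥ n, ‖(x ∘ φ) k - x (φ n)‖ ≤ B.toReal := by
    intro k hk
    have h2 : edist ((x ∘ φ) k) (x (φ n)) ≤ B :=
      le_iSup₂_of_le (φ k) (hk.trans hφ.le_apply) (le_iSup₂_of_le (φ n) hφ.le_apply le_rfl)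
    rw [edist_dist, ENNReal.ofReal_le_iff_le_toReal hBt, dist_eq_norm] at h2
    exact h2
  have h3 : ‖z - iota 𝕜 X (x (φ n))‖ ≤ B.toReal := by
    refine ContinuousLinearMap.opNorm_le_bound (E := Dl 𝕜 X) (F := 𝕜) _ ENNReal.toReal_nonneg
      fun f => ?_
    have h4 : Tendsto (fun k => ‖f.ap ((x ∘ φ) k) - f.ap (x (φ n))‖) UU
        (𝓝 ‖z.ap f - f.ap (x (φ n))‖) := ((hz2 f).sub_const _).norm
    change ‖z.ap f - f.ap (x (φ n))‖ ≤ _
    refine le_of_tendsto h4 ?_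
    filter_upwards [UU_le (eventually_ge_atTop n)] with k hk
    have h5 : f.ap ((x ∘ φ) k) - f.ap (x (φ n)) = f.ap ((x ∘ φ) k - x (φ n)) :=
      (map_sub (show StrongDual 𝕜 X from f) _ _).symm
    rw [h5]
    refine (ContinuousLinearMap.le_opNorm (E := X) (F := 𝕜) f _).trans ?_
    rw [mul_comm]
    exact mul_le_mul_of_nonneg_right (h1 k hk) (norm_nonneg f)
  rw [edist_dist, ENNReal.ofReal_le_iff_le_toReal hBt, dist_eq_norm]
  exact h3

/-- De Blasi's measure of weak non-compactness. -/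
def omega (𝕜 : Type*) {X : Type*} [RCLike 𝕜] [NormedAddCommGroup X] [NormedSpace 𝕜 X]
    (A : Set X) : ℝ≥0∞ :=
  ⨅ (K : Set X) (_ : @IsCompact X (weakTop 𝕜 X) K), ⨆ a ∈ A, Metric.infEDist a K

/-- The weak-star closure in `X**` of a subset `A` of `X`. -/
def wstarClosure (𝕜 : Type*) {X : Type*} [RCLike 𝕜] [NormedAddCommGroup X] [NormedSpace 𝕜 X]
    (A : Set X) : Set (Dl 𝕜 (Dl 𝕜 X)) :=
  @closure (Dl 𝕜 (Dl 𝕜 X)) (wstar 𝕜 X) (iota 𝕜 X '' A)

/-- The measure `wk(A)`: the supremum of the distances from `X` of the elements of the weak-star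
closure of `A` in `X**`. -/
def wk (𝕜 : Type*) {X : Type*} [RCLike 𝕜] [NormedAddCommGroup X] [NormedSpace 𝕜 X]
    (A : Set X) : ℝ≥0∞ :=
  ⨆ z ∈ wstarClosure 𝕜 A, Metric.infEDist z (Set.range (iota 𝕜 X))

theorem omega_le {c : ℝ} (hc : 0 < c) (h : SDL 𝕜 X c) {A : Set X}
    (hA : Bornology.IsBounded A) : omega 𝕜 A ≤ ENNReal.ofReal (1 / c) * wk 𝕜 A := by
  obtain ⟨R, hR⟩ := hA.exists_norm_le
  refine le_of_forall_lt_imp_le_of_dense fun t ht => ?_
  have htop : t ≠ ⊤ := ht.ne_top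
  rcases eq_or_ne t 0 with rfl | ht0
  · exact zero_le
  have hs : 0 < t.toReal := ENNReal.toReal_pos ht0 htop
  have hfin : ∀ F : Finset X, ∃ a ∈ A, ∀ k ∈ F, t.toReal ≤ ‖a - k‖ := by
    intro F
    have h1 : t < ⨆ a ∈ A, Metric.infEDist a (F : Set X) := by
      refine ht.trans_le (iInf₂_le (F : Set X) ?_)
      exact @Set.Finite.isCompact X (weakTop 𝕜 X) _ F.finite_toSet
    simp only [lt_iSup_iff] at h1
    obtain ⟨a, ha, h2⟩ := h1
    refine ⟨a, ha, fun k hk => ?_⟩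
    have h3 : t ≤ edist a k := h2.le.trans (Metric.infEDist_le_edist_of_mem hk)
    rw [edist_dist, ← ENNReal.ofReal_toReal htop, ENNReal.ofReal_le_ofReal_iff dist_nonneg,
      dist_eq_norm] at h3
    exact h3
  obtain ⟨x, hx1, hx2⟩ := exists_seq_of_forall_finset_exists (fun a : X => a ∈ A)
    (fun a b : X => t.toReal ≤ ‖b - a‖) (fun F _ => hfin F)
  obtain ⟨ψ, hψ, hD⟩ := h x R t.toReal (fun n => hR _ (hx1 n)) hs (fun n m hnm => by
    rcases lt_or_gt_of_ne hnm with h1 | h1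
    · rw [norm_sub_rev]; exact hx2 n m h1
    · exact hx2 m n h1)
  obtain ⟨z, hz1, hz2⟩ := exists_bilimit' (𝕜 := 𝕜) (y := x ∘ ψ) (R := R)
    fun n => hR _ (hx1 _)
  have hz : z ∈ wstarClosure 𝕜 A :=
    @mem_closure_of_tendsto _ (wstar 𝕜 X) _ _ _ _ _ _ hz1
      (Eventually.of_forall fun n => ⟨x (ψ n), hx1 _, rfl⟩)
  have h3 : ENNReal.ofReal (c * t.toReal) ≤ wk 𝕜 A := by
    refine le_iSup₂_of_le z hz ?_
    rw [Metric.le_infEDist]
    rintro _ ⟨w, rfl⟩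
    rw [edist_dist, dist_eq_norm]
    exact ENNReal.ofReal_le_ofReal (dist_ge (by positivity) hD hz2 w)
  calc t = ENNReal.ofReal (1 / c) * ENNReal.ofReal (c * t.toReal) := by
        rw [← ENNReal.ofReal_mul (by positivity)]
        have : 1 / c * (c * t.toReal) = t.toReal := by field_simp
        rw [this, ENNReal.ofReal_toReal htop]
    _ ≤ _ := by gcongr

end Pool.Agent.R271.QS
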