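import Pool.Agent.R271.KhAbs

namespace Pool.Agent.R271.Kh

open MeasureTheory Set Filter
open scoped ENNReal

/-- Lebesgue measure on `[0,1]` -/
noncomputable abbrev mu : Measure ℝ := volume.restrict (Icc (0:ℝ) 1)

noncomputable def sg (t : ℝ) : ℝ := if t < 1/2 then 2*t else 2*t-1
noncomputable def t0 (u : ℝ) : ℝ := u/2
noncomputable def t1 (u : ℝ) : ℝ := (u+1)/2

theorem measurable_sg : Measurable sg :=
  Measurable.ite measurableSet_Iio (measurable_const_mul 2) ((measurable_const_mul 2).sub_const 1)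

theorem measurable_t0 : Measurable t0 := measurable_id.div_const 2
theorem measurable_t1 : Measurable t1 := (measurable_id.add_const 1).div_const 2

theorem ae_mem : ∀ᵐ u ∂mu, 0 ≤ u ∧ u < 1 := by
  have h1 : (volume.restrict (Icc (0:ℝ) 1)) = volume.restrict (Ico (0:ℝ) 1) :=
    Measure.restrict_congr_set Ico_ae_eq_Icc.symm
  rw [mu, h1]
  filter_upwards [ae_restrict_mem measurableSet_Ico] with u hu using hu

theorem mu_split : mu = (1/2 : ℝ≥0∞) • mu.map t0 + (1/2 : ℝ≥0∞) • mu.map t1 := by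
  ext A hA
  rw [Measure.add_apply, Measure.smul_apply, Measure.smul_apply,
    Measure.map_apply measurable_t0 hA, Measure.map_apply measurable_t1 hA,
    Measure.restrict_apply hA, Measure.restrict_apply (measurable_t0 hA),
    Measure.restrict_apply (measurable_t1 hA)]
  have e0 : t0 ⁻¹' A ∩ Icc 0 1 = (fun x => (1/2:ℝ) * x) ⁻¹' (A ∩ Icc 0 (1/2)) := by
    ext x
    simp only [t0, mem_inter_iff, mem_preimage, mem_Icc]
    rw [show (1/2:ℝ) * x = x/2 by ring]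
    constructor
    · rintro ⟨h, h1, h2⟩; exact ⟨h, by linarith, by linarith⟩
    · rintro ⟨h, h1, h2⟩; exact ⟨h, by linarith, by linarith⟩
  have e1 : t1 ⁻¹' A ∩ Icc 0 1 =
      (fun x => (1/2:ℝ) * x) ⁻¹' ((fun x => x + 1/2) ⁻¹' (A ∩ Icc (1/2) 1)) := by
    ext x
    simp only [t1, mem_inter_iff, mem_preimage, mem_Icc]
    rw [show (1/2:ℝ) * x + 1/2 = (x+1)/2 by ring]
    constructor
    · rintro ⟨h, h1, h2⟩; exact ⟨h, by linarith, by linarith⟩
    · rintro ⟨h, h1, h2⟩; exact ⟨h, by linarith, by linarith⟩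
  have hh : (1/2 : ℝ≥0∞) * ENNReal.ofReal |(1/2:ℝ)⁻¹| = 1 := by
    rw [show |(1/2:ℝ)⁻¹| = 2 by norm_num, ENNReal.ofReal_ofNat, one_div,
      ENNReal.inv_mul_cancel two_ne_zero ENNReal.ofNat_ne_top]
  rw [e0, e1, Real.volume_preimage_mul_left (by norm_num), Real.volume_preimage_mul_left (by norm_num),
    measure_preimage_add_right, smul_eq_mul, smul_eq_mul, ← mul_assoc, ← mul_assoc, hh, one_mul,
    one_mul]
  have e2 : A ∩ Icc (0:ℝ) 1 = (A ∩ Icc 0 (1/2)) ∪ (A ∩ Icc (1/2) 1) := by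
    rw [← inter_union_distrib_left, Icc_union_Icc_eq_Icc (by norm_num) (by norm_num)]
  rw [e2]
  refine measure_union₀ (hA.inter measurableSet_Icc).nullMeasurableSet ?_
  have e3 : (A ∩ Icc (0:ℝ) (1/2)) ∩ (A ∩ Icc (1/2) 1) ⊆ {1/2} := by
    rintro x ⟨⟨_, h1⟩, ⟨_, h2⟩⟩
    exact le_antisymm h1.2 h2.1
  exact measure_mono_null e3 (measure_singleton _)

theorem lintegral_split {H : ℝ → ℝ≥0∞} (hH : Measurable H) :
    ∫⁻ t, H t ∂mu = (1/2) * ∫⁻ t, H (t0 t) ∂mu + (1/2) * ∫⁻ t, H (t1 t) ∂mu := by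
  conv_lhs => rw [mu_split]
  rw [lintegral_add_measure, lintegral_smul_measure, lintegral_smul_measure,
    lintegral_map hH measurable_t0, lintegral_map hH measurable_t1, smul_eq_mul, smul_eq_mul]

variable (𝕜 : Type*) [RCLike 𝕜]

noncomputable def r0 (t : ℝ) : 𝕜 := if t < 1/2 then 1 else -1

/-- the Rademacher functions -/
noncomputable def rad (n : ℕ) (t : ℝ) : 𝕜 := r0 𝕜 (sg^[n] t)

theorem measurable_r0 : Measurable (r0 𝕜) :=
  Measurable.ite measurableSet_Iio measurable_const measurable_const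

theorem measurable_rad (n : ℕ) : Measurable (rad 𝕜 n) :=
  (measurable_r0 𝕜).comp (measurable_sg.iterate n)

theorem norm_rad (n : ℕ) (t : ℝ) : ‖rad 𝕜 n t‖ = 1 := by
  unfold rad r0
  split_ifs <;> simp

theorem rad_zero (t : ℝ) : rad 𝕜 0 t = r0 𝕜 t := rfl

theorem rad_succ (n : ℕ) (t : ℝ) : rad 𝕜 (n+1) t = rad 𝕜 n (sg t) := by
  unfold rad
  rw [Function.iterate_succ_apply]

theorem ae_t0 : ∀ᵐ u ∂mu, sg (t0 u) = u ∧ r0 𝕜 (t0 u) = 1 := by
  filter_upwards [ae_mem] with u hu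
  have h : t0 u < 1/2 := by unfold t0; linarith [hu.2]
  unfold sg r0
  rw [if_pos h, if_pos h]
  exact ⟨by unfold t0; ring, rfl⟩

theorem ae_t1 : ∀ᵐ u ∂mu, sg (t1 u) = u ∧ r0 𝕜 (t1 u) = -1 := by
  filter_upwards [ae_mem] with u hu
  have h : ¬ t1 u < 1/2 := by unfold t1; linarith [hu.1]
  unfold sg r0
  rw [if_neg h, if_neg h]
  exact ⟨by unfold t1; ring, rfl⟩

theorem mp_sg : MeasurePreserving sg mu mu := by
  refine ⟨measurable_sg, ?_⟩
  conv_lhs => rw [mu_split]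
  rw [Measure.map_add _ _ measurable_sg, Measure.map_smul, Measure.map_smul,
    Measure.map_map measurable_sg measurable_t0, Measure.map_map measurable_sg measurable_t1]
  have h0 : Measure.map (sg ∘ t0) mu = mu := by
    rw [Measure.map_congr (g := id) ?_, Measure.map_id]
    filter_upwards [ae_t0 ℝ] with u hu using hu.1
  have h1 : Measure.map (sg ∘ t1) mu = mu := by
    rw [Measure.map_congr (g := id) ?_, Measure.map_id]
    filter_upwards [ae_t1 ℝ] with u hu using hu.1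
  rw [h0, h1, ← add_smul, one_div, ENNReal.inv_two_add_inv_two, one_smul]

variable {𝕜}

instance : IsProbabilityMeasure mu := ⟨by simp [mu]⟩

theorem lint_av {G : 𝕜 → ℝ} (hGm : Measurable G) (hG0 : ∀ x, 0 ≤ G x) (N : ℕ) (b : ℕ → 𝕜)
    (c : 𝕜) :
    ∫⁻ t, ENNReal.ofReal (G (c + ∑ i ∈ Finset.range N, b i * rad 𝕜 i t)) ∂mu =
      ENNReal.ofReal (av G N b c) := by
  induction N generalizing b c with
  | zero =>
    simp only [Finset.range_zero, Finset.sum_empty, add_zero, lintegral_const, measure_univ,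
      mul_one, av_zero]
  | succ N ih =>
    have hm : Measurable (fun t : ℝ => ENNReal.ofReal
        (G (c + ∑ i ∈ Finset.range (N+1), b i * rad 𝕜 i t))) := by
      refine ENNReal.measurable_ofReal.comp (hGm.comp (measurable_const.add ?_))
      exact Finset.measurable_sum _ fun i _ => (measurable_rad 𝕜 i).const_mul (b i)
    rw [lintegral_split hm]
    have e0 : ∫⁻ t, ENNReal.ofReal (G (c + ∑ i ∈ Finset.range (N+1), b i * rad 𝕜 i (t0 t))) ∂mu =
        ENNReal.ofReal (av G N (fun i => b (i+1)) (c + b 0)) := by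
      rw [← ih]
      refine lintegral_congr_ae ?_
      filter_upwards [ae_t0 𝕜] with u hu
      rw [Finset.sum_range_succ']
      simp only [rad_succ, hu.1, rad_zero, hu.2, mul_one]
      congr 2
      ring
    have e1 : ∫⁻ t, ENNReal.ofReal (G (c + ∑ i ∈ Finset.range (N+1), b i * rad 𝕜 i (t1 t))) ∂mu =
        ENNReal.ofReal (av G N (fun i => b (i+1)) (c - b 0)) := by
      rw [← ih]
      refine lintegral_congr_ae ?_
      filter_upwards [ae_t1 𝕜] with u hu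
      rw [Finset.sum_range_succ']
      simp only [rad_succ, hu.1, rad_zero, hu.2]
      congr 2
      ring
    rw [e0, e1, av_succ, ← mul_add, ← ENNReal.ofReal_add (av_nonneg hG0 _ _ _)
      (av_nonneg hG0 _ _ _), show (1/2:ℝ≥0∞) = ENNReal.ofReal (1/2) by
        rw [ENNReal.ofReal_div_of_pos two_pos]; simp,
      ← ENNReal.ofReal_mul (by norm_num)]
    congr 1
    ring

/-! ### The functions in `L_r` -/

variable (r : ℝ≥0∞)

theorem memLp_rad (n : ℕ) : MemLp (rad 𝕜 n) r mu :=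
  MemLp.of_bound (measurable_rad 𝕜 n).aestronglyMeasurable 1
    (Eventually.of_forall fun t => (norm_rad 𝕜 n t).le)

theorem memLp_one : MemLp (fun _ : ℝ => (1:𝕜)) r mu := memLp_const 1

variable (𝕜) in
noncomputable def Rd (n : ℕ) : Lp 𝕜 r mu := (memLp_rad r n).toLp _

variable (𝕜) in
noncomputable def Uo : Lp 𝕜 r mu := (memLp_one r).toLp _

theorem coeFn_comb [Fact (1 ≤ r)] (N : ℕ) (b : ℕ → 𝕜) (c : 𝕜) :
    ((c • Uo 𝕜 r + ∑ i ∈ Finset.range N, b i • Rd 𝕜 r i : Lp 𝕜 r mu) : ℝ → 𝕜) =ᵐ[mu]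
      fun t => c + ∑ i ∈ Finset.range N, b i * rad 𝕜 i t := by
  induction N with
  | zero =>
    simp only [Finset.range_zero, Finset.sum_empty, add_zero]
    filter_upwards [Lp.coeFn_smul c (Uo 𝕜 r), (memLp_one (𝕜 := 𝕜) r).coeFn_toLp] with t h1 h2
    rw [h1, Pi.smul_apply]
    unfold Uo
    rw [h2, smul_eq_mul, mul_one]
  | succ N ih =>
    rw [Finset.sum_range_succ, ← add_assoc]
    filter_upwards [ih, Lp.coeFn_add (c • Uo 𝕜 r + ∑ i ∈ Finset.range N, b i • Rd 𝕜 r i)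
      (b N • Rd 𝕜 r N), Lp.coeFn_smul (b N) (Rd 𝕜 r N), (memLp_rad (𝕜 := 𝕜) r N).coeFn_toLp]
      with t h1 h2 h3 h4
    rw [h2, Pi.add_apply, h1, h3, Pi.smul_apply]
    unfold Rd
    rw [h4, Finset.sum_range_succ, smul_eq_mul, add_assoc]

theorem norm_comb [Fact (1 ≤ r)] (hr : r ≠ ∞) (N : ℕ) (b : ℕ → 𝕜) (c : 𝕜) :
    ‖c • Uo 𝕜 r + ∑ i ∈ Finset.range N, b i • Rd 𝕜 r i‖^r.toReal =
      av (fun x => ‖x‖^r.toReal) N b c := by
  have hr0 : r ≠ 0 := (lt_of_lt_of_le one_pos (Fact.out : 1 ≤ r)).ne'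
  have hrpos : 0 < r.toReal := ENNReal.toReal_pos hr0 hr
  have hav : 0 ≤ av (fun x : 𝕜 => ‖x‖^r.toReal) N b c :=
    av_nonneg (fun x => Real.rpow_nonneg (norm_nonneg x) _) N b c
  rw [Lp.norm_def, eLpNorm_congr_ae (coeFn_comb r N b c),
    eLpNorm_eq_lintegral_rpow_enorm_toReal hr0 hr, ← ENNReal.toReal_rpow, ← Real.rpow_mul
      ENNReal.toReal_nonneg, one_div, inv_mul_cancel₀ hrpos.ne', Real.rpow_one]
  have : ∫⁻ t, ‖c + ∑ i ∈ Finset.range N, b i * rad 𝕜 i t‖ₑ^r.toReal ∂mu =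
      ENNReal.ofReal (av (fun x : 𝕜 => ‖x‖^r.toReal) N b c) := by
    rw [← lint_av ?_ (fun x => Real.rpow_nonneg (norm_nonneg x) _)]
    · refine lintegral_congr fun t => ?_
      rw [← ENNReal.ofReal_rpow_of_nonneg (norm_nonneg _) hrpos.le, ofReal_norm_eq_enorm]
    · exact measurable_norm.pow_const _
  rw [this, ENNReal.toReal_ofReal hav]

theorem norm_fin_comb [Fact (1 ≤ r)] (hr : r ≠ ∞) (hr2 : 2 ≤ r) (t : Finset ℕ) (b : ℕ → 𝕜) :
    ‖∑ i ∈ t, b i • Rd 𝕜 r i‖ ≤ kap r.toReal * √(∑ i ∈ t, ‖b i‖^2) := by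
  classical
  set q : ℝ := r.toReal with hq
  have hq2 : 2 ≤ q := by
    rw [hq, ← ENNReal.toReal_ofNat 2]
    exact (ENNReal.toReal_le_toReal ENNReal.ofNat_ne_top hr).2 hr2
  have hq0 : 0 < q := by linarith
  obtain ⟨N, hN⟩ : ∃ N, t ⊆ Finset.range N := t.exists_nat_subset_range
  set b' : ℕ → 𝕜 := fun i => if i ∈ t then b i else 0 with hb'
  have e1 : ∑ i ∈ t, b i • Rd 𝕜 r i = (0:𝕜) • Uo 𝕜 r + ∑ i ∈ Finset.range N, b' i • Rd 𝕜 r i := by
    rw [zero_smul, zero_add, ← Finset.sum_subset hN]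
    · refine Finset.sum_congr rfl fun i hi => ?_
      simp only [hb', if_pos hi]
    · intro i _ hi
      simp only [hb', if_neg hi, zero_smul]
  have e2 : ∑ i ∈ t, ‖b i‖^2 = ∑ i ∈ Finset.range N, ‖b' i‖^2 := by
    rw [← Finset.sum_subset hN]
    · refine Finset.sum_congr rfl fun i hi => ?_
      simp only [hb', if_pos hi]
    · intro i _ hi
      simp only [hb', if_neg hi, norm_zero]
      norm_num
  have h1 := norm_comb (𝕜 := 𝕜) r hr N b' 0
  have h2 := av_rpow (𝕜 := 𝕜) hq2 N b'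
  rw [← hq] at h1
  rw [← h1, ← e1, ← e2] at h2
  set A : ℝ := ∑ i ∈ t, ‖b i‖^2 with hA
  have hA0 : 0 ≤ A := Finset.sum_nonneg fun i _ => by positivity
  have h3 : (‖∑ i ∈ t, b i • Rd 𝕜 r i‖^q)^(1/q) ≤ (K q * A^(q/2))^(1/q) :=
    Real.rpow_le_rpow (Real.rpow_nonneg (norm_nonneg _) _) h2 (by positivity)
  rw [← Real.rpow_mul (norm_nonneg _), mul_one_div_cancel hq0.ne', Real.rpow_one,
    Real.mul_rpow (K_pos q).le (Real.rpow_nonneg hA0 _), ← Real.rpow_mul hA0,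
    show q/2 * (1/q) = 1/2 by field_simp, ← Real.sqrt_eq_rpow] at h3
  exact h3

end Pool.Agent.R271.Kh
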