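import Pool.Agent.R271.Rad

namespace Pool.Agent.R271.Kh

open MeasureTheory Set Filter
open scoped ENNReal

section integrals

variable {𝕜 : Type*} [RCLike 𝕜]

theorem integral_sg {H : ℝ → 𝕜} (hH : AEStronglyMeasurable H mu) :
    ∫ t, H (sg t) ∂mu = ∫ t, H t ∂mu := by
  have h := integral_map (μ := mu) measurable_sg.aemeasurable (f := H)
    (by rw [mp_sg.map_eq]; exact hH)
  rw [mp_sg.map_eq] at h
  exact h.symm

theorem integral_sg_r0 {H : ℝ → 𝕜} (hH : Integrable H mu) :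
    ∫ t, H (sg t) * r0 𝕜 t ∂mu = 0 := by
  have hHs : Integrable (fun t => H (sg t)) mu := mp_sg.integrable_comp_of_integrable hH
  have hI : Integrable (fun t => H (sg t) * r0 𝕜 t) mu := by
    refine hHs.mul_bdd (c := 1) (measurable_r0 𝕜).aestronglyMeasurable ?_
    exact Eventually.of_forall fun t => (norm_rad 𝕜 0 t).le
  have hI2 := hI
  rw [mu_split] at hI2
  have hA := hI2.left_of_add_measure
  have hB := hI2.right_of_add_measure
  have hA' := (integrable_smul_measure (by simp) (by simp)).1 hA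
  have hB' := (integrable_smul_measure (by simp) (by simp)).1 hB
  conv_lhs => rw [mu_split]
  rw [integral_add_measure hA hB, integral_smul_measure, integral_smul_measure,
    integral_map measurable_t0.aemeasurable hA'.aestronglyMeasurable,
    integral_map measurable_t1.aemeasurable hB'.aestronglyMeasurable]
  have e0 : ∫ t, H (sg (t0 t)) * r0 𝕜 (t0 t) ∂mu = ∫ t, H t ∂mu := by
    refine integral_congr_ae ?_
    filter_upwards [ae_t0 𝕜] with u hu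
    rw [hu.1, hu.2, mul_one]
  have e1 : ∫ t, H (sg (t1 t)) * r0 𝕜 (t1 t) ∂mu = - ∫ t, H t ∂mu := by
    rw [← integral_neg]
    refine integral_congr_ae ?_
    filter_upwards [ae_t1 𝕜] with u hu
    rw [hu.1, hu.2]
    ring
  rw [e0, e1]
  simp

theorem integrable_rad (n : ℕ) : Integrable (rad 𝕜 n) mu :=
  (memLp_rad (𝕜 := 𝕜) 1 n).integrable le_rfl

theorem integral_rad (n : ℕ) : ∫ t, rad 𝕜 n t ∂mu = 0 := by
  induction n with
  | zero =>
    have h := integral_sg_r0 (𝕜 := 𝕜) (H := fun _ => 1) (integrable_const 1)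
    simpa [rad_zero] using h
  | succ n ih =>
    simp only [rad_succ]
    rw [integral_sg (measurable_rad 𝕜 n).aestronglyMeasurable, ih]

theorem integral_rad_zero_succ (n : ℕ) : ∫ t, rad 𝕜 0 t * rad 𝕜 (n+1) t ∂mu = 0 := by
  have h := integral_sg_r0 (𝕜 := 𝕜) (integrable_rad n)
  rw [← h]
  refine integral_congr_ae (Eventually.of_forall fun t => ?_)
  simp only [rad_succ, rad_zero]
  ring

theorem integral_rad_zero_zero : ∫ t, rad 𝕜 0 t * rad 𝕜 0 t ∂mu = 1 := by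
  have : ∀ t, rad 𝕜 0 t * rad 𝕜 0 t = 1 := by
    intro t
    unfold rad r0
    simp only [Function.iterate_zero, id]
    split_ifs <;> simp
  simp [this]

end integrals

section pairing

variable {𝕜 : Type*} [RCLike 𝕜] {p p' : ℝ≥0∞} [Fact (1 ≤ p)] [Fact (1 ≤ p')]
  [p.HolderConjugate p']

noncomputable def pr (f : Lp 𝕜 p mu) (g : Lp 𝕜 p' mu) : 𝕜 := ∫ t, f t * g t ∂mu

omit [Fact (1 ≤ p)] [Fact (1 ≤ p')] in
theorem integrable_pr (f : Lp 𝕜 p mu) (g : Lp 𝕜 p' mu) : Integrable (fun t => f t * g t) mu :=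
  (Lp.memLp f).integrable_mul (Lp.memLp g)

omit [Fact (1 ≤ p)] [Fact (1 ≤ p')] in
theorem pr_add_left (f f' : Lp 𝕜 p mu) (g : Lp 𝕜 p' mu) : pr (f + f') g = pr f g + pr f' g := by
  unfold pr
  rw [← integral_add (integrable_pr f g) (integrable_pr f' g)]
  refine integral_congr_ae ?_
  filter_upwards [Lp.coeFn_add f f'] with t h
  rw [h, Pi.add_apply, add_mul]

theorem pr_smul_left (z : 𝕜) (f : Lp 𝕜 p mu) (g : Lp 𝕜 p' mu) : pr (z • f) g = z * pr f g := by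
  unfold pr
  rw [← integral_const_mul]
  refine integral_congr_ae ?_
  filter_upwards [Lp.coeFn_smul z f] with t h
  rw [h, Pi.smul_apply, smul_eq_mul, mul_assoc]

omit [Fact (1 ≤ p)] [Fact (1 ≤ p')] in
theorem pr_add_right (f : Lp 𝕜 p mu) (g g' : Lp 𝕜 p' mu) : pr f (g + g') = pr f g + pr f g' := by
  unfold pr
  rw [← integral_add (integrable_pr f g) (integrable_pr f g')]
  refine integral_congr_ae ?_
  filter_upwards [Lp.coeFn_add g g'] with t h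
  rw [h, Pi.add_apply, mul_add]

theorem pr_smul_right (z : 𝕜) (f : Lp 𝕜 p mu) (g : Lp 𝕜 p' mu) : pr f (z • g) = z * pr f g := by
  unfold pr
  rw [← integral_const_mul]
  refine integral_congr_ae ?_
  filter_upwards [Lp.coeFn_smul z g] with t h
  rw [h, Pi.smul_apply, smul_eq_mul]
  ring

theorem pr_sum_right (f : Lp 𝕜 p mu) (s : Finset ℕ) (b : ℕ → 𝕜) (g : ℕ → Lp 𝕜 p' mu) :
    pr f (∑ i ∈ s, b i • g i) = ∑ i ∈ s, b i * pr f (g i) := by
  classical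
  induction s using Finset.induction_on with
  | empty =>
    have h := pr_smul_right (0:𝕜) f (0 : Lp 𝕜 p' mu)
    rw [zero_smul, zero_mul] at h
    simpa using h
  | insert i s hi ih =>
    rw [Finset.sum_insert hi, Finset.sum_insert hi, pr_add_right, pr_smul_right, ih]

omit [Fact (1 ≤ p)] [Fact (1 ≤ p')] in
theorem norm_pr_le (f : Lp 𝕜 p mu) (g : Lp 𝕜 p' mu) : ‖pr f g‖ ≤ ‖f‖ * ‖g‖ := by
  have h1 : ‖pr f g‖ₑ ≤ eLpNorm f p mu * eLpNorm g p' mu := by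
    calc ‖pr f g‖ₑ ≤ ∫⁻ t, ‖f t * g t‖ₑ ∂mu := enorm_integral_le_lintegral_enorm _
      _ = eLpNorm ((f : ℝ → 𝕜) • (g : ℝ → 𝕜)) 1 mu := by
          rw [eLpNorm_one_eq_lintegral_enorm]
          rfl
      _ ≤ eLpNorm f p mu * eLpNorm g p' mu :=
          eLpNorm_smul_le_mul_eLpNorm (Lp.aestronglyMeasurable g) (Lp.aestronglyMeasurable f)
  have h2 := ENNReal.toReal_mono
    (ENNReal.mul_ne_top (Lp.memLp f).eLpNorm_ne_top (Lp.memLp g).eLpNorm_ne_top) h1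
  rw [ENNReal.toReal_mul, toReal_enorm] at h2
  exact h2

/-- pairing with a fixed function, as a functional -/
noncomputable def prL (g : Lp 𝕜 p' mu) : Lp 𝕜 p mu →L[𝕜] 𝕜 :=
  LinearMap.mkContinuous
    { toFun := fun f => pr f g
      map_add' := fun f f' => pr_add_left f f' g
      map_smul' := fun z f => by rw [pr_smul_left, RingHom.id_apply, smul_eq_mul] }
    ‖g‖ (fun f => by
      change ‖pr f g‖ ≤ ‖g‖ * ‖f‖
      rw [mul_comm]
      exact norm_pr_le f g)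

theorem prL_apply (g : Lp 𝕜 p' mu) (f : Lp 𝕜 p mu) : prL g f = pr f g := rfl

theorem pr_comb_one (f : Lp 𝕜 p mu) : pr f (Uo 𝕜 p') = ∫ t, f t ∂mu := by
  unfold pr
  refine integral_congr_ae ?_
  filter_upwards [(memLp_one (𝕜 := 𝕜) p').coeFn_toLp] with t h
  unfold Uo
  rw [h, mul_one]

theorem pr_comb_rad (f : Lp 𝕜 p mu) (n : ℕ) : pr f (Rd 𝕜 p' n) = ∫ t, f t * rad 𝕜 n t ∂mu := by
  unfold pr
  refine integral_congr_ae ?_
  filter_upwards [(memLp_rad (𝕜 := 𝕜) p' n).coeFn_toLp] with t h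
  unfold Rd
  rw [h]

theorem norm_Uo (h : p' ≠ ∞) : ‖Uo 𝕜 p'‖ = 1 := by
  have hr0 : p' ≠ 0 := (lt_of_lt_of_le one_pos (Fact.out : 1 ≤ p')).ne'
  have hrpos : 0 < p'.toReal := ENNReal.toReal_pos hr0 h
  have h1 := norm_comb (𝕜 := 𝕜) p' h 0 (fun _ => 0) 1
  simp only [Finset.range_zero, Finset.sum_empty, add_zero, one_smul, av_zero, norm_one,
    Real.one_rpow] at h1
  have h2 : (‖Uo 𝕜 p'‖^p'.toReal)^(1/p'.toReal) = 1 := by rw [h1, Real.one_rpow]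
  rwa [← Real.rpow_mul (norm_nonneg _), mul_one_div_cancel hrpos.ne', Real.rpow_one] at h2

theorem bessel (hp' : 2 ≤ p') (hpt : p' ≠ ∞) (t : Finset ℕ) (f : Lp 𝕜 p mu) :
    √(∑ i ∈ t, ‖prL (Rd 𝕜 p' i) f‖^2) ≤ kap p'.toReal * ‖f‖ := by
  set S : ℝ := ∑ i ∈ t, ‖prL (Rd 𝕜 p' i) f‖^2 with hS
  have hS0 : 0 ≤ S := Finset.sum_nonneg fun i _ => by positivity
  set b : ℕ → 𝕜 := fun i => (starRingEnd 𝕜) (pr f (Rd 𝕜 p' i)) with hb
  have e1 : ((S : ℝ) : 𝕜) = pr f (∑ i ∈ t, b i • Rd 𝕜 p' i) := by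
    rw [pr_sum_right, hS]
    push_cast
    refine Finset.sum_congr rfl fun i _ => ?_
    simp only [hb, prL_apply]
    rw [RCLike.conj_mul]
  have e2 : S ≤ ‖f‖ * (kap p'.toReal * √S) := by
    have h1 : S = ‖((S : ℝ) : 𝕜)‖ := by rw [RCLike.norm_ofReal, abs_of_nonneg hS0]
    have h2 := norm_fin_comb (𝕜 := 𝕜) p' hpt hp' t b
    have h3 : ∑ i ∈ t, ‖b i‖^2 = S := by
      rw [hS]
      refine Finset.sum_congr rfl fun i _ => ?_
      simp only [hb, prL_apply, RCLike.norm_conj]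
    rw [h3] at h2
    rw [h1, e1]
    refine (norm_pr_le _ _).trans ?_
    rw [← e1, ← h1]
    exact mul_le_mul_of_nonneg_left h2 (norm_nonneg f)
  rcases hS0.eq_or_lt with h0 | h0
  · rw [← h0, Real.sqrt_zero]
    exact mul_nonneg (kap_pos _).le (norm_nonneg f)
  · have hsq : 0 < √S := Real.sqrt_pos.2 h0
    have h4 : √S * √S = S := Real.mul_self_sqrt hS0
    have h5 : √S * √S ≤ (kap p'.toReal * ‖f‖) * √S := by
      rw [h4]; linarith
    exact le_of_mul_le_mul_right h5 hsq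

/-- composition with the doubling map -/
noncomputable def sh (f : Lp 𝕜 p mu) : Lp 𝕜 p mu := Lp.compMeasurePreserving sg mp_sg f

omit [Fact (1 ≤ p)] in
theorem coeFn_sh (f : Lp 𝕜 p mu) : (sh f : ℝ → 𝕜) =ᵐ[mu] fun t => f (sg t) :=
  Lp.coeFn_compMeasurePreserving f mp_sg

theorem norm_sh (f : Lp 𝕜 p mu) : ‖sh f‖ = ‖f‖ := Lp.norm_compMeasurePreserving f mp_sg

theorem pr_sh_one (f : Lp 𝕜 p mu) : pr (sh f) (Uo 𝕜 p') = pr f (Uo 𝕜 p') := by
  rw [pr_comb_one, pr_comb_one, ← integral_sg (Lp.aestronglyMeasurable f)]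
  exact integral_congr_ae (coeFn_sh f)

theorem pr_sh_succ (f : Lp 𝕜 p mu) (n : ℕ) :
    pr (sh f) (Rd 𝕜 p' (n+1)) = pr f (Rd 𝕜 p' n) := by
  have h0 := integral_sg (H := fun t => f t * rad 𝕜 n t)
    ((Lp.aestronglyMeasurable f).mul (measurable_rad 𝕜 n).aestronglyMeasurable)
  rw [pr_comb_rad, pr_comb_rad, ← h0]
  refine integral_congr_ae ?_
  filter_upwards [coeFn_sh f] with t h
  rw [h, rad_succ]

theorem pr_sh_zero (f : Lp 𝕜 p mu) : pr (sh f) (Rd 𝕜 p' 0) = 0 := by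
  have hf : Integrable (f : ℝ → 𝕜) mu := (Lp.memLp f).integrable Fact.out
  rw [pr_comb_rad, ← integral_sg_r0 hf]
  refine integral_congr_ae ?_
  filter_upwards [coeFn_sh f] with t h
  rw [h, rad_zero]

theorem coeFn_Uo : (Uo 𝕜 p : ℝ → 𝕜) =ᵐ[mu] fun _ => 1 := (memLp_one p).coeFn_toLp

theorem coeFn_Rd (n : ℕ) : (Rd 𝕜 p n : ℝ → 𝕜) =ᵐ[mu] rad 𝕜 n := (memLp_rad p n).coeFn_toLp

theorem pr_Uo_Uo : pr (Uo 𝕜 p) (Uo 𝕜 p') = 1 := by
  rw [pr_comb_one, integral_congr_ae coeFn_Uo]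
  simp

theorem pr_Uo_Rd (n : ℕ) : pr (Uo 𝕜 p) (Rd 𝕜 p' n) = 0 := by
  rw [pr_comb_rad, ← integral_rad (𝕜 := 𝕜) n]
  refine integral_congr_ae ?_
  filter_upwards [coeFn_Uo (𝕜 := 𝕜) (p := p)] with t h
  rw [h, one_mul]

theorem pr_Rd_Uo (n : ℕ) : pr (Rd 𝕜 p n) (Uo 𝕜 p') = 0 := by
  rw [pr_comb_one, integral_congr_ae (coeFn_Rd n), integral_rad]

theorem pr_Rd_zero_zero : pr (Rd 𝕜 p 0) (Rd 𝕜 p' 0) = 1 := by
  rw [pr_comb_rad, ← integral_rad_zero_zero (𝕜 := 𝕜)]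
  refine integral_congr_ae ?_
  filter_upwards [coeFn_Rd (𝕜 := 𝕜) (p := p) 0] with t h
  rw [h]

theorem pr_Rd_zero_succ (n : ℕ) : pr (Rd 𝕜 p 0) (Rd 𝕜 p' (n+1)) = 0 := by
  rw [pr_comb_rad, ← integral_rad_zero_succ (𝕜 := 𝕜) n]
  refine integral_congr_ae ?_
  filter_upwards [coeFn_Rd (𝕜 := 𝕜) (p := p) 0] with t h
  rw [h]

/-- the test functions `1 + ε r₀` -/
noncomputable def tv (𝕜 : Type*) [RCLike 𝕜] (p : ℝ≥0∞) [Fact (1 ≤ p)] (ε : ℝ) : Lp 𝕜 p mu :=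
  Uo 𝕜 p + (ε : 𝕜) • Rd 𝕜 p 0

theorem norm_tv (hp : p ≠ ∞) (ε : ℝ) (h0 : 0 < ε) (h1 : ε < 1) :
    ‖tv 𝕜 p ε‖^p.toReal = FF p.toReal ε := by
  have h := norm_comb (𝕜 := 𝕜) p hp 1 (fun _ => (ε : 𝕜)) 1
  rw [Finset.sum_range_one, one_smul] at h
  unfold tv
  rw [h, av_succ, av_zero, av_zero]
  have e1 : ‖(1:𝕜) + (ε:𝕜)‖ = 1 + ε := by
    rw [← RCLike.ofReal_one, ← RCLike.ofReal_add, RCLike.norm_ofReal, abs_of_nonneg (by linarith)]
  have e2 : ‖(1:𝕜) - (ε:𝕜)‖ = 1 - ε := by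
    rw [← RCLike.ofReal_one, ← RCLike.ofReal_sub, RCLike.norm_ofReal, abs_of_nonneg (by linarith)]
  rw [e1, e2, FF]

end pairing

end Pool.Agent.R271.Kh
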