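import Pool.Agent.H825R3.Tsi.Exist
import Pool.Agent.H825R3.Tsi.Oper

/-!
# Upper estimates for averages of blocks in Tsirelson space
-/

set_option autoImplicit false
open scoped ENNReal
open Finset Pool.Agent.H825R3.Tsi

namespace Pool.Agent.R271.TsiUpper

variable {T : Type} [NormedAddCommGroup T] [NormedSpace ℝ T] {e : ℕ → T}

/-- The restriction to the interval `[a, b)`. -/
noncomputable def pc (a b : ℕ) : (ℕ →₀ ℝ) →ₗ[ℝ] (ℕ →₀ ℝ) :=
  Mul (fun i => if a ≤ i ∧ i < b then 1 else 0)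

lemma pc_apply (a b : ℕ) (x : ℕ →₀ ℝ) (i : ℕ) :
    pc a b x i = if a ≤ i ∧ i < b then x i else 0 := by
  rw [pc, Mul_apply]
  split_ifs <;> simp

lemma restr_eq_pc (a b : ℕ) (x : ℕ →₀ ℝ) : restr (Finset.Ico a b) x = pc a b x := by
  ext i
  rw [pc_apply, restr]
  by_cases h : a ≤ i ∧ i < b
  · rw [if_pos h, Finsupp.filter_apply_pos _ _ (Finset.mem_Ico.2 h)]
  · rw [if_neg h, Finsupp.filter_apply_neg _ _ (fun h' => h (Finset.mem_Ico.1 h'))]

lemma norm_pc_le (h : IsTsirelson T e) (a b : ℕ) (x : ℕ →₀ ℝ) :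
    ‖Lc e (pc a b x)‖ ≤ ‖Lc e x‖ := by
  rw [h.norm_Lc, h.norm_Lc]
  have h1 := rho_Mul (fun i => if a ≤ i ∧ i < b then (1 : ℝ) else 0) 1
    (fun i => by split_ifs <;> simp) x
  rw [one_mul] at h1
  exact ENNReal.toReal_mono (rho_Phi_ne_top x) h1

lemma norm_le_of (h : IsTsirelson T e) (x : ℕ →₀ ℝ) {B : ℝ} (hB : 0 ≤ B)
    (h0 : ∀ k, |x k| ≤ B) (h1 : ∀ (κ : ℕ) (t : ℕ → ℕ), Monotone t → κ ≤ t 0 + 1 →
      ∑ l ∈ range κ, ‖Lc e (pc (t l) (t (l + 1)) x)‖ ≤ 2 * B) : ‖Lc e x‖ ≤ B := by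
  rw [h.norm_Lc]
  apply ENNReal.toReal_le_of_le_ofReal hB
  apply rho_le_of
  · intro n
    unfold Phi
    rw [Real.enorm_eq_ofReal_abs]
    exact ENNReal.ofReal_le_ofReal (h0 n)
  · intro κ t ht hκ
    have h2 : ∀ l, rho (ind (Set.Ico (t l) (t (l + 1))) (Phi x)) =
        ENNReal.ofReal ‖Lc e (pc (t l) (t (l + 1)) x)‖ := by
      intro l
      rw [← restr_eq_pc, ← Finset.coe_Ico, ← Phi_restr]
      exact h.rho_eq _
    rw [Finset.sum_congr rfl fun l _ => h2 l,
      ← ENNReal.ofReal_sum_of_nonneg fun l _ => norm_nonneg _]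
    refine (ENNReal.ofReal_le_ofReal (h1 κ t ht hκ)).trans (le_of_eq ?_)
    rw [ENNReal.ofReal_mul (by norm_num)]
    norm_num

lemma sum_pc_le (h : IsTsirelson T e) (x : ℕ →₀ ℝ) {κ : ℕ} {t : ℕ → ℕ} (ht : Monotone t)
    (hκ : κ ≤ t 0 + 1) : ∑ l ∈ range κ, ‖Lc e (pc (t l) (t (l + 1)) x)‖ ≤ 2 * ‖Lc e x‖ := by
  have h1 := h.adm_le' x κ (fun l => Finset.Ico (t l) (t (l + 1)))
    (by
      intro i _ a ha
      have := (Finset.mem_Ico.1 ha).1
      have := ht (Nat.zero_le i)
      omega)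
    (by
      intro i j hij _ a ha b hb
      have h3 := (Finset.mem_Ico.1 ha).2
      have h4 := (Finset.mem_Ico.1 hb).1
      have := ht (show i + 1 ≤ j by omega)
      omega)
  simp only [restr_eq_pc] at h1
  exact h1

/-! ### Blocks -/

section blocks

variable {a : ℕ → ℕ} {f : ℕ → (ℕ →₀ ℝ)} {C : ℝ}

/-- The pieces of a block. -/
noncomputable def RR (e : ℕ → T) (f : ℕ → (ℕ →₀ ℝ)) (κ : ℕ) (t : ℕ → ℕ) (j : ℕ) : ℝ :=
  ∑ l ∈ range κ, ‖Lc e (pc (t l) (t (l + 1)) (f j))‖

lemma RR_nonneg (κ : ℕ) (t : ℕ → ℕ) (j : ℕ) : 0 ≤ RR e f κ t j :=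
  Finset.sum_nonneg fun _ _ => norm_nonneg _

/-- The block `j` is cut by one of the points `t 0, ..., t κ`. -/
def IsCut (a : ℕ → ℕ) (κ : ℕ) (t : ℕ → ℕ) (j : ℕ) : Prop :=
  ∃ l ∈ range (κ + 1), a j < t l ∧ t l < a (j + 1)

lemma RR_le_two (h : IsTsirelson T e) (hC : ∀ j, ‖Lc e (f j)‖ ≤ C) {κ : ℕ} {t : ℕ → ℕ}
    (ht : Monotone t) (hκ : κ ≤ t 0 + 1) (j : ℕ) : RR e f κ t j ≤ 2 * C :=
  (sum_pc_le h (f j) ht hκ).trans (by linarith [hC j])

lemma pc_eq_zero (hf : ∀ j p, f j p ≠ 0 → a j ≤ p ∧ p < a (j + 1)) {j u v : ℕ}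
    (huv : v ≤ a j ∨ a (j + 1) ≤ u) : pc u v (f j) = 0 := by
  ext p
  rw [pc_apply, Finsupp.zero_apply]
  by_cases hp : f j p = 0
  · rw [hp, ite_self]
  · have h1 := hf j p hp
    rw [if_neg]
    omega

lemma RR_eq_zero (hf : ∀ j p, f j p ≠ 0 → a j ≤ p ∧ p < a (j + 1)) {κ : ℕ} {t : ℕ → ℕ}
    (ht : Monotone t) {j : ℕ} (hj : a (j + 1) ≤ t 0) : RR e f κ t j = 0 := by
  apply Finset.sum_eq_zero
  intro l _
  rw [pc_eq_zero hf (Or.inr (hj.trans (ht (Nat.zero_le l)))), map_zero, norm_zero]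

lemma RR_uncut (h : IsTsirelson T e) (hf : ∀ j p, f j p ≠ 0 → a j ≤ p ∧ p < a (j + 1))
    (hC : ∀ j, ‖Lc e (f j)‖ ≤ C) {κ : ℕ} {t : ℕ → ℕ} (ht : Monotone t) {j : ℕ}
    (hcut : ¬ IsCut a κ t j) : RR e f κ t j ≤ C := by
  have hC0 : 0 ≤ C := (norm_nonneg _).trans (hC 0)
  by_cases hne : a j < a (j + 1)
  swap
  · have h1 : f j = 0 := by
      ext p
      by_contra hp
      have := hf j p hp
      omega
    rw [RR, h1]
    simpa using hC0
  by_cases hex : ∃ l ∈ range κ, t l ≤ a j ∧ a (j + 1) ≤ t (l + 1)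
  · obtain ⟨l, hl, hl1, hl2⟩ := hex
    rw [RR, Finset.sum_eq_single_of_mem l hl]
    · exact (norm_pc_le h _ _ _).trans (hC j)
    · intro l' hl' hne'
      rw [pc_eq_zero hf, map_zero, norm_zero]
      rcases lt_or_gt_of_ne hne' with h1 | h1
      · left
        exact (ht (show l' + 1 ≤ l by omega)).trans hl1
      · right
        exact hl2.trans (ht (show l + 1 ≤ l' by omega))
  · rw [RR, Finset.sum_eq_zero]
    · exact hC0
    · intro l hl
      rw [pc_eq_zero hf, map_zero, norm_zero]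
      by_contra hcon
      push Not at hcon
      obtain ⟨h1, h2⟩ := hcon
      have hl' := Finset.mem_range.1 hl
      have h3 : t l ≤ a j := by
        by_contra h4
        push Not at h4
        exact hcut ⟨l, Finset.mem_range.2 (by omega), h4, h2⟩
      have h5 : a (j + 1) ≤ t (l + 1) := by
        by_contra h6
        push Not at h6
        exact hcut ⟨l + 1, Finset.mem_range.2 (by omega), h1, h6⟩
      exact hex ⟨l, hl, h3, h5⟩

open Classical in
lemma card_cut (ha : Monotone a) (κ : ℕ) (t : ℕ → ℕ) (F : Finset ℕ) :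
    (F.filter fun j => IsCut a κ t j).card ≤ κ + 1 := by
  have h1 : ∀ j : ℕ, ∃ l, IsCut a κ t j → l ∈ range (κ + 1) ∧ a j < t l ∧ t l < a (j + 1) := by
    intro j
    by_cases hj : IsCut a κ t j
    · obtain ⟨l, hl⟩ := hj
      exact ⟨l, fun _ => hl⟩
    · exact ⟨0, fun h => absurd h hj⟩
  choose g hg using h1
  have h2 : (F.filter fun j => IsCut a κ t j).card ≤ (range (κ + 1)).card := by
    apply Finset.card_le_card_of_injOn g
    · intro j hj
      have hj' := (Finset.mem_filter.1 hj).2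
      exact (hg j hj').1
    · intro i hi j hj hij
      have hi' := hg i (Finset.mem_filter.1 hi).2
      have hj' := hg j (Finset.mem_filter.1 hj).2
      by_contra hne
      rcases lt_or_gt_of_ne hne with h3 | h3
      · have := ha (show i + 1 ≤ j by omega)
        rw [hij] at hi'
        omega
      · have := ha (show j + 1 ≤ i by omega)
        rw [hij] at hi'
        omega
  rwa [Finset.card_range] at h2

variable {k s : ℕ → ℕ} {K : ℕ}

lemma avg_le_two (h : IsTsirelson T e) (hC : ∀ j, ‖Lc e (f j)‖ ≤ C) (hs : ∀ i, 0 < s i)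
    (hk : ∀ i, k (i + 1) = k i + s i) {κ : ℕ} {t : ℕ → ℕ} (ht : Monotone t)
    (hκ : κ ≤ t 0 + 1) (i : ℕ) :
    (1 / (s i : ℝ)) * ∑ j ∈ Ico (k i) (k (i + 1)), RR e f κ t j ≤ 2 * C := by
  have hs' : (0 : ℝ) < s i := by exact_mod_cast hs i
  have h1 : ∑ j ∈ Ico (k i) (k (i + 1)), RR e f κ t j ≤ s i * (2 * C) := by
    refine (Finset.sum_le_sum fun j _ => RR_le_two h hC ht hκ j).trans (le_of_eq ?_)
    rw [Finset.sum_const, Nat.card_Ico, hk, Nat.add_sub_cancel_left, nsmul_eq_mul]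
  rw [one_div, inv_mul_le_iff₀ hs']
  exact h1

lemma avg_le (h : IsTsirelson T e) (ha : Monotone a)
    (hf : ∀ j p, f j p ≠ 0 → a j ≤ p ∧ p < a (j + 1))
    (hC : ∀ j, ‖Lc e (f j)‖ ≤ C) (hs : ∀ i, 0 < s i) (hK : 0 < K)
    (hsK : ∀ i, K * (a (k i) + 1) ≤ s i)
    (hk : ∀ i, k (i + 1) = k i + s i) {κ : ℕ} {t : ℕ → ℕ} (ht : Monotone t)
    (hκ : κ ≤ t 0 + 1) {i : ℕ} (hi : t 0 < a (k i)) :
    (1 / (s i : ℝ)) * ∑ j ∈ Ico (k i) (k (i + 1)), RR e f κ t j ≤ C + C / K := by
  classical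
  have hC0 : 0 ≤ C := (norm_nonneg _).trans (hC 0)
  have hs' : (0 : ℝ) < s i := by exact_mod_cast hs i
  have hK' : (0 : ℝ) < K := by exact_mod_cast hK
  have h1 : ∑ j ∈ Ico (k i) (k (i + 1)), RR e f κ t j ≤ s i * C + (κ + 1) * C := by
    have h2 : ∀ j ∈ Ico (k i) (k (i + 1)), RR e f κ t j ≤ C + if IsCut a κ t j then C else 0 := by
      intro j _
      split_ifs with hj
      · have := RR_le_two h hC ht hκ j
        linarith
      · rw [add_zero]
        exact RR_uncut h hf hC ht hj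
    refine (Finset.sum_le_sum h2).trans ?_
    rw [Finset.sum_add_distrib, Finset.sum_const, Nat.card_Ico, hk, Nat.add_sub_cancel_left,
      nsmul_eq_mul, ← Finset.sum_filter, Finset.sum_const, nsmul_eq_mul]
    have h3 := card_cut ha κ t (Ico (k i) (k i + s i))
    have h4 : (((Ico (k i) (k i + s i)).filter fun j => IsCut a κ t j).card : ℝ) ≤ κ + 1 := by
      exact_mod_cast h3
    have h5 := mul_le_mul_of_nonneg_right h4 hC0
    linarith
  rw [one_div, inv_mul_le_iff₀ hs']
  refine h1.trans ?_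
  have h6 : K * (κ + 1) ≤ s i := by
    refine le_trans (Nat.mul_le_mul_left K ?_) (hsK i)
    omega
  have h7 : ((K : ℝ) * (κ + 1)) ≤ s i := by exact_mod_cast h6
  have h8 : ((κ : ℝ) + 1) * C ≤ s i * (C / K) := by
    rw [mul_div_assoc', le_div_iff₀ hK']
    have := mul_le_mul_of_nonneg_right h7 hC0
    linarith
  linarith

lemma sum_blocks (hk : ∀ i, k (i + 1) = k i + s i) (g : ℕ → ℝ) (n : ℕ) :
    ∑ i ∈ range n, ∑ j ∈ Ico (k i) (k (i + 1)), g j = ∑ j ∈ Ico (k 0) (k n), g j := by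
  have hmono : Monotone k := monotone_nat_of_le_succ fun i => by rw [hk]; exact Nat.le_add_right _ _
  induction n with
  | zero => simp
  | succ n ih =>
    rw [Finset.sum_range_succ, ih,
      Finset.sum_Ico_consecutive g (hmono (Nat.zero_le n)) (hmono (Nat.le_succ n))]

/-- The sum of averages of blocks. -/
noncomputable def WW (f : ℕ → (ℕ →₀ ℝ)) (k s : ℕ → ℕ) (n : ℕ) : ℕ →₀ ℝ :=
  ∑ i ∈ range n, (1 / (s i : ℝ)) • ∑ j ∈ Ico (k i) (k (i + 1)), f j

/-- The main upper estimate. -/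
theorem norm_WW_le (h : IsTsirelson T e) (ha : Monotone a)
    (hf : ∀ j p, f j p ≠ 0 → a j ≤ p ∧ p < a (j + 1))
    (hC : ∀ j, ‖Lc e (f j)‖ ≤ C) (hs : ∀ i, 0 < s i) (hK : 0 < K)
    (hsK : ∀ i, K * (a (k i) + 1) ≤ s i) (hk : ∀ i, k (i + 1) = k i + s i) (n : ℕ) :
    ‖Lc e (WW f k s n)‖ ≤ n * (C + C / K) / 2 + C := by
  classical
  have hC0 : 0 ≤ C := (norm_nonneg _).trans (hC 0)
  have hK' : (0 : ℝ) < K := by exact_mod_cast hK
  have hmono : Monotone k := monotone_nat_of_le_succ fun i => by rw [hk]; exact Nat.le_add_right _ _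
  apply norm_le_of h _ (by positivity)
  · -- coordinates
    intro p
    have h1 : |WW f k s n p| ≤ ∑ i ∈ range n, ∑ j ∈ Ico (k i) (k (i + 1)), |f j p| := by
      rw [WW, Finsupp.finsetSum_apply]
      refine (Finset.abs_sum_le_sum_abs _ _).trans (Finset.sum_le_sum fun i _ => ?_)
      rw [Finsupp.smul_apply, Finsupp.finsetSum_apply, smul_eq_mul, abs_mul]
      have hs1 : (1 : ℝ) ≤ s i := by exact_mod_cast hs i
      have h2 : |1 / (s i : ℝ)| ≤ 1 := by
        rw [abs_of_pos (by positivity), div_le_one (by positivity)]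
        exact hs1
      have h3 := Finset.abs_sum_le_sum_abs (fun j => f j p) (Ico (k i) (k (i + 1)))
      calc |1 / (s i : ℝ)| * |∑ j ∈ Ico (k i) (k (i + 1)), f j p|
          ≤ 1 * |∑ j ∈ Ico (k i) (k (i + 1)), f j p| :=
            mul_le_mul_of_nonneg_right h2 (abs_nonneg _)
        _ = |∑ j ∈ Ico (k i) (k (i + 1)), f j p| := one_mul _
        _ ≤ _ := h3
    rw [sum_blocks hk] at h1
    have h2 : ∑ j ∈ Ico (k 0) (k n), |f j p| ≤ C := by
      by_cases hex : ∃ j ∈ Ico (k 0) (k n), f j p ≠ 0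
      · obtain ⟨j, hj, hjp⟩ := hex
        rw [Finset.sum_eq_single_of_mem j hj]
        · have h3 := h.coord_le (f j) p
          exact h3.trans (hC j)
        · intro i _ hij
          rw [abs_eq_zero]
          by_contra hip
          have h3 := hf i p hip
          have h4 := hf j p hjp
          rcases lt_or_gt_of_ne hij with h5 | h5
          · have := ha (show i + 1 ≤ j by omega)
            omega
          · have := ha (show j + 1 ≤ i by omega)
            omega
      · push Not at hex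
        rw [Finset.sum_eq_zero fun j hj => by rw [hex j hj, abs_zero]]
        exact hC0
    have h3 : 0 ≤ n * (C + C / K) / 2 := by positivity
    linarith
  · -- pieces
    intro κ t ht hκ
    have h1 : ∀ l, ‖Lc e (pc (t l) (t (l + 1)) (WW f k s n))‖ ≤
        ∑ i ∈ range n, (1 / (s i : ℝ)) * ∑ j ∈ Ico (k i) (k (i + 1)),
          ‖Lc e (pc (t l) (t (l + 1)) (f j))‖ := by
      intro l
      rw [WW, map_sum, map_sum]
      refine (norm_sum_le _ _).trans (Finset.sum_le_sum fun i _ => ?_)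
      rw [map_smul, map_smul, map_sum, map_sum, norm_smul,
        Real.norm_of_nonneg (by positivity : (0 : ℝ) ≤ 1 / (s i : ℝ))]
      exact mul_le_mul_of_nonneg_left (norm_sum_le _ _) (by positivity)
    have h2 : ∑ l ∈ range κ, ‖Lc e (pc (t l) (t (l + 1)) (WW f k s n))‖ ≤
        ∑ i ∈ range n, (1 / (s i : ℝ)) * ∑ j ∈ Ico (k i) (k (i + 1)), RR e f κ t j := by
      refine (Finset.sum_le_sum fun l _ => h1 l).trans (le_of_eq ?_)
      rw [Finset.sum_comm]
      refine Finset.sum_congr rfl fun i _ => ?_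
      rw [← Finset.mul_sum, Finset.sum_comm]
      rfl
    refine h2.trans ?_
    have h3 : ∀ i ∈ range n, (1 / (s i : ℝ)) * ∑ j ∈ Ico (k i) (k (i + 1)), RR e f κ t j ≤
        (C + C / K) + if a (k i) ≤ t 0 ∧ t 0 < a (k (i + 1)) then 2 * C else 0 := by
      intro i _
      rcases lt_or_ge (t 0) (a (k i)) with h4 | h4
      · rw [if_neg (by omega), add_zero]
        exact avg_le h ha hf hC hs hK hsK hk ht hκ h4
      · rcases lt_or_ge (t 0) (a (k (i + 1))) with h5 | h5
        · rw [if_pos ⟨h4, h5⟩]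
          have h6 := avg_le_two h hC hs hk ht hκ i
          have h7 : 0 ≤ C + C / K := by positivity
          linarith
        · rw [if_neg (by omega), add_zero, Finset.sum_eq_zero, mul_zero]
          · positivity
          · intro j hj
            apply RR_eq_zero hf ht
            exact (ha (Finset.mem_Ico.1 hj).2).trans h5
    refine (Finset.sum_le_sum h3).trans ?_
    rw [Finset.sum_add_distrib, Finset.sum_const, Finset.card_range, nsmul_eq_mul,
      ← Finset.sum_filter, Finset.sum_const, nsmul_eq_mul]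
    have h4 : ((range n).filter fun i => a (k i) ≤ t 0 ∧ t 0 < a (k (i + 1))).card ≤ 1 := by
      rw [Finset.card_le_one]
      intro i hi j hj
      have hi' := (Finset.mem_filter.1 hi).2
      have hj' := (Finset.mem_filter.1 hj).2
      by_contra hne
      rcases lt_or_gt_of_ne hne with h5 | h5
      · have := ha (hmono (show i + 1 ≤ j by omega))
        omega
      · have := ha (hmono (show j + 1 ≤ i by omega))
        omega
    have h5 : (((range n).filter fun i => a (k i) ≤ t 0 ∧ t 0 < a (k (i + 1))).card : ℝ) ≤ 1 := by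
      exact_mod_cast h4
    have h6 := mul_le_mul_of_nonneg_right h5 (show 0 ≤ 2 * C by linarith)
    linarith

end blocks

/-! ### Coordinates and projections -/

section proj

variable {es : ℕ → StrongDual ℝ T}

/-- The coordinates of `y` in the interval `[a, b)`. -/
noncomputable def seg (es : ℕ → StrongDual ℝ T) (a b : ℕ) (y : T) : ℕ →₀ ℝ :=
  ∑ i ∈ Ico a b, Finsupp.single i (es i y)

lemma seg_apply (a b : ℕ) (y : T) (i : ℕ) :
    seg es a b y i = if a ≤ i ∧ i < b then es i y else 0 := by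
  classical
  rw [seg, Finsupp.finsetSum_apply]
  by_cases h : a ≤ i ∧ i < b
  · rw [if_pos h, Finset.sum_eq_single_of_mem i (Finset.mem_Ico.2 h)]
    · simp
    · intro j _ hj
      simp [hj]
  · rw [if_neg h]
    apply Finset.sum_eq_zero
    intro j hj
    have : j ≠ i := by
      rintro rfl
      exact h (Finset.mem_Ico.1 hj)
    simp [this]

lemma continuous_seg (a b : ℕ) : Continuous (fun y : T => Lc e (seg es a b y)) := by
  have h1 : (fun y : T => Lc e (seg es a b y)) = fun y => ∑ i ∈ Ico a b, es i y • e i := by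
    funext y
    rw [seg, map_sum]
    exact Finset.sum_congr rfl fun i _ => Lc_single _ _
  rw [h1]
  fun_prop

lemma seg_Lc (hes : Biorthogonal e es) (a b : ℕ) (x : ℕ →₀ ℝ) :
    seg es a b (Lc e x) = pc a b x := by
  ext i
  rw [seg_apply, pc_apply, IsTsirelson.es_Lc hes]

lemma norm_seg_le (h : IsTsirelson T e) (hes : Biorthogonal e es) (a b : ℕ) (y : T) :
    ‖Lc e (seg es a b y)‖ ≤ ‖y‖ := by
  refine h.denseRange.induction_on (p := fun y => ‖Lc e (seg es a b y)‖ ≤ ‖y‖) y
    (isClosed_le (continuous_seg a b).norm continuous_norm) fun x => ?_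
  rw [seg_Lc hes]
  exact norm_pc_le h a b x

lemma norm_sub_seg_le (h : IsTsirelson T e) (hes : Biorthogonal e es) (a : ℕ) (y : T) :
    ‖y - Lc e (seg es 0 a y)‖ ≤ ‖y‖ := by
  refine h.denseRange.induction_on (p := fun y => ‖y - Lc e (seg es 0 a y)‖ ≤ ‖y‖) y
    (isClosed_le (continuous_id.sub (continuous_seg 0 a)).norm continuous_norm) fun x => ?_
  rw [seg_Lc hes, ← map_sub]
  have h1 : ∃ b, x - pc 0 a x = pc a b x := by
    refine ⟨x.support.sup id + 1, ?_⟩
    ext i
    rw [Finsupp.sub_apply, pc_apply, pc_apply]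
    by_cases hi : x i = 0
    · simp [hi]
    · have h2 : i ≤ x.support.sup id := Finset.le_sup (f := id) (Finsupp.mem_support_iff.2 hi)
      by_cases h3 : i < a
      · rw [if_pos ⟨Nat.zero_le _, h3⟩, if_neg (by omega), sub_self]
      · rw [if_neg (by omega), if_pos (by omega), sub_zero]
  obtain ⟨b, hb⟩ := h1
  rw [hb]
  exact norm_pc_le h a b x

lemma tendsto_seg (h : IsTsirelson T e) (hes : Biorthogonal e es) (y : T) {ε : ℝ} (hε : 0 < ε) :
    ∃ N, ∀ a, N ≤ a → ‖y - Lc e (seg es 0 a y)‖ < ε := by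
  obtain ⟨x, hx⟩ := h.denseRange.exists_dist_lt y (show 0 < ε by exact hε)
  refine ⟨x.support.sup id + 1, fun a ha => ?_⟩
  have h1 : seg es 0 a (Lc e x) = x := by
    rw [seg_Lc hes]
    ext i
    rw [pc_apply]
    by_cases hi : x i = 0
    · simp [hi]
    · have h2 : i ≤ x.support.sup id := Finset.le_sup (f := id) (Finsupp.mem_support_iff.2 hi)
      rw [if_pos (by omega)]
  have h2 : y - Lc e (seg es 0 a y) = (y - Lc e x) - Lc e (seg es 0 a (y - Lc e x)) := by
    have h3 : seg es 0 a (y - Lc e x) = seg es 0 a y - seg es 0 a (Lc e x) := by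
      ext i
      rw [Finsupp.sub_apply, seg_apply, seg_apply, seg_apply, map_sub]
      split_ifs <;> simp
    rw [h3, h1, map_sub]
    abel
  rw [h2]
  refine lt_of_le_of_lt (norm_sub_seg_le h hes a _) ?_
  rw [← dist_eq_norm]
  exact hx

lemma seg_add (a b : ℕ) (y z : T) : seg es a b (y + z) = seg es a b y + seg es a b z := by
  ext i
  rw [Finsupp.add_apply, seg_apply, seg_apply, seg_apply, map_add]
  split_ifs <;> simp

lemma seg_sub (a b : ℕ) (y z : T) : seg es a b (y - z) = seg es a b y - seg es a b z := by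
  ext i
  rw [Finsupp.sub_apply, seg_apply, seg_apply, seg_apply, map_sub]
  split_ifs <;> simp

lemma seg_split {a b : ℕ} (hab : a ≤ b) (y : T) :
    seg es a b y = seg es 0 b y - seg es 0 a y := by
  ext i
  rw [Finsupp.sub_apply, seg_apply, seg_apply, seg_apply]
  by_cases h1 : i < a
  · rw [if_neg (by omega), if_pos (by omega), if_pos (by omega), sub_self]
  · by_cases h2 : i < b
    · rw [if_pos (by omega), if_pos (by omega), if_neg (by omega), sub_zero]
    · rw [if_neg (by omega), if_neg (by omega), if_neg (by omega), sub_zero]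

/-- The segment has norm at most the distance to the initial segment. -/
lemma norm_seg_le' (h : IsTsirelson T e) (hes : Biorthogonal e es) (a b : ℕ) (y : T) :
    ‖Lc e (seg es a b y)‖ ≤ ‖y - Lc e (seg es 0 a y)‖ := by
  have h1 : seg es a b y = seg es a b (y - Lc e (seg es 0 a y)) := by
    rw [seg_sub, seg_Lc hes]
    ext i
    rw [Finsupp.sub_apply, pc_apply, seg_apply, seg_apply]
    by_cases h2 : a ≤ i ∧ i < b
    · rw [if_pos h2, if_pos h2, if_neg (by omega), sub_zero]
    · rw [if_neg h2, if_neg h2, sub_zero]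
  rw [h1]
  exact norm_seg_le h hes a b _

lemma norm_e_le (h : IsTsirelson T e) (i : ℕ) : ‖e i‖ ≤ 1 := by
  have h1 := h.norm_Lc (Finsupp.single i 1)
  rw [Lc_single, one_smul] at h1
  rw [h1]
  have h2 : rho (Phi (Finsupp.single i (1 : ℝ))) ≤ 1 := by
    refine (rho_le_tsum _).trans ?_
    rw [tsum_Phi]
    refine (Finset.sum_le_sum_of_subset Finsupp.support_single_subset).trans ?_
    simp
  exact ENNReal.toReal_le_of_le_ofReal zero_le_one (by simpa using h2)

end proj

/-! ### The unit vectors are weakly null -/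

/-- Vectors supported in `[N, ∞)` at which `g` is at least `δ`. -/
def DD (e : ℕ → T) (g : StrongDual ℝ T) (δ : ℝ) (N : ℕ) : Set (ℕ →₀ ℝ) :=
  {b | (∀ p < N, b p = 0) ∧ δ ≤ g (Lc e b)}

theorem weakly_null (h : IsTsirelson T e) (g : StrongDual ℝ T) :
    Filter.Tendsto (fun n => g (e n)) Filter.atTop (nhds 0) := by
  rw [Metric.tendsto_atTop]
  by_contra hcon
  push Not at hcon
  obtain ⟨δ, hδ, hbad⟩ := hcon
  have hne : ∀ N, (DD e g δ N).Nonempty := by
    intro N
    obtain ⟨n, hn, hd⟩ := hbad N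
    rw [Real.dist_eq, sub_zero] at hd
    rcases le_total 0 (g (e n)) with h0 | h0
    · refine ⟨Finsupp.single n 1, fun p hp => ?_, ?_⟩
      · rw [Finsupp.single_apply, if_neg (by omega)]
      · rw [Lc_single, one_smul]
        rwa [abs_of_nonneg h0] at hd
    · refine ⟨Finsupp.single n (-1), fun p hp => ?_, ?_⟩
      · rw [Finsupp.single_apply, if_neg (by omega)]
      · rw [Lc_single, map_smul, smul_eq_mul, neg_one_mul]
        rwa [abs_of_nonpos h0] at hd
  let I : ℕ → ℝ := fun N => sInf ((fun b => ‖Lc e b‖) '' DD e g δ N)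
  have hIbdd : ∀ N, BddBelow ((fun b => ‖Lc e b‖) '' DD e g δ N) := fun N =>
    ⟨0, by rintro _ ⟨b, _, rfl⟩; exact norm_nonneg _⟩
  have hI1 : ∀ N, I N ≤ 1 := by
    intro N
    obtain ⟨n, hn, hd⟩ := hbad N
    rw [Real.dist_eq, sub_zero] at hd
    rcases le_total 0 (g (e n)) with h0 | h0
    · refine (csInf_le (hIbdd N) ⟨Finsupp.single n 1, ⟨fun p hp => ?_, ?_⟩, rfl⟩).trans ?_
      · rw [Finsupp.single_apply, if_neg (by omega)]
      · rw [Lc_single, one_smul]
        rwa [abs_of_nonneg h0] at hd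
      · dsimp only
        rw [Lc_single, one_smul]
        exact norm_e_le h n
    · refine (csInf_le (hIbdd N) ⟨Finsupp.single n (-1), ⟨fun p hp => ?_, ?_⟩, rfl⟩).trans ?_
      · rw [Finsupp.single_apply, if_neg (by omega)]
      · rw [Lc_single, map_smul, smul_eq_mul, neg_one_mul]
        rwa [abs_of_nonpos h0] at hd
      · dsimp only
        rw [Lc_single, norm_smul, norm_neg, norm_one, one_mul]
        exact norm_e_le h n
  have hg0 : 0 < ‖g‖ := by
    by_contra h0
    have h1 : ‖g‖ = 0 := le_antisymm (not_lt.1 h0) (norm_nonneg _)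
    obtain ⟨b, hb⟩ := hne 0
    have h2 := hb.2
    rw [norm_eq_zero.1 h1, zero_apply] at h2
    linarith
  have hlow : ∀ N, δ / ‖g‖ ≤ I N := by
    intro N
    apply le_csInf ((hne N).image _)
    rintro _ ⟨b, hb, rfl⟩
    rw [div_le_iff₀ hg0]
    have h1 := (le_abs_self _).trans (g.le_opNorm (Lc e b))
    have h2 := hb.2
    dsimp only
    linarith
  have hbdd : BddAbove (Set.range I) := ⟨1, by rintro _ ⟨N, rfl⟩; exact hI1 N⟩
  set γ : ℝ := ⨆ N, I N with hγ
  have hIγ : ∀ N, I N ≤ γ := fun N => le_ciSup hbdd N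
  have hγ0 : 0 < γ := lt_of_lt_of_le (by positivity) ((hlow 0).trans (hIγ 0))
  obtain ⟨N₀, hN₀⟩ := exists_lt_of_lt_ciSup (show (9 / 10) * γ < ⨆ N, I N by
    rw [← hγ]; linarith)
  -- the blocks
  have hblock : ∀ N, ∃ b ∈ DD e g δ N, ‖Lc e b‖ ≤ (11 / 10) * γ := by
    intro N
    obtain ⟨_, ⟨b, hb, rfl⟩, hb'⟩ := exists_lt_of_csInf_lt ((hne N).image _)
      (show I N < (11 / 10) * γ by linarith [hIγ N])
    exact ⟨b, hb, hb'.le⟩
  choose B hB1 hB2 using hblock
  -- the cutting points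
  let a : ℕ → ℕ := fun j => Nat.rec N₀ (fun _ m => m + (B m).support.sup id + 1) j
  have ha_succ : ∀ j, a (j + 1) = a j + (B (a j)).support.sup id + 1 := fun j => rfl
  have ha : Monotone a := monotone_nat_of_le_succ fun j => by rw [ha_succ]; omega
  let f : ℕ → (ℕ →₀ ℝ) := fun j => B (a j)
  have hf : ∀ j p, f j p ≠ 0 → a j ≤ p ∧ p < a (j + 1) := by
    intro j p hp
    constructor
    · by_contra hcon
      exact hp ((hB1 (a j)).1 p (not_le.1 hcon))
    · have h1 : p ≤ (B (a j)).support.sup id :=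
        Finset.le_sup (f := id) (Finsupp.mem_support_iff.2 hp)
      rw [ha_succ]
      omega
  let k : ℕ → ℕ := fun i => Nat.rec 0 (fun _ m => m + 100 * (a m + 1)) i
  let s : ℕ → ℕ := fun i => 100 * (a (k i) + 1)
  have hk : ∀ i, k (i + 1) = k i + s i := fun i => rfl
  have hs : ∀ i, 0 < s i := fun i => by
    show 0 < 100 * (a (k i) + 1)
    omega
  have hW := norm_WW_le h ha hf (fun j => hB2 (a j)) hs (K := 100) (by norm_num)
    (fun i => le_rfl) hk 100
  -- the average belongs to `DD`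
  have hmem : (1 / 100 : ℝ) • WW f k s 100 ∈ DD e g δ N₀ := by
    constructor
    · intro p hp
      rw [Finsupp.smul_apply, WW, Finsupp.finsetSum_apply, Finset.sum_eq_zero, smul_zero]
      intro i _
      rw [Finsupp.smul_apply, Finsupp.finsetSum_apply, Finset.sum_eq_zero, smul_zero]
      intro j _
      apply (hB1 (a j)).1
      exact lt_of_lt_of_le hp (ha (Nat.zero_le j))
    · rw [map_smul, map_smul, WW, map_sum, map_sum, smul_eq_mul]
      have h1 : ∀ i ∈ range 100, δ ≤ g (Lc e ((1 / (s i : ℝ)) •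
          ∑ j ∈ Ico (k i) (k (i + 1)), f j)) := by
        intro i _
        have hs' : (0 : ℝ) < s i := by exact_mod_cast hs i
        rw [map_smul, map_smul, map_sum, map_sum, smul_eq_mul, one_div, ← div_eq_inv_mul,
          le_div_iff₀ hs']
        have h2 : ∑ _j ∈ Ico (k i) (k (i + 1)), δ ≤
            ∑ j ∈ Ico (k i) (k (i + 1)), g (Lc e (f j)) :=
          Finset.sum_le_sum fun j _ => (hB1 (a j)).2
        rw [Finset.sum_const, Nat.card_Ico, hk, Nat.add_sub_cancel_left, nsmul_eq_mul] at h2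
        rw [hk]
        linarith
      have h2 := Finset.sum_le_sum h1
      rw [Finset.sum_const, Finset.card_range, nsmul_eq_mul] at h2
      push_cast at h2
      linarith
  have h1 : I N₀ ≤ ‖Lc e ((1 / 100 : ℝ) • WW f k s 100)‖ :=
    csInf_le (hIbdd N₀) ⟨_, hmem, rfl⟩
  rw [map_smul, norm_smul, Real.norm_of_nonneg (by norm_num)] at h1
  have hN₀' : (9 / 10) * γ < I N₀ := hN₀
  push_cast at hW
  nlinarith

end Pool.Agent.R271.TsiUpper
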