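import Mathlib

/-!
# Basic facts on the weak topology of a normed space
-/

open Filter Topology Metric Set

namespace Pool.Agent.R271

variable {𝕜 X : Type*} [RCLike 𝕜] [NormedAddCommGroup X] [NormedSpace 𝕜 X]

lemma continuous_dual_weak (f : StrongDual 𝕜 X) :
    Continuous (fun y : WeakSpace 𝕜 X => f ((toWeakSpace 𝕜 X).symm y)) :=
  WeakBilin.eval_continuous (topDualPairing 𝕜 X).flip f

lemma pairing_flip_injective : Function.Injective (topDualPairing 𝕜 X).flip := by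
  intro x y hxy
  by_contra hne
  obtain ⟨f, hf⟩ := SeparatingDual.exists_separating_of_ne (R := 𝕜) hne
  exact hf (by simpa using congrArg (fun g => g f) hxy)

lemma tendsto_weak_iff {α : Type*} {l : Filter α} {u : α → X} {x : X} :
    Tendsto (fun a => toWeakSpace 𝕜 X (u a)) l (𝓝 (toWeakSpace 𝕜 X x)) ↔
      ∀ f : StrongDual 𝕜 X, Tendsto (fun a => f (u a)) l (𝓝 (f x)) :=
  WeakBilin.tendsto_iff_forall_eval_tendsto (topDualPairing 𝕜 X).flip pairing_flip_injective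

/-- Finitely many conditions on continuous functionals define a weakly open set. -/
lemma isOpen_weak_finset {ι : Type*} (F : Finset ι) (f : ι → StrongDual 𝕜 X) (c : ι → 𝕜) (r : ℝ) :
    IsOpen {y : WeakSpace 𝕜 X | ∀ i ∈ F, ‖f i ((toWeakSpace 𝕜 X).symm y) - c i‖ < r} := by
  have : {y : WeakSpace 𝕜 X | ∀ i ∈ F, ‖f i ((toWeakSpace 𝕜 X).symm y) - c i‖ < r} =
      ⋂ i ∈ F, {y : WeakSpace 𝕜 X | ‖f i ((toWeakSpace 𝕜 X).symm y) - c i‖ < r} := by
    ext y; simp
  rw [this]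
  apply isOpen_biInter_finset
  intro i _
  exact isOpen_lt (((continuous_dual_weak (f i)).sub continuous_const).norm) continuous_const

/-- Basic weak neighbourhoods. -/
lemma exists_basic_weak_nhd {U : Set (WeakSpace 𝕜 X)} (hU : IsOpen U) {x : X}
    (hx : toWeakSpace 𝕜 X x ∈ U) :
    ∃ (F : Finset (StrongDual 𝕜 X)) (ε : ℝ), 0 < ε ∧
      ∀ y : X, (∀ f ∈ F, ‖f y - f x‖ < ε) → toWeakSpace 𝕜 X y ∈ U := by
  classical
  have h1 : U ∈ 𝓝 (toWeakSpace 𝕜 X x) := hU.mem_nhds hx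
  have hemb := WeakBilin.isEmbedding (pairing_flip_injective (𝕜 := 𝕜) (X := X))
  have h2 : 𝓝 (toWeakSpace 𝕜 X x) = comap
      (fun (y : WeakSpace 𝕜 X) (f : StrongDual 𝕜 X) => f ((toWeakSpace 𝕜 X).symm y))
      (𝓝 (fun f : StrongDual 𝕜 X => f x)) := hemb.isInducing.nhds_eq_comap _
  rw [h2, mem_comap] at h1
  obtain ⟨t, ht, htU⟩ := h1
  rw [nhds_pi, Filter.mem_pi] at ht
  obtain ⟨I, hI, s, hs, hst⟩ := ht
  have h3 : ∀ f : StrongDual 𝕜 X, ∃ ε : ℝ, 0 < ε ∧ ball (f x) ε ⊆ s f := fun f =>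
    Metric.mem_nhds_iff.1 (hs f)
  choose ε hε hεs using h3
  refine ⟨hI.toFinset, if h : hI.toFinset.Nonempty then hI.toFinset.inf' h ε else 1, ?_, ?_⟩
  · split_ifs with h
    · rw [Finset.lt_inf'_iff]
      exact fun f _ => hε f
    · norm_num
  · intro y hy
    apply htU
    show (fun f : StrongDual 𝕜 X => f y) ∈ t
    apply hst
    intro f hf
    apply hεs
    have hfI : f ∈ hI.toFinset := hI.mem_toFinset.2 hf
    have h4 := hy f hfI
    rw [dif_pos ⟨f, hfI⟩] at h4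
    rw [mem_ball, dist_eq_norm]
    exact h4.trans_le (Finset.inf'_le _ hfI)

/-- Functionals tend to zero along a sequence with uniformly bounded signed sums. -/
lemma tendsto_zero_of_wuc {Y : Type*} [NormedAddCommGroup Y] [NormedSpace ℝ Y] {e : ℕ → Y} {C : ℝ}
    (h : ∀ (F : Finset ℕ) (ε : ℕ → ℝ), (∀ i, |ε i| ≤ 1) → ‖∑ i ∈ F, ε i • e i‖ ≤ C)
    (f : StrongDual ℝ Y) : Tendsto (fun n => f (e n)) atTop (𝓝 0) := by
  have hsum : Summable (fun n => |f (e n)|) := by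
    apply summable_of_sum_le (c := ‖f‖ * C) (fun n => abs_nonneg _)
    intro F
    set ε : ℕ → ℝ := fun i => if 0 ≤ f (e i) then 1 else -1 with hε
    have h1 : ∑ i ∈ F, |f (e i)| = f (∑ i ∈ F, ε i • e i) := by
      rw [map_sum]
      apply Finset.sum_congr rfl
      intro i _
      rw [map_smul, smul_eq_mul, hε]
      by_cases h0 : 0 ≤ f (e i)
      · simp [h0, abs_of_nonneg h0]
      · simp [h0, abs_of_neg (not_le.1 h0)]
    have h2 : ‖∑ i ∈ F, ε i • e i‖ ≤ C := by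
      apply h
      intro i
      rw [hε]
      by_cases h0 : 0 ≤ f (e i) <;> simp [h0]
    rw [h1]
    calc f (∑ i ∈ F, ε i • e i) ≤ |f (∑ i ∈ F, ε i • e i)| := le_abs_self _
      _ ≤ ‖f‖ * ‖∑ i ∈ F, ε i • e i‖ := f.le_opNorm _
      _ ≤ ‖f‖ * C := mul_le_mul_of_nonneg_left h2 (norm_nonneg _)
  exact tendsto_zero_iff_abs_tendsto_zero _ |>.2 hsum.tendsto_atTop_zero

end Pool.Agent.R271
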